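import Pool.Agent.MP_d30e2b_pr.Dir

set_option autoImplicit false

/-! moments of the bilinear form -/

namespace Pool.Agent.SM

open MeasureTheory Set
open scoped ENNReal

variable {n : ℕ} (σ : Equiv.Perm (Fin n))

/-- bilinear form -/
def bf (y : Fin n → ℝ) (v : Mov σ → ℝ) : ℝ := ∑ d : Mov σ, v d * y (σ d.1)

theorem card_Mov : Fintype.card (Mov σ) = σ.support.card := by
  rw [← Fintype.card_coe]
  exact Fintype.card_congr (Equiv.subtypeEquivRight fun i => by simp)

theorem msum {κ : Type*} [Fintype κ] : Measurable fun v : κ → ℝ => ∑ d, v d :=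
  Finset.measurable_sum _ fun i _ => measurable_pi_apply i

theorem lint2_const_mul (c : ℝ≥0∞) {f : ℝ → ℝ → ℝ≥0∞} (hf : Measurable (Function.uncurry f))
    (k m : ℕ) :
    c * ∫⁻ t, ∫⁻ a, f t a ∂(gm k) ∂(gm m) = ∫⁻ t, ∫⁻ a, c * f t a ∂(gm k) ∂(gm m) := by
  have h : Measurable fun t => ∫⁻ a, f t a ∂(gm k) := hf.lintegral_prod_right'
  rw [← lintegral_const_mul _ h]
  refine lintegral_congr fun t => ?_
  exact (lintegral_const_mul _ (hf.comp measurable_prodMk_left)).symm

theorem bil0 {w : ℝ → ℝ → ℝ≥0∞} (hw : Measurable (Function.uncurry w)) :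
    ∫⁻ y, ∫⁻ v, w (∑ j, y j) (∑ d, v d) ∂(orth (Mov σ)) ∂(orth (Fin n))
      = ∫⁻ t, ∫⁻ a, w t a ∂(gm σ.support.card) ∂(gm n) := by
  have h1 : ∀ y : Fin n → ℝ, ∫⁻ v, w (∑ j, y j) (∑ d, v d) ∂(orth (Mov σ))
      = ∫⁻ a, w (∑ j, y j) a ∂(gm σ.support.card) := by
    intro y
    rw [orth_sum (Mov σ) (f := fun a => w (∑ j, y j) a) (hw.comp measurable_prodMk_left), card_Mov]
  simp_rw [h1]
  rw [orth_sum (Fin n) (f := fun t => ∫⁻ a, w t a ∂(gm σ.support.card)) hw.lintegral_prod_right',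
    Fintype.card_fin]

/-- product monomials -/
theorem bil_term {w : ℝ → ℝ → ℝ≥0∞} (hw : Measurable (Function.uncurry w))
    (A : (Fin n → ℝ) → ℝ≥0∞) (B : (Mov σ → ℝ) → ℝ≥0∞) (hB : Measurable B)
    (α β : ℝ → ℝ≥0∞) (hβ : Measurable β)
    (h1 : ∀ f : ℝ → ℝ≥0∞, Measurable f → ∫⁻ y, f (∑ i, y i) * A y ∂(orth (Fin n))
      = ∫⁻ t, f t * α t ∂(gm n))
    (h2 : ∀ f : ℝ → ℝ≥0∞, Measurable f → ∫⁻ v, f (∑ i, v i) * B v ∂(orth (Mov σ))
      = ∫⁻ t, f t * β t ∂(gm σ.support.card)) :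
    ∫⁻ y, ∫⁻ v, w (∑ j, y j) (∑ d, v d) * (A y * B v) ∂(orth (Mov σ)) ∂(orth (Fin n))
      = ∫⁻ t, ∫⁻ a, w t a * (α t * β a) ∂(gm σ.support.card) ∂(gm n) := by
  have h3 : ∀ y : Fin n → ℝ, ∫⁻ v, w (∑ j, y j) (∑ d, v d) * (A y * B v) ∂(orth (Mov σ))
      = (∫⁻ a, w (∑ j, y j) a * β a ∂(gm σ.support.card)) * A y := by
    intro y
    have e : ∀ v : Mov σ → ℝ, w (∑ j, y j) (∑ d, v d) * (A y * B v)
        = (w (∑ j, y j) (∑ d, v d) * B v) * A y := by intro v; ring
    simp_rw [e]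
    have hwm : Measurable fun v : Mov σ → ℝ => w (∑ j, y j) (∑ d, v d) * B v :=
      ((hw.comp measurable_prodMk_left).comp msum).mul hB
    rw [lintegral_mul_const _ hwm, h2 (fun a => w (∑ j, y j) a)
      (hw.comp measurable_prodMk_left)]
  simp_rw [h3]
  have hm : Measurable fun t => ∫⁻ a, w t a * β a ∂(gm σ.support.card) :=
    Measurable.lintegral_prod_right' (f := fun p : ℝ × ℝ => w p.1 p.2 * β p.2)
      (Measurable.mul hw (hβ.comp measurable_snd))
  rw [h1 (fun t => ∫⁻ a, w t a * β a ∂(gm σ.support.card)) hm]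
  refine lintegral_congr fun t => ?_
  rw [← lintegral_mul_const]
  · refine lintegral_congr fun a => ?_
    ring
  · exact (hw.comp measurable_prodMk_left).mul hβ

theorem bil1 (hσ : 1 ≤ σ.support.card) {w : ℝ → ℝ → ℝ≥0∞} (hw : Measurable (Function.uncurry w)) :
    ∫⁻ y, ∫⁻ v, w (∑ j, y j) (∑ d, v d) * ENNReal.ofReal (bf σ y v)
        ∂(orth (Mov σ)) ∂(orth (Fin n))
      = ∫⁻ t, ∫⁻ a, w t a * ENNReal.ofReal (t * a / n) ∂(gm σ.support.card) ∂(gm n) := by
  set k := σ.support.card with hk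
  have hkM := card_Mov σ
  rw [← hk] at hkM
  have hn : 1 ≤ n := by
    have := Finset.card_le_univ σ.support
    rw [Fintype.card_fin] at this
    omega
  have hwm : Measurable fun p : (Fin n → ℝ) × (Mov σ → ℝ) => w (∑ j, p.1 j) (∑ d, p.2 d) :=
    hw.comp ((msum.comp measurable_fst).prodMk (msum.comp measurable_snd))
  have e1 : ∫⁻ y, ∫⁻ v, w (∑ j, y j) (∑ d, v d) * ENNReal.ofReal (bf σ y v)
        ∂(orth (Mov σ)) ∂(orth (Fin n))
      = ∫⁻ y, ∑ d : Mov σ, ∫⁻ v, w (∑ j, y j) (∑ d, v d) *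
        (ENNReal.ofReal (y (σ d.1)) * ENNReal.ofReal (v d))
        ∂(orth (Mov σ)) ∂(orth (Fin n)) := by
    refine lintegral_congr_ae ?_
    filter_upwards [ae_orth (Fin n)] with y hy
    rw [← lintegral_finsetSum]
    · refine lintegral_congr_ae ?_
      filter_upwards [ae_orth (Mov σ)] with v hv
      rw [← Finset.mul_sum]
      congr 1
      unfold bf
      rw [ENNReal.ofReal_sum_of_nonneg]
      · refine Finset.sum_congr rfl fun d _ => ?_
        rw [ENNReal.ofReal_mul (hv d).le, mul_comm]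
      · intro d _
        have := hv d
        have := hy (σ d.1)
        positivity
    · intro d _
      exact (hwm.comp measurable_prodMk_left).mul (by fun_prop)
  rw [e1, lintegral_finsetSum]
  · have hterm : ∀ d : Mov σ, ∫⁻ y, ∫⁻ v, w (∑ j, y j) (∑ d, v d) *
        (ENNReal.ofReal (y (σ d.1)) * ENNReal.ofReal (v d))
        ∂(orth (Mov σ)) ∂(orth (Fin n))
        = ∫⁻ t, ∫⁻ a, w t a * (ENNReal.ofReal (t / n) * ENNReal.ofReal (a / k))
          ∂(gm k) ∂(gm n) := by
      intro d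
      refine bil_term σ hw (fun y => ENNReal.ofReal (y (σ d.1))) (fun v => ENNReal.ofReal (v d))
        (by fun_prop) (fun t => ENNReal.ofReal (t / n))
        (fun a => ENNReal.ofReal (a / k)) (by fun_prop) ?_ ?_
      · intro f hf
        have := orth_mom1 (ι := Fin n) (σ d.1) hf
        rw [Fintype.card_fin] at this
        exact this
      · intro f hf
        classical
        have := orth_mom1 (ι := Mov σ) d hf
        rw [hkM] at this
        exact this
    simp_rw [hterm]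
    rw [Finset.sum_const, Finset.card_univ, hkM, nsmul_eq_mul]
    have hm1 : Measurable fun p : ℝ × ℝ => w p.1 p.2 * (ENNReal.ofReal (p.1 / n) *
        ENNReal.ofReal (p.2 / k)) := Measurable.mul hw (by fun_prop)
    rw [lint2_const_mul _ (f := fun t a => w t a * (ENNReal.ofReal (t / n) *
        ENNReal.ofReal (a / k))) hm1]
    refine lintegral_congr_ae ?_
    filter_upwards [gm_pos n] with t ht
    refine lintegral_congr_ae ?_
    filter_upwards [gm_pos k] with a ha
    rw [mul_left_comm]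
    congr 1
    rw [← ENNReal.ofReal_natCast, ← ENNReal.ofReal_mul (by positivity),
      ← ENNReal.ofReal_mul (by positivity)]
    congr 1
    have hk0 : (k : ℝ) ≠ 0 := by
      have : 0 < k := by omega
      positivity
    field_simp
  · intro d _
    have hm2 : Measurable fun p : (Fin n → ℝ) × (Mov σ → ℝ) =>
        w (∑ j, p.1 j) (∑ d, p.2 d) * (ENNReal.ofReal (p.1 (σ d.1)) * ENNReal.ofReal (p.2 d)) :=
      hwm.mul (by fun_prop)
    exact hm2.lintegral_prod_right'

theorem bil2 (hσ : 1 ≤ σ.support.card) {w : ℝ → ℝ → ℝ≥0∞} (hw : Measurable (Function.uncurry w)) :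
    ∫⁻ y, ∫⁻ v, w (∑ j, y j) (∑ d, v d) * ENNReal.ofReal (bf σ y v ^ 2)
        ∂(orth (Mov σ)) ∂(orth (Fin n))
      = ∫⁻ t, ∫⁻ a, w t a * ENNReal.ofReal (t ^ 2 * a ^ 2 * (σ.support.card + 3) /
        ((σ.support.card + 1) * (n * (n + 1)))) ∂(gm σ.support.card) ∂(gm n) := by
  set k := σ.support.card with hk
  have hkM := card_Mov σ
  rw [← hk] at hkM
  have hn : 1 ≤ n := by
    have := Finset.card_le_univ σ.support
    rw [Fintype.card_fin] at this
    omega
  have hwm : Measurable fun p : (Fin n → ℝ) × (Mov σ → ℝ) => w (∑ j, p.1 j) (∑ d, p.2 d) :=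
    hw.comp ((msum.comp measurable_fst).prodMk (msum.comp measurable_snd))
  have e1 : ∫⁻ y, ∫⁻ v, w (∑ j, y j) (∑ d, v d) * ENNReal.ofReal (bf σ y v ^ 2)
        ∂(orth (Mov σ)) ∂(orth (Fin n))
      = ∫⁻ y, ∑ p : Mov σ × Mov σ, ∫⁻ v, w (∑ j, y j) (∑ d, v d) *
        ((ENNReal.ofReal (y (σ p.1.1)) * ENNReal.ofReal (y (σ p.2.1))) *
          (ENNReal.ofReal (v p.1) * ENNReal.ofReal (v p.2)))
        ∂(orth (Mov σ)) ∂(orth (Fin n)) := by
    refine lintegral_congr_ae ?_
    filter_upwards [ae_orth (Fin n)] with y hy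
    rw [← lintegral_finsetSum]
    · refine lintegral_congr_ae ?_
      filter_upwards [ae_orth (Mov σ)] with v hv
      rw [← Finset.mul_sum]
      congr 1
      unfold bf
      rw [sq, Finset.sum_mul_sum, ← Fintype.sum_prod_type', ENNReal.ofReal_sum_of_nonneg]
      · refine Finset.sum_congr rfl fun p _ => ?_
        have h1 := (hv p.1).le
        have h2 := (hv p.2).le
        have h3 := (hy (σ p.1.1)).le
        have h4 := (hy (σ p.2.1)).le
        rw [ENNReal.ofReal_mul (by positivity), ENNReal.ofReal_mul (by positivity),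
          ENNReal.ofReal_mul (by positivity)]
        ring
      · intro p _
        have h1 := (hv p.1).le
        have h2 := (hv p.2).le
        have h3 := (hy (σ p.1.1)).le
        have h4 := (hy (σ p.2.1)).le
        positivity
    · intro d _
      exact (hwm.comp measurable_prodMk_left).mul (by fun_prop)
  have hm2 : ∀ p : Mov σ × Mov σ, Measurable fun q : (Fin n → ℝ) × (Mov σ → ℝ) =>
        w (∑ j, q.1 j) (∑ d, q.2 d) * ((ENNReal.ofReal (q.1 (σ p.1.1)) *
          ENNReal.ofReal (q.1 (σ p.2.1))) * (ENNReal.ofReal (q.2 p.1) * ENNReal.ofReal (q.2 p.2))) :=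
      fun p => hwm.mul (by fun_prop)
  rw [e1, lintegral_finsetSum _ fun p _ => (hm2 p).lintegral_prod_right']
  classical
  have hterm : ∀ p : Mov σ × Mov σ, ∫⁻ y, ∫⁻ v, w (∑ j, y j) (∑ d, v d) *
        ((ENNReal.ofReal (y (σ p.1.1)) * ENNReal.ofReal (y (σ p.2.1))) *
          (ENNReal.ofReal (v p.1) * ENNReal.ofReal (v p.2)))
        ∂(orth (Mov σ)) ∂(orth (Fin n))
        = ENNReal.ofReal (if p.1 = p.2 then 4 else 1) *
        ∫⁻ t, ∫⁻ a, w t a * ENNReal.ofReal (t ^ 2 / (n * (n + 1)) * (a ^ 2 / (k * (k + 1))))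
          ∂(gm k) ∂(gm n) := by
    intro p
    have := bil_term σ hw (fun y => ENNReal.ofReal (y (σ p.1.1)) * ENNReal.ofReal (y (σ p.2.1)))
        (fun v => ENNReal.ofReal (v p.1) * ENNReal.ofReal (v p.2))
        (by fun_prop)
        (fun t => ENNReal.ofReal ((if p.1 = p.2 then 2 else 1) * (t ^ 2 / (n * (n + 1)))))
        (fun a => ENNReal.ofReal ((if p.1 = p.2 then 2 else 1) * (a ^ 2 / (k * (k + 1)))))
        (by fun_prop) ?_ ?_
    · rw [this]
      have hm1 : Measurable fun q : ℝ × ℝ => w q.1 q.2 * ENNReal.ofReal (q.1 ^ 2 / (n * (n + 1)) *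
          (q.2 ^ 2 / (k * (k + 1)))) := Measurable.mul hw (by fun_prop)
      rw [lint2_const_mul _ (f := fun t a => w t a * ENNReal.ofReal (t ^ 2 / (n * (n + 1)) *
          (a ^ 2 / (k * (k + 1))))) hm1]
      refine lintegral_congr fun t => ?_
      refine lintegral_congr fun a => ?_
      rw [mul_left_comm (ENNReal.ofReal (if p.1 = p.2 then 4 else 1))]
      congr 1
      rw [← ENNReal.ofReal_mul (by split_ifs <;> positivity),
        ← ENNReal.ofReal_mul (by split_ifs <;> positivity)]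
      congr 1
      split_ifs <;> ring
    · intro f hf
      have h := orth_mom2 (ι := Fin n) (σ p.1.1) (σ p.2.1) hf
      rw [Fintype.card_fin] at h
      have e : (σ p.1.1 = σ p.2.1) ↔ (p.1 = p.2) := by
        rw [σ.injective.eq_iff]
        exact ⟨fun h => Subtype.ext h, fun h => by rw [h]⟩
      simp only [e] at h
      exact h
    · intro f hf
      have h := orth_mom2 (ι := Mov σ) p.1 p.2 hf
      rw [hkM] at h
      exact h
  simp_rw [hterm]
  rw [← Finset.sum_mul, ← ENNReal.ofReal_sum_of_nonneg (fun p _ => by split_ifs <;> norm_num)]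
  have hcount : ∑ p : Mov σ × Mov σ, (if p.1 = p.2 then (4:ℝ) else 1) = (k : ℝ) * (k + 3) := by
    have e2 : ∀ p : Mov σ × Mov σ, (if p.1 = p.2 then (4:ℝ) else 1)
        = 1 + (if p.1 = p.2 then 3 else 0) := by
      intro p
      split_ifs <;> norm_num
    simp_rw [e2]
    rw [Finset.sum_add_distrib, Fintype.sum_prod_type, Fintype.sum_prod_type]
    simp only [Finset.sum_const, Finset.card_univ, hkM, nsmul_eq_mul, mul_one,
      Finset.sum_ite_eq, Finset.mem_univ, if_true]
    ring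
  rw [hcount]
  have hm1 : Measurable fun q : ℝ × ℝ => w q.1 q.2 * ENNReal.ofReal (q.1 ^ 2 / (n * (n + 1)) *
          (q.2 ^ 2 / (k * (k + 1)))) := Measurable.mul hw (by fun_prop)
  rw [lint2_const_mul _ (f := fun t a => w t a * ENNReal.ofReal (t ^ 2 / (n * (n + 1)) *
          (a ^ 2 / (k * (k + 1))))) hm1]
  refine lintegral_congr fun t => ?_
  refine lintegral_congr fun a => ?_
  rw [mul_left_comm, ← ENNReal.ofReal_mul (by positivity)]
  congr 2
  have hk0 : (k : ℝ) ≠ 0 := by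
    have : 0 < k := by omega
    positivity
  have hn0 : (n : ℝ) ≠ 0 := by positivity
  field_simp

end Pool.Agent.SM
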