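import Mathlib

set_option autoImplicit false

/-! counting permutations by support -/

namespace Pool.Agent.SM

open Equiv

variable {n : ℕ}

theorem card_support_eq (A : Finset (Fin n)) :
    (Finset.univ.filter fun σ : Perm (Fin n) => σ.support = A).card = numDerangements A.card := by
  classical
  have h1 := card_derangements_eq_numDerangements {x // x ∈ A}
  rw [Fintype.card_coe] at h1
  rw [← h1, ← Fintype.card_subtype]
  refine Fintype.card_congr ?_
  refine Equiv.trans ?_ (derangements.subtypeEquiv (fun x => x ∈ A)).symm
  refine Equiv.subtypeEquivRight fun σ => ?_
  rw [Finset.ext_iff]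
  refine forall_congr' fun a => ?_
  rw [Perm.mem_support, Function.mem_fixedPoints, Function.IsFixedPt]
  tauto

theorem card_support_sub (S : Finset (Fin n)) (k : ℕ) :
    (Finset.univ.filter fun σ : Perm (Fin n) => σ.support ⊆ S ∧ σ.support.card = k).card
      = S.card.choose k * numDerangements k := by
  classical
  rw [Finset.card_eq_sum_card_fiberwise (f := fun σ : Perm (Fin n) => σ.support)
    (t := S.powersetCard k)]
  · have h : ∀ A ∈ S.powersetCard k, (Finset.filter (fun σ : Perm (Fin n) => σ.support = A)
        (Finset.univ.filter fun σ : Perm (Fin n) => σ.support ⊆ S ∧ σ.support.card = k)).card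
        = numDerangements k := by
      intro A hA
      rw [Finset.mem_powersetCard] at hA
      rw [← hA.2, ← card_support_eq A]
      congr 1
      ext σ
      simp only [Finset.mem_filter, Finset.mem_univ, true_and]
      constructor
      · exact fun h => h.2
      · rintro rfl
        exact ⟨⟨hA.1, rfl⟩, rfl⟩
    rw [Finset.sum_congr rfl h, Finset.sum_const, Finset.card_powersetCard, smul_eq_mul]
  · intro σ hσ
    simp only [Finset.coe_filter, Finset.mem_univ, true_and] at hσ
    simp only [Finset.mem_coe, Finset.mem_powersetCard]
    exact hσ

theorem card_support (k : ℕ) :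
    (Finset.univ.filter fun σ : Perm (Fin n) => σ.support.card = k).card
      = n.choose k * numDerangements k := by
  have := card_support_sub (Finset.univ : Finset (Fin n)) k
  simpa using this

theorem numDerangements_le (k : ℕ) : numDerangements k ≤ k.factorial := by
  rw [← card_derangements_fin_eq_numDerangements]
  refine (Fintype.card_subtype_le _).trans ?_
  rw [Fintype.card_perm, Fintype.card_fin]

theorem card_support_le (k : ℕ) (hk : k ≤ n) :
    (Finset.univ.filter fun σ : Perm (Fin n) => σ.support.card = k).card * (n - k).factorial
      ≤ n.factorial := by
  rw [card_support]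
  calc n.choose k * numDerangements k * (n - k).factorial
      ≤ n.choose k * k.factorial * (n - k).factorial := by
        gcongr
        exact numDerangements_le k
    _ = n.factorial := Nat.choose_mul_factorial_mul_factorial hk

open Classical in
theorem card_vee_le (k l : ℕ) (hkl : k + l ≤ n) :
    (∑ σA : Perm (Fin n), ∑ σB : Perm (Fin n),
      if σA.Disjoint σB ∧ σA.support.card = k ∧ σB.support.card = l then 1 else 0)
        * (n - k - l).factorial ≤ n.factorial := by
  have h1 : ∀ σA : Perm (Fin n), (∑ σB : Perm (Fin n),
      if σA.Disjoint σB ∧ σA.support.card = k ∧ σB.support.card = l then 1 else 0)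
      ≤ if σA.support.card = k then (n - k).choose l * l.factorial else 0 := by
    intro σA
    split_ifs with h
    · rw [← Finset.card_filter]
      calc (Finset.univ.filter fun σB : Perm (Fin n) =>
            σA.Disjoint σB ∧ σA.support.card = k ∧ σB.support.card = l).card
          ≤ (Finset.univ.filter fun σB : Perm (Fin n) =>
            σB.support ⊆ σA.supportᶜ ∧ σB.support.card = l).card := by
            refine Finset.card_le_card fun σB hσ => ?_
            simp only [Finset.mem_filter, Finset.mem_univ, true_and] at hσ ⊢
            refine ⟨?_, hσ.2.2⟩
            intro i hi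
            rw [Finset.mem_compl, Perm.mem_support, not_not]
            exact (hσ.1 i).resolve_right (by simpa using hi)
        _ = (n - k).choose l * numDerangements l := by
            rw [card_support_sub, Finset.card_compl, Fintype.card_fin, h]
        _ ≤ _ := Nat.mul_le_mul_left _ (numDerangements_le l)
    · refine le_of_eq (Finset.sum_eq_zero fun σB _ => ?_)
      rw [if_neg]
      tauto
  calc _ ≤ (∑ σA : Perm (Fin n), if σA.support.card = k then (n - k).choose l * l.factorial else 0)
        * (n - k - l).factorial := Nat.mul_le_mul_right _ (Finset.sum_le_sum fun σA _ => h1 σA)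
    _ = (Finset.univ.filter fun σ : Perm (Fin n) => σ.support.card = k).card *
        ((n - k).choose l * l.factorial * (n - k - l).factorial) := by
        rw [← Finset.sum_filter, Finset.sum_const, smul_eq_mul]
        ring
    _ = (Finset.univ.filter fun σ : Perm (Fin n) => σ.support.card = k).card *
        (n - k).factorial := by
        rw [Nat.choose_mul_factorial_mul_factorial (by omega)]
    _ ≤ _ := card_support_le k (by omega)

end Pool.Agent.SM
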