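import Pool.Agent.MP_d30e2b_pr.Pair

set_option autoImplicit false

/-! the men's integral -/

namespace Pool.Agent.SM

open MeasureTheory Set
open scoped ENNReal

variable {n : ℕ}

/-- columns left for row `i` -/
def cols (σ : Equiv.Perm (Fin n)) (i : Fin n) : Finset (Fin n) :=
  Finset.univ.filter fun j => j ≠ i ∧ j ≠ σ i

/-- rate for the lower cost -/
def al (σ : Equiv.Perm (Fin n)) (y : Fin n → ℝ) (η : Mov σ → ℝ) (i : Fin n) : ℝ :=
  ∑ j ∈ cols σ i, ys σ y η j

/-- rate for the increment -/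
def be (σ : Equiv.Perm (Fin n)) (cl : Fin n → Bool) (y : Fin n → ℝ) (η : Mov σ → ℝ)
    (i : Fin n) : ℝ :=
  ∑ j ∈ cols σ i, if cl i = cl j then y j else ys σ y η j

theorem sum_rst (σ : Equiv.Perm (Fin n)) (f : Fin n → Fin n → ℝ) :
    ∑ r : Rst σ, f r.1.1 r.1.2 = ∑ i, ∑ j ∈ cols σ i, f i j := by
  classical
  have h1 : ∑ i, ∑ j ∈ cols σ i, f i j
      = ∑ p : Fin n × Fin n, if p.2 ≠ p.1 ∧ p.2 ≠ σ p.1 then f p.1 p.2 else 0 := by
    rw [Fintype.sum_prod_type]
    refine Finset.sum_congr rfl fun i _ => ?_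
    unfold cols
    rw [Finset.sum_filter]
  rw [h1, ← Finset.sum_filter]
  rw [Finset.sum_subtype (Finset.univ.filter fun p : Fin n × Fin n => p.2 ≠ p.1 ∧ p.2 ≠ σ p.1)
    (p := fun p => p.2 ≠ p.1 ∧ p.2 ≠ σ p.1) (by simp)]

theorem row_moved (σ : Equiv.Perm (Fin n)) (cl : Fin n → Bool) (x y : Fin n → ℝ) (ξ η : Mov σ → ℝ)
    {i : Fin n} (hi : σ i ≠ i) :
    ∑ j ∈ cols σ i, ar σ cl x y ξ η i j
      = al σ y η i * ξ ⟨i, hi⟩ + be σ cl y η i * (x i - ξ ⟨i, hi⟩) := by
  unfold al be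
  rw [Finset.sum_mul, Finset.sum_mul, ← Finset.sum_add_distrib]
  refine Finset.sum_congr rfl fun j _ => ?_
  unfold ar xc xs
  rw [dif_pos hi]
  split_ifs <;> ring

theorem row_fixed (σ : Equiv.Perm (Fin n)) (cl : Fin n → Bool) (x y : Fin n → ℝ) (ξ η : Mov σ → ℝ)
    {i : Fin n} (hi : ¬ σ i ≠ i) :
    ∑ j ∈ cols σ i, ar σ cl x y ξ η i j = al σ y η i * x i := by
  unfold al
  rw [Finset.sum_mul]
  refine Finset.sum_congr rfl fun j _ => ?_
  unfold ar xc xs
  rw [dif_neg hi]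
  split_ifs <;> ring

theorem prod_exp_ar (σ : Equiv.Perm (Fin n)) (cl : Fin n → Bool) (x y : Fin n → ℝ)
    (ξ η : Mov σ → ℝ) :
    ∏ r : Rst σ, ENNReal.ofReal (Real.exp (-ar σ cl x y ξ η r.1.1 r.1.2))
      = ∏ i, (if h : σ i ≠ i then
          ENNReal.ofReal (Real.exp (-(al σ y η i * ξ ⟨i, h⟩ + be σ cl y η i * (x i - ξ ⟨i, h⟩))))
          else ENNReal.ofReal (Real.exp (-(al σ y η i * x i)))) := by
  rw [← ENNReal.ofReal_prod_of_nonneg (fun _ _ => by positivity), ← Real.exp_sum,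
    Finset.sum_neg_distrib, sum_rst σ (fun i j => ar σ cl x y ξ η i j),
    ← Finset.sum_neg_distrib, Real.exp_sum, ENNReal.ofReal_prod_of_nonneg (fun _ _ => by positivity)]
  refine Finset.prod_congr rfl fun i _ => ?_
  split_ifs with h
  · rw [row_moved σ cl x y ξ η h]
  · rw [row_fixed σ cl x y ξ η h]

/-- conditions on the women's variables -/
def AdmY (σ : Equiv.Perm (Fin n)) (y : Fin n → ℝ) (η : Mov σ → ℝ) : Prop :=
  (∀ i, y i ∈ Icc (0:ℝ) 1) ∧ (∀ d, η d ∈ Icc (0:ℝ) 1) ∧ (∀ d : Mov σ, y (σ d.1) < η d)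

open Classical in
/-- men's integral with extra factors `E i (x i) (ξ i)` for the moved men -/
theorem men_int (σ : Equiv.Perm (Fin n)) (cl : Fin n → Bool) (y : Fin n → ℝ) (η : Mov σ → ℝ)
    (E : Fin n → ℝ × ℝ → ℝ≥0∞) (hE : ∀ i, Measurable (E i)) (hal : ∀ i, 0 < al σ y η i) :
    ∫⁻ x, ∫⁻ ξ, (if Adm σ x y ξ η then
        (∏ r : Rst σ, ENNReal.ofReal (Real.exp (-ar σ cl x y ξ η r.1.1 r.1.2))) *
          ∏ d : Mov σ, E d.1 (x d.1, ξ d) else 0)
        ∂(Measure.pi fun _ => u1) ∂(Measure.pi fun _ => u1)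
    ≤ (if AdmY σ y η then ∏ i, (if σ i ≠ i then
        ∫⁻ x, ∫⁻ ξ, (if ξ < x then ENNReal.ofReal (Real.exp (-(al σ y η i * ξ +
          be σ cl y η i * (x - ξ)))) * E i (x, ξ) else 0) ∂u1 ∂u1
        else ENNReal.ofReal (1 / al σ y η i)) else 0) := by
  split_ifs with hY
  · calc _ ≤ ∫⁻ x : Fin n → ℝ, ∫⁻ ξ : Mov σ → ℝ, ∏ i, (if h : σ i ≠ i then
          (if ξ ⟨i, h⟩ < x i then ENNReal.ofReal (Real.exp (-(al σ y η i * ξ ⟨i, h⟩ +
          be σ cl y η i * (x i - ξ ⟨i, h⟩)))) * E i (x i, ξ ⟨i, h⟩) else 0)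
          else ENNReal.ofReal (Real.exp (-(al σ y η i * x i))))
          ∂(Measure.pi fun _ => u1) ∂(Measure.pi fun _ => u1) := by
          refine lintegral_mono fun x => lintegral_mono fun ξ => ?_
          split_ifs with h
          · rw [prod_exp_ar]
            have hE' : ∏ d : Mov σ, E d.1 (x d.1, ξ d)
                = ∏ i, (if h : σ i ≠ i then E i (x i, ξ ⟨i, h⟩) else 1) := by
              rw [← Fintype.prod_subtype_mul_prod_subtype (fun i => σ i ≠ i)
                (fun i => if h : σ i ≠ i then E i (x i, ξ ⟨i, h⟩) else 1)]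
              rw [Finset.prod_congr rfl (g := fun _ : {i // ¬ (σ i ≠ i)} => (1:ℝ≥0∞)) (fun i _ => dif_neg i.2)]
              rw [Finset.prod_const_one, mul_one]
              refine Finset.prod_congr rfl fun d _ => ?_
              rw [dif_pos d.2]
            rw [hE', ← Finset.prod_mul_distrib]
            refine le_of_eq (Finset.prod_congr rfl fun i _ => ?_)
            by_cases hi : σ i ≠ i
            · rw [dif_pos hi, dif_pos hi, dif_pos hi, if_pos (h.2.2 ⟨i, hi⟩).1]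
            · rw [dif_neg hi, dif_neg hi, dif_neg hi, mul_one]
          · exact zero_le
      _ = ∏ i, (if σ i ≠ i then
        ∫⁻ x, ∫⁻ ξ, (if ξ < x then ENNReal.ofReal (Real.exp (-(al σ y η i * ξ +
          be σ cl y η i * (x - ξ)))) * E i (x, ξ) else 0) ∂u1 ∂u1
        else ∫⁻ x, ENNReal.ofReal (Real.exp (-(al σ y η i * x))) ∂u1) := by
          refine Eq.trans ?_ (inner_prod σ
            (fun i x => ENNReal.ofReal (Real.exp (-(al σ y η i * x))))
            (fun i p => if p.2 < p.1 then ENNReal.ofReal (Real.exp (-(al σ y η i * p.2 +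
              be σ cl y η i * (p.1 - p.2)))) * E i (p.1, p.2) else 0) ?_ ?_)
          · rfl
          · intro i; fun_prop
          · intro i
            refine Measurable.ite (measurableSet_lt measurable_snd measurable_fst) ?_
              measurable_const
            have := hE i
            fun_prop
      _ ≤ _ := by
          refine Finset.prod_le_prod' fun i _ => ?_
          split_ifs
          · exact le_rfl
          · exact lint_exp_u1 (hal i)
  · have : ∀ (x : Fin n → ℝ) (ξ : Mov σ → ℝ), ¬ Adm σ x y ξ η := by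
      intro x ξ h
      exact hY ⟨fun i => (h.1 i).2, fun d => (h.2.1 d).2, fun d => (h.2.2 d).2⟩
    simp [this]

end Pool.Agent.SM
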