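import Pool.Agent.MP_d30e2b_pr.Rate

set_option autoImplicit false

/-! crude bounds for pairs and triples -/

namespace Pool.Agent.SM

open MeasureTheory Set
open scoped ENNReal

variable {n : ℕ}

/-- total increment of class `c` -/
def VV (σ : Equiv.Perm (Fin n)) (cl : Fin n → Bool) (c : Bool) (v : Mov σ → ℝ) : ℝ :=
  ∑ d : Mov σ, if cl d.1 = c then v d else 0

/-- increments -/
def inc (σ : Equiv.Perm (Fin n)) (y : Fin n → ℝ) (η : Mov σ → ℝ) : Mov σ → ℝ :=
  fun d => η d - y (σ d.1)

theorem tc_true (σ : Equiv.Perm (Fin n)) (cl : Fin n → Bool) (hcl : ∀ i, cl (σ i) = cl i)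
    (y : Fin n → ℝ) (η : Mov σ → ℝ) :
    tc σ cl true y η = ∑ j, y j + VV σ cl false (inc σ y η) := by
  rw [tc_eq σ cl hcl]
  unfold VV inc
  congr 1
  refine Finset.sum_congr rfl fun d _ => ?_
  cases cl d.1 <;> simp

theorem tc_false (σ : Equiv.Perm (Fin n)) (cl : Fin n → Bool) (hcl : ∀ i, cl (σ i) = cl i)
    (y : Fin n → ℝ) (η : Mov σ → ℝ) :
    tc σ cl false y η = ∑ j, y j + VV σ cl true (inc σ y η) := by
  rw [tc_eq σ cl hcl]
  unfold VV inc
  congr 1
  refine Finset.sum_congr rfl fun d _ => ?_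
  cases cl d.1 <;> simp

theorem sum_ys_VV (σ : Equiv.Perm (Fin n)) (cl : Fin n → Bool)
    (y : Fin n → ℝ) (η : Mov σ → ℝ) :
    ∑ j, ys σ y η j = ∑ j, y j + VV σ cl true (inc σ y η) + VV σ cl false (inc σ y η) := by
  rw [sum_ys_eq, add_assoc]
  unfold VV inc
  rw [← Finset.sum_add_distrib]
  congr 1
  refine Finset.sum_congr rfl fun d _ => ?_
  cases cl d.1 <;> simp

theorem AdmY.VV_nonneg {σ : Equiv.Perm (Fin n)} {y : Fin n → ℝ} {η : Mov σ → ℝ}
    (h : AdmY σ y η) (cl : Fin n → Bool) (c : Bool) : 0 ≤ VV σ cl c (inc σ y η) := by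
  unfold VV inc
  refine Finset.sum_nonneg fun d _ => ?_
  have := h.2.2 d
  split_ifs <;> linarith

theorem moved_split (σ : Equiv.Perm (Fin n)) (cl : Fin n → Bool) (f g : Fin n → ℝ≥0∞) :
    ∏ i, (if σ i ≠ i then f i * g i else f i)
      = (∏ i, f i) * ((∏ i ∈ mc σ cl true, g i) * ∏ i ∈ mc σ cl false, g i) := by
  have h1 : ∏ i, (if σ i ≠ i then f i * g i else f i) = ∏ i, (f i * (if σ i ≠ i then g i else 1)) := by
    refine Finset.prod_congr rfl fun i _ => ?_
    split_ifs <;> simp
  rw [h1, Finset.prod_mul_distrib]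
  congr 1
  unfold mc
  rw [Finset.prod_filter, Finset.prod_filter, ← Finset.prod_mul_distrib]
  refine Finset.prod_congr rfl fun i _ => ?_
  by_cases h : σ i ≠ i
  · cases hc : cl i <;> simp [h]
  · simp [h]

/-- the crude weight -/
noncomputable def wt (n k l : ℕ) (t a b : ℝ) : ℝ :=
  (1 / (t + a + b)) ^ n * ((1 / (t + b)) ^ k * (1 / (t + a)) ^ l)

theorem men_crude {σ : Equiv.Perm (Fin n)} {cl : Fin n → Bool} (hcl : ∀ i, cl (σ i) = cl i)
    {y : Fin n → ℝ} {η : Mov σ → ℝ} (h : AdmY σ y η)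
    (h1 : 4 ≤ tc σ cl true y η) (h2 : 4 ≤ tc σ cl false y η ∨ mc σ cl false = ∅) :
    ∏ i, (if σ i ≠ i then ENNReal.ofReal (1 / al σ y η i) * ENNReal.ofReal (1 / be σ cl y η i)
        else ENNReal.ofReal (1 / al σ y η i))
    ≤ ENNReal.ofReal (Real.exp 9 * wt n (mc σ cl true).card (mc σ cl false).card
        (∑ j, y j) (VV σ cl true (inc σ y η)) (VV σ cl false (inc σ y η))) := by
  have hT : 4 ≤ ∑ j, ys σ y η j := h1.trans (h.tc_le true)
  rw [moved_split σ cl]
  have a1 : ∏ i, ENNReal.ofReal (1 / al σ y η i)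
      ≤ ENNReal.ofReal ((1 / ∑ j, ys σ y η j) ^ n * Real.exp 3) := by
    rw [← ENNReal.ofReal_prod_of_nonneg (fun i _ => (one_div_pos.mpr (h.al_pos hT i)).le)]
    refine ENNReal.ofReal_le_ofReal ((h.al_prod hT).trans ?_)
    refine mul_le_mul_of_nonneg_left (Real.exp_le_exp.mpr ?_) (by positivity)
    have : 4 / ∑ j, ys σ y η j ≤ 1 := by
      rw [div_le_one (by linarith)]
      exact hT
    linarith
  have a2 : ∀ c, (4 ≤ tc σ cl c y η ∨ mc σ cl c = ∅) →
      ∏ i ∈ mc σ cl c, ENNReal.ofReal (1 / be σ cl y η i)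
      ≤ ENNReal.ofReal ((1 / tc σ cl c y η) ^ (mc σ cl c).card * Real.exp 3) := by
    intro c hc
    rcases hc with hc | hc
    · rw [← ENNReal.ofReal_prod_of_nonneg]
      · refine ENNReal.ofReal_le_ofReal ((h.be_prod hcl c hc).trans ?_)
        have h0 : 0 < tc σ cl c y η := by linarith
        refine mul_le_mul_of_nonneg_left (Real.exp_le_exp.mpr ?_) (by positivity)
        have : 4 / tc σ cl c y η ≤ 1 := by
          rw [div_le_one h0]
          exact hc
        linarith
      · intro i hi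
        simp only [mc, Finset.mem_filter, Finset.mem_univ, true_and] at hi
        refine (one_div_pos.mpr (h.be_pos hcl hi.1 ?_)).le
        rw [hi.2]
        exact hc
    · rw [hc]
      simp
  refine (mul_le_mul' a1 (mul_le_mul' (a2 true (Or.inl h1)) (a2 false h2))).trans (le_of_eq ?_)
  have p0 : 0 < ∑ j, ys σ y η j := by linarith
  have p1 : 0 < tc σ cl true y η := by linarith
  have p2 : 0 ≤ tc σ cl false y η := by
    refine le_trans ?_ (h.sum_le_tc (cl := cl) false)
    exact Finset.sum_nonneg fun i _ => (h.1 i).1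
  rw [← ENNReal.ofReal_mul (by positivity), ← ENNReal.ofReal_mul (by positivity)]
  congr 1
  unfold wt
  rw [← sum_ys_VV, ← tc_true σ cl hcl, ← tc_false σ cl hcl]
  have : Real.exp 9 = Real.exp 3 * Real.exp 3 * Real.exp 3 := by
    rw [← Real.exp_add, ← Real.exp_add]
    norm_num
  rw [this]
  ring

theorem cla_inv {σ σA σB : Equiv.Perm (Fin n)} (hσ : σ = σA * σB) (hd : σA.Disjoint σB)
    (i : Fin n) : cla σA (σ i) = cla σA i := by
  subst hσ
  unfold cla
  by_cases h : σA i ≠ i
  · rw [disj_A hd h]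
    have : σA (σA i) ≠ σA i := fun h' => h (σA.injective h')
    simp [h, this]
  · simp only [ne_eq, not_not] at h
    by_cases h2 : σB i ≠ i
    · rw [disj_B hd h2]
      have h3 : σB (σB i) ≠ σB i := fun h' => h2 (σB.injective h')
      have h4 : σA (σB i) = σB i := (hd (σB i)).resolve_right h3
      simp [h, h4]
    · simp only [ne_eq, not_not] at h2
      simp [h, h2]

theorem mc_false_one {σ σA σB : Equiv.Perm (Fin n)} (hσ : σ = σA * σB) (h : σB = 1) :
    mc σ (cla σA) false = ∅ := by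
  subst hσ h
  unfold mc cla
  ext i
  simp

theorem wt_nonneg (n k l : ℕ) {t a b : ℝ} (ht : 0 ≤ t) (ha : 0 ≤ a) (hb : 0 ≤ b) :
    0 ≤ wt n k l t a b := by
  unfold wt
  positivity

open Classical in
/-- men's integral for plain weights -/
theorem men_plain {σ : Equiv.Perm (Fin n)} {cl : Fin n → Bool} (hcl : ∀ i, cl (σ i) = cl i)
    {y : Fin n → ℝ} {η : Mov σ → ℝ} (h : AdmY σ y η)
    (h1 : 4 ≤ tc σ cl true y η) (h2 : 4 ≤ tc σ cl false y η ∨ mc σ cl false = ∅) :
    ∫⁻ x, ∫⁻ ξ, (if Adm σ x y ξ η then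
        (∏ r : Rst σ, ENNReal.ofReal (1 - ar σ cl x y ξ η r.1.1 r.1.2)) else 0)
        ∂(Measure.pi fun _ => u1) ∂(Measure.pi fun _ => u1)
    ≤ ENNReal.ofReal (Real.exp 9 * wt n (mc σ cl true).card (mc σ cl false).card
        (∑ j, y j) (VV σ cl true (inc σ y η)) (VV σ cl false (inc σ y η))) := by
  have hT : 4 ≤ ∑ j, ys σ y η j := h1.trans (h.tc_le true)
  refine le_trans ?_ (men_crude hcl h h1 h2)
  calc _ ≤ ∫⁻ x, ∫⁻ ξ, (if Adm σ x y ξ η then
        (∏ r : Rst σ, ENNReal.ofReal (Real.exp (-ar σ cl x y ξ η r.1.1 r.1.2))) *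
          ∏ d : Mov σ, (fun _ _ => 1 : Fin n → ℝ × ℝ → ℝ≥0∞) d.1 (x d.1, ξ d) else 0)
        ∂(Measure.pi fun _ => u1) ∂(Measure.pi fun _ => u1) := by
        refine lintegral_mono fun x => lintegral_mono fun ξ => ?_
        split_ifs
        · rw [Finset.prod_const_one, mul_one]
          refine Finset.prod_le_prod' fun r _ => ENNReal.ofReal_le_ofReal ?_
          have := Real.add_one_le_exp (-ar σ cl x y ξ η r.1.1 r.1.2)
          linarith
        · exact le_rfl
    _ ≤ _ := men_int σ cl y η (fun _ _ => 1) (fun _ => measurable_const) (h.al_pos hT)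
    _ ≤ _ := by
        rw [if_pos h]
        refine Finset.prod_le_prod' fun i _ => ?_
        split_ifs with hi
        · have hb : 0 < be σ cl y η i := by
            refine h.be_pos hcl hi ?_
            cases hc : cl i
            · rcases h2 with h2 | h2
              · exact h2
              · exfalso
                have : i ∈ mc σ cl false := by simp [mc, hi, hc]
                rw [h2] at this
                simp at this
            · exact h1
          simp only [mul_one]
          exact two_exp (h.al_pos hT i) hb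
        · exact le_rfl

open Classical in
theorem crude_triple {σ σA σB : Equiv.Perm (Fin n)} (hσ : σ = σA * σB) (hd : σA.Disjoint σB)
    (g : ℝ → ℝ → ℝ → ℝ≥0∞) (hg : Measurable fun p : ℝ × ℝ × ℝ => g p.1 p.2.1 p.2.2)
    (hfin : ∀ t a b, g t a b ≠ ∞)
    (hsupp : ∀ t a b, 0 ≤ t → 0 ≤ a → 0 ≤ b → g t a b ≠ 0 → 4 ≤ t + b ∧ (4 ≤ t + a ∨ σB = 1)) :
    ∫⁻ z, (if Stab z 1 ∧ Low z 1 σA ∧ Low z 1 σB then
        g (∑ j, zy z j) (VV σ (cla σA) true (inc σ (zy z) (zη σ z)))
          (VV σ (cla σA) false (inc σ (zy z) (zη σ z))) else 0) ∂(P n)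
    ≤ ENNReal.ofReal (Real.exp 9) * ∫⁻ y, ∫⁻ v, g (∑ j, y j) (VV σ (cla σA) true v)
        (VV σ (cla σA) false v) * ENNReal.ofReal (wt n (mc σ (cla σA) true).card
          (mc σ (cla σA) false).card (∑ j, y j) (VV σ (cla σA) true v) (VV σ (cla σA) false v))
          ∂(orth (Mov σ)) ∂(orth (Fin n)) := by
  have hcl := cla_inv hσ hd
  have hVm : ∀ c, Measurable fun q : (Fin n → ℝ × ℝ) × (Mov σ → ℝ × ℝ) =>
      VV σ (cla σA) c (inc σ (fun i => (q.1 i).2) (fun d => (q.2 d).2)) := by
    intro c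
    unfold VV inc
    refine Finset.measurable_sum _ fun d _ => ?_
    split_ifs <;> fun_prop
  have h0m : Measurable fun q : (Fin n → ℝ × ℝ) × (Mov σ → ℝ × ℝ) => ∑ j, (q.1 j).2 :=
    Finset.measurable_sum _ fun j _ => by fun_prop
  refine (triple_bound hσ hd (fun x y ξ η => g (∑ j, y j) (VV σ (cla σA) true (inc σ y η))
          (VV σ (cla σA) false (inc σ y η))) ?_).trans ?_
  · exact hg.comp (h0m.prodMk ((hVm true).prodMk (hVm false)))
  · have key : ∀ (y : Fin n → ℝ) (η : Mov σ → ℝ),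
        ∫⁻ x, ∫⁻ ξ, (if Adm σ x y ξ η then g (∑ j, y j) (VV σ (cla σA) true (inc σ y η))
          (VV σ (cla σA) false (inc σ y η)) *
          ∏ r : Rst σ, ENNReal.ofReal (1 - ar σ (cla σA) x y ξ η r.1.1 r.1.2) else 0)
          ∂(Measure.pi fun _ => u1) ∂(Measure.pi fun _ => u1)
        ≤ (if AdmY σ y η then (fun (y : Fin n → ℝ) (v : Mov σ → ℝ) =>
          g (∑ j, y j) (VV σ (cla σA) true v)
          (VV σ (cla σA) false v) * ENNReal.ofReal (Real.exp 9 * wt n (mc σ (cla σA) true).card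
          (mc σ (cla σA) false).card (∑ j, y j) (VV σ (cla σA) true v) (VV σ (cla σA) false v)))
            y (fun d => η d - y (σ d.1)) else 0) := by
      intro y η
      by_cases hY : AdmY σ y η
      · rw [if_pos hY]
        set G := g (∑ j, y j) (VV σ (cla σA) true (inc σ y η))
          (VV σ (cla σA) false (inc σ y η)) with hG
        by_cases hG0 : G = 0
        · simp [hG0]
        · have ht : 0 ≤ ∑ j, y j := Finset.sum_nonneg fun i _ => (hY.1 i).1
          obtain ⟨h3, h4⟩ := hsupp _ _ _ ht (hY.VV_nonneg (cla σA) true)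
            (hY.VV_nonneg (cla σA) false) hG0
          rw [← tc_true σ (cla σA) hcl] at h3
          rw [← tc_false σ (cla σA) hcl] at h4
          have h4' : 4 ≤ tc σ (cla σA) false y η ∨ mc σ (cla σA) false = ∅ := by
            rcases h4 with h4 | h4
            · exact Or.inl h4
            · exact Or.inr (mc_false_one hσ h4)
          have e1 : ∀ (x : Fin n → ℝ) (ξ : Mov σ → ℝ), (if Adm σ x y ξ η then G *
              ∏ r : Rst σ, ENNReal.ofReal (1 - ar σ (cla σA) x y ξ η r.1.1 r.1.2) else 0)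
              = G * (if Adm σ x y ξ η then
              ∏ r : Rst σ, ENNReal.ofReal (1 - ar σ (cla σA) x y ξ η r.1.1 r.1.2) else 0) := by
            intro x ξ
            split_ifs <;> simp
          simp_rw [e1]
          have hfG : G ≠ ∞ := hfin _ _ _
          simp_rw [lintegral_const_mul' G _ hfG]
          exact mul_le_mul_right (men_plain hcl hY h3 h4') G
      · have : ∀ (x : Fin n → ℝ) (ξ : Mov σ → ℝ), ¬ Adm σ x y ξ η := by
          intro x ξ h
          exact hY ⟨fun i => (h.1 i).2, fun d => (h.2.1 d).2, fun d => (h.2.2 d).2⟩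
        simp [this]
    refine (lintegral_mono fun y => lintegral_mono fun η => key y η).trans ?_
    refine (change_var σ (fun (y : Fin n → ℝ) (v : Mov σ → ℝ) =>
          g (∑ j, y j) (VV σ (cla σA) true v)
          (VV σ (cla σA) false v) * ENNReal.ofReal (Real.exp 9 * wt n (mc σ (cla σA) true).card
          (mc σ (cla σA) false).card (∑ j, y j) (VV σ (cla σA) true v)
          (VV σ (cla σA) false v)))).trans (le_of_eq ?_)
    have e2 : ∀ (y : Fin n → ℝ) (v : Mov σ → ℝ), g (∑ j, y j) (VV σ (cla σA) true v)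
          (VV σ (cla σA) false v) * ENNReal.ofReal (Real.exp 9 * wt n (mc σ (cla σA) true).card
          (mc σ (cla σA) false).card (∑ j, y j) (VV σ (cla σA) true v) (VV σ (cla σA) false v))
        = ENNReal.ofReal (Real.exp 9) * (g (∑ j, y j) (VV σ (cla σA) true v)
          (VV σ (cla σA) false v) * ENNReal.ofReal (wt n (mc σ (cla σA) true).card
          (mc σ (cla σA) false).card (∑ j, y j) (VV σ (cla σA) true v) (VV σ (cla σA) false v))) := by
      intro y v
      rw [ENNReal.ofReal_mul (by positivity)]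
      ring
    simp_rw [e2]
    simp_rw [lintegral_const_mul' (ENNReal.ofReal (Real.exp 9)) _ ENNReal.ofReal_ne_top]

end Pool.Agent.SM
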