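import Pool.Agent.MP_d30e2b_pr.Defs

set_option autoImplicit false

/-! definitions for the truncated second moment -/

namespace Pool.Agent.SM

open MeasureTheory

variable {n : ℕ}

/-- total cost of the women in `μ` -/
def tt (z : Conf n) (μ : Equiv.Perm (Fin n)) : ℝ := ∑ i, wy z μ i

/-- `t` lies in the window -/
def Win (τ₁ τ₂ t : ℝ) : Prop := τ₁ ≤ t ∧ t ≤ τ₂

/-- nice cost vectors: `x` men, `y` women -/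
def NiceXY (C τ₁ τ₂ : ℝ) (x y : Fin n → ℝ) : Prop :=
  Win τ₁ τ₂ (∑ i, y i) ∧ (n : ℝ) / (2 * ∑ i, y i) ≤ ∑ i, x i ∧
  ∑ i, x i ^ 2 ≤ C * n / (∑ i, y i) ^ 2 ∧ ∑ i, x i ^ 3 ≤ C * n / (∑ i, y i) ^ 3 ∧
  ∑ i, y i ^ 2 ≤ C * (∑ i, y i) ^ 2 / n ∧ ∑ i, y i ^ 3 ≤ C * (∑ i, y i) ^ 3 / (n : ℝ) ^ 2

/-- nice matchings -/
def Nice (C τ₁ τ₂ : ℝ) (z : Conf n) (μ : Equiv.Perm (Fin n)) : Prop :=
  NiceXY C τ₁ τ₂ (mx z μ) (wy z μ)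

/-- weight -/
noncomputable def gw (z : Conf n) (μ : Equiv.Perm (Fin n)) : ENNReal :=
  ENNReal.ofReal (Real.exp ((∑ i, mx z μ i ^ 2) * (∑ i, wy z μ i ^ 2) / 2))

open Classical in
/-- number of stable matchings below `μ` at distance in `[L, 2 L)` -/
noncomputable def DD (z : Conf n) (μ : Equiv.Perm (Fin n)) (L : ℕ) : ℕ :=
  (Finset.univ.filter fun τ : Equiv.Perm (Fin n) =>
    Low z μ τ ∧ L ≤ τ.support.card ∧ τ.support.card < 2 * L).card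

/-- `μ'` is not comparable with `μ` -/
def Inc (z : Conf n) (μ μ' : Equiv.Perm (Fin n)) : Prop :=
  (¬ ∃ σ, Low z μ σ ∧ μ' = μ * σ) ∧ ¬ ∃ σ, Low z μ' σ ∧ μ = μ' * σ

noncomputable def t1 (n : ℕ) : ℝ := (n : ℝ) ^ (1 / 2 : ℝ)
noncomputable def t2 (n : ℕ) : ℝ := (n : ℝ) ^ (3 / 5 : ℝ)
noncomputable def lam (n : ℕ) : ℝ := Real.log (t2 n / t1 n)

/-- the truncation condition -/
def Trunc (a₀ : ℕ) (δ η : ℝ) (z : Conf n) (μ : Equiv.Perm (Fin n)) : Prop :=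
  ∀ a : ℕ, a₀ ≤ a → ((2 : ℝ) ^ a ≤ (n : ℝ) ^ (1 / 2 - δ)) → (DD z μ (2 ^ a) : ℝ) ≤ η * 2 ^ a

end Pool.Agent.SM
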