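import Pool.Agent.MP_d30e2b_pr.Gm
import Pool.Agent.MP_d30e2b_pr.Defs2

set_option autoImplicit false

/-! crude bounds in terms of `gm` -/

namespace Pool.Agent.SM

open MeasureTheory Set
open scoped ENNReal

variable {n : ℕ}

theorem orth_split_pred {κ : Type*} [Fintype κ] (p : κ → Prop) [DecidablePred p]
    (F : ℝ → ℝ → ℝ≥0∞) (hF : Measurable (Function.uncurry F)) :
    ∫⁻ v, F (∑ d : {d // p d}, v d) (∑ d : {d // ¬ p d}, v d) ∂(orth κ)
      = ∫⁻ a, ∫⁻ b, F a b ∂(gm (Fintype.card {d // ¬ p d})) ∂(gm (Fintype.card {d // p d})) := by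
  have hmp := measurePreserving_piEquivPiSubtypeProd (fun _ : κ => volume.restrict (Ioi (0:ℝ))) p
  have h1 : ∫⁻ v, F (∑ d : {d // p d}, v d) (∑ d : {d // ¬ p d}, v d) ∂(orth κ)
      = ∫⁻ w : ({d // p d} → ℝ) × ({d // ¬ p d} → ℝ), F (∑ d, w.1 d) (∑ d, w.2 d)
          ∂((orth {d // p d}).prod (orth {d // ¬ p d})) := by
    unfold orth
    rw [← hmp.lintegral_comp_emb (MeasurableEquiv.measurableEmbedding _)]
    rfl
  have hm : Measurable fun w : ({d // p d} → ℝ) × ({d // ¬ p d} → ℝ) =>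
      F (∑ d, w.1 d) (∑ d, w.2 d) := by
    refine hF.comp (Measurable.prodMk ?_ ?_)
    · exact Finset.measurable_sum _ fun d _ => (measurable_pi_apply d).comp measurable_fst
    · exact Finset.measurable_sum _ fun d _ => (measurable_pi_apply d).comp measurable_snd
  rw [h1, lintegral_prod _ hm.aemeasurable]
  have h2 : ∀ w : {d // p d} → ℝ, ∫⁻ w' : {d // ¬ p d} → ℝ, F (∑ d, w d) (∑ d, w' d)
      ∂(orth {d // ¬ p d}) = ∫⁻ b, F (∑ d, w d) b ∂(gm (Fintype.card {d // ¬ p d})) := by
    intro w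
    exact orth_sum _ (hF.comp measurable_prodMk_left)
  simp_rw [h2]
  rw [orth_sum {d // p d} (f := fun a => ∫⁻ b, F a b ∂(gm (Fintype.card {d // ¬ p d})))]
  exact hF.lintegral_prod_right'

theorem VV_true_eq (σ : Equiv.Perm (Fin n)) (cl : Fin n → Bool) (v : Mov σ → ℝ) :
    VV σ cl true v = ∑ d : {d : Mov σ // cl d.1 = true}, v d := by
  unfold VV
  rw [← Finset.sum_filter]
  exact Finset.sum_subtype _ (by simp) _

theorem VV_false_eq (σ : Equiv.Perm (Fin n)) (cl : Fin n → Bool) (v : Mov σ → ℝ) :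
    VV σ cl false v = ∑ d : {d : Mov σ // ¬ cl d.1 = true}, v d := by
  unfold VV
  rw [← Finset.sum_filter]
  exact Finset.sum_subtype _ (by simp) _

theorem card_true (σ : Equiv.Perm (Fin n)) (cl : Fin n → Bool) :
    Fintype.card {d : Mov σ // cl d.1 = true} = (mc σ cl true).card := by
  rw [← Fintype.card_coe]
  refine Fintype.card_congr ?_
  refine ⟨fun d => ⟨d.1.1, ?_⟩, fun i => ⟨⟨i.1, ?_⟩, ?_⟩, fun d => rfl, fun i => rfl⟩
  · simp only [mc, Finset.mem_filter, Finset.mem_univ, true_and]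
    exact ⟨d.1.2, d.2⟩
  · have := i.2
    simp only [mc, Finset.mem_filter, Finset.mem_univ, true_and] at this
    exact this.1
  · have := i.2
    simp only [mc, Finset.mem_filter, Finset.mem_univ, true_and] at this
    exact this.2

theorem card_false (σ : Equiv.Perm (Fin n)) (cl : Fin n → Bool) :
    Fintype.card {d : Mov σ // ¬ cl d.1 = true} = (mc σ cl false).card := by
  rw [← Fintype.card_coe]
  refine Fintype.card_congr ?_
  refine ⟨fun d => ⟨d.1.1, ?_⟩, fun i => ⟨⟨i.1, ?_⟩, ?_⟩, fun d => rfl, fun i => rfl⟩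
  · simp only [mc, Finset.mem_filter, Finset.mem_univ, true_and]
    exact ⟨d.1.2, by simpa using d.2⟩
  · have := i.2
    simp only [mc, Finset.mem_filter, Finset.mem_univ, true_and] at this
    exact this.1
  · have := i.2
    simp only [mc, Finset.mem_filter, Finset.mem_univ, true_and] at this
    simp [this.2]

theorem orth_split (σ : Equiv.Perm (Fin n)) (cl : Fin n → Bool)
    (F : ℝ → ℝ → ℝ≥0∞) (hF : Measurable (Function.uncurry F)) :
    ∫⁻ v, F (VV σ cl true v) (VV σ cl false v) ∂(orth (Mov σ))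
      = ∫⁻ a, ∫⁻ b, F a b ∂(gm (mc σ cl false).card) ∂(gm (mc σ cl true).card) := by
  simp_rw [VV_true_eq, VV_false_eq]
  rw [orth_split_pred (fun d : Mov σ => cl d.1 = true) F hF, card_true, card_false]

section

variable {σA σB : Equiv.Perm (Fin n)}

theorem mc_A (hd : σA.Disjoint σB) : mc (σA * σB) (cla σA) true = σA.support := by
  ext i
  simp only [mc, cla, Finset.mem_filter, Finset.mem_univ, true_and, decide_eq_true_eq,
    Equiv.Perm.mem_support]
  constructor
  · exact fun h => h.2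
  · intro h
    exact ⟨by rw [disj_A hd h]; exact h, h⟩

theorem mc_B (hd : σA.Disjoint σB) : mc (σA * σB) (cla σA) false = σB.support := by
  ext i
  simp only [mc, cla, Finset.mem_filter, Finset.mem_univ, true_and, decide_eq_false_iff_not,
    Equiv.Perm.mem_support, ne_eq, not_not]
  constructor
  · rintro ⟨h1, h2⟩ h3
    apply h1
    simp [h3, h2]
  · intro h
    exact ⟨by rw [disj_B hd h]; exact h, (hd i).resolve_right h⟩

theorem tt_one (z : Conf n) : tt z 1 = ∑ j, zy z j := by
  simp [tt, wy, zy]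

theorem tt_diff (z : Conf n) (τ : Equiv.Perm (Fin n)) :
    tt z τ - tt z 1 = ∑ i, ((z (i, τ i)).2 - (z (τ i, τ i)).2) := by
  rw [tt_one, Finset.sum_sub_distrib]
  unfold tt wy zy
  rw [← Equiv.sum_comp τ (fun j => (z (j, j)).2)]

theorem VV_A (hd : σA.Disjoint σB) (z : Conf n) :
    VV (σA * σB) (cla σA) true (inc (σA * σB) (zy z) (zη (σA * σB) z)) = tt z σA - tt z 1 := by
  rw [tt_diff]
  have h2 : ∀ i, σA i = i → ((z (i, σA i)).2 - (z (σA i, σA i)).2) = 0 := by
    intro i hi
    rw [hi]; ring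
  have h3 : ∑ i, ((z (i, σA i)).2 - (z (σA i, σA i)).2)
      = ∑ i ∈ σA.support, ((z (i, σA i)).2 - (z (σA i, σA i)).2) := by
    symm
    apply Finset.sum_subset (Finset.subset_univ _)
    intro i _ hi
    exact h2 i (by simpa using hi)
  rw [h3]
  unfold VV inc
  rw [← Finset.sum_filter]
  refine Finset.sum_bij (fun d _ => d.1) ?_ ?_ ?_ ?_
  · intro d hd'
    simp only [Finset.mem_filter, Finset.mem_univ, true_and, cla, decide_eq_true_eq] at hd'
    simpa using hd'
  · intro d _ d' _ h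
    exact Subtype.ext h
  · intro i hi
    have hi' : σA i ≠ i := by simpa using hi
    refine ⟨⟨i, by rw [disj_A hd hi']; exact hi'⟩, ?_, rfl⟩
    rw [Finset.mem_filter]
    exact ⟨Finset.mem_univ _, by simp only [cla, decide_eq_true_eq]; exact hi'⟩
  · intro d hd'
    simp only [Finset.mem_filter, Finset.mem_univ, true_and, cla, decide_eq_true_eq] at hd'
    unfold zη zy
    rw [disj_A hd hd']

theorem VV_B (hd : σA.Disjoint σB) (z : Conf n) :
    VV (σA * σB) (cla σA) false (inc (σA * σB) (zy z) (zη (σA * σB) z)) = tt z σB - tt z 1 := by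
  rw [tt_diff]
  have h2 : ∀ i, σB i = i → ((z (i, σB i)).2 - (z (σB i, σB i)).2) = 0 := by
    intro i hi
    rw [hi]; ring
  have h3 : ∑ i, ((z (i, σB i)).2 - (z (σB i, σB i)).2)
      = ∑ i ∈ σB.support, ((z (i, σB i)).2 - (z (σB i, σB i)).2) := by
    symm
    apply Finset.sum_subset (Finset.subset_univ _)
    intro i _ hi
    exact h2 i (by simpa using hi)
  rw [h3]
  unfold VV inc
  rw [← Finset.sum_filter]
  have key : ∀ d : Mov (σA * σB), cla σA d.1 = false → σB d.1 ≠ d.1 := by
    intro d h h'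
    apply d.2
    simp only [cla, decide_eq_false_iff_not, ne_eq, not_not] at h
    simp [h, h']
  refine Finset.sum_bij (fun d _ => d.1) ?_ ?_ ?_ ?_
  · intro d hd'
    simp only [Finset.mem_filter, Finset.mem_univ, true_and] at hd'
    simpa using key d hd'
  · intro d _ d' _ h
    exact Subtype.ext h
  · intro i hi
    have hi' : σB i ≠ i := by simpa using hi
    refine ⟨⟨i, by rw [disj_B hd hi']; exact hi'⟩, ?_, rfl⟩
    rw [Finset.mem_filter]
    exact ⟨Finset.mem_univ _, by
      simp only [cla, decide_eq_false_iff_not, ne_eq, not_not]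
      exact (hd i).resolve_right hi'⟩
  · intro d hd'
    simp only [Finset.mem_filter, Finset.mem_univ, true_and] at hd'
    unfold zη zy
    rw [disj_B hd (key d hd')]

open Classical in
theorem crude_ev (hd : σA.Disjoint σB)
    (g : ℝ → ℝ → ℝ → ℝ≥0∞) (hg : Measurable fun p : ℝ × ℝ × ℝ => g p.1 p.2.1 p.2.2)
    (hfin : ∀ t a b, g t a b ≠ ∞)
    (hsupp : ∀ t a b, 0 ≤ t → 0 ≤ a → 0 ≤ b → g t a b ≠ 0 → 4 ≤ t + b ∧ (4 ≤ t + a ∨ σB = 1)) :
    ∫⁻ z, (if Stab z 1 ∧ Low z 1 σA ∧ Low z 1 σB then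
        g (tt z 1) (tt z σA - tt z 1) (tt z σB - tt z 1) else 0) ∂(P n)
    ≤ ENNReal.ofReal (Real.exp 9) * ∫⁻ t, ∫⁻ a, ∫⁻ b, g t a b *
        ENNReal.ofReal (wt n σA.support.card σB.support.card t a b)
        ∂(gm σB.support.card) ∂(gm σA.support.card) ∂(gm n) := by
  have h := crude_triple (σ := σA * σB) rfl hd g hg hfin hsupp
  rw [mc_A hd, mc_B hd] at h
  simp_rw [VV_A hd, VV_B hd, ← tt_one] at h
  refine h.trans (le_of_eq ?_)
  congr 1
  have hw : Measurable fun p : ℝ × ℝ × ℝ => g p.1 p.2.1 p.2.2 *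
      ENNReal.ofReal (wt n σA.support.card σB.support.card p.1 p.2.1 p.2.2) := by
    refine hg.mul (Measurable.ennreal_ofReal ?_)
    unfold wt
    fun_prop
  have h2 : ∀ y : Fin n → ℝ, ∫⁻ v, g (∑ j, y j) (VV (σA * σB) (cla σA) true v)
        (VV (σA * σB) (cla σA) false v) * ENNReal.ofReal (wt n σA.support.card
          σB.support.card (∑ j, y j) (VV (σA * σB) (cla σA) true v)
          (VV (σA * σB) (cla σA) false v)) ∂(orth (Mov (σA * σB)))
      = ∫⁻ a, ∫⁻ b, g (∑ j, y j) a b *
        ENNReal.ofReal (wt n σA.support.card σB.support.card (∑ j, y j) a b)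
        ∂(gm σB.support.card) ∂(gm σA.support.card) := by
    intro y
    have := orth_split (σA * σB) (cla σA) (fun a b => g (∑ j, y j) a b *
        ENNReal.ofReal (wt n σA.support.card σB.support.card (∑ j, y j) a b))
        (hw.comp (measurable_const.prodMk (measurable_fst.prodMk measurable_snd)))
    rw [mc_A hd, mc_B hd] at this
    exact this
  simp_rw [h2]
  have h3 := orth_sum (Fin n) (f := fun t => ∫⁻ a, ∫⁻ b, g t a b *
        ENNReal.ofReal (wt n σA.support.card σB.support.card t a b)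
        ∂(gm σB.support.card) ∂(gm σA.support.card)) ?_
  · rw [h3, Fintype.card_fin]
  · have h4 : Measurable fun p : ℝ × ℝ => ∫⁻ b, g p.1 p.2 b *
        ENNReal.ofReal (wt n σA.support.card σB.support.card p.1 p.2 b)
        ∂(gm σB.support.card) :=
      Measurable.lintegral_prod_right' (f := fun q : (ℝ × ℝ) × ℝ => g q.1.1 q.1.2 q.2 *
        ENNReal.ofReal (wt n σA.support.card σB.support.card q.1.1 q.1.2 q.2))
        (hw.comp ((measurable_fst.comp measurable_fst).prodMk
          ((measurable_snd.comp measurable_fst).prodMk measurable_snd)))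
    exact h4.lintegral_prod_right'

end

end Pool.Agent.SM
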