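import Mathlib
import Pool.Prelude.Def_H_59bf1b71

set_option autoImplicit false

/-!
Continuous model for random stable matchings.

`z (i, j) = (X i j, Y i j)`: man `i` prefers women with small `X i j`, woman `j` prefers men with
small `Y i j`.  Under `P n` all numbers are independent and uniform on `[0,1]`.
-/

namespace Pool.Agent.SM

open MeasureTheory

/-- configurations -/
abbrev Conf (n : ℕ) := Fin n × Fin n → ℝ × ℝ

/-- uniform measure on the unit square -/
noncomputable def u2 : Measure (ℝ × ℝ) :=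
  (volume.restrict (Set.Icc (0 : ℝ) 1)).prod (volume.restrict (Set.Icc (0 : ℝ) 1))

/-- the law of the configuration -/
noncomputable def P (n : ℕ) : Measure (Conf n) := Measure.pi (fun _ => u2)

/-- `μ` is stable for `z` -/
def Stab {n : ℕ} (z : Conf n) (μ : Equiv.Perm (Fin n)) : Prop :=
  ∀ i j, μ i ≠ j →
    ¬ ((z (i, j)).1 < (z (i, μ i)).1 ∧ (z (i, j)).2 < (z (μ.symm j, j)).2)

/-- no ties -/
def Gen {n : ℕ} (z : Conf n) : Prop :=
  (∀ i, Function.Injective fun j => (z (i, j)).1) ∧
    (∀ j, Function.Injective fun i => (z (i, j)).2)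

/-- cost of man `i` in `μ` -/
def mx {n : ℕ} (z : Conf n) (μ : Equiv.Perm (Fin n)) (i : Fin n) : ℝ := (z (i, μ i)).1

/-- cost of the wife of man `i` in `μ` -/
def wy {n : ℕ} (z : Conf n) (μ : Equiv.Perm (Fin n)) (i : Fin n) : ℝ := (z (i, μ i)).2

/-- `μ * σ` is a stable matching below `μ`: men moved by `σ` get strictly better,
their new wives strictly worse. -/
def Low {n : ℕ} (z : Conf n) (μ σ : Equiv.Perm (Fin n)) : Prop :=
  Stab z (μ * σ) ∧ ∀ i, σ i ≠ i →
    (mx z (μ * σ) i < mx z μ i ∧ wy z μ (σ i) < wy z (μ * σ) i)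

/-- `μ * σ` is a stable matching above `μ` -/
def Upp {n : ℕ} (z : Conf n) (μ σ : Equiv.Perm (Fin n)) : Prop :=
  Stab z (μ * σ) ∧ ∀ i, σ i ≠ i →
    (mx z μ i < mx z (μ * σ) i ∧ wy z (μ * σ) i < wy z μ (σ i))

/-- no pair `(i, wife of j)` with `i, j` moved by `τ` that would block `μ * τ` with respect to the
men's costs in `μ`. -/
def Clean {n : ℕ} (z : Conf n) (μ τ : Equiv.Perm (Fin n)) : Prop :=
  ∀ i j, τ i ≠ i → τ j ≠ j →
    ¬ ((z (i, μ j)).1 < mx z μ i ∧ (z (i, μ j)).2 < wy z (μ * τ) (τ.symm j))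

/-- number of stable matchings of a configuration -/
noncomputable def nst {n : ℕ} (z : Conf n) : ℕ := by
  classical
  exact (Finset.univ.filter fun μ : Equiv.Perm (Fin n) => Stab z μ).card

end Pool.Agent.SM
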