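import Pool.Agent.MP_d30e2b_pr.Exp2

set_option autoImplicit false

/-! sums over pairs -/

namespace Pool.Agent.SM

open MeasureTheory Set
open scoped ENNReal

/-- basic pair integral -/
noncomputable def AA (n k : ℕ) (g : ℝ → ℝ → ℝ≥0∞) : ℝ≥0∞ :=
  ∫⁻ t, ∫⁻ a, g t (t + a) * ENNReal.ofReal ((1 / (t + a)) ^ n * (1 / t) ^ k) ∂(gm k) ∂(gm n)

/-- binomial weight; `j` = number of changed couples minus one -/
noncomputable def bi (n j : ℕ) (w : ℝ) : ℝ :=
  ((n - 1).choose j : ℝ) * (w ^ (n - 1 - j) * (1 - w) ^ j)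

theorem sum_bi {n : ℕ} (hn : 1 ≤ n) (w : ℝ) : ∑ j ∈ Finset.range n, bi n j w = 1 := by
  obtain ⟨m, rfl⟩ : ∃ m, n = m + 1 := ⟨n - 1, by omega⟩
  have h := add_pow (1 - w) w m
  rw [sub_add_cancel, one_pow] at h
  rw [h]
  refine Finset.sum_congr rfl fun j _ => ?_
  unfold bi
  rw [show m + 1 - 1 = m by omega]
  ring

theorem bi_nonneg {n j : ℕ} {w : ℝ} (h0 : 0 ≤ w) (h1 : w ≤ 1) : 0 ≤ bi n j w := by
  unfold bi
  have : 0 ≤ 1 - w := by linarith
  positivity

/-- the pair density -/
noncomputable def pd (n j : ℕ) (t T : ℝ) : ℝ :=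
  (n : ℝ) ^ 2 / (t * T) * bi n j (t / T)

theorem AA_eq {n j : ℕ} (hj : j + 1 ≤ n) {g : ℝ → ℝ → ℝ≥0∞} (hg : Measurable (Function.uncurry g)) :
    ENNReal.ofReal ((n.factorial : ℝ) * (n.choose (j + 1) * (j + 1).factorial)) * AA n (j + 1) g
      = ∫⁻ T in Ioi (0:ℝ), ∫⁻ t in Ioo (0:ℝ) T, g t T * ENNReal.ofReal (pd n j t T) := by
  obtain ⟨m, rfl⟩ : ∃ m, n = m + 1 := ⟨n - 1, by omega⟩
  set c : ℝ := ((m + 1).factorial : ℝ) * ((m + 1).choose (j + 1) * (j + 1).factorial) with hc
  have hc0 : 0 ≤ c := by positivity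
  have hg' : Measurable fun p : ℝ × ℝ => g p.1 p.2 := hg
  have hA : AA (m + 1) (j + 1) g = ∫⁻ t in Ioi (0:ℝ), ∫⁻ a in Ioi (0:ℝ),
      (fun t T => g t T * ENNReal.ofReal ((1 / T) ^ (m + 1) * (1 / t) ^ (j + 1) *
        ((T - t) ^ j / j.factorial) * (t ^ m / m.factorial))) t (t + a) := by
    unfold AA
    rw [gm_succ m]
    · refine setLIntegral_congr_fun measurableSet_Ioi fun t ht => ?_
      simp only [mem_Ioi] at ht
      rw [gm_succ j]
      · rw [← lintegral_mul_const]
        · refine setLIntegral_congr_fun measurableSet_Ioi fun a ha => ?_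
          simp only [mem_Ioi] at ha
          rw [mul_assoc, mul_assoc, ← ENNReal.ofReal_mul (by positivity),
            ← ENNReal.ofReal_mul (by positivity)]
          congr 2
          rw [add_sub_cancel_left]
          ring
        · have hgt : Measurable fun a => g t (t + a) :=
            hg'.comp (measurable_const.prodMk (measurable_const.add measurable_id))
          fun_prop
      · refine Measurable.mul ?_ (by fun_prop)
        exact hg'.comp (measurable_const.prodMk (measurable_const.add measurable_id))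
    · refine Measurable.lintegral_prod_right' (f := fun p : ℝ × ℝ => g p.1 (p.1 + p.2) *
        ENNReal.ofReal ((1 / (p.1 + p.2)) ^ (m + 1) * (1 / p.1) ^ (j + 1))) ?_
      refine Measurable.mul ?_ (by fun_prop)
      exact hg'.comp (measurable_fst.prodMk (measurable_fst.add measurable_snd))
  rw [hA, lint_shear (fun t T => g t T * ENNReal.ofReal ((1 / T) ^ (m + 1) * (1 / t) ^ (j + 1) *
        ((T - t) ^ j / j.factorial) * (t ^ m / m.factorial)))]
  · rw [← lintegral_const_mul']
    · refine setLIntegral_congr_fun measurableSet_Ioi fun T hT => ?_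
      simp only [mem_Ioi] at hT
      rw [← lintegral_const_mul']
      · refine setLIntegral_congr_fun measurableSet_Ioo fun t ht => ?_
        obtain ⟨ht0, htT⟩ := ht
        rw [mul_left_comm, ← ENNReal.ofReal_mul hc0]
        congr 2
        unfold pd bi
        obtain ⟨l, rfl⟩ : ∃ l, m = j + l := ⟨m - j, by omega⟩
        rw [show j + l + 1 - 1 - j = l by omega, show j + l + 1 - 1 = j + l by omega]
        have h3 : ((j + l + 1).choose (j + 1) : ℝ) * ((j + 1).factorial : ℝ)
            = (j + l + 1) * ((j + l).choose j * j.factorial) := by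
          have h4 : (j + l + 1).choose (j + 1) * (j + 1) = (j + l + 1) * (j + l).choose j := by
            have := Nat.add_one_mul_choose_eq (j + l) j
            exact this.symm
          have h5 : ((j + l + 1).choose (j + 1) : ℝ) * (j + 1) = (j + l + 1) * (j + l).choose j := by
            exact_mod_cast h4
          rw [Nat.factorial_succ]
          push_cast
          linear_combination (j.factorial : ℝ) * h5
        rw [hc, h3, Nat.factorial_succ (j + l)]
        push_cast
        have h6 : (1 - t / T) = (T - t) / T := by field_simp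
        rw [h6, div_pow, div_pow, div_pow, div_pow]
        simp only [one_pow]
        field_simp
        ring
      · exact ENNReal.ofReal_ne_top
    · exact ENNReal.ofReal_ne_top
  · unfold Function.uncurry
    refine Measurable.mul hg' (by fun_prop)

/-- fraction of derangements -/
noncomputable def dr (k : ℕ) : ℝ := (numDerangements k : ℝ) / k.factorial

theorem dr_nonneg (k : ℕ) : 0 ≤ dr k := by unfold dr; positivity

theorem dr_le_one (k : ℕ) : dr k ≤ 1 := by
  unfold dr
  rw [div_le_one (by positivity)]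
  exact_mod_cast numDerangements_le k

theorem pd_nonneg {n j : ℕ} {t T : ℝ} (ht : 0 < t) (htT : t < T) : 0 ≤ pd n j t T := by
  unfold pd
  have hT : 0 < T := ht.trans htT
  have := bi_nonneg (n := n) (j := j) (w := t / T) (by positivity)
    (by rw [div_le_one hT]; exact htT.le)
  positivity

theorem meas_pd (n j : ℕ) : Measurable fun p : ℝ × ℝ => pd n j p.1 p.2 := by
  unfold pd bi
  fun_prop

/-- lintegral over the triangle of a finite sum -/
theorem tri_sum {ι : Type*} (s : Finset ι) (f : ι → ℝ → ℝ → ℝ≥0∞)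
    (hf : ∀ i, Measurable (Function.uncurry (f i))) :
    ∫⁻ T in Ioi (0:ℝ), ∫⁻ t in Ioo (0:ℝ) T, ∑ i ∈ s, f i t T
      = ∑ i ∈ s, ∫⁻ T in Ioi (0:ℝ), ∫⁻ t in Ioo (0:ℝ) T, f i t T := by
  have h1 : ∀ T : ℝ, ∫⁻ t in Ioo (0:ℝ) T, ∑ i ∈ s, f i t T
      = ∑ i ∈ s, ∫⁻ t in Ioo (0:ℝ) T, f i t T := by
    intro T
    refine lintegral_finsetSum _ fun i _ => ?_
    exact (hf i).comp (measurable_id.prodMk measurable_const)
  simp_rw [h1]
  refine lintegral_finsetSum _ fun i _ => ?_
  have h2 : ∀ T : ℝ, ∫⁻ t in Ioo (0:ℝ) T, f i t T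
      = ∫⁻ t, (if 0 < t ∧ t < T then f i t T else 0) := by
    intro T
    rw [← lintegral_indicator measurableSet_Ioo]
    refine lintegral_congr fun t => ?_
    simp only [indicator, mem_Ioo]
  simp_rw [h2]
  refine Measurable.lintegral_prod_right' (f := fun p : ℝ × ℝ =>
    (if 0 < p.2 ∧ p.2 < p.1 then f i p.2 p.1 else 0)) ?_
  refine Measurable.ite ?_ ?_ measurable_const
  · exact (measurableSet_lt measurable_const measurable_snd).inter
      (measurableSet_lt measurable_snd measurable_fst)
  · exact (hf i).comp (measurable_snd.prodMk measurable_fst)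

theorem pair_sum {n : ℕ} (hn : 1 ≤ n) (I : Equiv.Perm (Fin n) → ℝ≥0∞)
    (c : ℕ → ℝ → ℝ → ℝ≥0∞) (hc : ∀ j, Measurable (Function.uncurry (c j)))
    (hI : ∀ (σ : Equiv.Perm (Fin n)) (j : ℕ), σ.support.card = j + 1 → I σ ≤ AA n (j + 1) (c j)) :
    (n.factorial : ℝ≥0∞) * ∑ σ : Equiv.Perm (Fin n), (if σ ≠ 1 then I σ else 0)
      ≤ ∫⁻ T in Ioi (0:ℝ), ∫⁻ t in Ioo (0:ℝ) T, ∑ j ∈ Finset.range n,
          c j t T * ENNReal.ofReal (pd n j t T) * ENNReal.ofReal (dr (j + 1)) := by
  have hmeas : ∀ j, Measurable (Function.uncurry fun t T =>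
      c j t T * ENNReal.ofReal (pd n j t T) * ENNReal.ofReal (dr (j + 1))) := by
    intro j
    have h1 : Measurable fun p : ℝ × ℝ => c j p.1 p.2 := hc j
    have h2 := meas_pd n j
    unfold Function.uncurry
    fun_prop
  rw [tri_sum _ _ hmeas]
  have h1 : ∑ σ : Equiv.Perm (Fin n), (if σ ≠ 1 then I σ else 0)
      = ∑ j ∈ Finset.range n, ∑ σ ∈ Finset.univ.filter
          (fun σ : Equiv.Perm (Fin n) => σ.support.card = j + 1), I σ := by
    rw [← Finset.sum_filter, ← Finset.sum_fiberwise_of_maps_to (s := Finset.univ.filter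
      fun σ : Equiv.Perm (Fin n) => σ ≠ 1) (t := Finset.range n)
      (g := fun σ : Equiv.Perm (Fin n) => σ.support.card - 1)]
    · refine Finset.sum_congr rfl fun j _ => ?_
      refine Finset.sum_congr ?_ fun _ _ => rfl
      ext σ
      simp only [Finset.mem_filter, Finset.mem_univ, true_and]
      constructor
      · rintro ⟨h1, h2⟩
        have : σ.support.card ≠ 0 := by
          rw [Finset.card_ne_zero, Finset.nonempty_iff_ne_empty]
          rwa [ne_eq, Equiv.Perm.support_eq_empty_iff]
        omega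
      · intro h
        refine ⟨?_, by omega⟩
        rintro rfl
        simp at h
    · intro σ hσ
      have h3 : σ.support.card ≤ n := by
        have := Finset.card_le_univ σ.support
        simpa using this
      simp only [Finset.mem_range]
      omega
  rw [h1, Finset.mul_sum]
  refine Finset.sum_le_sum fun j hj => ?_
  rw [Finset.mem_range] at hj
  have h2 : ∑ σ ∈ Finset.univ.filter
          (fun σ : Equiv.Perm (Fin n) => σ.support.card = j + 1), I σ
      ≤ ((n.choose (j + 1) * numDerangements (j + 1) : ℕ) : ℝ≥0∞) * AA n (j + 1) (c j) := by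
    rw [← card_support, ← nsmul_eq_mul]
    refine Finset.sum_le_card_nsmul _ _ _ fun σ hσ => ?_
    simp only [Finset.mem_filter, Finset.mem_univ, true_and] at hσ
    exact hI σ j hσ
  refine (mul_le_mul_right h2 _).trans ?_
  have h3 : ∀ T : ℝ, ∫⁻ t in Ioo (0:ℝ) T, c j t T * ENNReal.ofReal (pd n j t T) *
      ENNReal.ofReal (dr (j + 1))
      = (∫⁻ t in Ioo (0:ℝ) T, c j t T * ENNReal.ofReal (pd n j t T)) * ENNReal.ofReal (dr (j + 1)) := by
    intro T
    rw [lintegral_mul_const' _ _ ENNReal.ofReal_ne_top]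
  simp_rw [h3]
  rw [lintegral_mul_const' _ _ ENNReal.ofReal_ne_top, ← AA_eq (by omega) (hc j)]
  refine le_of_eq ?_
  rw [← ENNReal.ofReal_natCast, ← ENNReal.ofReal_natCast, ← mul_assoc,
    ← ENNReal.ofReal_mul (by positivity), mul_right_comm, ← ENNReal.ofReal_mul (by positivity)]
  congr 2
  unfold dr
  push_cast
  have : ((j + 1).factorial : ℝ) ≠ 0 := by positivity
  field_simp

open Classical in
theorem crude_low {n : ℕ} (σ : Equiv.Perm (Fin n)) (g : ℝ → ℝ → ℝ≥0∞)
    (hg : Measurable (Function.uncurry g)) (hfin : ∀ t T, g t T ≠ ∞)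
    (hsupp : ∀ t T, g t T ≠ 0 → 4 ≤ t) :
    ∫⁻ z, (if Stab z 1 ∧ Low z 1 σ then g (tt z 1) (tt z σ) else 0) ∂(P n)
      ≤ ENNReal.ofReal (Real.exp 9) * AA n σ.support.card g := by
  have hg' : Measurable fun p : ℝ × ℝ => g p.1 p.2 := hg
  have h := crude_ev (σA := σ) (σB := 1) (Equiv.Perm.disjoint_one_right σ)
    (fun t a _ => g t (t + a)) (hg'.comp (measurable_fst.prodMk
      (measurable_fst.add (measurable_fst.comp measurable_snd))))
    (fun t a b => hfin _ _) ?_
  · have e0 : ∀ z : Conf n, (if Stab z 1 ∧ Low z 1 σ ∧ Low z 1 1 then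
        g (tt z 1) (tt z 1 + (tt z σ - tt z 1)) else 0)
        = (if Stab z 1 ∧ Low z 1 σ then g (tt z 1) (tt z σ) else 0) := by
      intro z
      rw [low_one_one, add_sub_cancel]
      by_cases a1 : Stab z 1 <;> by_cases a2 : Low z 1 σ <;> simp [a1, a2]
    simp_rw [e0] at h
    refine h.trans (le_of_eq ?_)
    congr 1
    unfold AA
    refine lintegral_congr fun t => lintegral_congr fun a => ?_
    simp only [Equiv.Perm.support_one, Finset.card_empty]
    rw [gm_zero]
    · unfold wt
      simp only [add_zero, pow_zero, mul_one]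
    · unfold wt
      fun_prop
  · intro t a b ht ha hb hne
    have := hsupp _ _ hne
    exact ⟨by linarith, Or.inr rfl⟩

end Pool.Agent.SM
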