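import Pool.Agent.MP_d30e2b_pr.Unclean
import Pool.Agent.MP_d30e2b_pr.PairSum

set_option autoImplicit false

/-! Dirichlet moments -/

namespace Pool.Agent.SM

open MeasureTheory Set
open scoped ENNReal

variable {ι : Type*} [Fintype ι]

/-- first moment -/
theorem orth_mom1 [DecidableEq ι] (d : ι) {f : ℝ → ℝ≥0∞} (hf : Measurable f) :
    ∫⁻ v, f (∑ i, v i) * ENNReal.ofReal (v d) ∂(orth ι)
      = ∫⁻ a, f a * ENNReal.ofReal (a / Fintype.card ι) ∂(gm (Fintype.card ι)) := by
  obtain ⟨k, hk⟩ : ∃ k, Fintype.card ι = k + 1 :=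
    ⟨Fintype.card ι - 1, by have : 0 < Fintype.card ι := Fintype.card_pos_iff.mpr ⟨d⟩; omega⟩
  have h := lint_orth k hk (fun i => if i = d then 1 else 0) f hf
  rw [hk, gm_succ k (by fun_prop)]
  have e1 : ∀ v : ι → ℝ, (∏ i, ENNReal.ofReal (v i ^ (if i = d then 1 else 0) /
      ((if i = d then 1 else 0 : ℕ).factorial : ℝ))) = ENNReal.ofReal (v d) := by
    intro v
    rw [Finset.prod_eq_single d]
    · simp
    · intro i _ hi
      simp [hi]
    · intro h'
      exact absurd (Finset.mem_univ d) h'
  simp_rw [e1] at h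
  rw [h]
  refine setLIntegral_congr_fun measurableSet_Ioi fun a ha => ?_
  simp only [mem_Ioi] at ha
  rw [mul_assoc, ← ENNReal.ofReal_mul (by positivity)]
  congr 2
  simp only [Finset.sum_ite_eq', Finset.mem_univ, if_true]
  rw [show 1 + k = k + 1 by ring, Nat.factorial_succ, pow_succ]
  push_cast
  have : (k.factorial : ℝ) ≠ 0 := by positivity
  field_simp

/-- second moments -/
theorem orth_mom2 [DecidableEq ι] (d d' : ι) {f : ℝ → ℝ≥0∞} (hf : Measurable f) :
    ∫⁻ v, f (∑ i, v i) * (ENNReal.ofReal (v d) * ENNReal.ofReal (v d')) ∂(orth ι)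
      = ∫⁻ a, f a * ENNReal.ofReal ((if d = d' then 2 else 1) * (a ^ 2 /
        (Fintype.card ι * (Fintype.card ι + 1)))) ∂(gm (Fintype.card ι)) := by
  obtain ⟨k, hk⟩ : ∃ k, Fintype.card ι = k + 1 :=
    ⟨Fintype.card ι - 1, by have : 0 < Fintype.card ι := Fintype.card_pos_iff.mpr ⟨d⟩; omega⟩
  rw [hk, gm_succ k (by fun_prop)]
  have hfac : ((k + 2).factorial : ℝ) = (k + 2) * ((k + 1) * k.factorial) := by
    rw [Nat.factorial_succ, Nat.factorial_succ]
    push_cast
    ring
  have hk0 : (k.factorial : ℝ) ≠ 0 := by positivity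
  by_cases hd : d = d'
  · subst hd
    have h := lint_orth k hk (fun i => if i = d then 2 else 0) f hf
    have e1 : ∀ v : ι → ℝ, (∀ i, 0 < v i) → (∏ i, ENNReal.ofReal (v i ^ (if i = d then 2 else 0) /
        ((if i = d then 2 else 0 : ℕ).factorial : ℝ))) * 2
          = ENNReal.ofReal (v d) * ENNReal.ofReal (v d) := by
      intro v hv
      rw [Finset.prod_eq_single d]
      · simp only [if_true, Nat.factorial_two]
        rw [← ENNReal.ofReal_mul (hv d).le, show (2 : ℝ≥0∞) = ENNReal.ofReal 2 by simp,
          ← ENNReal.ofReal_mul (by have := hv d; positivity)]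
        congr 1
        push_cast
        ring
      · intro i _ hi
        simp [hi]
      · intro h'
        exact absurd (Finset.mem_univ d) h'
    have e2 : ∫⁻ v, f (∑ i, v i) * (ENNReal.ofReal (v d) * ENNReal.ofReal (v d)) ∂(orth ι)
        = (∫⁻ v, f (∑ i, v i) * (∏ i, ENNReal.ofReal (v i ^ (if i = d then 2 else 0) /
        ((if i = d then 2 else 0 : ℕ).factorial : ℝ))) ∂(orth ι)) * 2 := by
      rw [← lintegral_mul_const' _ _ (by simp)]
      refine lintegral_congr_ae ?_
      filter_upwards [ae_orth ι] with v hv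
      rw [← e1 v hv]
      ring
    rw [e2, h, ← lintegral_mul_const' _ _ (by simp)]
    refine setLIntegral_congr_fun measurableSet_Ioi fun a ha => ?_
    simp only [mem_Ioi] at ha
    rw [mul_assoc, mul_assoc, ← ENNReal.ofReal_mul (by positivity),
      show (2 : ℝ≥0∞) = ENNReal.ofReal 2 by simp, ← ENNReal.ofReal_mul (by positivity)]
    congr 2
    simp only [Finset.sum_ite_eq', Finset.mem_univ, if_true]
    rw [show 2 + k = k + 2 by ring, hfac, pow_add]
    push_cast
    field_simp
    ring
  · have h := lint_orth k hk (fun i => (if i = d then 1 else 0) + (if i = d' then 1 else 0)) f hf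
    have e1 : ∀ v : ι → ℝ, (∀ i, 0 < v i) → (∏ i, ENNReal.ofReal (v i ^ ((if i = d then 1 else 0)
        + (if i = d' then 1 else 0)) /
        (((if i = d then 1 else 0) + (if i = d' then 1 else 0) : ℕ).factorial : ℝ)))
          = ENNReal.ofReal (v d) * ENNReal.ofReal (v d') := by
      intro v hv
      have e3 : ∀ i, ENNReal.ofReal (v i ^ ((if i = d then 1 else 0)
        + (if i = d' then 1 else 0)) /
        (((if i = d then 1 else 0) + (if i = d' then 1 else 0) : ℕ).factorial : ℝ))
          = (if i = d then ENNReal.ofReal (v i) else 1) *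
            (if i = d' then ENNReal.ofReal (v i) else 1) := by
        intro i
        by_cases h1 : i = d
        · have h2 : ¬ i = d' := fun h' => hd (h1.symm.trans h')
          simp only [if_pos h1, if_neg h2]
          simp
        · by_cases h2 : i = d'
          · simp only [if_neg h1, if_pos h2]
            simp
          · simp only [if_neg h1, if_neg h2]
            simp
      simp_rw [e3]
      rw [Finset.prod_mul_distrib, Finset.prod_ite_eq' Finset.univ d,
        Finset.prod_ite_eq' Finset.univ d']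
      simp
    have e2 : ∫⁻ v, f (∑ i, v i) * (ENNReal.ofReal (v d) * ENNReal.ofReal (v d')) ∂(orth ι)
        = (∫⁻ v, f (∑ i, v i) * (∏ i, ENNReal.ofReal (v i ^ ((if i = d then 1 else 0)
        + (if i = d' then 1 else 0)) /
        (((if i = d then 1 else 0) + (if i = d' then 1 else 0) : ℕ).factorial : ℝ))) ∂(orth ι)) := by
      refine lintegral_congr_ae ?_
      filter_upwards [ae_orth ι] with v hv
      rw [← e1 v hv]
    rw [e2, h]
    refine setLIntegral_congr_fun measurableSet_Ioi fun a ha => ?_
    simp only [mem_Ioi] at ha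
    rw [mul_assoc, ← ENNReal.ofReal_mul (by positivity)]
    congr 2
    rw [Finset.sum_add_distrib]
    simp only [Finset.sum_ite_eq', Finset.mem_univ, if_true, if_neg hd]
    rw [show 1 + 1 + k = k + 2 by ring, hfac, pow_add]
    push_cast
    field_simp
    ring

end Pool.Agent.SM
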