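import Mathlib

set_option autoImplicit false

/-! product integrals -/

namespace Pool.Agent.SM

open MeasureTheory Finset
open scoped ENNReal Nat

theorem lintegral_fin_prod {E : Type*} [MeasurableSpace E] {n : ℕ}
    (μ : Fin n → Measure E) [∀ i, SigmaFinite (μ i)]
    (f : Fin n → E → ℝ≥0∞) (hf : ∀ i, Measurable (f i)) :
    ∫⁻ x, ∏ i, f i (x i) ∂(Measure.pi μ) = ∏ i, ∫⁻ x, f i x ∂(μ i) := by
  induction n with
  | zero => simp
  | succ n ih =>
    have hmp := measurePreserving_piFinSuccAbove μ 0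
    rw [← hmp.symm.lintegral_comp_emb (MeasurableEquiv.measurableEmbedding _)]
    have h1 : ∀ p : E × (Fin n → E),
        (∏ i, f i (((MeasurableEquiv.piFinSuccAbove (fun _ => E) 0).symm p) i))
        = f 0 p.1 * ∏ i : Fin n, f i.succ (p.2 i) := by
      intro p
      rw [Fin.prod_univ_succ]
      simp [MeasurableEquiv.piFinSuccAbove, Fin.insertNthEquiv]
    simp_rw [h1]
    rw [lintegral_prod_mul (g := fun y : Fin n → E => ∏ i : Fin n, f i.succ (y i))
      (hf 0).aemeasurable]
    · rw [Fin.prod_univ_succ]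
      congr 1
      exact ih (fun i => μ i.succ) (fun i => f i.succ) (fun i => hf _)
    · exact (Finset.measurable_prod _ fun i _ => (hf _).comp (measurable_pi_apply i)).aemeasurable

theorem lintegral_pi_prod {E : Type*} [MeasurableSpace E] {ι : Type*} [Fintype ι]
    (μ : ι → Measure E) [∀ i, SigmaFinite (μ i)]
    (f : ι → E → ℝ≥0∞) (hf : ∀ i, Measurable (f i)) :
    ∫⁻ x, ∏ i, f i (x i) ∂(Measure.pi μ) = ∏ i, ∫⁻ x, f i x ∂(μ i) := by
  classical
  let e := (Fintype.equivFin ι).symm
  have hmp := measurePreserving_piCongrLeft μ e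
  rw [← hmp.lintegral_comp_emb (MeasurableEquiv.measurableEmbedding _)]
  have h1 : ∀ x : Fin (Fintype.card ι) → E,
      (∏ i, f i ((MeasurableEquiv.piCongrLeft (fun _ => E) e x) i)) = ∏ j, f (e j) (x j) := by
    intro x
    rw [← e.prod_comp]
    refine Finset.prod_congr rfl fun j _ => ?_
    congr 1
    exact Equiv.piCongrLeft_apply_apply (fun _ => E) e x j
  simp_rw [h1]
  rw [lintegral_fin_prod (fun j => μ (e j)) (fun j => f (e j)) (fun j => hf _)]
  exact e.prod_comp (fun i => ∫⁻ x, f i x ∂(μ i))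

end Pool.Agent.SM
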