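import Pool.Agent.MP_d30e2b_pr.Defs
import Pool.Agent.MP_d30e2b_pr.PiInt

set_option autoImplicit false

/-! splitting off the coordinates of two matchings -/

namespace Pool.Agent.SM

open MeasureTheory Set
open scoped ENNReal

variable {n : ℕ}

/-- uniform on `[0,1]` -/
noncomputable def u1 : Measure ℝ := volume.restrict (Icc (0:ℝ) 1)

instance : IsProbabilityMeasure u1 := ⟨by simp [u1]⟩

instance : IsProbabilityMeasure u2 := by
  unfold u2
  change IsProbabilityMeasure (u1.prod u1)
  infer_instance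

instance : IsProbabilityMeasure (P n) := by unfold P; infer_instance

/-- moved points -/
abbrev Mov (σ : Equiv.Perm (Fin n)) := {i : Fin n // σ i ≠ i}

/-- remaining pairs -/
abbrev Rst (σ : Equiv.Perm (Fin n)) := {p : Fin n × Fin n // p.2 ≠ p.1 ∧ p.2 ≠ σ p.1}

/-- all pairs = diagonal, graph of `σ` on moved points, rest -/
def eqv (σ : Equiv.Perm (Fin n)) : (Fin n ⊕ Mov σ) ⊕ Rst σ ≃ Fin n × Fin n where
  toFun s := Sum.elim (Sum.elim (fun i => (i, i)) (fun d => (d.1, σ d.1))) (fun r => r.1) s
  invFun p := if h : p.2 = p.1 then Sum.inl (Sum.inl p.1) else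
    if h' : p.2 = σ p.1 then Sum.inl (Sum.inr ⟨p.1, by rw [← h']; exact h⟩) else
      Sum.inr ⟨p, h, h'⟩
  left_inv := by
    rintro ((i | d) | r)
    · simp
    · have := d.2
      simp [this]
    · obtain ⟨⟨i, j⟩, h1, h2⟩ := r
      simp at h1 h2
      simp [h1, h2]
  right_inv := by
    rintro ⟨i, j⟩
    by_cases h : j = i
    · simp [h]
    · by_cases h' : j = σ i
      · simp [h']
        by_cases h'' : σ i = i
        · simp [h'']
        · simp [h'']
      · simp [h, h']

/-- the diagonal coordinates -/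
def dg (z : Conf n) : Fin n → ℝ × ℝ := fun i => z (i, i)

/-- the coordinates along `σ` -/
def gr (σ : Equiv.Perm (Fin n)) (z : Conf n) : Mov σ → ℝ × ℝ := fun d => z (d.1, σ d.1)

theorem red (σ : Equiv.Perm (Fin n)) (K : (Fin n → ℝ × ℝ) × (Mov σ → ℝ × ℝ) → ℝ≥0∞)
    (hK : Measurable K)
    (β : Rst σ → (((Fin n → ℝ × ℝ) × (Mov σ → ℝ × ℝ)) × (ℝ × ℝ)) → ℝ≥0∞)
    (hβ : ∀ r, Measurable (β r)) :
    ∫⁻ z, K (dg z, gr σ z) * ∏ r, β r ((dg z, gr σ z), z r.1) ∂(P n)
      = ∫⁻ q, K q * ∏ r, ∫⁻ w, β r (q, w) ∂u2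
          ∂((Measure.pi fun _ => u2).prod (Measure.pi fun _ => u2)) := by
  have h1 := measurePreserving_piCongrLeft (fun _ : Fin n × Fin n => u2) (eqv σ)
  have h2 := measurePreserving_sumPiEquivProdPi_symm
    (fun _ : (Fin n ⊕ Mov σ) ⊕ Rst σ => u2)
  have h3 := measurePreserving_sumPiEquivProdPi_symm (fun _ : Fin n ⊕ Mov σ => u2)
  have h4 := h3.prod (MeasurePreserving.id (Measure.pi fun _ : Rst σ => u2))
  have h5 := h1.comp (h2.comp h4)
  unfold P
  rw [← h5.lintegral_comp_emb]
  · have hph : ∀ (a : ((Fin n → ℝ × ℝ) × (Mov σ → ℝ × ℝ)) × (Rst σ → ℝ × ℝ))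
        (s : (Fin n ⊕ Mov σ) ⊕ Rst σ),
        ((MeasurableEquiv.piCongrLeft (fun _ => ℝ × ℝ) (eqv σ)) ∘
          (MeasurableEquiv.sumPiEquivProdPi fun _ => ℝ × ℝ).symm ∘
          Prod.map (MeasurableEquiv.sumPiEquivProdPi fun _ => ℝ × ℝ).symm id) a (eqv σ s)
        = Sum.elim (Sum.elim a.1.1 a.1.2) a.2 s := by
      intro a s
      simp only [Function.comp]
      rw [MeasurableEquiv.coe_piCongrLeft, Equiv.piCongrLeft_apply_apply]
      rcases s with ((i | d) | r) <;> rfl
    set ph := ((MeasurableEquiv.piCongrLeft (fun _ => ℝ × ℝ) (eqv σ)) ∘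
          (MeasurableEquiv.sumPiEquivProdPi fun _ => ℝ × ℝ).symm ∘
          Prod.map (MeasurableEquiv.sumPiEquivProdPi fun _ => ℝ × ℝ).symm id) with hphdef
    have e1 : ∀ a, dg (ph a) = a.1.1 := by
      intro a
      funext i
      exact hph a (Sum.inl (Sum.inl i))
    have e2 : ∀ a, gr σ (ph a) = a.1.2 := by
      intro a
      funext d
      exact hph a (Sum.inl (Sum.inr d))
    have e3 : ∀ a r, ph a (r : Rst σ).1 = a.2 r := by
      intro a r
      exact hph a (Sum.inr r)
    have e4 : ∀ a, (K (dg (ph a), gr σ (ph a)) * ∏ r, β r ((dg (ph a), gr σ (ph a)), (ph a) r.1))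
        = K a.1 * ∏ r, β r (a.1, a.2 r) := by
      intro a
      rw [e1, e2]
      congr 1
      refine Finset.prod_congr rfl fun r _ => ?_
      rw [e3]
    calc _ = ∫⁻ a, K a.1 * ∏ r, β r (a.1, a.2 r) ∂(((Measure.pi fun _ => u2).prod
              (Measure.pi fun _ => u2)).prod (Measure.pi fun _ : Rst σ => u2)) :=
            lintegral_congr e4
      _ = _ := by
        rw [lintegral_prod]
        · refine lintegral_congr fun q => ?_
          dsimp only
          rw [lintegral_const_mul (K q)]
          · congr 1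
            exact lintegral_pi_prod (fun _ => u2) (fun r w => β r (q, w))
              (fun r => (hβ r).comp measurable_prodMk_left)
          · refine Finset.measurable_prod _ fun r _ => ?_
            exact (hβ r).comp (measurable_const.prodMk (measurable_pi_apply r))
        · apply Measurable.aemeasurable
          refine (hK.comp measurable_fst).mul (Finset.measurable_prod _ fun r _ => ?_)
          exact (hβ r).comp (measurable_fst.prodMk ((measurable_pi_apply r).comp measurable_snd))
  · refine (MeasurableEquiv.measurableEmbedding _).comp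
      ((MeasurableEquiv.measurableEmbedding _).comp ?_)
    exact ((MeasurableEquiv.sumPiEquivProdPi fun _ => ℝ × ℝ).symm.prodCongr
      (MeasurableEquiv.refl _)).measurableEmbedding

theorem split_xy {κ : Type*} [Fintype κ] (G : (Fin n → ℝ × ℝ) × (κ → ℝ × ℝ) → ℝ≥0∞)
    (hG : Measurable G) :
    ∫⁻ q, G q ∂((Measure.pi fun _ => u2).prod (Measure.pi fun _ => u2))
      = ∫⁻ y, ∫⁻ η, ∫⁻ x, ∫⁻ ξ, G (fun i => (x i, y i), fun d => (ξ d, η d))
          ∂(Measure.pi fun _ => u1) ∂(Measure.pi fun _ => u1)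
          ∂(Measure.pi fun _ => u1) ∂(Measure.pi fun _ => u1) := by
  have h1 := (measurePreserving_arrowProdEquivProdArrow ℝ ℝ (Fin n) (fun _ => u1) (fun _ => u1)).symm
  have h2 := (measurePreserving_arrowProdEquivProdArrow ℝ ℝ κ (fun _ => u1) (fun _ => u1)).symm
  have h3 := h1.prod h2
  have hu : u2 = u1.prod u1 := rfl
  rw [hu, ← h3.lintegral_comp_emb]
  · have hG' : Measurable fun p : ((Fin n → ℝ) × (Fin n → ℝ)) × ((κ → ℝ) × (κ → ℝ)) =>
        G (fun i => (p.1.1 i, p.1.2 i), fun d => (p.2.1 d, p.2.2 d)) := by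
      refine hG.comp (Measurable.prodMk ?_ ?_)
      · refine measurable_pi_lambda _ fun i => ?_
        fun_prop
      · refine measurable_pi_lambda _ fun i => ?_
        fun_prop
    calc _ = ∫⁻ p, G (fun i => (p.1.1 i, p.1.2 i), fun d => (p.2.1 d, p.2.2 d))
          ∂(((Measure.pi fun _ : Fin n => u1).prod (Measure.pi fun _ : Fin n => u1)).prod
            ((Measure.pi fun _ : κ => u1).prod (Measure.pi fun _ : κ => u1))) := rfl
      _ = ∫⁻ q : (Fin n → ℝ) × (Fin n → ℝ), ∫⁻ r : (κ → ℝ) × (κ → ℝ),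
            G (fun i => (q.1 i, q.2 i), fun d => (r.1 d, r.2 d))
            ∂((Measure.pi fun _ => u1).prod (Measure.pi fun _ => u1))
            ∂((Measure.pi fun _ => u1).prod (Measure.pi fun _ => u1)) :=
          lintegral_prod _ hG'.aemeasurable
      _ = ∫⁻ y, ∫⁻ x, ∫⁻ r : (κ → ℝ) × (κ → ℝ),
            G (fun i => (x i, y i), fun d => (r.1 d, r.2 d))
            ∂((Measure.pi fun _ => u1).prod (Measure.pi fun _ => u1))
            ∂(Measure.pi fun _ => u1) ∂(Measure.pi fun _ => u1) := by
          rw [lintegral_prod_symm]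
          exact (hG'.lintegral_prod_right').aemeasurable
      _ = ∫⁻ y, ∫⁻ x, ∫⁻ η, ∫⁻ ξ,
            G (fun i => (x i, y i), fun d => (ξ d, η d))
            ∂(Measure.pi fun _ => u1) ∂(Measure.pi fun _ => u1)
            ∂(Measure.pi fun _ => u1) ∂(Measure.pi fun _ => u1) := by
          refine lintegral_congr fun y => lintegral_congr fun x => ?_
          rw [lintegral_prod_symm]
          exact (hG'.comp (measurable_prodMk_left (x := (x, y)))).aemeasurable
      _ = _ := by
          refine lintegral_congr fun y => ?_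
          rw [lintegral_lintegral_swap]
          apply Measurable.aemeasurable
          have : Measurable fun p : ((Fin n → ℝ) × (κ → ℝ)) × (κ → ℝ) =>
              G (fun i => (p.1.1 i, y i), fun d => (p.2 d, p.1.2 d)) := by
            refine hG.comp (Measurable.prodMk ?_ ?_)
            · refine measurable_pi_lambda _ fun i => ?_
              fun_prop
            · refine measurable_pi_lambda _ fun i => ?_
              fun_prop
          exact this.lintegral_prod_right'
  · exact ((MeasurableEquiv.arrowProdEquivProdArrow ℝ ℝ (Fin n)).symm.prodCongr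
      (MeasurableEquiv.arrowProdEquivProdArrow ℝ ℝ κ).symm).measurableEmbedding

end Pool.Agent.SM
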