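import Pool.Agent.MP_d30e2b_pr.TaskA
import Pool.Agent.MP_d30e2b_pr.Defs2
import Pool.Agent.MP_d30e2b_pr.Red

set_option autoImplicit false

/-! symmetries: relabelling the women, exchanging men and women -/

namespace Pool.Agent.SM

open MeasureTheory Set
open scoped ENNReal

variable {n : ℕ}

/-- relabel the women so that `μ` becomes the identity -/
def rl (μ : Equiv.Perm (Fin n)) (z : Conf n) : Conf n := fun q => z (q.1, μ q.2)

theorem mp_rl (μ : Equiv.Perm (Fin n)) : MeasurePreserving (rl μ) (P n) (P n) :=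
  mp_twist n (Equiv.prodCongr (Equiv.refl _) μ) (Equiv.prodCongr (Equiv.refl _) μ)

theorem mx_rl (μ ρ : Equiv.Perm (Fin n)) (z : Conf n) : mx (rl μ z) ρ = mx z (μ * ρ) := rfl

theorem wy_rl (μ ρ : Equiv.Perm (Fin n)) (z : Conf n) : wy (rl μ z) ρ = wy z (μ * ρ) := rfl

theorem tt_rl (μ ρ : Equiv.Perm (Fin n)) (z : Conf n) : tt (rl μ z) ρ = tt z (μ * ρ) := rfl

theorem stab_rl (μ ρ : Equiv.Perm (Fin n)) (z : Conf n) : Stab (rl μ z) ρ ↔ Stab z (μ * ρ) := by
  unfold Stab rl
  constructor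
  · intro h i j hj
    have := h i (μ.symm j) (by
      intro h'
      apply hj
      simp [h'])
    have e : (μ * ρ).symm j = ρ.symm (μ.symm j) := rfl
    rw [e]
    simpa [Equiv.Perm.mul_apply] using this
  · intro h i j hj
    have := h i (μ j) (by
      intro h'
      apply hj
      exact μ.injective h')
    have e : (μ * ρ).symm (μ j) = ρ.symm j := by
      rw [Equiv.symm_apply_eq]
      simp
    rw [e] at this
    simpa [Equiv.Perm.mul_apply] using this

theorem low_rl (μ ρ σ : Equiv.Perm (Fin n)) (z : Conf n) : Low (rl μ z) ρ σ ↔ Low z (μ * ρ) σ := by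
  unfold Low
  rw [stab_rl, mul_assoc]
  simp only [mx_rl, wy_rl]

theorem upp_rl (μ ρ σ : Equiv.Perm (Fin n)) (z : Conf n) : Upp (rl μ z) ρ σ ↔ Upp z (μ * ρ) σ := by
  unfold Upp
  rw [stab_rl, mul_assoc]
  simp only [mx_rl, wy_rl]

theorem clean_rl (μ ρ σ : Equiv.Perm (Fin n)) (z : Conf n) :
    Clean (rl μ z) ρ σ ↔ Clean z (μ * ρ) σ := by
  unfold Clean
  simp only [mx_rl, wy_rl, mul_assoc]
  rfl

theorem nice_rl (C τ₁ τ₂ : ℝ) (μ ρ : Equiv.Perm (Fin n)) (z : Conf n) :
    Nice C τ₁ τ₂ (rl μ z) ρ ↔ Nice C τ₁ τ₂ z (μ * ρ) := by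
  unfold Nice
  rw [mx_rl, wy_rl]

theorem gw_rl (μ ρ : Equiv.Perm (Fin n)) (z : Conf n) : gw (rl μ z) ρ = gw z (μ * ρ) := by
  unfold gw
  rw [mx_rl, wy_rl]

theorem sum_rl (F : Conf n → Equiv.Perm (Fin n) → ℝ≥0∞) (hF : Measurable fun z => F z 1)
    (h : ∀ z μ, F z μ = F (rl μ z) 1) :
    ∫⁻ z, ∑ μ, F z μ ∂(P n) = (n.factorial : ℝ≥0∞) * ∫⁻ z, F z 1 ∂(P n) := by
  have hm : ∀ μ, Measurable fun z => F z μ := by
    intro μ
    simp_rw [h _ μ]
    exact hF.comp (mp_rl μ).measurable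
  rw [lintegral_finsetSum _ fun μ _ => hm μ]
  have h1 : ∀ μ, ∫⁻ z, F z μ ∂(P n) = ∫⁻ z, F z 1 ∂(P n) := by
    intro μ
    simp_rw [h _ μ]
    exact (mp_rl μ).lintegral_comp hF
  simp_rw [h1]
  rw [Finset.sum_const, Finset.card_univ, Fintype.card_perm, Fintype.card_fin, nsmul_eq_mul]

/-- exchange men and women -/
def tr (z : Conf n) : Conf n := fun q => (z q.swap).swap

theorem mp_tr : MeasurePreserving (tr (n := n)) (P n) (P n) := by
  have h1 : MeasurePreserving (fun (z : Conf n) q => (z q).swap) (P n) (P n) := by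
    unfold P
    refine measurePreserving_pi (fun _ => u2) (fun _ => u2) (f := fun _ => Prod.swap) fun _ => ?_
    have hu : u2 = u1.prod u1 := rfl
    rw [hu]
    exact Measure.measurePreserving_swap
  have h2 : MeasurePreserving (fun (z : Conf n) q => ((z ((Equiv.prodComm _ _) q)).1,
      (z ((Equiv.prodComm _ _) q)).2)) (P n) (P n) :=
    mp_twist n (Equiv.prodComm _ _) (Equiv.prodComm _ _)
  exact h1.comp h2

theorem stab_tr (z : Conf n) (μ : Equiv.Perm (Fin n)) : Stab (tr z) μ⁻¹ ↔ Stab z μ := by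
  unfold Stab tr
  constructor
  · intro h i j hj
    have := h j i (by
      intro h'
      apply hj
      rw [← h']
      simp)
    rintro ⟨a, b⟩
    apply this
    refine ⟨?_, ?_⟩
    · simpa [Equiv.Perm.inv_def] using b
    · simpa [Equiv.Perm.inv_def] using a
  · intro h i j hj
    have := h j i (by
      intro h'
      apply hj
      rw [← h']
      simp)
    rintro ⟨a, b⟩
    apply this
    refine ⟨?_, ?_⟩
    · simpa [Equiv.Perm.inv_def] using b
    · simpa [Equiv.Perm.inv_def] using a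

theorem upp_tr (z : Conf n) (υ : Equiv.Perm (Fin n)) : Low (tr z) 1 υ⁻¹ ↔ Upp z 1 υ := by
  unfold Low Upp
  rw [one_mul, stab_tr, one_mul]
  refine and_congr_right fun _ => ?_
  constructor
  · intro h i hi
    have := h (υ i) (by
      simpa using fun h' => hi h'.symm)
    simpa [mx, wy, tr] using this.symm
  · intro h i hi
    have := h (υ⁻¹ i) (by
      have e : υ (υ⁻¹ i) = i := Equiv.apply_symm_apply υ i
      rw [e]
      exact fun h' => hi h'.symm)
    simpa [mx, wy, tr] using this.symm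

end Pool.Agent.SM
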