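import Pool.Agent.MP_d30e2b_pr.Defs

set_option autoImplicit false

/-!
Task B: counting permutations by their number of cycles.
-/

namespace Pool.Agent.SM

open Equiv Equiv.Perm
open scoped Nat

lemma countPerms_spec (m : Multiset ℕ) :
    (∏ a ∈ m.toFinset, (m.count a)!) * m.countPerms = (Multiset.card m)! := by
  unfold Multiset.countPerms
  rw [Finsupp.multinomial_eq]
  have h1 : m.toFinsupp.support = m.toFinset := Multiset.toFinsupp_support m
  rw [h1]
  have h2 := Nat.multinomial_spec m.toFinset (fun a => m.count a)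
  rw [Multiset.toFinset_sum_count_eq] at h2
  rw [← h2]
  rfl

theorem card_cycles_le (n L j : ℕ) :
    ∑ σ ∈ (Finset.univ : Finset (Perm (Fin n))).filter
        (fun σ => σ.cycleType.card = j ∧ ∀ l ∈ σ.cycleType, l ≤ L),
      (((n - σ.support.card).factorial : ℕ) : ℝ) ≤
    (n.factorial : ℝ) * (∑ l ∈ Finset.Icc 2 L, (1 : ℝ) / l) ^ j / j.factorial := by
  classical
  set F := (Finset.univ : Finset (Perm (Fin n))).filter
        (fun σ => σ.cycleType.card = j ∧ ∀ l ∈ σ.cycleType, l ≤ L) with hF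
  set T := (Finset.Icc 2 L).sym j with hT
  set T' : Finset (Multiset ℕ) := T.image (fun k : Sym ℕ j => (k : Multiset ℕ)) with hT'
  have hmaps : ∀ σ ∈ F, σ.cycleType ∈ T' := by
    intro σ hσ
    rw [hF, Finset.mem_filter] at hσ
    rw [hT', Finset.mem_image]
    refine ⟨⟨σ.cycleType, hσ.2.1⟩, ?_, rfl⟩
    rw [hT, Finset.mem_sym_iff]
    intro a ha
    have ha' : a ∈ σ.cycleType := ha
    rw [Finset.mem_Icc]
    exact ⟨two_le_of_mem_cycleType ha', hσ.2.2 a ha'⟩
  rw [← Finset.sum_fiberwise_of_maps_to hmaps]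
  have hinj : Set.InjOn (fun k : Sym ℕ j => (k : Multiset ℕ)) (T : Set (Sym ℕ j)) := by
    intro a _ b _ h
    exact Subtype.ext h
  rw [hT', Finset.sum_image hinj]
  rw [Finset.sum_pow, Finset.mul_sum, Finset.sum_div]
  refine Finset.sum_le_sum ?_
  intro k hk
  set m : Multiset ℕ := (k : Multiset ℕ) with hm
  have hcard : Multiset.card m = j := k.2
  have hpos : ∀ a ∈ m, 0 < a := by
    intro a ha
    rw [hT, Finset.mem_sym_iff] at hk
    have := hk a ha
    rw [Finset.mem_Icc] at this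
    omega
  have hprod : 0 < m.prod := Multiset.prod_pos hpos
  -- bound the fiber
  have h1 : ∑ σ ∈ F with σ.cycleType = m, (((n - σ.support.card).factorial : ℕ) : ℝ) ≤
      ((Finset.univ.filter fun g : Perm (Fin n) => g.cycleType = m).card : ℝ) *
        (((n - m.sum)! : ℕ) : ℝ) := by
    have h2 : ∑ σ ∈ F with σ.cycleType = m, (((n - σ.support.card).factorial : ℕ) : ℝ) =
        ∑ σ ∈ F with σ.cycleType = m, (((n - m.sum)! : ℕ) : ℝ) := by
      refine Finset.sum_congr rfl ?_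
      intro σ hσ
      rw [Finset.mem_filter] at hσ
      rw [← hσ.2, sum_cycleType]
    rw [h2, Finset.sum_const, nsmul_eq_mul]
    refine mul_le_mul_of_nonneg_right ?_ (Nat.cast_nonneg _)
    refine Nat.cast_le.mpr (Finset.card_le_card ?_)
    intro σ hσ
    rw [Finset.mem_filter] at hσ ⊢
    exact ⟨Finset.mem_univ _, hσ.2⟩
  refine h1.trans ?_
  have h3 := card_of_cycleType_mul_eq (Fin n) m
  rw [Fintype.card_fin] at h3
  have h4 : ((Finset.univ.filter fun g : Perm (Fin n) => g.cycleType = m).card) *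
      ((n - m.sum)! * m.prod * (∏ a ∈ m.toFinset, (m.count a)!)) ≤ n ! := by
    rw [h3]
    split_ifs
    · exact le_rfl
    · exact Nat.zero_le _
  have h5 := countPerms_spec m
  rw [hcard] at h5
  set c := (Finset.univ.filter fun g : Perm (Fin n) => g.cycleType = m).card with hc
  set q := ∏ a ∈ m.toFinset, (m.count a)! with hq
  have hqpos : 0 < q := Finset.prod_pos fun a _ => Nat.factorial_pos _
  have h6 : (m.map fun l : ℕ => (1 : ℝ) / (l : ℝ)).prod = 1 / (m.prod : ℝ) := by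
    have : (m.map fun l : ℕ => (1 : ℝ) / (l : ℝ)).prod = ((m.map fun l : ℕ => (l : ℝ)).prod)⁻¹ := by
      rw [← Multiset.prod_map_inv]
      simp
    rw [this, Nat.cast_multiset_prod, one_div]
  change (c : ℝ) * (((n - m.sum)! : ℕ) : ℝ) ≤
    (n ! : ℝ) * ((m.countPerms : ℝ) * (m.map fun l : ℕ => (1 : ℝ) / (l : ℝ)).prod) / (j ! : ℝ)
  rw [h6]
  have h7 : (m.countPerms : ℝ) = (j ! : ℝ) / (q : ℝ) := by
    rw [eq_div_iff (by positivity)]
    rw [mul_comm]
    exact_mod_cast h5
  rw [h7]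
  have h8 : (c : ℝ) * (((n - m.sum)! : ℕ) : ℝ) * ((m.prod : ℝ) * (q : ℝ)) ≤ (n ! : ℝ) := by
    have : c * (n - m.sum)! * (m.prod * q) ≤ n ! := by
      calc c * (n - m.sum)! * (m.prod * q) = c * ((n - m.sum)! * m.prod * q) := by ring
        _ ≤ n ! := h4
    exact_mod_cast this
  have hmp : (0 : ℝ) < (m.prod : ℝ) := by exact_mod_cast hprod
  have hqp : (0 : ℝ) < (q : ℝ) := by exact_mod_cast hqpos
  have hjp : (0 : ℝ) < (j ! : ℝ) := by exact_mod_cast Nat.factorial_pos j
  have h9 : (n ! : ℝ) * ((j ! : ℝ) / (q : ℝ) * (1 / (m.prod : ℝ))) / (j ! : ℝ) =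
      (n ! : ℝ) / ((m.prod : ℝ) * (q : ℝ)) := by
    field_simp
  rw [h9, le_div_iff₀ (by positivity)]
  exact h8

end Pool.Agent.SM
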