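import Pool.Agent.MP_d30e2b_pr.Defs2

set_option autoImplicit false

/-! Task M: measurability -/

namespace Pool.Agent.SM

open MeasureTheory
open scoped ENNReal

section meas
variable {n : ℕ} (μ σ : Equiv.Perm (Fin n))

/-- a finite conjunction/negation style helper -/
theorem meas_fst (p : Fin n × Fin n) : Measurable fun z : Conf n => (z p).1 :=
  measurable_fst.comp (measurable_pi_apply p)

theorem meas_snd (p : Fin n × Fin n) : Measurable fun z : Conf n => (z p).2 :=
  measurable_snd.comp (measurable_pi_apply p)

theorem meas_fst_lt (p q : Fin n × Fin n) : MeasurableSet {z : Conf n | (z p).1 < (z q).1} :=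
  measurableSet_lt (meas_fst p) (meas_fst q)

theorem meas_snd_lt (p q : Fin n × Fin n) : MeasurableSet {z : Conf n | (z p).2 < (z q).2} :=
  measurableSet_lt (meas_snd p) (meas_snd q)

theorem ms_and {p q : Conf n → Prop} (hp : MeasurableSet {z | p z}) (hq : MeasurableSet {z | q z}) :
    MeasurableSet {z | p z ∧ q z} := hp.inter hq

theorem ms_not {p : Conf n → Prop} (hp : MeasurableSet {z | p z}) :
    MeasurableSet {z | ¬ p z} := hp.compl

theorem ms_imp {p q : Conf n → Prop} (hp : MeasurableSet {z | p z}) (hq : MeasurableSet {z | q z}) :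
    MeasurableSet {z | p z → q z} := by
  have : {z : Conf n | p z → q z} = {z | p z}ᶜ ∪ {z | q z} := by
    ext z; simp [imp_iff_not_or]
  rw [this]
  exact hp.compl.union hq

theorem ms_forall {ι : Sort*} [Countable ι] {p : ι → Conf n → Prop}
    (hp : ∀ i, MeasurableSet {z | p i z}) :
    MeasurableSet {z | ∀ i, p i z} := by
  have : {z : Conf n | ∀ i, p i z} = ⋂ i, {z | p i z} := by
    ext z; simp
  rw [this]
  exact MeasurableSet.iInter hp

theorem ms_exists {ι : Sort*} [Countable ι] {p : ι → Conf n → Prop}
    (hp : ∀ i, MeasurableSet {z | p i z}) :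
    MeasurableSet {z | ∃ i, p i z} := by
  have : {z : Conf n | ∃ i, p i z} = ⋃ i, {z | p i z} := by
    ext z; simp
  rw [this]
  exact MeasurableSet.iUnion hp

theorem ms_const (p : Prop) : MeasurableSet {_z : Conf n | p} := by
  by_cases h : p <;> simp [h]

theorem meas_Stab : MeasurableSet {z : Conf n | Stab z μ} := by
  unfold Stab
  refine ms_forall fun i => ms_forall fun j => ms_imp (ms_const _) (ms_not (ms_and ?_ ?_))
  · exact meas_fst_lt _ _
  · exact meas_snd_lt _ _

theorem meas_mx (i : Fin n) : Measurable fun z : Conf n => mx z μ i := meas_fst _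

theorem meas_wy (i : Fin n) : Measurable fun z : Conf n => wy z μ i := meas_snd _

theorem meas_Low : MeasurableSet {z : Conf n | Low z μ σ} := by
  unfold Low
  refine ms_and (meas_Stab _) (ms_forall fun i => ms_imp (ms_const _) (ms_and ?_ ?_))
  · exact meas_fst_lt _ _
  · exact meas_snd_lt _ _

theorem meas_Upp : MeasurableSet {z : Conf n | Upp z μ σ} := by
  unfold Upp
  refine ms_and (meas_Stab _) (ms_forall fun i => ms_imp (ms_const _) (ms_and ?_ ?_))
  · exact meas_fst_lt _ _
  · exact meas_snd_lt _ _

theorem meas_Clean : MeasurableSet {z : Conf n | Clean z μ σ} := by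
  unfold Clean
  refine ms_forall fun i => ms_forall fun j => ms_imp (ms_const _) (ms_imp (ms_const _)
    (ms_not (ms_and ?_ ?_)))
  · exact meas_fst_lt _ _
  · exact meas_snd_lt _ _

theorem meas_tt : Measurable fun z : Conf n => tt z μ := by
  unfold tt
  exact Finset.measurable_fun_sum _ fun i _ => meas_wy μ i

theorem meas_Win (τ₁ τ₂ : ℝ) : MeasurableSet {z : Conf n | Win τ₁ τ₂ (tt z μ)} := by
  unfold Win
  exact ms_and (measurableSet_le measurable_const (meas_tt μ))
    (measurableSet_le (meas_tt μ) measurable_const)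

theorem meas_sum_mx_pow (k : ℕ) : Measurable fun z : Conf n => ∑ i, mx z μ i ^ k :=
  Finset.measurable_fun_sum _ fun i _ => (meas_mx μ i).pow_const k

theorem meas_sum_wy_pow (k : ℕ) : Measurable fun z : Conf n => ∑ i, wy z μ i ^ k :=
  Finset.measurable_fun_sum _ fun i _ => (meas_wy μ i).pow_const k

theorem meas_sum_mx : Measurable fun z : Conf n => ∑ i, mx z μ i :=
  Finset.measurable_fun_sum _ fun i _ => meas_mx μ i

theorem meas_Nice (C τ₁ τ₂ : ℝ) : MeasurableSet {z : Conf n | Nice C τ₁ τ₂ z μ} := by
  unfold Nice NiceXY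
  have ht : Measurable fun z : Conf n => ∑ i, wy z μ i := meas_tt μ
  refine ms_and (meas_Win μ τ₁ τ₂) (ms_and ?_ (ms_and ?_ (ms_and ?_ (ms_and ?_ ?_))))
  · exact measurableSet_le (measurable_const.div (ht.const_mul 2)) (meas_sum_mx μ)
  · exact measurableSet_le (meas_sum_mx_pow μ 2) (measurable_const.div (ht.pow_const 2))
  · exact measurableSet_le (meas_sum_mx_pow μ 3) (measurable_const.div (ht.pow_const 3))
  · exact measurableSet_le (meas_sum_wy_pow μ 2) (((ht.pow_const 2).const_mul C).div_const _)
  · exact measurableSet_le (meas_sum_wy_pow μ 3) (((ht.pow_const 3).const_mul C).div_const _)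

theorem meas_gw : Measurable fun z : Conf n => gw z μ := by
  unfold gw
  exact ((((meas_sum_mx_pow μ 2).mul (meas_sum_wy_pow μ 2)).div_const 2).exp).ennreal_ofReal

open Classical in
/-- counting functions are measurable -/
theorem meas_card_filter {p : Equiv.Perm (Fin n) → Conf n → Prop}
    (hp : ∀ τ, MeasurableSet {z | p τ z}) :
    Measurable fun z : Conf n => (Finset.univ.filter fun τ => p τ z).card := by
  simp only [Finset.card_filter]
  exact Finset.measurable_fun_sum _ fun τ _ =>
    Measurable.ite (hp τ) measurable_const measurable_const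

theorem meas_nst : Measurable fun z : Conf n => (nst z : ℝ≥0∞) := by
  classical
  have h : Measurable fun z : Conf n => nst z := by
    unfold nst
    exact meas_card_filter fun μ => meas_Stab μ
  exact (measurable_of_countable _).comp h

theorem meas_DD (L : ℕ) : Measurable fun z : Conf n => DD z μ L := by
  unfold DD
  have h := meas_card_filter (p := fun τ z => Low z μ τ ∧ L ≤ τ.support.card ∧
    τ.support.card < 2 * L) fun τ => ms_and (meas_Low μ τ) (ms_const _)
  convert h

theorem meas_Trunc (a₀ : ℕ) (δ η : ℝ) : MeasurableSet {z : Conf n | Trunc a₀ δ η z μ} := by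
  unfold Trunc
  refine ms_forall fun a => ms_imp (ms_const _) (ms_imp (ms_const _) ?_)
  exact measurableSet_le ((measurable_of_countable _).comp (meas_DD μ (2 ^ a))) measurable_const

theorem meas_Inc (μ' : Equiv.Perm (Fin n)) : MeasurableSet {z : Conf n | Inc z μ μ'} := by
  unfold Inc
  exact ms_and (ms_not (ms_exists fun σ => ms_and (meas_Low μ σ) (ms_const _)))
    (ms_not (ms_exists fun σ => ms_and (meas_Low μ' σ) (ms_const _)))

end meas

end Pool.Agent.SM
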