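import Pool.Agent.MP_d30e2b_pr.Prob
import Pool.Agent.MP_d30e2b_pr.Sym
import Pool.Agent.MP_d30e2b_pr.TaskB
import Pool.Agent.MP_d30e2b_pr.TaskM
import Pool.Agent.MP_d30e2b_pr.Count

set_option autoImplicit false

/-! expected numbers -/

namespace Pool.Agent.SM

open MeasureTheory Set
open scoped ENNReal

section

variable {n : ℕ}

theorem sum_rl_one {T : Type*} [Fintype T] (Q : Conf n → Equiv.Perm (Fin n) → T → Prop)
    [∀ z μ τ, Decidable (Q z μ τ)]
    (hm : ∀ τ, MeasurableSet {z | Q z 1 τ}) (hQ : ∀ z μ τ, Q z μ τ ↔ Q (rl μ z) 1 τ)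
    (b : T → ℝ≥0∞)
    (hb : ∀ τ, ∫⁻ z, (if Q z 1 τ then (1 : ℝ≥0∞) else 0) ∂(P n) ≤ b τ) :
    ∫⁻ z, ∑ μ : Equiv.Perm (Fin n), ∑ τ : T,
      (if Q z μ τ then (1 : ℝ≥0∞) else 0) ∂(P n) ≤ (n.factorial : ℝ≥0∞) * ∑ τ, b τ := by
  have hmi : ∀ τ, Measurable fun z : Conf n => (if Q z 1 τ then (1 : ℝ≥0∞) else 0) := fun τ =>
    Measurable.ite (hm τ) measurable_const measurable_const
  rw [sum_rl (fun z μ => ∑ τ : T, (if Q z μ τ then (1 : ℝ≥0∞) else 0))]
  · refine mul_le_mul_right ?_ _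
    rw [lintegral_finsetSum _ fun τ _ => hmi τ]
    exact Finset.sum_le_sum fun τ _ => hb τ
  · exact Finset.measurable_sum _ fun τ _ => hmi τ
  · intro z μ
    refine Finset.sum_congr rfl fun τ _ => ?_
    rw [if_congr (hQ z μ τ) rfl rfl]

theorem mul_one_perm (μ : Equiv.Perm (Fin n)) : μ * 1 = μ := mul_one μ

end

theorem log_ratio_nonneg {τ₁ τ₂ : ℝ} (h1 : 4 ≤ τ₁) (h2 : τ₁ ≤ τ₂) : 0 ≤ Real.log (τ₂ / τ₁) :=
  Real.log_nonneg (by rw [le_div_iff₀ (by linarith)]; linarith)

theorem fact_ratio (n : ℕ) (hn : 1 ≤ n) : (n.factorial : ℝ) / (n - 1).factorial = n := by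
  obtain ⟨m, rfl⟩ : ∃ m, n = m + 1 := ⟨n - 1, by omega⟩
  rw [show m + 1 - 1 = m by omega, Nat.factorial_succ]
  push_cast
  have : (m.factorial : ℝ) ≠ 0 := by positivity
  field_simp

open Classical in
/-- S8: lower matchings with `j` cycles of length at most `M` -/
theorem exp_cycles (n : ℕ) (τ₁ τ₂ : ℝ) (h1 : 4 ≤ τ₁) (h2 : τ₁ ≤ τ₂) (M j : ℕ) (hMj : M * j < n) :
    ∫⁻ z, ∑ μ : Equiv.Perm (Fin n), ∑ τ : Equiv.Perm (Fin n),
      (if Stab z μ ∧ Win τ₁ τ₂ (tt z μ) ∧ Low z μ τ ∧ τ.cycleType.card = j ∧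
        (∀ l ∈ τ.cycleType, l ≤ M) then (1 : ℝ≥0∞) else 0) ∂(P n) ≤
    ENNReal.ofReal (Real.exp 9 * Real.log (τ₂ / τ₁) * (n : ℝ) ^ 2 / (n - M * j) *
      ((∑ l ∈ Finset.Icc 2 M, (1 : ℝ) / l) ^ j / j.factorial)) := by
  have hlog := log_ratio_nonneg h1 h2
  have hn : 1 ≤ n := by omega
  set S := (Finset.univ : Finset (Equiv.Perm (Fin n))).filter
        (fun σ => σ.cycleType.card = j ∧ ∀ l ∈ σ.cycleType, l ≤ M) with hS
  have hcard : ∀ τ ∈ S, τ.support.card ≤ M * j := by
    intro τ hτ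
    simp only [hS, Finset.mem_filter, Finset.mem_univ, true_and] at hτ
    rw [← Equiv.Perm.sum_cycleType]
    calc τ.cycleType.sum ≤ τ.cycleType.card • M := Multiset.sum_le_card_nsmul _ _ hτ.2
      _ = M * j := by rw [hτ.1, smul_eq_mul, mul_comm]
  have hMj' : (0 : ℝ) < n - M * j := by
    have : ((M * j : ℕ) : ℝ) < n := by exact_mod_cast hMj
    push_cast at this
    linarith
  refine (sum_rl_one (fun z μ τ => Stab z μ ∧ Win τ₁ τ₂ (tt z μ) ∧ Low z μ τ ∧
    τ.cycleType.card = j ∧ (∀ l ∈ τ.cycleType, l ≤ M)) ?_ ?_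
    (fun τ => if τ ∈ S then ENNReal.ofReal (Real.exp 9 * (Real.log (τ₂ / τ₁) *
        ((n - τ.support.card).factorial / (n - M * j) / (n - 1).factorial / (n - 1).factorial)))
        else 0) ?_).trans ?_
  · intro τ
    exact ms_and (meas_Stab 1) (ms_and (meas_Win 1 _ _) (ms_and (meas_Low 1 τ) (ms_const _)))
  · intro z μ τ
    rw [stab_rl, tt_rl, low_rl, mul_one]
  · intro τ
    by_cases hτ : τ ∈ S
    · rw [if_pos hτ]
      have hτ' := hτ
      simp only [hS, Finset.mem_filter, Finset.mem_univ, true_and] at hτ'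
      have hk := hcard τ hτ
      have e1 : ∀ z : Conf n, (if Stab z 1 ∧ Win τ₁ τ₂ (tt z 1) ∧ Low z 1 τ ∧
          τ.cycleType.card = j ∧ (∀ l ∈ τ.cycleType, l ≤ M) then (1 : ℝ≥0∞) else 0)
          = (if Stab z 1 ∧ Low z 1 τ ∧ Win τ₁ τ₂ (tt z 1) then (1 : ℝ≥0∞) else 0) := by
        intro z
        refine if_congr ?_ rfl rfl
        tauto
      simp_rw [e1]
      refine (prob_low τ h1 h2 (by omega)).trans (ENNReal.ofReal_le_ofReal ?_)
      refine mul_le_mul_of_nonneg_left (mul_le_mul_of_nonneg_left ?_ hlog) (by positivity)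
      refine div_le_div_of_nonneg_right (div_le_div_of_nonneg_right ?_ (by positivity))
        (by positivity)
      rw [le_div_iff₀ hMj']
      have h3 : (n - τ.support.card).factorial
          = (n - τ.support.card) * (n - τ.support.card - 1).factorial := by
        rw [← Nat.mul_factorial_pred (by omega : n - τ.support.card ≠ 0)]
      rw [h3]
      push_cast
      rw [Nat.cast_sub (by omega), mul_comm]
      refine mul_le_mul_of_nonneg_right ?_ (by positivity)
      have : (τ.support.card : ℝ) ≤ M * j := by exact_mod_cast hk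
      linarith
    · rw [if_neg hτ]
      have e1 : ∀ z : Conf n, (if Stab z 1 ∧ Win τ₁ τ₂ (tt z 1) ∧ Low z 1 τ ∧
          τ.cycleType.card = j ∧ (∀ l ∈ τ.cycleType, l ≤ M) then (1 : ℝ≥0∞) else 0)
          = 0 := by
        intro z
        rw [if_neg]
        intro h
        apply hτ
        simp only [hS, Finset.mem_filter, Finset.mem_univ, true_and]
        exact h.2.2.2
      simp_rw [e1]
      simp
  · rw [← Finset.sum_filter, Finset.filter_mem_eq_inter, Finset.univ_inter,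
      ← ENNReal.ofReal_sum_of_nonneg (fun τ _ => by positivity), ← ENNReal.ofReal_natCast,
      ← ENNReal.ofReal_mul (by positivity)]
    refine ENNReal.ofReal_le_ofReal ?_
    have hB := card_cycles_le n M j
    rw [← Finset.mul_sum, ← Finset.mul_sum]
    simp_rw [div_eq_mul_inv]
    rw [← Finset.sum_mul, ← Finset.sum_mul, ← Finset.sum_mul]
    have hF := fact_ratio n hn
    have hf0 : (0:ℝ) < (n - 1).factorial := by positivity
    have hF' : (n.factorial : ℝ) = n * (n - 1).factorial := by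
      rw [← hF]; field_simp
    calc _ ≤ (n.factorial : ℝ) * (Real.exp 9 * (Real.log (τ₂ * τ₁⁻¹) *
          (((n.factorial : ℝ) * (∑ l ∈ Finset.Icc 2 M, (1 : ℝ) / l) ^ j / j.factorial) *
            ((n : ℝ) - M * j)⁻¹ * ((n - 1).factorial : ℝ)⁻¹ * ((n - 1).factorial : ℝ)⁻¹))) := by
          rw [← div_eq_mul_inv τ₂]
          gcongr
      _ = _ := by
          rw [hF']
          field_simp

open Classical in
/-- S5: two lower neighbours of a common stable matching -/
theorem exp_vee (n : ℕ) (τ₁ τ₂ : ℝ) (h1 : 4 ≤ τ₁) (h2 : τ₁ ≤ τ₂) (k l : ℕ) (hk : 1 ≤ k) (hl : 1 ≤ l)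
    (hkl : k + l ≤ n) :
    ∫⁻ z, ∑ ν : Equiv.Perm (Fin n), ∑ σA : Equiv.Perm (Fin n), ∑ σB : Equiv.Perm (Fin n),
      (if Stab z ν ∧ Low z ν σA ∧ Low z ν σB ∧ σA.Disjoint σB ∧ σA.support.card = k ∧
        σB.support.card = l ∧ Win τ₁ τ₂ (tt z (ν * σA)) ∧ Win τ₁ τ₂ (tt z (ν * σB))
        then (1 : ℝ≥0∞) else 0) ∂(P n) ≤
    ENNReal.ofReal (Real.exp 9 * Real.log (τ₂ / τ₁) * (n : ℝ) ^ 2 *
      (((n - l - 1).factorial : ℝ) * ((n - k - 1).factorial : ℝ) /
        (((n - k - l).factorial : ℝ) * ((n - 1).factorial : ℝ)))) := by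
  have hlog := log_ratio_nonneg h1 h2
  have hn : 1 ≤ n := by omega
  have e0 : ∀ (z : Conf n) (ν : Equiv.Perm (Fin n)),
      (∑ σA : Equiv.Perm (Fin n), ∑ σB : Equiv.Perm (Fin n),
      (if Stab z ν ∧ Low z ν σA ∧ Low z ν σB ∧ σA.Disjoint σB ∧ σA.support.card = k ∧
        σB.support.card = l ∧ Win τ₁ τ₂ (tt z (ν * σA)) ∧ Win τ₁ τ₂ (tt z (ν * σB))
        then (1 : ℝ≥0∞) else 0))
      = ∑ p : Equiv.Perm (Fin n) × Equiv.Perm (Fin n),
      (if Stab z ν ∧ Low z ν p.1 ∧ Low z ν p.2 ∧ p.1.Disjoint p.2 ∧ p.1.support.card = k ∧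
        p.2.support.card = l ∧ Win τ₁ τ₂ (tt z (ν * p.1)) ∧ Win τ₁ τ₂ (tt z (ν * p.2))
        then (1 : ℝ≥0∞) else 0) := by
    intro z ν
    rw [Fintype.sum_prod_type]
  simp_rw [e0]
  refine (sum_rl_one (fun z ν (p : Equiv.Perm (Fin n) × Equiv.Perm (Fin n)) =>
    Stab z ν ∧ Low z ν p.1 ∧ Low z ν p.2 ∧ p.1.Disjoint p.2 ∧ p.1.support.card = k ∧
        p.2.support.card = l ∧ Win τ₁ τ₂ (tt z (ν * p.1)) ∧ Win τ₁ τ₂ (tt z (ν * p.2))) ?_ ?_
    (fun p => if p.1.Disjoint p.2 ∧ p.1.support.card = k ∧ p.2.support.card = l then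
        ENNReal.ofReal (Real.exp 9 * (Real.log (τ₂ / τ₁) *
        (((n - l - 1).factorial : ℝ) * (n - k - 1).factorial /
          (n - 1).factorial / (n - 1).factorial / (n - 1).factorial)))
        else 0) ?_).trans ?_
  · intro p
    exact ms_and (meas_Stab 1) (ms_and (meas_Low 1 _) (ms_and (meas_Low 1 _) (ms_and (ms_const _)
      (ms_and (ms_const _) (ms_and (ms_const _) (ms_and (meas_Win _ _ _) (meas_Win _ _ _)))))))
  · intro z μ p
    simp only [stab_rl, tt_rl, low_rl, mul_one, one_mul]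
  · intro p
    by_cases hp : p.1.Disjoint p.2 ∧ p.1.support.card = k ∧ p.2.support.card = l
    · rw [if_pos hp]
      have := prob_vee hp.1 h1 h2 (by omega) (by omega)
      rw [hp.2.1, hp.2.2] at this
      refine le_trans (le_of_eq ?_) this
      refine lintegral_congr fun z => ?_
      refine if_congr ?_ rfl rfl
      simp only [one_mul]
      tauto
    · rw [if_neg hp]
      refine le_of_eq ?_
      rw [lintegral_eq_zero_iff']
      · filter_upwards with z
        rw [if_neg]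
        · rfl
        · tauto
      · exact (Measurable.ite (ms_and (meas_Stab 1) (ms_and (meas_Low 1 _) (ms_and (meas_Low 1 _)
          (ms_and (ms_const _) (ms_and (ms_const _) (ms_and (ms_const _)
          (ms_and (meas_Win _ _ _) (meas_Win _ _ _)))))))) measurable_const
          measurable_const).aemeasurable
  · rw [Fintype.sum_prod_type]
    have e1 : ∀ (σA σB : Equiv.Perm (Fin n)) (c : ℝ≥0∞),
        (if σA.Disjoint σB ∧ σA.support.card = k ∧ σB.support.card = l then c else 0)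
        = c * ((if σA.Disjoint σB ∧ σA.support.card = k ∧ σB.support.card = l then 1 else 0 : ℕ) : ℝ≥0∞) := by
      intro σA σB c
      split_ifs <;> simp
    simp_rw [e1, ← Finset.mul_sum]
    have hc := card_vee_le (n := n) k l hkl
    set N := ∑ σA : Equiv.Perm (Fin n), ∑ σB : Equiv.Perm (Fin n),
      (if σA.Disjoint σB ∧ σA.support.card = k ∧ σB.support.card = l then 1 else 0 : ℕ) with hN
    have e2 : (∑ σA : Equiv.Perm (Fin n), ∑ σB : Equiv.Perm (Fin n),
      ((if σA.Disjoint σB ∧ σA.support.card = k ∧ σB.support.card = l then 1 else 0 : ℕ) : ℝ≥0∞))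
      = ((N : ℕ) : ℝ≥0∞) := by
      rw [hN]
      push_cast
      rfl
    rw [e2, ← ENNReal.ofReal_natCast N, ← ENNReal.ofReal_natCast n.factorial,
      ← ENNReal.ofReal_mul (by positivity), ← ENNReal.ofReal_mul (by positivity)]
    refine ENNReal.ofReal_le_ofReal ?_
    have hc' : (N : ℝ) * ((n - k - l).factorial : ℝ) ≤ (n.factorial : ℝ) := by exact_mod_cast hc
    have hF := fact_ratio n hn
    have hf0 : (0:ℝ) < (n - 1).factorial := by positivity
    have hf1 : (0:ℝ) < (n - k - l).factorial := by positivity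
    have hF' : (n.factorial : ℝ) = n * (n - 1).factorial := by
      rw [← hF]; field_simp
    have hN' : (N : ℝ) ≤ (n.factorial : ℝ) / ((n - k - l).factorial : ℝ) := by
      rwa [le_div_iff₀ hf1]
    calc _ ≤ (n.factorial : ℝ) * (Real.exp 9 * (Real.log (τ₂ / τ₁) *
        (((n - l - 1).factorial : ℝ) * (n - k - 1).factorial /
          (n - 1).factorial / (n - 1).factorial / (n - 1).factorial)) *
          ((n.factorial : ℝ) / ((n - k - l).factorial : ℝ))) := by
          gcongr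
      _ = _ := by
          rw [hF']
          field_simp

end Pool.Agent.SM
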