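import Pool.Agent.MP_d30e2b_pr.Defs2

set_option autoImplicit false

/-! the window `[n^(1/2), n^(3/5)]` -/

namespace Pool.Agent.SM

theorem t1_pos {n : ℕ} (hn : 1 ≤ n) : 0 < t1 n := by
  unfold t1
  have : (0:ℝ) < n := by exact_mod_cast hn
  positivity

theorem t2_pos {n : ℕ} (hn : 1 ≤ n) : 0 < t2 n := by
  unfold t2
  have : (0:ℝ) < n := by exact_mod_cast hn
  positivity

theorem t1_sq (n : ℕ) : t1 n ^ 2 = n := by
  unfold t1
  rw [← Real.rpow_natCast, ← Real.rpow_mul (Nat.cast_nonneg n)]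
  norm_num

theorem t2_pow5 (n : ℕ) : t2 n ^ 5 = (n : ℝ) ^ 3 := by
  unfold t2
  rw [← Real.rpow_natCast, ← Real.rpow_mul (Nat.cast_nonneg n), ← Real.rpow_natCast]
  norm_num

theorem t1_le_t2 {n : ℕ} (hn : 1 ≤ n) : t1 n ≤ t2 n := by
  unfold t1 t2
  exact Real.rpow_le_rpow_of_exponent_le (by exact_mod_cast hn) (by norm_num)

theorem t2_div_t1 {n : ℕ} (hn : 1 ≤ n) : t2 n / t1 n = (n : ℝ) ^ (1 / 10 : ℝ) := by
  unfold t1 t2
  have : (0:ℝ) < n := by exact_mod_cast hn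
  rw [← Real.rpow_sub this]
  norm_num

theorem lam_eq {n : ℕ} (hn : 1 ≤ n) : lam n = Real.log n / 10 := by
  unfold lam
  have : (0:ℝ) < n := by exact_mod_cast hn
  rw [t2_div_t1 hn, Real.log_rpow this]
  ring

theorem t1_ge_four {n : ℕ} (hn : 16 ≤ n) : 4 ≤ t1 n := by
  have h1 := t1_sq n
  have h2 : (16:ℝ) ≤ n := by exact_mod_cast hn
  have h3 := t1_pos (show 1 ≤ n by omega)
  nlinarith

theorem lam_nonneg {n : ℕ} (hn : 1 ≤ n) : 0 ≤ lam n := by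
  rw [lam_eq hn]
  have : 0 ≤ Real.log n := Real.log_nonneg (by exact_mod_cast hn)
  positivity

/-- `8 t2 ≤ n` -/
theorem t2_small {n : ℕ} (hn : 1024 ≤ n) : 8 * t2 n ≤ n := by
  have h1 := t2_pow5 n
  have h2 : (1024:ℝ) ≤ n := by exact_mod_cast hn
  have h3 := t2_pos (show 1 ≤ n by omega)
  by_contra hc
  push Not at hc
  have h4 : (n:ℝ) ^ 5 < (8 * t2 n) ^ 5 := pow_lt_pow_left₀ hc (by positivity) (by norm_num)
  rw [mul_pow, h1] at h4
  have h5 : (n:ℝ) ^ 5 = n ^ 2 * n ^ 3 := by ring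
  have h6 : (1024:ℝ) ^ 2 ≤ (n:ℝ) ^ 2 := pow_le_pow_left₀ (by norm_num) h2 2
  have h7 : (0:ℝ) < (n:ℝ) ^ 3 := by positivity
  nlinarith

end Pool.Agent.SM
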