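import Pool.Agent.MP_d30e2b_pr.Exp
import Pool.Agent.MP_d30e2b_pr.T12

set_option autoImplicit false

/-! number of stable matchings above nice ones -/

namespace Pool.Agent.SM

open MeasureTheory Set
open scoped ENNReal

section
variable {n : ℕ}

theorem tt_tr_one (z : Conf n) : tt (tr z) 1 = ∑ i, mx z 1 i := by
  simp [tt, wy, tr, mx]

theorem stab_tr_one (z : Conf n) : Stab (tr z) 1 ↔ Stab z 1 := by
  have := stab_tr z 1
  simpa using this

/-- the men's total cost of a nice matching lies in a window -/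
theorem nice_s {C τ₁ τ₂ : ℝ} (hC : 1 ≤ C) (h1 : 0 < τ₁) (x y : Fin n → ℝ) (hx : ∀ i, 0 ≤ x i)
    (h : NiceXY C τ₁ τ₂ x y) :
    Win ((n : ℝ) / (2 * τ₂)) (C * n / τ₁) (∑ i, x i) := by
  obtain ⟨⟨ha, hb⟩, h2, h3, -, -, -⟩ := h
  set t := ∑ i, y i with ht
  have ht0 : 0 < t := lt_of_lt_of_le h1 ha
  refine ⟨le_trans ?_ h2, ?_⟩
  · gcongr
  · have hcs : (∑ i, x i) ^ 2 ≤ (n : ℝ) * ∑ i, x i ^ 2 := by
      have := sq_sum_le_card_mul_sum_sq (s := (Finset.univ : Finset (Fin n))) (f := x)
      simpa using this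
    have h4 : (∑ i, x i) ^ 2 ≤ (C * n / τ₁) ^ 2 := by
      calc (∑ i, x i) ^ 2 ≤ (n : ℝ) * ∑ i, x i ^ 2 := hcs
        _ ≤ (n : ℝ) * (C * n / t ^ 2) := by gcongr
        _ = C * n ^ 2 / t ^ 2 := by ring
        _ ≤ C ^ 2 * n ^ 2 / τ₁ ^ 2 := by
            gcongr
            nlinarith
        _ = _ := by ring
    exact le_of_sq_le_sq h4 (by positivity)

end

open Classical in
/-- S6: number of stable matchings above nice ones -/
theorem exp_up (C : ℝ) (hC : 1 ≤ C) : ∃ N : ℕ, ∀ n : ℕ, N ≤ n → ∀ k : ℕ, k < n →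
    ∫⁻ z, ∑ μ : Equiv.Perm (Fin n), ∑ υ : Equiv.Perm (Fin n),
      (if Stab z μ ∧ Nice C (t1 n) (t2 n) z μ ∧ Upp z μ υ ∧ υ.support.card = k
        then (1 : ℝ≥0∞) else 0) ∂(P n) ≤
    ENNReal.ofReal (Real.exp 9 * Real.log n * (n : ℝ) ^ 2 / (n - k)) := by
  refine ⟨max 1024 (⌈4 * C ^ 2⌉₊), fun n hN k hk => ?_⟩
  have hn1024 : 1024 ≤ n := le_trans (le_max_left _ _) hN
  have hnC : 4 * C ^ 2 ≤ n := by
    calc 4 * C ^ 2 ≤ (⌈4 * C ^ 2⌉₊ : ℝ) := Nat.le_ceil _
      _ ≤ n := by exact_mod_cast le_trans (le_max_right _ _) hN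
  have hn : 1 ≤ n := by omega
  have hn0 : (0:ℝ) < n := by exact_mod_cast hn
  have ht1 := t1_pos hn
  have ht2 := t2_pos hn
  set s0 : ℝ := (n : ℝ) / (2 * t2 n) with hs0
  set s1 : ℝ := C * n / t1 n with hs1
  have h4 : 4 ≤ s0 := by
    rw [hs0, le_div_iff₀ (by positivity)]
    have := t2_small hn1024
    linarith
  have h5 : s0 ≤ s1 := by
    rw [hs0, hs1, div_le_div_iff₀ (by positivity) ht1]
    have := t1_le_t2 hn
    have h6 : (n:ℝ) * t1 n ≤ n * t2 n := mul_le_mul_of_nonneg_left this hn0.le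
    have h7 : (n:ℝ) * t2 n ≤ C * n * (2 * t2 n) := by
      have : 0 < (n:ℝ) * t2 n := by positivity
      nlinarith
    linarith
  have hlog : Real.log (s1 / s0) ≤ Real.log n := by
    refine Real.log_le_log (by positivity) ?_
    rw [div_le_iff₀ (by positivity)]
    rw [hs0, hs1]
    rw [show (n : ℝ) * (n / (2 * t2 n)) = n * n / (2 * t2 n) by ring,
      div_le_div_iff₀ ht1 (by positivity)]
    have h8 : t2 n * (2 * C) ≤ n * t1 n := by
      have h9 := t2_small hn1024
      have h10 := t1_sq n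
      have h11 : 2 * C ≤ t1 n := by
        have : (2 * C) ^ 2 ≤ (t1 n) ^ 2 := by rw [h10]; linarith
        exact le_of_sq_le_sq this ht1.le
      have : t2 n ≤ n := by linarith
      exact mul_le_mul this h11 (by positivity) hn0.le
    nlinarith
  have hlog0 : 0 ≤ Real.log (s1 / s0) := log_ratio_nonneg h4 h5
  have hnk : (0:ℝ) < n - k := by
    have : (k:ℝ) < n := by exact_mod_cast hk
    linarith
  refine (sum_rl_one (fun z μ υ => Stab z μ ∧ Nice C (t1 n) (t2 n) z μ ∧ Upp z μ υ ∧
    υ.support.card = k) ?_ ?_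
    (fun υ => if υ.support.card = k then ENNReal.ofReal (Real.exp 9 * (Real.log n *
        ((n - k - 1).factorial / (n - 1).factorial / (n - 1).factorial)))
        else 0) ?_).trans ?_
  · intro υ
    exact ms_and (meas_Stab 1) (ms_and (meas_Nice 1 _ _ _) (ms_and (meas_Upp 1 υ) (ms_const _)))
  · intro z μ υ
    rw [stab_rl, nice_rl, upp_rl, mul_one]
  · intro υ
    by_cases hυ : υ.support.card = k
    · rw [if_pos hυ]
      have hk' : (υ⁻¹).support.card = k := by rw [Equiv.Perm.support_inv]; exact hυ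
      have hp := prob_low υ⁻¹ h4 h5 (by rw [hk']; exact hk)
      rw [hk'] at hp
      calc _ ≤ ∫⁻ z, (if Stab (tr z) 1 ∧ Low (tr z) 1 υ⁻¹ ∧ Win s0 s1 (tt (tr z) 1)
            then (1 : ℝ≥0∞) else 0) ∂(P n) := by
            refine lintegral_mono_ae ?_
            filter_upwards [ae_box n] with z hz
            split_ifs with ha hb
            · exact le_rfl
            · exfalso
              apply hb
              refine ⟨(stab_tr_one z).mpr ha.1, (upp_tr z υ).mpr ha.2.2.1, ?_⟩
              rw [tt_tr_one]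
              exact nice_s hC ht1 _ _ (fun i => (hz _).1.1) ha.2.1
            · exact zero_le
            · exact le_rfl
        _ = ∫⁻ z, (if Stab z 1 ∧ Low z 1 υ⁻¹ ∧ Win s0 s1 (tt z 1)
            then (1 : ℝ≥0∞) else 0) ∂(P n) := by
            exact mp_tr.lintegral_comp (f := fun z => (if Stab z 1 ∧ Low z 1 υ⁻¹ ∧
              Win s0 s1 (tt z 1) then (1 : ℝ≥0∞) else 0)) (Measurable.ite
              (ms_and (meas_Stab 1) (ms_and (meas_Low 1 _) (meas_Win 1 _ _))) measurable_const
              measurable_const)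
        _ ≤ _ := hp.trans (ENNReal.ofReal_le_ofReal (by gcongr))
    · rw [if_neg hυ]
      have e1 : ∀ z : Conf n, (if Stab z 1 ∧ Nice C (t1 n) (t2 n) z 1 ∧ Upp z 1 υ ∧
          υ.support.card = k then (1 : ℝ≥0∞) else 0) = 0 := by
        intro z
        rw [if_neg]
        tauto
      simp_rw [e1]
      simp
  · rw [← Finset.sum_filter, Finset.sum_const, nsmul_eq_mul, ← ENNReal.ofReal_natCast,
      ← ENNReal.ofReal_natCast, ← ENNReal.ofReal_mul (by positivity),
      ← ENNReal.ofReal_mul (by positivity)]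
    refine ENNReal.ofReal_le_ofReal ?_
    have hc := card_support_le (n := n) k (by omega)
    set N := (Finset.univ.filter fun σ : Equiv.Perm (Fin n) => σ.support.card = k).card with hNdef
    have hF := fact_ratio n hn
    have hf0 : (0:ℝ) < (n - 1).factorial := by positivity
    have hF' : (n.factorial : ℝ) = n * (n - 1).factorial := by
      rw [← hF]; field_simp
    have h12 : ((n - k).factorial : ℝ) = (n - k) * (n - k - 1).factorial := by
      rw [← Nat.mul_factorial_pred (by omega : n - k ≠ 0)]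
      push_cast
      rw [Nat.cast_sub (by omega)]
    have hc' : (N : ℝ) * ((n - k).factorial : ℝ) ≤ (n.factorial : ℝ) := by exact_mod_cast hc
    have hN' : (N : ℝ) ≤ (n.factorial : ℝ) / ((n - k) * (n - k - 1).factorial) := by
      rw [le_div_iff₀ (by positivity), ← h12]
      exact hc'
    have hL : 0 ≤ Real.log n := Real.log_nonneg (by exact_mod_cast hn)
    calc _ ≤ (n.factorial : ℝ) * ((n.factorial : ℝ) / ((n - k) * (n - k - 1).factorial) *
          (Real.exp 9 * (Real.log n *
        (((n - k - 1).factorial : ℝ) / (n - 1).factorial / (n - 1).factorial)))) := by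
          gcongr
      _ = _ := by
          rw [hF']
          field_simp

end Pool.Agent.SM
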