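import Pool.Agent.MP_d30e2b_pr.Pair

set_option autoImplicit false

/-! general reduction -/

namespace Pool.Agent.SM

open MeasureTheory Set
open scoped ENNReal

variable {n : ℕ}

open Classical in
theorem triple_gen (σ : Equiv.Perm (Fin n)) (E : Conf n → Prop) [DecidablePred E]
    (B : Rst σ → ((Fin n → ℝ × ℝ) × (Mov σ → ℝ × ℝ)) → Set (ℝ × ℝ))
    (hB : ∀ r, MeasurableSet {p : ((Fin n → ℝ × ℝ) × (Mov σ → ℝ × ℝ)) × (ℝ × ℝ) | p.2 ∈ B r p.1})
    (hE : ∀ z : Conf n, (∀ p, z p ∈ (Icc (0:ℝ) 1) ×ˢ (Icc (0:ℝ) 1)) → E z →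
      Adm σ (zx z) (zy z) (zξ σ z) (zη σ z) ∧ ∀ r : Rst σ, z r.1 ∈ B r (dg z, gr σ z))
    (w : Rst σ → (Fin n → ℝ) → (Fin n → ℝ) → (Mov σ → ℝ) → (Mov σ → ℝ) → ℝ≥0∞)
    (hw : ∀ r x y ξ η, Adm σ x y ξ η →
      u2 (B r (fun i => (x i, y i), fun d => (ξ d, η d))) ≤ w r x y ξ η)
    (hwm : ∀ r, Measurable fun q : (Fin n → ℝ × ℝ) × (Mov σ → ℝ × ℝ) =>
      w r (fun i => (q.1 i).1) (fun i => (q.1 i).2) (fun d => (q.2 d).1) (fun d => (q.2 d).2))
    (K : (Fin n → ℝ) → (Fin n → ℝ) → (Mov σ → ℝ) → (Mov σ → ℝ) → ℝ≥0∞)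
    (hK : Measurable fun q : (Fin n → ℝ × ℝ) × (Mov σ → ℝ × ℝ) =>
      K (fun i => (q.1 i).1) (fun i => (q.1 i).2) (fun d => (q.2 d).1) (fun d => (q.2 d).2)) :
    ∫⁻ z, (if E z then K (zx z) (zy z) (zξ σ z) (zη σ z) else 0) ∂(P n)
    ≤ ∫⁻ y, ∫⁻ η, ∫⁻ x, ∫⁻ ξ,
        (if Adm σ x y ξ η then K x y ξ η * ∏ r : Rst σ, w r x y ξ η else 0)
          ∂(Measure.pi fun _ => u1) ∂(Measure.pi fun _ => u1)
          ∂(Measure.pi fun _ => u1) ∂(Measure.pi fun _ => u1) := by
  let K' : (Fin n → ℝ × ℝ) × (Mov σ → ℝ × ℝ) → ℝ≥0∞ := fun q =>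
    if Adm σ (fun i => (q.1 i).1) (fun i => (q.1 i).2) (fun d => (q.2 d).1) (fun d => (q.2 d).2)
    then K (fun i => (q.1 i).1) (fun i => (q.1 i).2) (fun d => (q.2 d).1) (fun d => (q.2 d).2)
    else 0
  let β : Rst σ → (((Fin n → ℝ × ℝ) × (Mov σ → ℝ × ℝ)) × (ℝ × ℝ)) → ℝ≥0∞ := fun r p =>
    if p.2 ∈ B r p.1 then 1 else 0
  have hK' : Measurable K' := Measurable.ite (meas_Adm σ) hK measurable_const
  have hβ : ∀ r, Measurable (β r) := fun r =>
    Measurable.ite (hB r) measurable_const measurable_const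
  have hred := red σ K' hK' β hβ
  calc _ ≤ ∫⁻ z, K' (dg z, gr σ z) * ∏ r, β r ((dg z, gr σ z), z r.1) ∂(P n) := by
        refine lintegral_mono_ae ?_
        filter_upwards [ae_box n] with z hz
        split_ifs with hev
        · obtain ⟨hadm, hmem⟩ := hE z hz hev
          have e1 : K' (dg z, gr σ z) = K (zx z) (zy z) (zξ σ z) (zη σ z) := by
            simp only [K']
            exact if_pos hadm
          have e2 : ∀ r, β r ((dg z, gr σ z), z r.1) = 1 := by
            intro r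
            simp only [β]
            exact if_pos (hmem r)
          rw [e1]
          simp [e2]
        · exact zero_le
    _ = ∫⁻ q, K' q * ∏ r, ∫⁻ w, β r (q, w) ∂u2
          ∂((Measure.pi fun _ => u2).prod (Measure.pi fun _ => u2)) := hred
    _ ≤ ∫⁻ q, (if Adm σ (fun i => (q.1 i).1) (fun i => (q.1 i).2) (fun d => (q.2 d).1)
            (fun d => (q.2 d).2) then K (fun i => (q.1 i).1) (fun i => (q.1 i).2)
              (fun d => (q.2 d).1) (fun d => (q.2 d).2) *
          ∏ r : Rst σ, w r (fun i => (q.1 i).1) (fun i => (q.1 i).2)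
            (fun d => (q.2 d).1) (fun d => (q.2 d).2) else 0)
          ∂((Measure.pi fun _ => u2).prod (Measure.pi fun _ => u2)) := by
        refine lintegral_mono fun q => ?_
        by_cases h : Adm σ (fun i => (q.1 i).1) (fun i => (q.1 i).2) (fun d => (q.2 d).1)
            (fun d => (q.2 d).2)
        · rw [if_pos h]
          simp only [K', if_pos h]
          refine mul_le_mul_right (Finset.prod_le_prod' fun r _ => ?_) _
          refine le_trans (le_of_eq ?_) (hw r _ _ _ _ h)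
          have : ∀ w, β r (q, w) = (B r q).indicator 1 w := by
            intro w
            simp only [β, indicator]
            rfl
          simp_rw [this]
          rw [lintegral_indicator_one]
          · exact (hB r).preimage (measurable_const.prodMk measurable_id)
        · rw [if_neg h]
          simp only [K', if_neg h, zero_mul]
          exact le_rfl
    _ = _ := by
        rw [split_xy (n := n)]
        refine Measurable.ite (meas_Adm σ) ?_ measurable_const
        exact hK.mul (Finset.measurable_prod _ fun r _ => hwm r)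

end Pool.Agent.SM
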