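import Pool.Agent.MP_d30e2b_pr.Inner

set_option autoImplicit false

/-! exponential moments -/

namespace Pool.Agent.SM

open MeasureTheory Set
open scoped ENNReal

theorem lint_exp_pow {a : ℝ} (ha : 0 < a) (m : ℕ) :
    ∫⁻ x in Ioi (0:ℝ), ENNReal.ofReal (x ^ m) * ENNReal.ofReal (Real.exp (-(a * x)))
      = ENNReal.ofReal (m.factorial / a ^ (m + 1)) := by
  have h1 : ∫⁻ x in Ioi (0:ℝ), ENNReal.ofReal (x ^ m) * ENNReal.ofReal (Real.exp (-(a * x)))
      = ∫⁻ x in Ioi (0:ℝ), ENNReal.ofReal (x ^ ((m + 1 : ℝ) - 1) * Real.exp (-(a * x))) := by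
    refine setLIntegral_congr_fun measurableSet_Ioi fun x hx => ?_
    simp only [mem_Ioi] at hx
    rw [← ENNReal.ofReal_mul (by positivity)]
    congr 2
    rw [add_sub_cancel_right, Real.rpow_natCast]
  have h2 := Real.integral_rpow_mul_exp_neg_mul_Ioi (a := (m + 1 : ℝ)) (r := a) (by positivity) ha
  rw [h1, ← ofReal_integral_eq_lintegral_ofReal]
  · rw [h2, Real.Gamma_nat_eq_factorial]
    congr 1
    rw [show (m + 1 : ℝ) = ((m + 1 : ℕ) : ℝ) by push_cast; ring, Real.rpow_natCast, one_div,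
      inv_pow]
    field_simp
  · by_contra hc
    have : ∫ t in Ioi (0:ℝ), t ^ ((m + 1 : ℝ) - 1) * Real.exp (-(a * t)) = 0 :=
      integral_undef hc
    rw [h2, Real.Gamma_nat_eq_factorial] at this
    have h3 : 0 < (1 / a) ^ (m + 1 : ℝ) * (m.factorial : ℝ) := by positivity
    linarith
  · filter_upwards [ae_restrict_mem measurableSet_Ioi] with x hx
    simp only [mem_Ioi] at hx
    positivity

/-- two-variable moment -/
theorem two_exp_mom {a b : ℝ} (ha : 0 < a) (hb : 0 < b) (p q : ℕ) :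
    ∫⁻ x, ∫⁻ ξ, (if ξ < x then ENNReal.ofReal (Real.exp (-(a * ξ + b * (x - ξ)))) *
      ENNReal.ofReal (ξ ^ p * (x - ξ) ^ q) else 0) ∂u1 ∂u1
      ≤ ENNReal.ofReal (p.factorial / a ^ (p + 1)) * ENNReal.ofReal (q.factorial / b ^ (q + 1)) := by
  refine (two_le (fun ξ x => ENNReal.ofReal (Real.exp (-(a * ξ + b * (x - ξ)))) *
      ENNReal.ofReal (ξ ^ p * (x - ξ) ^ q)) (by
    unfold Function.uncurry; fun_prop)).trans (le_of_eq ?_)
  rw [← lint_exp_pow ha p, ← lintegral_mul_const _ (by fun_prop)]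
  refine setLIntegral_congr_fun measurableSet_Ioi fun ξ hξ => ?_
  simp only [mem_Ioi] at hξ
  rw [← lint_exp_pow hb q, ← lintegral_const_mul _ (by fun_prop)]
  refine setLIntegral_congr_fun measurableSet_Ioi fun u hu => ?_
  simp only [mem_Ioi] at hu
  rw [← ENNReal.ofReal_mul (by positivity), ← ENNReal.ofReal_mul (by positivity),
    ← ENNReal.ofReal_mul (by positivity), ← ENNReal.ofReal_mul (by positivity)]
  congr 1
  rw [add_sub_cancel_left, neg_add, Real.exp_add]
  ring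

end Pool.Agent.SM
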