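import Pool.Agent.MP_d30e2b_pr.Crude3

set_option autoImplicit false

/-! probabilities of configurations of two or three stable matchings -/

namespace Pool.Agent.SM

open MeasureTheory Set
open scoped ENNReal

variable {n : ℕ}

theorem gm_pos' {k : ℕ} (hk : 1 ≤ k) : ∀ᵐ a ∂(gm k), 0 < a := by
  obtain ⟨k, rfl⟩ : ∃ m, k = m + 1 := ⟨k - 1, by omega⟩
  rw [ae_iff]
  have hm : MeasurableSet {a : ℝ | ¬ 0 < a} := by
    have : {a : ℝ | ¬ 0 < a} = Iic 0 := by ext; simp
    rw [this]
    exact measurableSet_Iic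
  rw [← lintegral_indicator_one hm]
  rw [gm_succ k (by fun_prop (disch := exact hm))]
  rw [setLIntegral_congr_fun measurableSet_Ioi (g := fun _ => 0)]
  · simp
  · intro a ha
    simp only [mem_Ioi] at ha
    simp [ha]

theorem low_one_one (z : Conf n) : Low z 1 1 ↔ Stab z 1 := by
  unfold Low
  simp

theorem measurable_win (τ₁ τ₂ : ℝ) {α : Type*} [MeasurableSpace α] {f : α → ℝ} (hf : Measurable f) :
    MeasurableSet {x | Win τ₁ τ₂ (f x)} :=
  (measurableSet_Icc (a := τ₁) (b := τ₂)).preimage hf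

/-- integral over the lower increment -/
noncomputable def gk (n k : ℕ) (t : ℝ) : ℝ≥0∞ :=
  ∫⁻ a, ENNReal.ofReal ((1 / (t + a)) ^ n) ∂(gm k)

open Classical in
theorem prob_low (σ : Equiv.Perm (Fin n)) {τ₁ τ₂ : ℝ} (h1 : 4 ≤ τ₁) (h2 : τ₁ ≤ τ₂)
    (hk : σ.support.card < n) :
    ∫⁻ z, (if Stab z 1 ∧ Low z 1 σ ∧ Win τ₁ τ₂ (tt z 1) then (1 : ℝ≥0∞) else 0) ∂(P n)
      ≤ ENNReal.ofReal (Real.exp 9 * (Real.log (τ₂ / τ₁) *
        ((n - σ.support.card - 1).factorial / (n - 1).factorial / (n - 1).factorial))) := by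
  have hg : Measurable fun p : ℝ × ℝ × ℝ => (if Win τ₁ τ₂ p.1 then (1 : ℝ≥0∞) else 0) :=
    Measurable.ite (measurable_win _ _ measurable_fst) measurable_const measurable_const
  have h := crude_ev (σA := σ) (σB := 1) (Equiv.Perm.disjoint_one_right σ)
    (fun t _ _ => if Win τ₁ τ₂ t then (1 : ℝ≥0∞) else 0) hg
    (fun t a b => by split_ifs <;> simp) ?_
  · have e0 : ∀ z : Conf n, (if Stab z 1 ∧ Low z 1 σ ∧ Low z 1 1 then
        (if Win τ₁ τ₂ (tt z 1) then (1 : ℝ≥0∞) else 0) else 0)
        = (if Stab z 1 ∧ Low z 1 σ ∧ Win τ₁ τ₂ (tt z 1) then (1 : ℝ≥0∞) else 0) := by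
      intro z
      rw [low_one_one]
      by_cases a1 : Stab z 1 <;> by_cases a2 : Low z 1 σ <;> by_cases a3 : Win τ₁ τ₂ (tt z 1) <;>
        simp [a1, a2, a3]
    simp_rw [e0] at h
    refine h.trans ?_
    rw [ENNReal.ofReal_mul (by positivity)]
    refine mul_le_mul_right (le_of_eq ?_) _
    have e1 : ∀ t : ℝ, ∫⁻ a, ∫⁻ b, (if Win τ₁ τ₂ t then (1 : ℝ≥0∞) else 0) *
        ENNReal.ofReal (wt n σ.support.card (1 : Equiv.Perm (Fin n)).support.card t a b)
        ∂(gm (1 : Equiv.Perm (Fin n)).support.card) ∂(gm σ.support.card)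
        = ENNReal.ofReal (((n - σ.support.card - 1).factorial : ℝ) / (n - 1).factorial) *
          (if τ₁ ≤ t ∧ t ≤ τ₂ then ENNReal.ofReal ((1 / t) ^ n) else 0) := by
      intro t
      simp only [Equiv.Perm.support_one, Finset.card_empty]
      by_cases hw : Win τ₁ τ₂ t
      · have hw' : τ₁ ≤ t ∧ t ≤ τ₂ := hw
        have ht : 0 < t := by linarith [hw'.1]
        simp only [if_pos hw, if_pos hw', one_mul]
        have e2 : ∀ a : ℝ, ∫⁻ b, ENNReal.ofReal (wt n σ.support.card 0 t a b) ∂(gm 0)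
            = ENNReal.ofReal ((1 / t) ^ σ.support.card) * ENNReal.ofReal ((1 / (t + a)) ^ n) := by
          intro a
          rw [gm_zero (by unfold wt; fun_prop)]
          rw [← ENNReal.ofReal_mul (by positivity)]
          unfold wt
          simp only [add_zero, pow_zero, mul_one]
          rw [mul_comm]
        simp_rw [e2]
        rw [lintegral_const_mul _ (by fun_prop), gm_pow hk ht, ← ENNReal.ofReal_mul (by positivity),
          ← ENNReal.ofReal_mul (by positivity)]
        congr 1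
        rw [← mul_assoc, ← pow_add]
        rw [show σ.support.card + (n - σ.support.card) = n by omega]
        ring
      · have hw' : ¬ (τ₁ ≤ t ∧ t ≤ τ₂) := hw
        simp [if_neg hw, if_neg hw']
    simp_rw [e1]
    rw [lintegral_const_mul' _ _ ENNReal.ofReal_ne_top, gm_window (by omega) (by linarith) h2,
      ← ENNReal.ofReal_mul (by positivity)]
    congr 1
    ring
  · intro t a b ht ha hb hne
    have hw : Win τ₁ τ₂ t := by
      by_contra hc
      exact hne (if_neg hc)
    exact ⟨by linarith [hw.1], Or.inr rfl⟩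

open Classical in
theorem prob_vee {σA σB : Equiv.Perm (Fin n)} (hd : σA.Disjoint σB) {τ₁ τ₂ : ℝ} (h1 : 4 ≤ τ₁)
    (h2 : τ₁ ≤ τ₂) (hk : σA.support.card < n) (hl : σB.support.card < n) :
    ∫⁻ z, (if Stab z 1 ∧ Low z 1 σA ∧ Low z 1 σB ∧ Win τ₁ τ₂ (tt z σA) ∧ Win τ₁ τ₂ (tt z σB)
        then (1 : ℝ≥0∞) else 0) ∂(P n)
      ≤ ENNReal.ofReal (Real.exp 9 * (Real.log (τ₂ / τ₁) *
        (((n - σB.support.card - 1).factorial : ℝ) * (n - σA.support.card - 1).factorial /
          (n - 1).factorial / (n - 1).factorial / (n - 1).factorial))) := by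
  set k := σA.support.card with hkdef
  set l := σB.support.card with hldef
  have hg : Measurable fun p : ℝ × ℝ × ℝ =>
      (if Win τ₁ τ₂ (p.1 + p.2.1) ∧ Win τ₁ τ₂ (p.1 + p.2.2) then (1 : ℝ≥0∞) else 0) :=
    Measurable.ite ((measurable_win _ _ (by fun_prop)).inter (measurable_win _ _ (by fun_prop)))
      measurable_const measurable_const
  have h := crude_ev hd
    (fun t a b => if Win τ₁ τ₂ (t + a) ∧ Win τ₁ τ₂ (t + b) then (1 : ℝ≥0∞) else 0) hg
    (fun t a b => by split_ifs <;> simp) ?_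
  · have e0 : ∀ z : Conf n, (if Stab z 1 ∧ Low z 1 σA ∧ Low z 1 σB then
        (if Win τ₁ τ₂ (tt z 1 + (tt z σA - tt z 1)) ∧ Win τ₁ τ₂ (tt z 1 + (tt z σB - tt z 1))
          then (1 : ℝ≥0∞) else 0) else 0)
        = (if Stab z 1 ∧ Low z 1 σA ∧ Low z 1 σB ∧ Win τ₁ τ₂ (tt z σA) ∧ Win τ₁ τ₂ (tt z σB)
          then (1 : ℝ≥0∞) else 0) := by
      intro z
      rw [add_sub_cancel, add_sub_cancel]
      by_cases a1 : Stab z 1 <;> by_cases a2 : Low z 1 σA <;> by_cases a3 : Low z 1 σB <;>
        simp [a1, a2, a3]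
    simp_rw [e0] at h
    refine h.trans ?_
    rw [ENNReal.ofReal_mul (by positivity)]
    refine mul_le_mul_right ?_ _
    rw [← hkdef, ← hldef]
    have hn : 1 ≤ n := by omega
    have e1 : ∀ᵐ t ∂(gm n), ∫⁻ a, ∫⁻ b, (if Win τ₁ τ₂ (t + a) ∧ Win τ₁ τ₂ (t + b)
        then (1 : ℝ≥0∞) else 0) * ENNReal.ofReal (wt n k l t a b) ∂(gm l) ∂(gm k)
        ≤ (∫⁻ a, (if τ₁ ≤ t + a ∧ t + a ≤ τ₂ then ENNReal.ofReal ((1 / (t + a)) ^ n) else 0)
            ∂(gm k)) * ENNReal.ofReal ((1 / t) ^ k) *
            ENNReal.ofReal (((n - l - 1).factorial : ℝ) / (n - 1).factorial) := by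
      filter_upwards [gm_pos' hn] with t ht
      have hm0 : Measurable fun a : ℝ =>
          (if τ₁ ≤ t + a ∧ t + a ≤ τ₂ then ENNReal.ofReal ((1 / (t + a)) ^ n) else 0) := by
        refine Measurable.ite ?_ (by fun_prop) measurable_const
        exact measurable_win τ₁ τ₂ (f := fun a => t + a) (by fun_prop)
      rw [← lintegral_mul_const _ hm0, ← lintegral_mul_const _ (hm0.mul_const _)]
      refine lintegral_mono_ae ?_
      filter_upwards [gm_pos k] with a ha
      by_cases hw : Win τ₁ τ₂ (t + a)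
      · have hw' : τ₁ ≤ t + a ∧ t + a ≤ τ₂ := hw
        have hta : 0 < t + a := by linarith
        rw [if_pos hw']
        calc _ ≤ ∫⁻ b, ENNReal.ofReal ((1 / t) ^ k * (1 / (t + a)) ^ l) *
              ENNReal.ofReal ((1 / (t + a + b)) ^ n) ∂(gm l) := by
              refine lintegral_mono_ae ?_
              filter_upwards [gm_pos l] with b hb
              split_ifs
              · rw [one_mul, ← ENNReal.ofReal_mul (by positivity)]
                refine ENNReal.ofReal_le_ofReal ?_
                unfold wt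
                have h5 : (1 / (t + b)) ^ k ≤ (1 / t) ^ k := by
                  refine pow_le_pow_left₀ (by positivity) ?_ _
                  exact one_div_le_one_div_of_le ht (by linarith)
                rw [mul_comm]
                have h6 : 0 ≤ (1 / (t + a)) ^ l := by positivity
                have h7 : 0 ≤ (1 / (t + a + b)) ^ n := by positivity
                exact mul_le_mul_of_nonneg_right (mul_le_mul_of_nonneg_right h5 h6) h7
              · simp
          _ = _ := by
              rw [lintegral_const_mul _ (by fun_prop), gm_pow hl hta,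
                ← ENNReal.ofReal_mul (by positivity), ← ENNReal.ofReal_mul (by positivity),
                ← ENNReal.ofReal_mul (by positivity)]
              congr 1
              have h8 : (1 / (t + a)) ^ n = (1 / (t + a)) ^ l * (1 / (t + a)) ^ (n - l) := by
                rw [← pow_add]
                congr 1
                omega
              rw [h8]
              ring
      · have hw' : ¬ (τ₁ ≤ t + a ∧ t + a ≤ τ₂) := hw
        simp [hw, hw']
    refine (lintegral_mono_ae e1).trans (le_of_eq ?_)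
    have hmf : Measurable fun T : ℝ =>
        (if τ₁ ≤ T ∧ T ≤ τ₂ then ENNReal.ofReal ((1 / T) ^ n) else 0) := by
      refine Measurable.ite ?_ (by fun_prop) measurable_const
      exact measurable_win τ₁ τ₂ (f := fun a => a) (by fun_prop)
    have hmF : Measurable fun t : ℝ =>
        ∫⁻ a, (if τ₁ ≤ t + a ∧ t + a ≤ τ₂ then ENNReal.ofReal ((1 / (t + a)) ^ n) else 0)
            ∂(gm k) :=
      Measurable.lintegral_prod_right' (f := fun p : ℝ × ℝ =>
        (if τ₁ ≤ p.1 + p.2 ∧ p.1 + p.2 ≤ τ₂ then ENNReal.ofReal ((1 / (p.1 + p.2)) ^ n) else 0))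
        (hmf.comp (measurable_fst.add measurable_snd))
    rw [lintegral_mul_const' _ _ ENNReal.ofReal_ne_top, gm_div hk hmF,
      gm_conv (n - k) k hmf, show n - k + k = n by omega, gm_window hn (by linarith) h2,
      ← ENNReal.ofReal_mul (by positivity), ← ENNReal.ofReal_mul]
    · congr 1
      ring
    · have : 0 ≤ Real.log (τ₂ / τ₁) := Real.log_nonneg (by rw [le_div_iff₀ (by linarith)]; linarith)
      positivity
  · intro t a b ht ha hb hne
    have hw : Win τ₁ τ₂ (t + a) ∧ Win τ₁ τ₂ (t + b) := by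
      by_contra hc
      exact hne (if_neg hc)
    exact ⟨by linarith [hw.2.1], Or.inl (by linarith [hw.1.1])⟩

end Pool.Agent.SM
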