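import Pool.Agent.MP_d30e2b_pr.Crude

set_option autoImplicit false

/-! rates, change of variables for the women -/

namespace Pool.Agent.SM

open MeasureTheory Set
open scoped ENNReal

variable {n : ℕ}

theorem one_div_one_sub_le {z : ℝ} (h0 : 0 ≤ z) (h1 : z ≤ 1 / 2) :
    1 / (1 - z) ≤ Real.exp (z + z ^ 2) := by
  have h2 : 0 < 1 - z := by linarith
  rw [div_le_iff₀ h2]
  have h3 : 1 + (z + z ^ 2) + (z + z ^ 2) ^ 2 / 2 ≤ Real.exp (z + z ^ 2) :=
    Real.quadratic_le_exp_of_nonneg (by positivity)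
  have h4 : 1 ≤ (1 + (z + z ^ 2) + (z + z ^ 2) ^ 2 / 2) * (1 - z) := by
    have e : (1 + (z + z ^ 2) + (z + z ^ 2) ^ 2 / 2) * (1 - z)
        = 1 + z ^ 2 / 2 * (1 - z - z ^ 2 - z ^ 3) := by ring
    rw [e]
    have h5 : z ^ 2 ≤ 1 / 4 := by nlinarith
    have h6 : z ^ 3 ≤ 1 / 8 := by nlinarith
    have : 0 ≤ z ^ 2 / 2 * (1 - z - z ^ 2 - z ^ 3) :=
      mul_nonneg (by positivity) (by linarith)
    linarith
  exact h4.trans (mul_le_mul_of_nonneg_right h3 h2.le)

theorem rate_prod {ι : Type*} (s : Finset ι) (e : ι → ℝ) (T : ℝ) (h0 : ∀ i ∈ s, 0 ≤ e i)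
    (h2 : ∀ i ∈ s, e i ≤ 2) (hT : 4 ≤ T) (hs : ∑ i ∈ s, e i ≤ 2 * T) :
    ∏ i ∈ s, (1 / (T - e i)) ≤ (1 / T) ^ s.card * Real.exp (2 + 4 / T) := by
  have hT0 : 0 < T := by linarith
  have h3 : ∀ i ∈ s, 1 / (T - e i) ≤ (1 / T) * Real.exp (e i / T + 2 / T * (e i / T)) := by
    intro i hi
    have hz0 : 0 ≤ e i / T := div_nonneg (h0 i hi) hT0.le
    have hz2 : e i / T ≤ 2 / T := div_le_div_of_nonneg_right (h2 i hi) hT0.le
    have hz1 : e i / T ≤ 1 / 2 := by
      refine hz2.trans ?_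
      rw [div_le_div_iff₀ hT0 (by norm_num)]
      linarith
    have h4 := one_div_one_sub_le hz0 hz1
    have h5 : 1 / (T - e i) = 1 / T * (1 / (1 - e i / T)) := by
      have : T - e i ≠ 0 := by
        have := h2 i hi
        intro h
        linarith
      field_simp
    rw [h5]
    refine mul_le_mul_of_nonneg_left (h4.trans (Real.exp_le_exp.mpr ?_)) (by positivity)
    have : (e i / T) ^ 2 ≤ 2 / T * (e i / T) := by
      rw [sq]
      exact mul_le_mul_of_nonneg_right hz2 hz0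
    linarith
  calc ∏ i ∈ s, (1 / (T - e i)) ≤ ∏ i ∈ s, ((1 / T) * Real.exp (e i / T + 2 / T * (e i / T))) := by
        refine Finset.prod_le_prod (fun i hi => ?_) h3
        have := h2 i hi
        exact div_nonneg zero_le_one (by linarith)
    _ = (1 / T) ^ s.card * Real.exp (∑ i ∈ s, (e i / T + 2 / T * (e i / T))) := by
        rw [Finset.prod_mul_distrib, Finset.prod_const, Real.exp_sum]
    _ ≤ _ := by
        refine mul_le_mul_of_nonneg_left (Real.exp_le_exp.mpr ?_) (by positivity)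
        rw [Finset.sum_add_distrib, ← Finset.mul_sum, ← Finset.sum_div]
        have h6 : (∑ i ∈ s, e i) / T ≤ 2 := by
          rw [div_le_iff₀ hT0]
          linarith
        have h7 : 2 / T * ((∑ i ∈ s, e i) / T) ≤ 2 / T * 2 :=
          mul_le_mul_of_nonneg_left h6 (by positivity)
        have h8 : 2 / T * 2 = 4 / T := by ring
        linarith

theorem pi_u1_le (ι : Type*) [Fintype ι] :
    (Measure.pi fun _ : ι => u1) ≤ orth ι := by
  unfold orth
  rw [u1_eq, ← Measure.restrict_pi_pi, ← Measure.restrict_pi_pi]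
  exact Measure.restrict_mono (pi_mono fun _ _ => Ioc_subset_Ioi_self) le_rfl

open Classical in
theorem change_var (σ : Equiv.Perm (Fin n)) (F : (Fin n → ℝ) → (Mov σ → ℝ) → ℝ≥0∞) :
    ∫⁻ y, ∫⁻ η, (if AdmY σ y η then F y (fun d => η d - y (σ d.1)) else 0)
      ∂(Measure.pi fun _ => u1) ∂(Measure.pi fun _ => u1)
    ≤ ∫⁻ y, ∫⁻ v, F y v ∂(orth (Mov σ)) ∂(orth (Fin n)) := by
  refine (lintegral_mono' (pi_u1_le _) le_rfl).trans ?_
  refine lintegral_mono fun y => ?_
  refine (lintegral_mono' (pi_u1_le _) le_rfl).trans ?_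
  have h1 : orth (Mov σ) = (volume : Measure (Mov σ → ℝ)).restrict (univ.pi fun _ => Ioi (0:ℝ)) := by
    unfold orth
    rw [← Measure.restrict_pi_pi]
    rfl
  have hm : MeasurableSet (univ.pi fun _ : Mov σ => Ioi (0:ℝ)) :=
    MeasurableSet.univ_pi fun _ => measurableSet_Ioi
  rw [h1, ← lintegral_indicator hm, ← lintegral_indicator hm,
    ← lintegral_add_right_eq_self (μ := (volume : Measure (Mov σ → ℝ))) _ (fun d => y (σ d.1))]
  refine lintegral_mono fun v => ?_
  have e1 : (fun d : Mov σ => (v + fun d : Mov σ => y (σ d.1)) d - y (σ d.1)) = v := by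
    funext d
    simp
  by_cases h3 : AdmY σ y (v + fun d => y (σ d.1))
  · have h4 : v ∈ univ.pi fun _ : Mov σ => Ioi (0:ℝ) := by
      intro d _
      have := h3.2.2 d
      simp only [Pi.add_apply] at this
      simp only [mem_Ioi]
      linarith
    rw [indicator_of_mem h4]
    refine (indicator_le_self _ _ _).trans ?_
    rw [if_pos h3, e1]
  · refine (indicator_le_self _ _ _).trans ?_
    rw [if_neg h3]
    exact zero_le

theorem sum_ys_sub (σ : Equiv.Perm (Fin n)) (w y : Fin n → ℝ) (η : Mov σ → ℝ) :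
    ∑ j, w j * (ys σ y η j - y j) = ∑ d : Mov σ, w (σ d.1) * (η d - y (σ d.1)) := by
  classical
  rw [← Equiv.sum_comp σ (fun j => w j * (ys σ y η j - y j))]
  rw [← Finset.sum_filter_add_sum_filter_not _ (fun i => σ i ≠ i)]
  rw [Finset.sum_subtype (Finset.univ.filter fun i => σ i ≠ i) (p := fun i => σ i ≠ i) (by simp)]
  have h0 : ∑ i ∈ Finset.univ.filter (fun i => ¬ (σ i ≠ i)),
      w (σ i) * (ys σ y η (σ i) - y (σ i)) = 0 := by
    refine Finset.sum_eq_zero fun i hi => ?_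
    simp only [Finset.mem_filter, Finset.mem_univ, true_and] at hi
    unfold ys
    rw [dif_neg (by simpa using hi)]
    ring
  rw [h0, add_zero]
  refine Finset.sum_congr rfl fun d _ => ?_
  unfold ys
  have h1 : σ (σ.symm (σ d.1)) ≠ σ.symm (σ d.1) := by
    simpa using d.2
  rw [dif_pos h1]
  have h2 : (⟨σ.symm (σ d.1), h1⟩ : Mov σ) = d := Subtype.ext (by simp)
  rw [h2]

/-- sum of the women's costs in the lower matching of the *other* class -/
def tc (σ : Equiv.Perm (Fin n)) (cl : Fin n → Bool) (c : Bool) (y : Fin n → ℝ) (η : Mov σ → ℝ) : ℝ :=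
  ∑ j, if c = cl j then y j else ys σ y η j

theorem sum_ys_eq (σ : Equiv.Perm (Fin n)) (y : Fin n → ℝ) (η : Mov σ → ℝ) :
    ∑ j, ys σ y η j = ∑ j, y j + ∑ d : Mov σ, (η d - y (σ d.1)) := by
  have := sum_ys_sub σ (fun _ => 1) y η
  simp only [one_mul, Finset.sum_sub_distrib] at this
  rw [Finset.sum_sub_distrib, ← this]
  ring

theorem tc_eq (σ : Equiv.Perm (Fin n)) (cl : Fin n → Bool) (hcl : ∀ i, cl (σ i) = cl i) (c : Bool)
    (y : Fin n → ℝ) (η : Mov σ → ℝ) :
    tc σ cl c y η = ∑ j, y j + ∑ d : Mov σ, (if cl d.1 = c then 0 else (η d - y (σ d.1))) := by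
  have := sum_ys_sub σ (fun j => if cl j = c then 0 else 1) y η
  have h1 : tc σ cl c y η = ∑ j, y j + ∑ j, (if cl j = c then 0 else 1) * (ys σ y η j - y j) := by
    unfold tc
    rw [← Finset.sum_add_distrib]
    refine Finset.sum_congr rfl fun j _ => ?_
    by_cases h : cl j = c
    · rw [if_pos h, if_pos h.symm]; ring
    · rw [if_neg h, if_neg (fun h' => h h'.symm)]; ring
  rw [h1, this]
  congr 1
  refine Finset.sum_congr rfl fun d _ => ?_
  rw [hcl]
  split_ifs <;> ring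

theorem sum_cols (σ : Equiv.Perm (Fin n)) (f : Fin n → ℝ) (i : Fin n) :
    ∑ j ∈ cols σ i, f j = ∑ j, f j - (f i + if σ i ≠ i then f (σ i) else 0) := by
  classical
  have h1 : ∑ j, f j = ∑ j ∈ cols σ i, f j + ∑ j ∈ Finset.univ.filter (fun j => ¬ (j ≠ i ∧ j ≠ σ i)), f j := by
    unfold cols
    rw [Finset.sum_filter_add_sum_filter_not]
  have h2 : Finset.univ.filter (fun j => ¬ (j ≠ i ∧ j ≠ σ i)) = {i, σ i} := by
    ext j
    simp only [Finset.mem_filter, Finset.mem_univ, true_and, Finset.mem_insert,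
      Finset.mem_singleton]
    tauto
  rw [h1, h2]
  split_ifs with h
  · rw [Finset.sum_pair (Ne.symm h)]
    ring
  · simp only [ne_eq, not_not] at h
    rw [h, Finset.pair_eq_singleton, Finset.sum_singleton]
    ring

theorem al_eq (σ : Equiv.Perm (Fin n)) (y : Fin n → ℝ) (η : Mov σ → ℝ) (i : Fin n) :
    al σ y η i = ∑ j, ys σ y η j - (ys σ y η i + if σ i ≠ i then ys σ y η (σ i) else 0) :=
  sum_cols σ _ i

theorem be_eq (σ : Equiv.Perm (Fin n)) (cl : Fin n → Bool) (hcl : ∀ i, cl (σ i) = cl i)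
    (y : Fin n → ℝ) (η : Mov σ → ℝ) {i : Fin n} (hi : σ i ≠ i) :
    be σ cl y η i = tc σ cl (cl i) y η - (y i + y (σ i)) := by
  unfold be tc
  rw [sum_cols σ _ i, if_pos hi]
  simp [hcl]

section bounds

variable {σ : Equiv.Perm (Fin n)} {cl : Fin n → Bool} {y : Fin n → ℝ} {η : Mov σ → ℝ}

theorem AdmY.y_le (h : AdmY σ y η) (j : Fin n) : y j ≤ ys σ y η j := by
  unfold ys
  split_ifs with hj
  · have := h.2.2 ⟨σ.symm j, hj⟩
    simp only [Equiv.apply_symm_apply] at this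
    exact this.le
  · exact le_rfl

theorem AdmY.ys_le (h : AdmY σ y η) (j : Fin n) : ys σ y η j ≤ 1 := by
  unfold ys
  split_ifs with hj
  · exact (h.2.1 _).2
  · exact (h.1 j).2

theorem AdmY.ys_nonneg (h : AdmY σ y η) (j : Fin n) : 0 ≤ ys σ y η j :=
  (h.1 j).1.trans (h.y_le j)

theorem AdmY.al_prod (h : AdmY σ y η) (hT : 4 ≤ ∑ j, ys σ y η j) :
    ∏ i, (1 / al σ y η i) ≤ (1 / ∑ j, ys σ y η j) ^ n * Real.exp (2 + 4 / ∑ j, ys σ y η j) := by
  have := rate_prod Finset.univ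
    (fun i => ys σ y η i + if σ i ≠ i then ys σ y η (σ i) else 0) (∑ j, ys σ y η j) ?_ ?_ hT ?_
  · simp only [Finset.card_univ, Fintype.card_fin] at this
    simpa only [al_eq] using this
  · intro i _
    have h1 := h.ys_nonneg i
    have h2 := h.ys_nonneg (σ i)
    split_ifs <;> linarith
  · intro i _
    have h1 := h.ys_le i
    have h2 := h.ys_le (σ i)
    split_ifs <;> linarith
  · rw [Finset.sum_add_distrib]
    have : ∑ i, (if σ i ≠ i then ys σ y η (σ i) else 0) ≤ ∑ i, ys σ y η (σ i) := by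
      refine Finset.sum_le_sum fun i _ => ?_
      have h2 := h.ys_nonneg (σ i)
      split_ifs
      · exact le_rfl
      · exact h2
    rw [Equiv.sum_comp σ (fun j => ys σ y η j)] at this
    linarith

theorem AdmY.al_pos (h : AdmY σ y η) (hT : 4 ≤ ∑ j, ys σ y η j) (i : Fin n) : 0 < al σ y η i := by
  rw [al_eq]
  have h1 := h.ys_le i
  have h2 := h.ys_le (σ i)
  split_ifs <;> linarith

theorem AdmY.sum_le_tc (h : AdmY σ y η) (c : Bool) : ∑ j, y j ≤ tc σ cl c y η := by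
  unfold tc
  refine Finset.sum_le_sum fun j _ => ?_
  split_ifs
  · exact le_rfl
  · exact h.y_le j

theorem AdmY.tc_le (h : AdmY σ y η) (c : Bool) : tc σ cl c y η ≤ ∑ j, ys σ y η j := by
  unfold tc
  refine Finset.sum_le_sum fun j _ => ?_
  split_ifs
  · exact h.y_le j
  · exact le_rfl

/-- moved men of class `c` -/
def mc (σ : Equiv.Perm (Fin n)) (cl : Fin n → Bool) (c : Bool) : Finset (Fin n) :=
  Finset.univ.filter fun i => σ i ≠ i ∧ cl i = c

theorem AdmY.be_prod (h : AdmY σ y η) (hcl : ∀ i, cl (σ i) = cl i) (c : Bool)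
    (hT : 4 ≤ tc σ cl c y η) :
    ∏ i ∈ mc σ cl c, (1 / be σ cl y η i) ≤
      (1 / tc σ cl c y η) ^ (mc σ cl c).card * Real.exp (2 + 4 / tc σ cl c y η) := by
  have := rate_prod (mc σ cl c) (fun i => y i + y (σ i)) (tc σ cl c y η) ?_ ?_ hT ?_
  · refine le_trans (le_of_eq (Finset.prod_congr rfl fun i hi => ?_)) this
    simp only [mc, Finset.mem_filter, Finset.mem_univ, true_and] at hi
    rw [be_eq σ cl hcl y η hi.1, hi.2]
  · intro i _
    exact add_nonneg (h.1 i).1 (h.1 (σ i)).1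
  · intro i _
    linarith [(h.1 i).2, (h.1 (σ i)).2]
  · rw [Finset.sum_add_distrib]
    have h1 : ∑ i ∈ mc σ cl c, y i ≤ ∑ i, y i :=
      Finset.sum_le_sum_of_subset_of_nonneg (Finset.subset_univ _) fun i _ _ => (h.1 i).1
    have h2 : ∑ i ∈ mc σ cl c, y (σ i) ≤ ∑ i, y (σ i) :=
      Finset.sum_le_sum_of_subset_of_nonneg (Finset.subset_univ _) fun i _ _ => (h.1 (σ i)).1
    rw [Equiv.sum_comp σ y] at h2
    have h3 := h.sum_le_tc (cl := cl) c
    linarith

theorem AdmY.be_pos (h : AdmY σ y η) (hcl : ∀ i, cl (σ i) = cl i) {i : Fin n} (hi : σ i ≠ i)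
    (hT : 4 ≤ tc σ cl (cl i) y η) : 0 < be σ cl y η i := by
  rw [be_eq σ cl hcl y η hi]
  linarith [(h.1 i).2, (h.1 (σ i)).2]

end bounds

end Pool.Agent.SM
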