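import Pool.Agent.MP_d30e2b_pr.Sym
import Pool.Agent.MP_d30e2b_pr.Gen
import Pool.Agent.MP_d30e2b_pr.Prob
import Pool.Agent.MP_d30e2b_pr.Mom
import Pool.Agent.MP_d30e2b_pr.Rate
import Pool.Agent.MP_d30e2b_pr.T12
import Pool.Agent.MP_d30e2b_pr.TaskM

set_option autoImplicit false

/-! lower bound for the first moment: one matching -/

namespace Pool.Agent.SM.FL

open MeasureTheory Set
open scoped ENNReal

variable {n : ℕ}

open Classical in
/-- lower bound (really an equality) for the probability that the identity matching is stable -/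
theorem stab_lower (K : (Fin n → ℝ) → (Fin n → ℝ) → ℝ≥0∞)
    (hK : Measurable fun q : Fin n → ℝ × ℝ => K (fun i => (q i).1) (fun i => (q i).2)) :
    ∫⁻ y, ∫⁻ x, K x y * ∏ r : Rst (1 : Equiv.Perm (Fin n)), ENNReal.ofReal (1 - x r.1.1 * y r.1.2)
       ∂(Measure.pi fun _ => u1) ∂(Measure.pi fun _ => u1) ≤
    ∫⁻ z, (if Stab z 1 then K (zx z) (zy z) else 0) ∂(P n) := by
  let σ : Equiv.Perm (Fin n) := 1
  let K' : (Fin n → ℝ × ℝ) × (Mov σ → ℝ × ℝ) → ℝ≥0∞ := fun q =>
    K (fun i => (q.1 i).1) (fun i => (q.1 i).2)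
  let B' : Rst σ → ((Fin n → ℝ × ℝ) × (Mov σ → ℝ × ℝ)) → Set (ℝ × ℝ) := fun r q =>
    Bset (q.1 r.1.1).1 (q.1 r.1.1).1 (q.1 r.1.2).2 (q.1 r.1.2).2
  let β : Rst σ → (((Fin n → ℝ × ℝ) × (Mov σ → ℝ × ℝ)) × (ℝ × ℝ)) → ℝ≥0∞ := fun r p =>
    if p.2 ∈ B' r p.1 then 1 else 0
  have hK' : Measurable K' := hK.comp measurable_fst
  have hB : ∀ r : Rst σ, MeasurableSet
      {p : ((Fin n → ℝ × ℝ) × (Mov σ → ℝ × ℝ)) × (ℝ × ℝ) | p.2 ∈ B' r p.1} := by
    intro r
    have h1 : MeasurableSet {p : ((Fin n → ℝ × ℝ) × (Mov σ → ℝ × ℝ)) × (ℝ × ℝ) |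
        p.2.1 < (p.1.1 r.1.1).1} := measurableSet_lt (by fun_prop) (by fun_prop)
    have h2 : MeasurableSet {p : ((Fin n → ℝ × ℝ) × (Mov σ → ℝ × ℝ)) × (ℝ × ℝ) |
        p.2.2 < (p.1.1 r.1.2).2} := measurableSet_lt (by fun_prop) (by fun_prop)
    exact (h1.inter h2).compl.inter (h1.inter h2).compl
  have hβ : ∀ r, Measurable (β r) := fun r =>
    Measurable.ite (hB r) measurable_const measurable_const
  have hint : ∀ r q, ∫⁻ w, β r (q, w) ∂u2 = u2 (B' r q) := by
    intro r q
    have : ∀ w, β r (q, w) = (B' r q).indicator 1 w := by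
      intro w
      simp only [β, indicator]
      rfl
    simp_rw [this]
    rw [lintegral_indicator_one]
    exact measurableSet_Bset _ _ _ _
  have hmint : ∀ r, Measurable fun q => u2 (B' r q) := by
    intro r
    simp_rw [← hint r]
    exact (hβ r).lintegral_prod_right'
  have hred := red σ K' hK' β hβ
  have hbox : ∀ᵐ x ∂(Measure.pi fun _ : Fin n => u1), ∀ i, x i ∈ Icc (0:ℝ) 1 := by
    rw [ae_all_iff]
    intro p
    have h1 : ∀ᵐ w ∂u1, w ∈ Icc (0:ℝ) 1 := ae_restrict_mem measurableSet_Icc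
    exact (Measure.quasiMeasurePreserving_eval (fun _ => u1) p).ae h1
  calc _ = ∫⁻ y, ∫⁻ _η : Mov σ → ℝ, ∫⁻ x, ∫⁻ _ξ : Mov σ → ℝ,
        K x y * ∏ r : Rst σ, u2 (Bset (x r.1.1) (x r.1.1) (y r.1.2) (y r.1.2))
          ∂(Measure.pi fun _ => u1) ∂(Measure.pi fun _ => u1)
          ∂(Measure.pi fun _ => u1) ∂(Measure.pi fun _ => u1) := by
        simp only [lintegral_const, measure_univ, mul_one]
        refine lintegral_congr_ae ?_
        filter_upwards [hbox] with y hy
        refine lintegral_congr_ae ?_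
        filter_upwards [hbox] with x hx
        congr 1
        refine Finset.prod_congr rfl fun r _ => ?_
        rw [u2_Bset (hx _).1 le_rfl (hx _).2 (hy _).1 le_rfl (hy _).2]
        simp
    _ = ∫⁻ q, K' q * ∏ r, u2 (B' r q)
          ∂((Measure.pi fun _ => u2).prod (Measure.pi fun _ => u2)) := by
        rw [split_xy (n := n)]
        exact hK'.mul (Finset.measurable_prod _ fun r _ => hmint r)
    _ = ∫⁻ z, K' (dg z, gr σ z) * ∏ r, β r ((dg z, gr σ z), z r.1) ∂(P n) := by
        rw [hred]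
        simp_rw [hint]
    _ ≤ _ := by
        refine lintegral_mono fun z => ?_
        split_ifs with hs
        · refine le_trans (mul_le_mul_right (Finset.prod_le_one' fun r _ => ?_) _) (le_of_eq (mul_one _))
          simp only [β]
          split_ifs <;> simp
        · have h0 : ∃ i j : Fin n, i ≠ j ∧ (z (i, j)).1 < (z (i, i)).1 ∧
              (z (i, j)).2 < (z (j, j)).2 := by
            unfold Stab at hs
            push Not at hs
            obtain ⟨i, j, h1, h2, h3⟩ := hs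
            exact ⟨i, j, h1, h2, h3⟩
          obtain ⟨i, j, h1, h2, h3⟩ := h0
          have hr : (i, j).2 ≠ (i, j).1 ∧ (i, j).2 ≠ σ (i, j).1 := ⟨h1.symm, h1.symm⟩
          have h4 : ∏ r, β r ((dg z, gr σ z), z r.1) = 0 := by
            refine Finset.prod_eq_zero (Finset.mem_univ ⟨(i, j), hr⟩) ?_
            simp only [β]
            rw [if_neg]
            intro hm
            exact hm.1 ⟨h2, h3⟩
          rw [h4, mul_zero]

end Pool.Agent.SM.FL
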