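import Pool.Agent.MP_d30e2b_pr.FL1

set_option autoImplicit false

/-! lower bound for the first moment: the product -/

namespace Pool.Agent.SM.FL

open MeasureTheory Set
open scoped ENNReal

variable {n : ℕ}

theorem exp_neg_le {z : ℝ} (h0 : 0 ≤ z) (h1 : z ≤ 1 / 2) :
    Real.exp (-(z + z ^ 2 / 2 + 2 * z ^ 3)) ≤ 1 - z := by
  have h2 : 0 < 1 - z := by linarith
  have h3 := Real.abs_log_sub_add_sum_range_le (x := z) (by rw [abs_of_nonneg h0]; linarith) 2
  rw [abs_of_nonneg h0] at h3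
  have h4 : z ^ (2 + 1) / (1 - z) ≤ 2 * z ^ 3 := by
    rw [div_le_iff₀ h2]
    have h7 : 0 ≤ z ^ 3 * (1 - 2 * z) := mul_nonneg (by positivity) (by linarith)
    have e : 2 * z ^ 3 * (1 - z) = z ^ (2 + 1) + z ^ 3 * (1 - 2 * z) := by ring
    rw [e]
    linarith
  have h5 := (abs_le.mp (h3.trans h4)).1
  simp only [Finset.sum_range_succ, Finset.sum_range_zero] at h5
  norm_num at h5
  have h6 : -(z + z ^ 2 / 2 + 2 * z ^ 3) ≤ Real.log (1 - z) := by linarith
  calc _ ≤ Real.exp (Real.log (1 - z)) := Real.exp_le_exp.mpr h6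
    _ = _ := Real.exp_log h2

theorem prod_lower {C τ₁ τ₂ : ℝ} (hC : 0 ≤ C) (hτ : 0 < τ₁) {x y : Fin n → ℝ}
    (hx : ∀ i, 0 ≤ x i) (hy : ∀ i, 0 ≤ y i) (hN : NiceXY C τ₁ τ₂ x y)
    (hn : 8 * C ^ 2 ≤ n) (hn1 : 1 ≤ n) :
    ENNReal.ofReal (Real.exp (-(2 * C ^ 2 / n)) * Real.exp (-∑ i, x i * (∑ j, y j - y i))) ≤
      ENNReal.ofReal (Real.exp ((∑ i, x i ^ 2) * (∑ i, y i ^ 2) / 2)) *
      ∏ r : Rst (1 : Equiv.Perm (Fin n)), ENNReal.ofReal (1 - x r.1.1 * y r.1.2) := by
  obtain ⟨⟨hw1, hw2⟩, hs, hx2, hx3, hy2, hy3⟩ := hN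
  set t := ∑ i, y i with ht
  have ht0 : 0 < t := lt_of_lt_of_le hτ hw1
  have hn0 : (0:ℝ) < n := by exact_mod_cast hn1
  have hxx : ∀ i, x i ^ 3 ≤ C * n / t ^ 3 := fun i =>
    (Finset.single_le_sum (f := fun i => x i ^ 3) (fun i _ => pow_nonneg (hx i) 3)
      (Finset.mem_univ i)).trans hx3
  have hyy : ∀ i, y i ^ 3 ≤ C * t ^ 3 / (n : ℝ) ^ 2 := fun i =>
    (Finset.single_le_sum (f := fun i => y i ^ 3) (fun i _ => pow_nonneg (hy i) 3)
      (Finset.mem_univ i)).trans hy3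
  have hcc : C * n / t ^ 3 * (C * t ^ 3 / (n : ℝ) ^ 2) = C ^ 2 / n := by
    field_simp
  have hxy : ∀ i j, x i * y j ≤ 1 / 2 := by
    intro i j
    have h1 : (x i * y j) ^ 3 ≤ (1 / 2) ^ 3 := by
      rw [mul_pow]
      calc _ ≤ C * n / t ^ 3 * (C * t ^ 3 / (n : ℝ) ^ 2) :=
            mul_le_mul (hxx i) (hyy j) (pow_nonneg (hy j) 3) (by positivity)
        _ = C ^ 2 / n := hcc
        _ ≤ (1 / 2) ^ 3 := by
            rw [div_le_iff₀ hn0]
            linarith
    exact le_of_pow_le_pow_left₀ (by norm_num) (by norm_num) h1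
  have h33 : (∑ i, x i ^ 3) * (∑ i, y i ^ 3) ≤ C ^ 2 / n := by
    rw [← hcc]
    exact mul_le_mul hx3 hy3 (Finset.sum_nonneg fun i _ => pow_nonneg (hy i) 3) (by positivity)
  have hpos : ∀ r : Rst (1 : Equiv.Perm (Fin n)),
      0 ≤ Real.exp (-(x r.1.1 * y r.1.2 + (x r.1.1 * y r.1.2) ^ 2 / 2 +
        2 * (x r.1.1 * y r.1.2) ^ 3)) := fun r => by positivity
  calc _ ≤ ENNReal.ofReal (Real.exp ((∑ i, x i ^ 2) * (∑ i, y i ^ 2) / 2)) *
      ∏ r : Rst (1 : Equiv.Perm (Fin n)), ENNReal.ofReal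
        (Real.exp (-(x r.1.1 * y r.1.2 + (x r.1.1 * y r.1.2) ^ 2 / 2 +
        2 * (x r.1.1 * y r.1.2) ^ 3))) := by
        rw [← ENNReal.ofReal_prod_of_nonneg fun r _ => hpos r, ← Real.exp_sum,
          ← ENNReal.ofReal_mul (by positivity), ← Real.exp_add, ← Real.exp_add]
        refine ENNReal.ofReal_le_ofReal (Real.exp_le_exp.mpr ?_)
        rw [Finset.sum_neg_distrib, Finset.sum_add_distrib, Finset.sum_add_distrib]
        have e1 : ∑ r : Rst (1 : Equiv.Perm (Fin n)), x r.1.1 * y r.1.2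
            = ∑ i, x i * (∑ j, y j - y i) := by
          rw [sum_rst 1 (fun i j => x i * y j)]
          refine Finset.sum_congr rfl fun i _ => ?_
          rw [← Finset.mul_sum, sum_cols]
          simp
        have hle : ∀ f : Fin n → Fin n → ℝ, (∀ i j, 0 ≤ f i j) →
            ∑ r : Rst (1 : Equiv.Perm (Fin n)), f r.1.1 r.1.2 ≤ ∑ i, ∑ j, f i j := by
          intro f hf
          rw [sum_rst 1 f]
          refine Finset.sum_le_sum fun i _ => ?_
          exact Finset.sum_le_sum_of_subset_of_nonneg (Finset.subset_univ _) fun j _ _ => hf i j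
        have e2 : ∑ r : Rst (1 : Equiv.Perm (Fin n)), (x r.1.1 * y r.1.2) ^ 2 / 2
            ≤ (∑ i, x i ^ 2) * (∑ i, y i ^ 2) / 2 := by
          refine (hle (fun i j => (x i * y j) ^ 2 / 2) fun i j => by positivity).trans (le_of_eq ?_)
          rw [Finset.sum_mul_sum, Finset.sum_div]
          refine Finset.sum_congr rfl fun i _ => ?_
          rw [Finset.sum_div]
          refine Finset.sum_congr rfl fun j _ => ?_
          ring
        have e3 : ∑ r : Rst (1 : Equiv.Perm (Fin n)), 2 * (x r.1.1 * y r.1.2) ^ 3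
            ≤ 2 * C ^ 2 / n := by
          refine (hle (fun i j => 2 * (x i * y j) ^ 3) fun i j => ?_).trans ?_
          · exact mul_nonneg (by norm_num) (pow_nonneg (mul_nonneg (hx i) (hy j)) 3)
          · have : ∑ i, ∑ j, 2 * (x i * y j) ^ 3 = 2 * ((∑ i, x i ^ 3) * (∑ i, y i ^ 3)) := by
              rw [Finset.sum_mul_sum, Finset.mul_sum]
              refine Finset.sum_congr rfl fun i _ => ?_
              rw [Finset.mul_sum]
              refine Finset.sum_congr rfl fun j _ => ?_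
              ring
            rw [this, mul_div_assoc]
            linarith
        rw [e1]
        linarith
    _ ≤ _ := by
        refine mul_le_mul_right (Finset.prod_le_prod' fun r _ => ?_) _
        refine ENNReal.ofReal_le_ofReal ?_
        exact exp_neg_le (mul_nonneg (hx _) (hy _)) (hxy _ _)

end Pool.Agent.SM.FL
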