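import Pool.Agent.MP_d30e2b_pr.FL2

set_option autoImplicit false

/-! lower bound for the first moment: the men's integral -/

namespace Pool.Agent.SM.FL

open MeasureTheory Set
open scoped ENNReal

variable {n : ℕ}

theorem ofReal_exp_neg_sum (a x : Fin n → ℝ) :
    ENNReal.ofReal (Real.exp (-∑ i, x i * a i)) = ∏ i, ENNReal.ofReal (Real.exp (-(a i * x i))) := by
  rw [← ENNReal.ofReal_prod_of_nonneg fun i _ => by positivity, ← Real.exp_sum,
    Finset.sum_neg_distrib]
  congr 3
  exact Finset.sum_congr rfl fun i _ => mul_comm _ _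

theorem int_exp (a : Fin n → ℝ) (ha : ∀ i, 0 < a i) :
    ∫⁻ x, ENNReal.ofReal (Real.exp (-∑ i, x i * a i)) ∂(orth (Fin n))
      = ∏ i, ENNReal.ofReal (1 / a i) := by
  simp_rw [ofReal_exp_neg_sum]
  unfold orth
  rw [lintegral_pi_prod (fun _ => volume.restrict (Ioi (0:ℝ)))
    (fun i u => ENNReal.ofReal (Real.exp (-(a i * u)))) (fun i => by fun_prop)]
  exact Finset.prod_congr rfl fun i _ => lint_exp (ha i)

theorem int_exp_pow (a : Fin n → ℝ) (ha : ∀ i, 0 < a i) (i : Fin n) (m : ℕ) :
    ∫⁻ x, ENNReal.ofReal (x i ^ m) * ENNReal.ofReal (Real.exp (-∑ k, x k * a k)) ∂(orth (Fin n))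
      = ENNReal.ofReal (m.factorial / a i ^ m) * ∏ k, ENNReal.ofReal (1 / a k) := by
  have e1 : ∀ x : Fin n → ℝ,
      ENNReal.ofReal (x i ^ m) * ENNReal.ofReal (Real.exp (-∑ k, x k * a k))
      = ∏ k, (if k = i then ENNReal.ofReal (x k ^ m) * ENNReal.ofReal (Real.exp (-(a k * x k)))
          else ENNReal.ofReal (Real.exp (-(a k * x k)))) := by
    intro x
    rw [ofReal_exp_neg_sum, ← Finset.mul_prod_erase Finset.univ _ (Finset.mem_univ i),
      ← Finset.mul_prod_erase Finset.univ (fun k => (if k = i then ENNReal.ofReal (x k ^ m) *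
        ENNReal.ofReal (Real.exp (-(a k * x k))) else ENNReal.ofReal (Real.exp (-(a k * x k)))))
        (Finset.mem_univ i), if_pos rfl, mul_assoc]
    congr 2
    refine Finset.prod_congr rfl fun k hk => ?_
    rw [if_neg (Finset.ne_of_mem_erase hk)]
  simp_rw [e1]
  unfold orth
  rw [lintegral_pi_prod (fun _ => volume.restrict (Ioi (0:ℝ)))
    (fun k u => (if k = i then ENNReal.ofReal (u ^ m) * ENNReal.ofReal (Real.exp (-(a k * u)))
          else ENNReal.ofReal (Real.exp (-(a k * u))))) (fun k => by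
            split_ifs <;> fun_prop)]
  rw [← Finset.mul_prod_erase Finset.univ _ (Finset.mem_univ i),
    ← Finset.mul_prod_erase Finset.univ (fun k => ENNReal.ofReal (1 / a k)) (Finset.mem_univ i)]
  simp only [if_true]
  rw [lint_exp_pow (ha i), ← mul_assoc, ← ENNReal.ofReal_mul (by have := ha i; positivity)]
  congr 1
  · congr 1
    have := (ha i).ne'
    field_simp
    ring
  · refine Finset.prod_congr rfl fun k hk => ?_
    simp only [if_neg (Finset.ne_of_mem_erase hk)]
    exact lint_exp (ha k)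

theorem orth_pos (n : ℕ) : ∀ᵐ x ∂(orth (Fin n)), ∀ i, 0 < x i := by
  rw [ae_all_iff]
  intro p
  have h1 : ∀ᵐ w ∂(volume.restrict (Ioi (0:ℝ))), 0 < w := ae_restrict_mem measurableSet_Ioi
  unfold orth
  exact (Measure.quasiMeasurePreserving_eval (fun _ => volume.restrict (Ioi (0:ℝ))) p).ae h1

open Classical in
theorem orth_box (F : (Fin n → ℝ) → ℝ≥0∞) :
    ∫⁻ x, (if ∀ i, x i ≤ 1 then F x else 0) ∂(orth (Fin n))
      = ∫⁻ x, F x ∂(Measure.pi fun _ => u1) := by
  have hS : MeasurableSet (univ.pi fun _ : Fin n => Iic (1:ℝ)) :=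
    MeasurableSet.univ_pi fun _ => measurableSet_Iic
  have e1 : ∀ x : Fin n → ℝ, (if ∀ i, x i ≤ 1 then F x else 0)
      = (univ.pi fun _ : Fin n => Iic (1:ℝ)).indicator F x := by
    intro x
    simp only [indicator, mem_pi, mem_univ, mem_Iic, true_implies]
  simp_rw [e1]
  rw [lintegral_indicator hS]
  congr 1
  unfold orth
  rw [Measure.restrict_pi_pi]
  congr 1
  funext _
  rw [Measure.restrict_restrict measurableSet_Iic, u1_eq]
  congr 1
  ext x
  simp [and_comm]

/-- bound for the loss -/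
noncomputable def badx (n : ℕ) (C t : ℝ) : ℝ :=
  n * (120 / (t - 1) ^ 5) + 2 / C * (t / (t - 1)) ^ 2 + 6 / C * (t / (t - 1)) ^ 3
    + (Real.exp (1 / 2) / 2) ^ n

theorem mom_le {t : ℝ} (ht : 1 < t) {y : Fin n → ℝ} (hy1 : ∀ i, y i ≤ 1) (m : ℕ) :
    ∫⁻ x, (∑ i, ENNReal.ofReal (x i ^ m)) * ENNReal.ofReal (Real.exp (-∑ k, x k * (t - y k)))
      ∂(orth (Fin n)) ≤ ENNReal.ofReal (n * (m.factorial / (t - 1) ^ m)) *
        ∏ k, ENNReal.ofReal (1 / (t - y k)) := by
  simp_rw [Finset.sum_mul]
  rw [lintegral_finsetSum _ fun i _ => by fun_prop]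
  have ha : ∀ i, 0 < t - y i := fun i => by linarith [hy1 i]
  simp_rw [int_exp_pow (fun i => t - y i) ha]
  rw [← Finset.sum_mul]
  refine mul_le_mul_left ?_ _
  have h1 : ∀ i ∈ (Finset.univ : Finset (Fin n)), ENNReal.ofReal (m.factorial / (t - y i) ^ m)
      ≤ ENNReal.ofReal (m.factorial / (t - 1) ^ m) := by
    intro i _
    refine ENNReal.ofReal_le_ofReal ?_
    have h2 : 0 < t - 1 := by linarith
    refine div_le_div_of_nonneg_left (by positivity) (by positivity) ?_
    exact pow_le_pow_left₀ h2.le (by linarith [hy1 i]) m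
  refine (Finset.sum_le_card_nsmul _ _ _ h1).trans (le_of_eq ?_)
  rw [Finset.card_univ, Fintype.card_fin, nsmul_eq_mul, ENNReal.ofReal_mul (by positivity),
    ENNReal.ofReal_natCast]

theorem two_mom {t : ℝ} (ht : 1 < t) {y : Fin n → ℝ} (hy0 : ∀ i, 0 ≤ y i) (hy1 : ∀ i, y i ≤ 1) :
    ∫⁻ x, ENNReal.ofReal (Real.exp (n / 2)) * ENNReal.ofReal (Real.exp (-(t * ∑ k, x k))) *
      ENNReal.ofReal (Real.exp (-∑ k, x k * (t - y k)))
      ∂(orth (Fin n)) ≤ ENNReal.ofReal ((Real.exp (1 / 2) / 2) ^ n) *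
        ∏ k, ENNReal.ofReal (1 / (t - y k)) := by
  have e1 : ∀ x : Fin n → ℝ, ENNReal.ofReal (Real.exp (n / 2)) *
      ENNReal.ofReal (Real.exp (-(t * ∑ k, x k))) *
      ENNReal.ofReal (Real.exp (-∑ k, x k * (t - y k)))
      = ENNReal.ofReal (Real.exp (n / 2)) * ENNReal.ofReal (Real.exp (-∑ k, x k * (2 * t - y k))) := by
    intro x
    rw [mul_assoc, ← ENNReal.ofReal_mul (by positivity), ← Real.exp_add]
    congr 3
    rw [Finset.mul_sum, ← neg_add, ← Finset.sum_add_distrib]
    congr 1
    refine Finset.sum_congr rfl fun i _ => ?_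
    ring
  simp_rw [e1]
  rw [lintegral_const_mul _ (by fun_prop), int_exp (fun i => 2 * t - y i) (fun i => by
    linarith [hy1 i])]
  have h2 : ∏ i, ENNReal.ofReal (1 / (2 * t - y i))
      ≤ ENNReal.ofReal ((1 / 2) ^ n) * ∏ i, ENNReal.ofReal (1 / (t - y i)) := by
    have : ENNReal.ofReal ((1 / 2) ^ n) = ∏ _i : Fin n, ENNReal.ofReal (1 / 2) := by
      rw [Finset.prod_const, Finset.card_univ, Fintype.card_fin, ENNReal.ofReal_pow (by norm_num)]
    rw [this, ← Finset.prod_mul_distrib]
    refine Finset.prod_le_prod' fun i _ => ?_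
    rw [← ENNReal.ofReal_mul (by norm_num)]
    refine ENNReal.ofReal_le_ofReal ?_
    have h3 : 0 < t - y i := by linarith [hy1 i]
    have h4 : 1 / 2 * (1 / (t - y i)) = 1 / (2 * (t - y i)) := by
      field_simp
    rw [h4]
    exact one_div_le_one_div_of_le (by positivity) (by linarith [hy0 i])
  refine (mul_le_mul_right h2 _).trans (le_of_eq ?_)
  rw [← mul_assoc, ← ENNReal.ofReal_mul (by positivity)]
  congr 2
  have e2 : Real.exp ((n : ℝ) / 2) = Real.exp (1 / 2) ^ n := by
    rw [← Real.exp_nat_mul]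
    congr 1
    ring
  rw [e2, ← mul_pow]
  congr 1
  ring

open Classical in
theorem x_lower {C t : ℝ} (hC : 0 < C) (ht : 1 < t) (hn : 1 ≤ n) {y : Fin n → ℝ}
    (hy0 : ∀ i, 0 ≤ y i) (hy1 : ∀ i, y i ≤ 1) :
    ENNReal.ofReal (1 - badx n C t) * ∏ i, ENNReal.ofReal (1 / (t - y i)) ≤
    ∫⁻ x, (if (n : ℝ) / (2 * t) ≤ ∑ i, x i ∧ ∑ i, x i ^ 2 ≤ C * n / t ^ 2 ∧
        ∑ i, x i ^ 3 ≤ C * n / t ^ 3 then
      ENNReal.ofReal (Real.exp (-∑ i, x i * (t - y i))) else 0) ∂(Measure.pi fun _ => u1) := by
  have hn0 : (0:ℝ) < n := by exact_mod_cast hn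
  have ht0 : 0 < t := by linarith
  have ht1 : 0 < t - 1 := by linarith
  rw [← orth_box]
  set Q := ∏ i, ENNReal.ofReal (1 / (t - y i)) with hQ
  set G := ∫⁻ x, (if ∀ i, x i ≤ 1 then (if (n : ℝ) / (2 * t) ≤ ∑ i, x i ∧
      ∑ i, x i ^ 2 ≤ C * n / t ^ 2 ∧ ∑ i, x i ^ 3 ≤ C * n / t ^ 3 then
      ENNReal.ofReal (Real.exp (-∑ i, x i * (t - y i))) else 0) else 0) ∂(orth (Fin n)) with hG
  have hQtop : Q ≠ ∞ := by
    rw [hQ]
    exact ENNReal.prod_ne_top fun i _ => ENNReal.ofReal_ne_top
  have hb0 : 0 ≤ badx n C t := by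
    unfold badx
    positivity
  have hmain : Q ≤ G + ENNReal.ofReal (badx n C t) * Q := by
    have h1 : Q = ∫⁻ x, ENNReal.ofReal (Real.exp (-∑ i, x i * (t - y i))) ∂(orth (Fin n)) := by
      rw [int_exp (fun i => t - y i) (fun i => by linarith [hy1 i])]
    have h2 : ∀ᵐ x ∂(orth (Fin n)), ENNReal.ofReal (Real.exp (-∑ i, x i * (t - y i))) ≤
        (if ∀ i, x i ≤ 1 then (if (n : ℝ) / (2 * t) ≤ ∑ i, x i ∧
          ∑ i, x i ^ 2 ≤ C * n / t ^ 2 ∧ ∑ i, x i ^ 3 ≤ C * n / t ^ 3 then
          ENNReal.ofReal (Real.exp (-∑ i, x i * (t - y i))) else 0) else 0) +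
        ((∑ i, ENNReal.ofReal (x i ^ 5)) * ENNReal.ofReal (Real.exp (-∑ k, x k * (t - y k))) +
        (ENNReal.ofReal (t ^ 2 / (C * n)) *
          ((∑ i, ENNReal.ofReal (x i ^ 2)) * ENNReal.ofReal (Real.exp (-∑ k, x k * (t - y k)))) +
        (ENNReal.ofReal (t ^ 3 / (C * n)) *
          ((∑ i, ENNReal.ofReal (x i ^ 3)) * ENNReal.ofReal (Real.exp (-∑ k, x k * (t - y k)))) +
        ENNReal.ofReal (Real.exp (n / 2)) * ENNReal.ofReal (Real.exp (-(t * ∑ k, x k))) *
          ENNReal.ofReal (Real.exp (-∑ k, x k * (t - y k)))))) := by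
      filter_upwards [orth_pos n] with x hx
      set f := ENNReal.ofReal (Real.exp (-∑ i, x i * (t - y i))) with hf
      by_cases c1 : ∀ i, x i ≤ 1
      · by_cases c2 : ∑ i, x i ^ 2 ≤ C * n / t ^ 2
        · by_cases c3 : ∑ i, x i ^ 3 ≤ C * n / t ^ 3
          · by_cases c4 : (n : ℝ) / (2 * t) ≤ ∑ i, x i
            · rw [if_pos c1, if_pos ⟨c4, c2, c3⟩]
              exact le_self_add
            · refine le_add_left (le_add_left (le_add_left (le_add_left ?_)))
              rw [← ENNReal.ofReal_mul (by positivity), ← Real.exp_add]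
              have : (1 : ℝ≥0∞) ≤ ENNReal.ofReal (Real.exp (n / 2 + -(t * ∑ k, x k))) := by
                rw [ENNReal.one_le_ofReal]
                refine Real.one_le_exp ?_
                push Not at c4
                rw [lt_div_iff₀ (by positivity)] at c4
                nlinarith
              calc f = 1 * f := (one_mul f).symm
                _ ≤ _ := mul_le_mul_left this f
          · refine le_add_left (le_add_left (le_add_left (le_add_right ?_)))
            rw [← mul_assoc]
            have : (1 : ℝ≥0∞) ≤ ENNReal.ofReal (t ^ 3 / (C * n)) *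
                (∑ i, ENNReal.ofReal (x i ^ 3)) := by
              rw [← ENNReal.ofReal_sum_of_nonneg fun i _ => pow_nonneg (hx i).le 3,
                ← ENNReal.ofReal_mul (by positivity), ENNReal.one_le_ofReal]
              push Not at c3
              rw [div_lt_iff₀ (by positivity)] at c3
              rw [div_mul_eq_mul_div, le_div_iff₀ (by positivity)]
              nlinarith
            calc f = 1 * f := (one_mul f).symm
              _ ≤ _ := mul_le_mul_left this f
        · refine le_add_left (le_add_left (le_add_right ?_))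
          rw [← mul_assoc]
          have : (1 : ℝ≥0∞) ≤ ENNReal.ofReal (t ^ 2 / (C * n)) *
              (∑ i, ENNReal.ofReal (x i ^ 2)) := by
            rw [← ENNReal.ofReal_sum_of_nonneg fun i _ => pow_nonneg (hx i).le 2,
              ← ENNReal.ofReal_mul (by positivity), ENNReal.one_le_ofReal]
            push Not at c2
            rw [div_lt_iff₀ (by positivity)] at c2
            rw [div_mul_eq_mul_div, le_div_iff₀ (by positivity)]
            nlinarith
          calc f = 1 * f := (one_mul f).symm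
            _ ≤ _ := mul_le_mul_left this f
      · refine le_add_left (le_add_right ?_)
        have : (1 : ℝ≥0∞) ≤ ∑ i, ENNReal.ofReal (x i ^ 5) := by
          push Not at c1
          obtain ⟨i, hi⟩ := c1
          calc (1 : ℝ≥0∞) ≤ ENNReal.ofReal (x i ^ 5) := by
                rw [ENNReal.one_le_ofReal]
                exact one_le_pow₀ hi.le
            _ ≤ _ := Finset.single_le_sum (f := fun i => ENNReal.ofReal (x i ^ 5))
                (fun _ _ => zero_le) (Finset.mem_univ i)
        calc f = 1 * f := (one_mul f).symm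
          _ ≤ _ := mul_le_mul_left this f
    calc Q ≤ _ := h1.trans_le (lintegral_mono_ae h2)
      _ = G + (∫⁻ x, (∑ i, ENNReal.ofReal (x i ^ 5)) *
            ENNReal.ofReal (Real.exp (-∑ k, x k * (t - y k))) ∂(orth (Fin n)) +
          (ENNReal.ofReal (t ^ 2 / (C * n)) * ∫⁻ x, (∑ i, ENNReal.ofReal (x i ^ 2)) *
            ENNReal.ofReal (Real.exp (-∑ k, x k * (t - y k))) ∂(orth (Fin n)) +
          (ENNReal.ofReal (t ^ 3 / (C * n)) * ∫⁻ x, (∑ i, ENNReal.ofReal (x i ^ 3)) *
            ENNReal.ofReal (Real.exp (-∑ k, x k * (t - y k))) ∂(orth (Fin n)) +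
          ∫⁻ x, ENNReal.ofReal (Real.exp (n / 2)) * ENNReal.ofReal (Real.exp (-(t * ∑ k, x k))) *
            ENNReal.ofReal (Real.exp (-∑ k, x k * (t - y k))) ∂(orth (Fin n))))) := by
          rw [lintegral_add_right _ (by fun_prop), lintegral_add_right _ (by fun_prop),
            lintegral_add_right _ (by fun_prop), lintegral_add_right _ (by fun_prop),
            lintegral_const_mul _ (by fun_prop), lintegral_const_mul _ (by fun_prop)]
      _ ≤ G + (ENNReal.ofReal (n * ((Nat.factorial 5) / (t - 1) ^ 5)) * Q +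
          (ENNReal.ofReal (t ^ 2 / (C * n)) *
            (ENNReal.ofReal (n * ((Nat.factorial 2) / (t - 1) ^ 2)) * Q) +
          (ENNReal.ofReal (t ^ 3 / (C * n)) *
            (ENNReal.ofReal (n * ((Nat.factorial 3) / (t - 1) ^ 3)) * Q) +
          ENNReal.ofReal ((Real.exp (1 / 2) / 2) ^ n) * Q))) := by
          gcongr
          · exact mom_le ht hy1 5
          · exact mom_le ht hy1 2
          · exact mom_le ht hy1 3
          · exact two_mom ht hy0 hy1
      _ = _ := by
          congr 1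
          rw [← mul_assoc, ← mul_assoc, ← add_mul, ← add_mul, ← add_mul]
          congr 1
          rw [← ENNReal.ofReal_mul (by positivity), ← ENNReal.ofReal_mul (by positivity),
            ← ENNReal.ofReal_add (by positivity) (by positivity),
            ← ENNReal.ofReal_add (by positivity) (by positivity),
            ← ENNReal.ofReal_add (by positivity) (by positivity)]
          congr 1
          unfold badx
          have e2 : t ^ 2 / (C * n) * (n * ((Nat.factorial 2) / (t - 1) ^ 2))
              = 2 / C * (t / (t - 1)) ^ 2 := by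
            simp only [Nat.factorial]
            push_cast
            field_simp
          have e3 : t ^ 3 / (C * n) * (n * ((Nat.factorial 3) / (t - 1) ^ 3))
              = 6 / C * (t / (t - 1)) ^ 3 := by
            simp only [Nat.factorial]
            push_cast
            field_simp
          rw [e2, e3]
          simp only [Nat.factorial]
          push_cast
          ring
  rw [ENNReal.ofReal_sub _ hb0, ENNReal.ofReal_one, ENNReal.sub_mul fun _ _ => hQtop, one_mul]
  exact tsub_le_iff_right.mpr hmain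

end Pool.Agent.SM.FL
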