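import Pool.Agent.MP_d30e2b_pr.FL3

set_option autoImplicit false

/-! lower bound for the first moment: the women's integral -/

namespace Pool.Agent.SM.FL

open MeasureTheory Set
open scoped ENNReal

variable {n : ℕ}

theorem mom_y (hn : 1 ≤ n) (m : ℕ) {h : ℝ → ℝ≥0∞} (hh : Measurable h) :
    ∫⁻ y, h (∑ i, y i) * (∑ j, ENNReal.ofReal (y j ^ m)) ∂(orth (Fin n))
      = ENNReal.ofReal (n * (m.factorial / (m + n - 1).factorial)) *
        ∫⁻ t in Ioi (0:ℝ), h t * ENNReal.ofReal (t ^ (m + n - 1)) := by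
  obtain ⟨k, rfl⟩ : ∃ k, n = k + 1 := ⟨n - 1, by omega⟩
  rw [show m + (k + 1) - 1 = m + k by omega]
  simp_rw [Finset.mul_sum]
  rw [lintegral_finsetSum _ fun i _ => by fun_prop]
  have h1 : ∀ j : Fin (k + 1), ∫⁻ y, h (∑ i, y i) * ENNReal.ofReal (y j ^ m)
      ∂(orth (Fin (k + 1))) = ENNReal.ofReal (m.factorial / (m + k).factorial) *
        ∫⁻ t in Ioi (0:ℝ), h t * ENNReal.ofReal (t ^ (m + k)) := by
    intro j
    have h2 := lint_orth_fin k (fun i => if i = j then m else 0) h hh
    have h3 : ∀ y : Fin (k + 1) → ℝ, ∏ i, ENNReal.ofReal (y i ^ (if i = j then m else 0) /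
        ((if i = j then m else 0).factorial : ℝ)) = ENNReal.ofReal (y j ^ m / m.factorial) := by
      intro y
      rw [Finset.prod_eq_single j]
      · simp
      · intro i _ hi
        simp [hi]
      · intro hj
        exact absurd (Finset.mem_univ j) hj
    simp_rw [h3] at h2
    rw [Finset.sum_ite_eq' Finset.univ j (fun _ => m), if_pos (Finset.mem_univ j)] at h2
    have h4 : ∀ y : Fin (k + 1) → ℝ, h (∑ i, y i) * ENNReal.ofReal (y j ^ m)
        = ENNReal.ofReal m.factorial * (h (∑ i, y i) * ENNReal.ofReal (y j ^ m / m.factorial)) := by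
      intro y
      rw [mul_left_comm, ← ENNReal.ofReal_mul (by positivity)]
      congr 2
      field_simp
    simp_rw [h4]
    rw [lintegral_const_mul _ (by fun_prop), h2]
    have h5 : ∀ t : ℝ, h t * ENNReal.ofReal (t ^ (m + k) / (m + k).factorial)
        = ENNReal.ofReal (1 / (m + k).factorial) * (h t * ENNReal.ofReal (t ^ (m + k))) := by
      intro t
      rw [mul_left_comm, ← ENNReal.ofReal_mul (by positivity)]
      congr 2
      ring
    simp_rw [h5]
    rw [lintegral_const_mul _ (by fun_prop), ← mul_assoc, ← ENNReal.ofReal_mul (by positivity)]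
    congr 2
    ring
  rw [Finset.sum_congr rfl fun j _ => h1 j, Finset.sum_const, Finset.card_univ, Fintype.card_fin,
    nsmul_eq_mul, ← mul_assoc, ← ENNReal.ofReal_natCast, ← ENNReal.ofReal_mul (by positivity)]

open Classical in
theorem win_inv {τ₁ τ₂ : ℝ} (h1 : 0 < τ₁) (h2 : τ₁ ≤ τ₂) :
    ∫⁻ t in Ioi (0:ℝ), (if Win τ₁ τ₂ t then ENNReal.ofReal (1 / t) else 0)
      = ENNReal.ofReal (Real.log (τ₂ / τ₁)) := by
  have h := gm_window (n := 1) le_rfl h1 h2
  have hm : Measurable fun t : ℝ =>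
      (if τ₁ ≤ t ∧ t ≤ τ₂ then ENNReal.ofReal ((1 / t) ^ 1) else 0) := by
    refine Measurable.ite ?_ (by fun_prop) measurable_const
    exact measurableSet_Icc (a := τ₁) (b := τ₂)
  rw [gm_succ 0 hm] at h
  simpa [Win] using h

open Classical in
/-- moment integrals over the window -/
theorem win_mom {τ₁ τ₂ : ℝ} (hn : 1 ≤ n) (h1 : 0 < τ₁) (h2 : τ₁ ≤ τ₂) (m : ℕ) {c : ℝ} (hc : 0 ≤ c) :
    ∫⁻ y, (if Win τ₁ τ₂ (∑ i, y i) then ENNReal.ofReal ((1 / ∑ i, y i) ^ n * (c / (∑ i, y i) ^ m))
      else 0) * (∑ j, ENNReal.ofReal (y j ^ m)) ∂(orth (Fin n))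
      = ENNReal.ofReal (n * (m.factorial / (m + n - 1).factorial) *
          (c * Real.log (τ₂ / τ₁))) := by
  have hm : Measurable fun t : ℝ =>
      (if Win τ₁ τ₂ t then ENNReal.ofReal ((1 / t) ^ n * (c / t ^ m)) else 0) := by
    refine Measurable.ite ?_ (by fun_prop) measurable_const
    exact measurableSet_Icc (a := τ₁) (b := τ₂)
  rw [mom_y hn m hm, ENNReal.ofReal_mul
    (p := n * (m.factorial / (m + n - 1).factorial)) (by positivity)]
  congr 1
  rw [ENNReal.ofReal_mul hc, ← win_inv h1 h2, ← lintegral_const_mul _]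
  · refine setLIntegral_congr_fun measurableSet_Ioi fun t ht => ?_
    simp only [mem_Ioi] at ht
    split_ifs
    · rw [← ENNReal.ofReal_mul (by positivity), ← ENNReal.ofReal_mul hc]
      congr 1
      obtain ⟨k, rfl⟩ : ∃ k, n = k + 1 := ⟨n - 1, by omega⟩
      rw [show m + (k + 1) - 1 = m + k by omega, pow_add, one_div, inv_pow]
      field_simp
      ring
    · simp
  · refine Measurable.ite ?_ (by fun_prop) measurable_const
    exact measurableSet_Icc (a := τ₁) (b := τ₂)

open Classical in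
/-- fifth moment over the window -/
theorem win_mom5 {τ₁ τ₂ : ℝ} (hn : 1 ≤ n) (h1 : 0 < τ₁) (h2 : τ₁ ≤ τ₂) :
    ∫⁻ y, (if Win τ₁ τ₂ (∑ i, y i) then ENNReal.ofReal ((1 / ∑ i, y i) ^ n)
      else 0) * (∑ j, ENNReal.ofReal (y j ^ 5)) ∂(orth (Fin n))
      ≤ ENNReal.ofReal (n * (120 / (n + 4).factorial) * τ₂ ^ 5) := by
  have hm : Measurable fun t : ℝ =>
      (if Win τ₁ τ₂ t then ENNReal.ofReal ((1 / t) ^ n) else 0) := by
    refine Measurable.ite ?_ (by fun_prop) measurable_const
    exact measurableSet_Icc (a := τ₁) (b := τ₂)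
  rw [mom_y hn 5 hm, show 5 + n - 1 = n + 4 by omega, ENNReal.ofReal_mul
    (p := n * (120 / (n + 4).factorial)) (by positivity)]
  have e120 : (Nat.factorial 5 : ℝ) = 120 := by norm_num [Nat.factorial]
  rw [e120]
  refine mul_le_mul_right ?_ _
  have hτ2 : 0 < τ₂ := by linarith
  calc _ ≤ ∫⁻ t in Ioi (0:ℝ), (Icc τ₁ τ₂).indicator (fun _ => ENNReal.ofReal (τ₂ ^ 4)) t := by
        refine setLIntegral_mono' measurableSet_Ioi fun t ht => ?_
        simp only [mem_Ioi] at ht
        by_cases hw : Win τ₁ τ₂ t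
        · have hw' : t ∈ Icc τ₁ τ₂ := hw
          rw [if_pos hw, indicator_of_mem hw', ← ENNReal.ofReal_mul (by positivity)]
          refine ENNReal.ofReal_le_ofReal ?_
          have e : (1 / t) ^ n * t ^ (n + 4) = t ^ 4 := by
            rw [pow_add, one_div, inv_pow]
            field_simp
          rw [e]
          exact pow_le_pow_left₀ ht.le hw'.2 4
        · rw [if_neg hw, zero_mul]
          exact zero_le
    _ ≤ ∫⁻ t, (Icc τ₁ τ₂).indicator (fun _ => ENNReal.ofReal (τ₂ ^ 4)) t :=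
        lintegral_mono' Measure.restrict_le_self le_rfl
    _ = ENNReal.ofReal (τ₂ ^ 4) * ENNReal.ofReal (τ₂ - τ₁) := by
        rw [lintegral_indicator measurableSet_Icc, setLIntegral_const, Real.volume_Icc]
    _ ≤ _ := by
        rw [← ENNReal.ofReal_mul (by positivity)]
        refine ENNReal.ofReal_le_ofReal ?_
        have : τ₂ ^ 5 = τ₂ ^ 4 * τ₂ := by ring
        rw [this]
        exact mul_le_mul_of_nonneg_left (by linarith) (by positivity)

theorem fact_up (hn : 1 ≤ n) : ((n + 1).factorial : ℝ) = (n + 1) * n * (n - 1).factorial ∧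
    ((n + 2).factorial : ℝ) = (n + 2) * (n + 1) * n * (n - 1).factorial ∧
    ((n + 4).factorial : ℝ) = (n + 4) * (n + 3) * (n + 2) * (n + 1) * n * (n - 1).factorial := by
  obtain ⟨k, rfl⟩ : ∃ k, n = k + 1 := ⟨n - 1, by omega⟩
  rw [show k + 1 - 1 = k by omega]
  refine ⟨?_, ?_, ?_⟩ <;>
  · simp only [Nat.factorial_succ]
    push_cast
    ring

open Classical in
theorem y_lower {C τ₁ τ₂ : ℝ} (hC : 0 < C) (h1 : 0 < τ₁) (h2 : τ₁ ≤ τ₂) (hn : 1 ≤ n)
    (h5 : τ₂ ^ 5 ≤ (n : ℝ) ^ 3) :
    ENNReal.ofReal ((Real.log (τ₂ / τ₁) * (1 - 8 / C) - 120 / n) / (n - 1).factorial) ≤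
    ∫⁻ y, (if Win τ₁ τ₂ (∑ i, y i) ∧ ∑ i, y i ^ 2 ≤ C * (∑ i, y i) ^ 2 / n ∧
        ∑ i, y i ^ 3 ≤ C * (∑ i, y i) ^ 3 / (n : ℝ) ^ 2 then
      ENNReal.ofReal ((1 / ∑ i, y i) ^ n) else 0) ∂(Measure.pi fun _ : Fin n => u1) := by
  have hn0 : (0:ℝ) < n := by exact_mod_cast hn
  have hτ2 : 0 < τ₂ := by linarith
  have hlog : 0 ≤ Real.log (τ₂ / τ₁) := Real.log_nonneg (by rw [le_div_iff₀ h1]; linarith)
  rw [← orth_box]
  set lg := Real.log (τ₂ / τ₁) with hlg
  set G := ∫⁻ y, (if ∀ i, y i ≤ 1 then (if Win τ₁ τ₂ (∑ i, y i) ∧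
        ∑ i, y i ^ 2 ≤ C * (∑ i, y i) ^ 2 / n ∧
        ∑ i, y i ^ 3 ≤ C * (∑ i, y i) ^ 3 / (n : ℝ) ^ 2 then
      ENNReal.ofReal ((1 / ∑ i, y i) ^ n) else 0) else 0) ∂(orth (Fin n)) with hG
  have hW : Measurable fun t : ℝ =>
      (if Win τ₁ τ₂ t then ENNReal.ofReal ((1 / t) ^ n) else 0) := by
    refine Measurable.ite ?_ (by fun_prop) measurable_const
    exact measurableSet_Icc (a := τ₁) (b := τ₂)
  have hms : ∀ m : ℕ, ∀ c : ℝ, Measurable fun y : Fin n → ℝ =>
      (if Win τ₁ τ₂ (∑ i, y i) then ENNReal.ofReal ((1 / ∑ i, y i) ^ n * (c / (∑ i, y i) ^ m))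
        else 0) * (∑ j, ENNReal.ofReal (y j ^ m)) := by
    intro m c
    refine Measurable.mul (Measurable.ite ?_ (by fun_prop) measurable_const) (by fun_prop)
    exact measurable_win τ₁ τ₂ (f := fun y : Fin n → ℝ => ∑ i, y i) (by fun_prop)
  have hms5 : Measurable fun y : Fin n → ℝ =>
      (if Win τ₁ τ₂ (∑ i, y i) then ENNReal.ofReal ((1 / ∑ i, y i) ^ n)
        else 0) * (∑ j, ENNReal.ofReal (y j ^ 5)) := by
    refine Measurable.mul (Measurable.ite ?_ (by fun_prop) measurable_const) (by fun_prop)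
    exact measurable_win τ₁ τ₂ (f := fun y : Fin n → ℝ => ∑ i, y i) (by fun_prop)
  have hmain : ENNReal.ofReal (lg / (n - 1).factorial) ≤ G +
      ENNReal.ofReal ((lg * (8 / C) + 120 / n) / (n - 1).factorial) := by
    have e0 : ENNReal.ofReal (lg / (n - 1).factorial) = ∫⁻ y,
        (if Win τ₁ τ₂ (∑ i, y i) then ENNReal.ofReal ((1 / ∑ i, y i) ^ n) else 0)
          ∂(orth (Fin n)) := by
      rw [← gm_window hn h1 h2, orth_sum (Fin n) hW, Fintype.card_fin]
      exact lintegral_congr fun t => if_congr Iff.rfl rfl rfl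
    have e1 : ∀ᵐ y ∂(orth (Fin n)),
        (if Win τ₁ τ₂ (∑ i, y i) then ENNReal.ofReal ((1 / ∑ i, y i) ^ n) else 0) ≤
        (if ∀ i, y i ≤ 1 then (if Win τ₁ τ₂ (∑ i, y i) ∧
          ∑ i, y i ^ 2 ≤ C * (∑ i, y i) ^ 2 / n ∧
          ∑ i, y i ^ 3 ≤ C * (∑ i, y i) ^ 3 / (n : ℝ) ^ 2 then
          ENNReal.ofReal ((1 / ∑ i, y i) ^ n) else 0) else 0) +
        ((if Win τ₁ τ₂ (∑ i, y i) then ENNReal.ofReal ((1 / ∑ i, y i) ^ n)
          else 0) * (∑ j, ENNReal.ofReal (y j ^ 5)) +
        ((if Win τ₁ τ₂ (∑ i, y i) then ENNReal.ofReal ((1 / ∑ i, y i) ^ n *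
            ((n / C) / (∑ i, y i) ^ 2)) else 0) * (∑ j, ENNReal.ofReal (y j ^ 2)) +
        (if Win τ₁ τ₂ (∑ i, y i) then ENNReal.ofReal ((1 / ∑ i, y i) ^ n *
            (((n : ℝ) ^ 2 / C) / (∑ i, y i) ^ 3)) else 0) * (∑ j, ENNReal.ofReal (y j ^ 3)))) := by
      filter_upwards [orth_pos n] with y hy
      by_cases hw : Win τ₁ τ₂ (∑ i, y i)
      · have ht : 0 < ∑ i, y i := lt_of_lt_of_le h1 hw.1
        simp only [if_pos hw]
        set f := ENNReal.ofReal ((1 / ∑ i, y i) ^ n) with hf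
        by_cases c1 : ∀ i, y i ≤ 1
        · by_cases c2 : ∑ i, y i ^ 2 ≤ C * (∑ i, y i) ^ 2 / n
          · by_cases c3 : ∑ i, y i ^ 3 ≤ C * (∑ i, y i) ^ 3 / (n : ℝ) ^ 2
            · rw [if_pos c1, if_pos ⟨hw, c2, c3⟩]
              exact le_self_add
            · refine le_add_left (le_add_left (le_add_left ?_))
              rw [ENNReal.ofReal_mul (by positivity), mul_assoc]
              have : (1 : ℝ≥0∞) ≤ ENNReal.ofReal ((n : ℝ) ^ 2 / C / (∑ i, y i) ^ 3) *
                  (∑ i, ENNReal.ofReal (y i ^ 3)) := by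
                rw [← ENNReal.ofReal_sum_of_nonneg fun i _ => pow_nonneg (hy i).le 3,
                  ← ENNReal.ofReal_mul (by positivity), ENNReal.one_le_ofReal]
                push Not at c3
                rw [div_lt_iff₀ (by positivity)] at c3
                rw [div_div, div_mul_eq_mul_div, le_div_iff₀ (by positivity)]
                nlinarith
              calc f = f * 1 := (mul_one f).symm
                _ ≤ _ := mul_le_mul_right this f
          · refine le_add_left (le_add_left (le_add_right ?_))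
            rw [ENNReal.ofReal_mul (by positivity), mul_assoc]
            have : (1 : ℝ≥0∞) ≤ ENNReal.ofReal ((n : ℝ) / C / (∑ i, y i) ^ 2) *
                (∑ i, ENNReal.ofReal (y i ^ 2)) := by
              rw [← ENNReal.ofReal_sum_of_nonneg fun i _ => pow_nonneg (hy i).le 2,
                ← ENNReal.ofReal_mul (by positivity), ENNReal.one_le_ofReal]
              push Not at c2
              rw [div_lt_iff₀ (by positivity)] at c2
              rw [div_div, div_mul_eq_mul_div, le_div_iff₀ (by positivity)]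
              nlinarith
            calc f = f * 1 := (mul_one f).symm
              _ ≤ _ := mul_le_mul_right this f
        · refine le_add_left (le_add_right ?_)
          have : (1 : ℝ≥0∞) ≤ ∑ i, ENNReal.ofReal (y i ^ 5) := by
            push Not at c1
            obtain ⟨i, hi⟩ := c1
            calc (1 : ℝ≥0∞) ≤ ENNReal.ofReal (y i ^ 5) := by
                  rw [ENNReal.one_le_ofReal]
                  exact one_le_pow₀ hi.le
              _ ≤ _ := Finset.single_le_sum (f := fun i => ENNReal.ofReal (y i ^ 5))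
                  (fun _ _ => zero_le) (Finset.mem_univ i)
          calc f = f * 1 := (mul_one f).symm
            _ ≤ _ := mul_le_mul_right this f
      · rw [if_neg hw]
        exact zero_le
    rw [e0]
    refine (lintegral_mono_ae e1).trans ?_
    rw [lintegral_add_right _ (by exact hms5.add ((hms 2 _).add (hms 3 _))),
      lintegral_add_right _ (by exact (hms 2 _).add (hms 3 _)),
      lintegral_add_right _ (by exact hms 3 _)]
    refine add_le_add_right ?_ G
    rw [win_mom hn h1 h2 2 (by positivity), win_mom hn h1 h2 3 (by positivity)]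
    refine (add_le_add_left (win_mom5 hn h1 h2) _).trans ?_
    rw [← ENNReal.ofReal_add (by positivity) (by positivity),
      ← ENNReal.ofReal_add (by positivity) (by positivity)]
    refine ENNReal.ofReal_le_ofReal ?_
    obtain ⟨f1, f2, f4⟩ := fact_up hn
    rw [show 2 + n - 1 = n + 1 by omega, show 3 + n - 1 = n + 2 by omega, f1, f2, f4, ← hlg]
    have hF : (0:ℝ) < (n - 1).factorial := by positivity
    set F : ℝ := ((n - 1).factorial : ℝ) with hFdef
    have e2 : (Nat.factorial 2 : ℝ) = 2 := by norm_num [Nat.factorial]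
    have e3 : (Nat.factorial 3 : ℝ) = 6 := by norm_num [Nat.factorial]
    rw [e2, e3]
    have a5 : n * (120 / ((n + 4) * (n + 3) * (n + 2) * (n + 1) * n * F)) * τ₂ ^ 5
        ≤ 120 / n / F := by
      have : n * (120 / ((n + 4) * (n + 3) * (n + 2) * (n + 1) * n * F)) * τ₂ ^ 5
          ≤ n * (120 / ((n + 4) * (n + 3) * (n + 2) * (n + 1) * n * F)) * (n : ℝ) ^ 3 :=
        mul_le_mul_of_nonneg_left h5 (by positivity)
      refine this.trans ?_
      rw [div_div, mul_div_assoc', div_mul_eq_mul_div,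
        div_le_div_iff₀ (by positivity) (by positivity)]
      have h6 : (n : ℝ) ^ 4 ≤ (n + 4) * (n + 3) * (n + 2) * (n + 1) := by
        have : (n : ℝ) ^ 4 = n * n * n * n := by ring
        rw [this]
        gcongr <;> linarith
      have h7 : (0:ℝ) ≤ 120 * n * F * n := by positivity
      nlinarith [mul_le_mul_of_nonneg_left h6 h7]
    have a2 : n * (2 / ((n + 1) * n * F)) * (n / C * lg) ≤ lg * (2 / C) / F := by
      have : n * (2 / ((n + 1) * n * F)) * (n / C * lg) = lg * (2 / C) / F * (n / (n + 1)) := by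
        field_simp
      rw [this]
      refine mul_le_of_le_one_right (by positivity) ?_
      rw [div_le_one (by positivity)]
      linarith
    have a3 : n * (6 / ((n + 2) * (n + 1) * n * F)) * ((n : ℝ) ^ 2 / C * lg)
        ≤ lg * (6 / C) / F := by
      have : n * (6 / ((n + 2) * (n + 1) * n * F)) * ((n : ℝ) ^ 2 / C * lg)
          = lg * (6 / C) / F * ((n * n) / ((n + 2) * (n + 1))) := by
        field_simp
      rw [this]
      refine mul_le_of_le_one_right (by positivity) ?_
      rw [div_le_one (by positivity)]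
      nlinarith
    have a8 : (lg * (8 / C) + 120 / n) / F = 120 / n / F + (lg * (2 / C) / F + lg * (6 / C) / F) := by
      ring
    rw [a8]
    linarith
  have hb : 0 ≤ (lg * (8 / C) + 120 / n) / (n - 1).factorial := by positivity
  have e9 : (lg * (1 - 8 / C) - 120 / n) / (n - 1).factorial
      = lg / (n - 1).factorial - (lg * (8 / C) + 120 / n) / (n - 1).factorial := by ring
  rw [e9, ENNReal.ofReal_sub _ hb]
  exact tsub_le_iff_right.mpr hmain

end Pool.Agent.SM.FL
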