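import Pool.Agent.MP_d30e2b_pr.PairSum

set_option autoImplicit false

/-! near pairs -/

namespace Pool.Agent.SM

open MeasureTheory Set
open scoped ENNReal

theorem lint_inv {a b : ℝ} (ha : 0 < a) (hab : a ≤ b) {c : ℝ} (hc : 0 ≤ c) :
    ∫⁻ t in Ioc a b, ENNReal.ofReal (c / t) = ENNReal.ofReal (c * Real.log (b / a)) := by
  rw [← ofReal_integral_eq_lintegral_ofReal]
  · congr 1
    rw [← intervalIntegral.integral_of_le hab]
    have : ∀ t : ℝ, c / t = c * t⁻¹ := fun t => by rw [div_eq_mul_inv]
    simp_rw [this]
    rw [intervalIntegral.integral_const_mul, integral_inv_of_pos ha (by linarith)]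
  · have : ContinuousOn (fun t : ℝ => c / t) (Icc a b) := by
      refine ContinuousOn.div continuousOn_const continuousOn_id fun t ht => ?_
      exact (lt_of_lt_of_le ha ht.1).ne'
    exact this.integrableOn_Icc.mono_set Ioc_subset_Icc_self
  · filter_upwards [ae_restrict_mem measurableSet_Ioc] with t ht
    have : 0 < t := lt_trans ha ht.1
    positivity

open Classical in
theorem near_int {τ₁ τ₂ ε c : ℝ} (h1 : 0 < τ₁) (h2 : τ₁ ≤ τ₂) (hε : 0 < ε) (hε1 : ε ≤ 1)
    (hc : 0 ≤ c) :
    ∫⁻ T in Ioi (0:ℝ), ∫⁻ t in Ioo (0:ℝ) T, (if Win τ₁ τ₂ t ∧ Win τ₁ τ₂ T ∧ ε * T < t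
      then (1 : ℝ≥0∞) else 0) * ENNReal.ofReal (c / (t * T))
    ≤ ENNReal.ofReal (c * (Real.log (τ₂ / τ₁) * Real.log (1 / ε))) := by
  have hlε : 0 ≤ Real.log (1 / ε) := Real.log_nonneg (by rw [le_div_iff₀ hε]; linarith)
  calc _ ≤ ∫⁻ T in Icc τ₁ τ₂, ENNReal.ofReal (c * Real.log (1 / ε) / T) := by
        rw [← lintegral_indicator measurableSet_Ioi, ← lintegral_indicator measurableSet_Icc]
        refine lintegral_mono fun T => ?_
        simp only [indicator, mem_Ioi, mem_Icc]
        by_cases hw : τ₁ ≤ T ∧ T ≤ τ₂
        · have hT : 0 < T := by linarith [hw.1]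
          rw [if_pos hT, if_pos hw]
          calc _ ≤ ∫⁻ t in Ioc (ε * T) T, ENNReal.ofReal (c / T / t) := by
                rw [← lintegral_indicator measurableSet_Ioo, ← lintegral_indicator measurableSet_Ioc]
                refine lintegral_mono fun t => ?_
                simp only [indicator, mem_Ioo, mem_Ioc]
                split_ifs with h3 h4 h5 h6
                · rw [one_mul]
                  refine le_of_eq ?_
                  congr 1
                  field_simp
                · exact absurd ⟨h4.2.2, h3.2.le⟩ h5
                · simp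
                · simp
                · simp
                · simp
            _ = _ := by
                rw [lint_inv (by positivity) (by nlinarith) (by positivity)]
                congr 1
                have : T / (ε * T) = 1 / ε := by field_simp
                rw [this]
                ring
        · split_ifs with h3
          · refine le_of_eq ?_
            rw [lintegral_eq_zero_iff']
            · filter_upwards with t
              rw [if_neg]
              · simp
              · intro h
                exact hw h.2.1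
            · refine Measurable.aemeasurable ?_
              refine Measurable.mul (Measurable.ite ?_ measurable_const measurable_const) (by fun_prop)
              have := measurable_win τ₁ τ₂ (f := fun t : ℝ => t) measurable_id
              exact this.inter ((MeasurableSet.const _).inter (measurableSet_lt measurable_const measurable_id))
          · exact le_rfl
    _ = _ := by
        rw [Measure.restrict_congr_set Ioc_ae_eq_Icc.symm, lint_inv h1 h2 (by positivity)]
        congr 1
        ring

open Classical in
theorem far_int {τ₁ τ₂ c : ℝ} (h1 : 0 < τ₁) (h2 : τ₁ ≤ τ₂) (hc : 0 ≤ c) :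
    ∫⁻ T in Ioi (0:ℝ), ∫⁻ t in Ioo (0:ℝ) T, (if Win τ₁ τ₂ t ∧ Win τ₁ τ₂ T
      then (1 : ℝ≥0∞) else 0) * ENNReal.ofReal (c / (t * T))
    ≤ ENNReal.ofReal (c * (Real.log (τ₂ / τ₁) ^ 2 / 2)) := by
  calc _ ≤ ∫⁻ T in Icc τ₁ τ₂, ENNReal.ofReal (c * (Real.log (T / τ₁) / T)) := by
        rw [← lintegral_indicator measurableSet_Ioi, ← lintegral_indicator measurableSet_Icc]
        refine lintegral_mono fun T => ?_
        simp only [indicator, mem_Ioi, mem_Icc]
        by_cases hw : τ₁ ≤ T ∧ T ≤ τ₂
        · have hT : 0 < T := by linarith [hw.1]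
          rw [if_pos hT, if_pos hw]
          calc _ ≤ ∫⁻ t in Icc τ₁ T, ENNReal.ofReal (c / T / t) := by
                rw [← lintegral_indicator measurableSet_Ioo, ← lintegral_indicator measurableSet_Icc]
                refine lintegral_mono fun t => ?_
                simp only [indicator, mem_Ioo, mem_Icc]
                split_ifs with h3 h4 h5 h6
                · rw [one_mul]
                  refine le_of_eq ?_
                  congr 1
                  field_simp
                · exact absurd ⟨h4.1.1, h3.2.le⟩ h5
                · simp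
                · simp
                · simp
                · simp
            _ = _ := by
                rw [Measure.restrict_congr_set Ioc_ae_eq_Icc.symm,
                  lint_inv h1 hw.1 (by positivity)]
                congr 1
                ring
        · split_ifs with h3
          · refine le_of_eq ?_
            rw [lintegral_eq_zero_iff']
            · filter_upwards with t
              rw [if_neg]
              · simp
              · intro h
                exact hw h.2
            · refine Measurable.aemeasurable ?_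
              refine Measurable.mul (Measurable.ite ?_ measurable_const measurable_const) (by fun_prop)
              have := measurable_win τ₁ τ₂ (f := fun t : ℝ => t) measurable_id
              exact this.inter (MeasurableSet.const _)
          · exact le_rfl
    _ = _ := by
        rw [← ofReal_integral_eq_lintegral_ofReal]
        · congr 1
          rw [integral_const_mul]
          congr 1
          rw [integral_Icc_eq_integral_Ioc, ← intervalIntegral.integral_of_le h2]
          have hd : ∀ T ∈ Set.uIcc τ₁ τ₂, HasDerivAt (fun T : ℝ => Real.log (T / τ₁) ^ 2 / 2)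
              (Real.log (T / τ₁) / T) T := by
            intro T hT
            rw [Set.uIcc_of_le h2] at hT
            have hT0 : 0 < T := lt_of_lt_of_le h1 hT.1
            have h3 : HasDerivAt (fun T : ℝ => T / τ₁) (1 / τ₁) T :=
              (hasDerivAt_id T).div_const τ₁
            have h4 := (h3.log (by positivity)).fun_pow 2
            refine (h4.div_const 2).congr_deriv ?_
            field_simp
            ring
          rw [intervalIntegral.integral_eq_sub_of_hasDerivAt hd]
          · rw [div_self h1.ne']
            simp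
          · apply ContinuousOn.intervalIntegrable
            rw [Set.uIcc_of_le h2]
            refine ContinuousOn.div (ContinuousOn.log (continuousOn_id.div_const _) ?_)
              continuousOn_id ?_
            · intro T hT
              have hT0 : 0 < T := lt_of_lt_of_le h1 hT.1
              have : 0 < T / τ₁ := by positivity
              exact this.ne'
            · intro T hT
              exact (lt_of_lt_of_le h1 hT.1).ne'
        · have : ContinuousOn (fun T : ℝ => c * (Real.log (T / τ₁) / T)) (Icc τ₁ τ₂) := by
            refine continuousOn_const.mul (ContinuousOn.div (ContinuousOn.log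
              (continuousOn_id.div_const _) ?_) continuousOn_id ?_)
            · intro T hT
              have hT0 : 0 < T := lt_of_lt_of_le h1 hT.1
              have : 0 < T / τ₁ := by positivity
              exact this.ne'
            · intro T hT
              exact (lt_of_lt_of_le h1 hT.1).ne'
          exact this.integrableOn_Icc
        · filter_upwards [ae_restrict_mem measurableSet_Icc] with T hT
          have hT0 : 0 < T := lt_of_lt_of_le h1 hT.1
          have : 0 ≤ Real.log (T / τ₁) := Real.log_nonneg (by
            rw [le_div_iff₀ h1]; linarith [hT.1])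
          positivity

theorem sum_pd {n : ℕ} (hn : 1 ≤ n) {t T : ℝ} (ht : 0 < t) (htT : t < T) :
    ∑ j ∈ Finset.range n, ENNReal.ofReal (pd n j t T) = ENNReal.ofReal ((n : ℝ) ^ 2 / (t * T)) := by
  rw [← ENNReal.ofReal_sum_of_nonneg fun j _ => pd_nonneg ht htT]
  congr 1
  unfold pd
  rw [← Finset.mul_sum, sum_bi hn, mul_one]

open Classical in
/-- S4: comparable pairs, not far apart -/
theorem near_pairs (n : ℕ) (τ₁ τ₂ ε : ℝ) (h1 : 4 ≤ τ₁) (h2 : τ₁ ≤ τ₂) (hε : 0 < ε) (hε1 : ε ≤ 1) :
    ∫⁻ z, ∑ μ : Equiv.Perm (Fin n), ∑ σ : Equiv.Perm (Fin n),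
      (if Stab z μ ∧ Low z μ σ ∧ σ ≠ 1 ∧ Win τ₁ τ₂ (tt z μ) ∧ Win τ₁ τ₂ (tt z (μ * σ)) ∧
        ε * tt z (μ * σ) < tt z μ then (1 : ℝ≥0∞) else 0) ∂(P n) ≤
    ENNReal.ofReal (Real.exp 9 * (n : ℝ) ^ 2 * (Real.log (τ₂ / τ₁) * Real.log (1 / ε))) := by
  rcases Nat.eq_zero_or_pos n with hn | hn
  · subst hn
    have : ∀ z : Conf 0, ∑ μ : Equiv.Perm (Fin 0), ∑ σ : Equiv.Perm (Fin 0),
      (if Stab z μ ∧ Low z μ σ ∧ σ ≠ 1 ∧ Win τ₁ τ₂ (tt z μ) ∧ Win τ₁ τ₂ (tt z (μ * σ)) ∧
        ε * tt z (μ * σ) < tt z μ then (1 : ℝ≥0∞) else 0) = 0 := by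
      intro z
      refine Finset.sum_eq_zero fun μ _ => Finset.sum_eq_zero fun σ _ => ?_
      rw [if_neg]
      intro h
      exact h.2.2.1 (Subsingleton.elim _ _)
    simp_rw [this]
    simp
  set g : ℝ → ℝ → ℝ≥0∞ := fun t T => if Win τ₁ τ₂ t ∧ Win τ₁ τ₂ T ∧ ε * T < t
      then (1 : ℝ≥0∞) else 0 with hg
  have hgm : Measurable (Function.uncurry g) := by
    refine Measurable.ite ?_ measurable_const measurable_const
    exact (measurable_win τ₁ τ₂ measurable_fst).inter ((measurable_win τ₁ τ₂ measurable_snd).inter
      (measurableSet_lt (measurable_snd.const_mul _) measurable_fst))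
  have hlt : ∀ z : Conf n, ∀ σ, MeasurableSet {z : Conf n | ε * tt z (1 * σ) < tt z 1} := fun z σ =>
    measurableSet_lt ((meas_tt _).const_mul _) (meas_tt _)
  refine (sum_rl_one (fun z μ σ => Stab z μ ∧ Low z μ σ ∧ σ ≠ 1 ∧ Win τ₁ τ₂ (tt z μ) ∧
    Win τ₁ τ₂ (tt z (μ * σ)) ∧ ε * tt z (μ * σ) < tt z μ) ?_ ?_
    (fun σ => ENNReal.ofReal (Real.exp 9) * if σ ≠ 1 then AA n σ.support.card g else 0) ?_).trans ?_
  · intro σ
    refine ms_and (meas_Stab 1) (ms_and (meas_Low 1 σ) (ms_and (ms_const _) (ms_and (meas_Win 1 _ _)
      (ms_and (meas_Win _ _ _) ?_))))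
    exact measurableSet_lt ((meas_tt _).const_mul _) (meas_tt _)
  · intro z μ σ
    simp only [stab_rl, tt_rl, low_rl, mul_one, one_mul]
  · intro σ
    by_cases hσ : σ ≠ 1
    · rw [if_pos hσ]
      have := crude_low σ g hgm (fun t T => by simp only [hg]; split_ifs <;> simp) ?_
      · refine le_trans (le_of_eq ?_) this
        refine lintegral_congr fun z => ?_
        simp only [hg, one_mul]
        by_cases a1 : Stab z 1 <;> by_cases a2 : Low z 1 σ <;> simp [a1, a2, hσ]
      · intro t T h
        simp only [hg] at h
        by_cases h3 : Win τ₁ τ₂ t ∧ Win τ₁ τ₂ T ∧ ε * T < t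
        · exact h1.trans h3.1.1
        · exact absurd (if_neg h3) h
    · rw [if_neg hσ]
      have e1 : ∀ z : Conf n, (if Stab z 1 ∧ Low z 1 σ ∧ σ ≠ 1 ∧ Win τ₁ τ₂ (tt z 1) ∧
          Win τ₁ τ₂ (tt z (1 * σ)) ∧ ε * tt z (1 * σ) < tt z 1 then (1 : ℝ≥0∞) else 0) = 0 := by
        intro z
        rw [if_neg]
        tauto
      simp_rw [e1]
      simp
  · rw [← Finset.mul_sum, mul_left_comm]
    have h3 := pair_sum hn (fun σ => AA n σ.support.card g) (fun _ => g) (fun _ => hgm)
      (fun σ j hj => by rw [hj])
    refine (mul_le_mul_right h3 _).trans ?_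
    rw [mul_assoc (Real.exp 9), ENNReal.ofReal_mul (by positivity)]
    refine mul_le_mul_right ?_ _
    refine le_trans ?_ (near_int (by linarith) h2 hε hε1 (sq_nonneg (n : ℝ)))
    refine setLIntegral_mono' measurableSet_Ioi fun T hT => ?_
    refine setLIntegral_mono' measurableSet_Ioo fun t ht => ?_
    rw [← sum_pd hn ht.1 ht.2, Finset.mul_sum]
    refine Finset.sum_le_sum fun j _ => ?_
    calc g t T * ENNReal.ofReal (pd n j t T) * ENNReal.ofReal (dr (j + 1))
        ≤ g t T * ENNReal.ofReal (pd n j t T) * 1 := by
          refine mul_le_mul_right ?_ _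
          rw [← ENNReal.ofReal_one]
          exact ENNReal.ofReal_le_ofReal (dr_le_one _)
      _ = _ := by rw [mul_one]

end Pool.Agent.SM
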