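import Pool.Agent.MP_d30e2b_pr.FarMen
import Pool.Agent.MP_d30e2b_pr.Near

set_option autoImplicit false

/-! far pairs: probability for one permutation -/

namespace Pool.Agent.SM

open MeasureTheory Set
open scoped ENNReal

section
variable {n : ℕ} {σ : Equiv.Perm (Fin n)}

theorem mx_eq_xs (z : Conf n) : mx z σ = xs σ (zx z) (zξ σ z) := by
  funext i
  unfold xs mx
  split_ifs with h
  · rfl
  · simp only [ne_eq, not_not] at h
    rw [h]
    rfl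

theorem wy_eq_ys (z : Conf n) (i : Fin n) : wy z σ i = ys σ (zy z) (zη σ z) (σ i) := by
  unfold ys wy
  by_cases h : σ i ≠ i
  · have h1 : σ (σ.symm (σ i)) ≠ σ.symm (σ i) := by simpa using h
    rw [dif_pos h1]
    have h2 : (⟨σ.symm (σ i), h1⟩ : Mov σ) = ⟨i, h⟩ := Subtype.ext (by simp)
    rw [h2]
    rfl
  · have h1 : ¬ σ (σ.symm (σ i)) ≠ σ.symm (σ i) := by simpa using h
    rw [dif_neg h1]
    simp only [ne_eq, not_not] at h
    rw [h]
    rfl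

theorem sum_wy_pow (z : Conf n) (p : ℕ) :
    ∑ i, wy z σ i ^ p = ∑ j, ys σ (zy z) (zη σ z) j ^ p := by
  simp_rw [wy_eq_ys]
  exact Equiv.sum_comp σ (fun j => ys σ (zy z) (zη σ z) j ^ p)

theorem sum_wy (z : Conf n) :
    ∑ i, wy z σ i = ∑ j, ys σ (zy z) (zη σ z) j := by
  simp_rw [wy_eq_ys]
  exact Equiv.sum_comp σ (fun j => ys σ (zy z) (zη σ z) j)

theorem nice_ys (C τ₁ τ₂ : ℝ) (z : Conf n) :
    Nice C τ₁ τ₂ z σ ↔ NiceXY C τ₁ τ₂ (xs σ (zx z) (zξ σ z)) (ys σ (zy z) (zη σ z)) := by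
  unfold Nice NiceXY
  rw [sum_wy, sum_wy_pow, sum_wy_pow, mx_eq_xs]

theorem nice_one (C τ₁ τ₂ : ℝ) (z : Conf n) :
    Nice C τ₁ τ₂ z 1 ↔ NiceXY C τ₁ τ₂ (zx z) (zy z) := Iff.rfl

theorem gw_ys (z : Conf n) : gw z σ = ENNReal.ofReal (Real.exp
    ((∑ i, xs σ (zx z) (zξ σ z) i ^ 2) * (∑ j, ys σ (zy z) (zη σ z) j ^ 2) / 2)) := by
  unfold gw
  rw [sum_wy_pow, mx_eq_xs]

theorem gw_one (z : Conf n) : gw z 1 = ENNReal.ofReal (Real.exp
    ((∑ i, zx z i ^ 2) * (∑ j, zy z j ^ 2) / 2)) := rfl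

open Classical in
/-- far window -/
noncomputable def gf (τ₁ τ₂ ε : ℝ) (t T : ℝ) : ℝ≥0∞ :=
  if Win τ₁ τ₂ t ∧ Win τ₁ τ₂ T ∧ t ≤ ε * T then 1 else 0

theorem meas_gf (τ₁ τ₂ ε : ℝ) : Measurable (Function.uncurry (gf τ₁ τ₂ ε)) := by
  refine Measurable.ite ?_ measurable_const measurable_const
  exact (measurable_win τ₁ τ₂ measurable_fst).inter ((measurable_win τ₁ τ₂ measurable_snd).inter
      (measurableSet_le measurable_fst (measurable_snd.const_mul _)))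

theorem bi_le_one {j : ℕ} (hj : j < n) {w : ℝ} (h0 : 0 ≤ w) (h1 : w ≤ 1) : bi n j w ≤ 1 := by
  rw [← sum_bi (by omega : 1 ≤ n) w]
  exact Finset.single_le_sum (f := fun j => bi n j w) (fun i _ => bi_nonneg h0 h1)
    (Finset.mem_range.mpr hj)

theorem AA_gf_fin {τ₁ τ₂ ε : ℝ} (h1 : 0 < τ₁) (h2 : τ₁ ≤ τ₂) {k : ℕ} (hk : 1 ≤ k) (hkn : k ≤ n) :
    AA n k (gf τ₁ τ₂ ε) ≠ ∞ := by
  classical
  obtain ⟨j, rfl⟩ : ∃ j, k = j + 1 := ⟨k - 1, by omega⟩
  have h := AA_eq hkn (meas_gf τ₁ τ₂ ε)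
  have hc : 0 < (n.factorial : ℝ) * (n.choose (j + 1) * (j + 1).factorial) := by
    have : 0 < n.choose (j + 1) := Nat.choose_pos hkn
    positivity
  intro hA
  rw [hA, ENNReal.mul_top (ENNReal.ofReal_pos.mpr hc).ne'] at h
  have hle : ∫⁻ T in Ioi (0:ℝ), ∫⁻ t in Ioo (0:ℝ) T, gf τ₁ τ₂ ε t T * ENNReal.ofReal (pd n j t T)
      ≤ ENNReal.ofReal ((n : ℝ) ^ 2 * (Real.log (τ₂ / τ₁) ^ 2 / 2)) := by
    refine le_trans ?_ (far_int h1 h2 (sq_nonneg (n:ℝ)))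
    refine setLIntegral_mono' measurableSet_Ioi fun T hT => ?_
    refine setLIntegral_mono' measurableSet_Ioo fun t ht => ?_
    simp only [mem_Ioi] at hT
    have ht0 := ht.1
    refine mul_le_mul' ?_ (ENNReal.ofReal_le_ofReal ?_)
    · unfold gf
      split_ifs with a1 a2
      · exact le_rfl
      · exact absurd ⟨a1.1, a1.2.1⟩ a2
      · exact zero_le
      · exact zero_le
    · unfold pd
      have hb := bi_le_one (n := n) (j := j) (w := t / T) (by omega) (by positivity)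
        (by rw [div_le_one hT]; exact ht.2.le)
      have : 0 ≤ (n:ℝ) ^ 2 / (t * T) := by positivity
      nlinarith
  rw [← h] at hle
  exact absurd hle (not_le.mpr ENNReal.ofReal_lt_top)

open Classical in
theorem prob_far {C τ₁ τ₂ ε : ℝ} (hn : 0 < n) (hC : 0 ≤ C) (hτ : 4 ≤ τ₁) (hτ2 : τ₁ ≤ τ₂)
    (hε : 0 ≤ ε) (hε1 : ε ≤ 1) (hsmall : C ^ 5 * (τ₂ / τ₁) ^ 6 / n ≤ ε ^ 3) (hσ : σ ≠ 1) :
    ∫⁻ z, (if Stab z 1 ∧ Low z 1 σ ∧ Nice C τ₁ τ₂ z 1 ∧ Nice C τ₁ τ₂ z σ ∧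
        tt z 1 ≤ ε * tt z σ then gw z 1 * gw z σ else 0) ∂(P n)
    ≤ ENNReal.ofReal (Real.exp (3 + (3 / 2 * C ^ 2 + 1) * ε + 8 / τ₁ + 32 * C ^ 2 / n)) *
      AA n σ.support.card (fun t T => gf τ₁ τ₂ ε t T * ENNReal.ofReal
        (1 + 2 * ((n - σ.support.card) / n + t / T) + 2 / (σ.support.card + 1))) := by
  set k := σ.support.card with hk
  have hk1 : 1 ≤ k := by
    have : σ.support.card ≠ 0 := by
      rw [Finset.card_ne_zero, Finset.nonempty_iff_ne_empty]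
      rwa [ne_eq, Equiv.Perm.support_eq_empty_iff]
    omega
  have hkn : k ≤ n := by
    have := Finset.card_le_univ σ.support
    rwa [Fintype.card_fin] at this
  let CD : (Fin n → ℝ) → (Fin n → ℝ) → (Mov σ → ℝ) → (Mov σ → ℝ) → Prop := fun x y ξ η =>
    NiceXY C τ₁ τ₂ x y ∧ NiceXY C τ₁ τ₂ (xs σ x ξ) (ys σ y η) ∧ ∑ j, y j ≤ ε * ∑ j, ys σ y η j
  let K : (Fin n → ℝ) → (Fin n → ℝ) → (Mov σ → ℝ) → (Mov σ → ℝ) → ℝ≥0∞ := fun x y ξ η =>
    if CD x y ξ η then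
      ENNReal.ofReal (Real.exp ((∑ i, x i ^ 2) * (∑ i, y i ^ 2) / 2)) *
      ENNReal.ofReal (Real.exp ((∑ i, xs σ x ξ i ^ 2) * (∑ i, ys σ y η i ^ 2) / 2)) else 0
  have mx1 : ∀ i, Measurable fun q : (Fin n → ℝ × ℝ) × (Mov σ → ℝ × ℝ) => (q.1 i).1 := by
    intro i; fun_prop
  have my1 : ∀ i, Measurable fun q : (Fin n → ℝ × ℝ) × (Mov σ → ℝ × ℝ) => (q.1 i).2 := by
    intro i; fun_prop
  have mxs := fun i => meas_xs σ i
  have mys := fun i => meas_ys σ i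
  have mpow : ∀ (f : Fin n → ((Fin n → ℝ × ℝ) × (Mov σ → ℝ × ℝ)) → ℝ) (_ : ∀ i, Measurable (f i))
      (p : ℕ), Measurable fun q => ∑ i, f i q ^ p := fun f hf p =>
    Finset.measurable_sum _ fun i _ => (hf i).pow_const p
  have msm : ∀ (f : Fin n → ((Fin n → ℝ × ℝ) × (Mov σ → ℝ × ℝ)) → ℝ) (_ : ∀ i, Measurable (f i)),
      Measurable fun q => ∑ i, f i q := fun f hf =>
    Finset.measurable_sum _ fun i _ => hf i
  have mNice : ∀ (f g : Fin n → ((Fin n → ℝ × ℝ) × (Mov σ → ℝ × ℝ)) → ℝ)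
      (_ : ∀ i, Measurable (f i)) (_ : ∀ i, Measurable (g i)),
      MeasurableSet {q | NiceXY C τ₁ τ₂ (fun i => f i q) (fun i => g i q)} := by
    intro f g hf hg
    have a1 := msm f hf
    have a2 := mpow f hf 2
    have a3 := mpow f hf 3
    have b1 := msm g hg
    have b2 := mpow g hg 2
    have b3 := mpow g hg 3
    refine (measurable_win τ₁ τ₂ b1).inter (MeasurableSet.inter ?_ (MeasurableSet.inter ?_
      (MeasurableSet.inter ?_ (MeasurableSet.inter ?_ ?_))))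
    · exact measurableSet_le (by fun_prop) a1
    · exact measurableSet_le a2 (by fun_prop)
    · exact measurableSet_le a3 (by fun_prop)
    · exact measurableSet_le b2 (by fun_prop)
    · exact measurableSet_le b3 (by fun_prop)
  have hKm : Measurable fun q : (Fin n → ℝ × ℝ) × (Mov σ → ℝ × ℝ) =>
      K (fun i => (q.1 i).1) (fun i => (q.1 i).2) (fun d => (q.2 d).1) (fun d => (q.2 d).2) := by
    refine Measurable.ite ?_ ?_ measurable_const
    · exact (mNice _ _ mx1 my1).inter ((mNice _ _ mxs mys).inter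
        (measurableSet_le (msm _ my1) ((msm _ mys).const_mul _)))
    · have a2 := mpow _ mx1 2
      have b2 := mpow _ my1 2
      have c2 := mpow _ mxs 2
      have d2 := mpow _ mys 2
      fun_prop
  have hstep1 : ∫⁻ z, (if Stab z 1 ∧ Low z 1 σ ∧ Nice C τ₁ τ₂ z 1 ∧ Nice C τ₁ τ₂ z σ ∧
        tt z 1 ≤ ε * tt z σ then gw z 1 * gw z σ else 0) ∂(P n)
      = ∫⁻ z, (if Stab z 1 ∧ Low z 1 σ ∧ Low z 1 1 then
        K (zx z) (zy z) (zξ σ z) (zη σ z) else 0) ∂(P n) := by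
    refine lintegral_congr fun z => ?_
    have hCD : CD (zx z) (zy z) (zξ σ z) (zη σ z) ↔ (Nice C τ₁ τ₂ z 1 ∧ Nice C τ₁ τ₂ z σ ∧
        tt z 1 ≤ ε * tt z σ) := by
      simp only [CD]
      rw [nice_one, nice_ys, tt_one]
      have : tt z σ = ∑ j, ys σ (zy z) (zη σ z) j := sum_wy z
      rw [this]
    rw [low_one_one]
    by_cases h1 : Stab z 1
    · by_cases h2 : Low z 1 σ
      · simp only [h1, h2, true_and, if_true, K]
        by_cases h3 : CD (zx z) (zy z) (zξ σ z) (zη σ z)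
        · rw [if_pos h3, if_pos (hCD.mp h3), gw_one, gw_ys]
        · rw [if_neg h3, if_neg (fun h => h3 (hCD.mpr h))]
      · simp [h2]
    · simp [h1]
  rw [hstep1]
  refine (triple_bound (mul_one σ).symm (Equiv.Perm.disjoint_one_right σ) K hKm).trans ?_
  set c1 : ℝ≥0∞ := ENNReal.ofReal (Real.exp ((3 / 2 * C ^ 2 + 1) * ε)) with hc1
  set c2 : ℝ≥0∞ := ENNReal.ofReal (Real.exp (4 + 8 / τ₁ + 32 * C ^ 2 / n)) with hc2
  have hc1' : c1 ≠ ∞ := ENNReal.ofReal_ne_top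
  have hc2' : c2 ≠ ∞ := ENNReal.ofReal_ne_top
  have key : ∀ (y : Fin n → ℝ) (η : Mov σ → ℝ),
      ∫⁻ x, ∫⁻ ξ, (if Adm σ x y ξ η then K x y ξ η *
          ∏ r : Rst σ, ENNReal.ofReal (1 - ar σ (cla σ) x y ξ η r.1.1 r.1.2) else 0)
          ∂(Measure.pi fun _ => u1) ∂(Measure.pi fun _ => u1)
      ≤ (if AdmY σ y η then (fun (y : Fin n → ℝ) (v : Mov σ → ℝ) =>
        (c1 * c2) * (gf τ₁ τ₂ ε (∑ j, y j) (∑ j, y j + ∑ d, v d) *
        ENNReal.ofReal ((1 / (∑ j, y j + ∑ d, v d)) ^ n * (1 / ∑ j, y j) ^ k) *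
        ENNReal.ofReal (Real.exp (-((k : ℝ) * bf σ y v /
        ((∑ j, y j) * (∑ j, y j + ∑ d, v d))))))) y (fun d => η d - y (σ d.1)) else 0) := by
    intro y η
    by_cases hY : AdmY σ y η
    · rw [if_pos hY]
      have hTeq : ∑ j, ys σ y η j = ∑ j, y j + ∑ d, inc σ y η d := sum_ys_eq σ y η
      by_cases hcond : (Win τ₁ τ₂ (∑ j, y j) ∧ Win τ₁ τ₂ (∑ j, ys σ y η j) ∧
          ∑ j, y j ≤ ε * ∑ j, ys σ y η j) ∧ ∑ i, y i ^ 2 ≤ C * (∑ i, y i) ^ 2 / n ∧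
          ∑ i, ys σ y η i ^ 2 ≤ C * (∑ i, ys σ y η i) ^ 2 / n
      · obtain ⟨hwin, hy2, hys2⟩ := hcond
        have hg1 : gf τ₁ τ₂ ε (∑ j, y j) (∑ j, y j + ∑ d, inc σ y η d) = 1 := by
          unfold gf
          rw [← hTeq, if_pos hwin]
        have hb : ∀ (x : Fin n → ℝ) (ξ : Mov σ → ℝ), (if Adm σ x y ξ η then K x y ξ η *
            ∏ r : Rst σ, ENNReal.ofReal (1 - ar σ (cla σ) x y ξ η r.1.1 r.1.2) else 0)
            ≤ c1 * (if Adm σ x y ξ η then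
            ((∏ r : Rst σ, ENNReal.ofReal (Real.exp (-ar σ (cla σ) x y ξ η r.1.1 r.1.2))) *
            ∏ d : Mov σ, ENNReal.ofReal (Real.exp (-((∑ j, ys σ y η j * y j) *
            (ξ d * (x d.1 - ξ d)))))) else 0) := by
          intro x ξ
          by_cases hadm : Adm σ x y ξ η
          · rw [if_pos hadm, if_pos hadm]
            simp only [K]
            by_cases h3 : CD x y ξ η
            · rw [if_pos h3]
              exact far_alg hadm ⟨h3.1, h3.2.1, h3.2.2⟩ hn hC (by linarith) hε hε1 hsmall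
            · rw [if_neg h3, zero_mul]
              exact zero_le
          · rw [if_neg hadm, if_neg hadm, mul_zero]
        refine (lintegral_mono fun x => lintegral_mono fun ξ => hb x ξ).trans ?_
        simp_rw [lintegral_const_mul' _ _ hc1']
        refine (mul_le_mul_right (far_men hY hτ hn hC hwin.1.1 hy2 hys2) _).trans (le_of_eq ?_)
        have hg2 : gf τ₁ τ₂ ε (∑ j, y j) (∑ j, y j + ∑ d : Mov σ, (η d - y (σ d.1))) = 1 := hg1
        simp only [hg2, one_mul]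
        rw [← hc2, mul_assoc]
        rfl
      · have hb : ∀ (x : Fin n → ℝ) (ξ : Mov σ → ℝ), (if Adm σ x y ξ η then K x y ξ η *
            ∏ r : Rst σ, ENNReal.ofReal (1 - ar σ (cla σ) x y ξ η r.1.1 r.1.2) else 0) = 0 := by
          intro x ξ
          split_ifs with hadm
          · simp only [K]
            rw [if_neg, zero_mul]
            intro h3
            exact hcond ⟨⟨h3.1.1, h3.2.1.1, h3.2.2⟩, h3.1.2.2.2.2.1, h3.2.1.2.2.2.2.1⟩
          · rfl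
        simp [hb]
    · have : ∀ (x : Fin n → ℝ) (ξ : Mov σ → ℝ), ¬ Adm σ x y ξ η := by
        intro x ξ h
        exact hY ⟨fun i => (h.1 i).2, fun d => (h.2.1 d).2, fun d => (h.2.2 d).2⟩
      simp [this]
  refine (lintegral_mono fun y => lintegral_mono fun η => key y η).trans ?_
  refine (change_var σ (fun (y : Fin n → ℝ) (v : Mov σ → ℝ) =>
        (c1 * c2) * (gf τ₁ τ₂ ε (∑ j, y j) (∑ j, y j + ∑ d, v d) *
        ENNReal.ofReal ((1 / (∑ j, y j + ∑ d, v d)) ^ n * (1 / ∑ j, y j) ^ k) *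
        ENNReal.ofReal (Real.exp (-((k : ℝ) * bf σ y v /
        ((∑ j, y j) * (∑ j, y j + ∑ d, v d)))))))).trans ?_
  simp_rw [lintegral_const_mul' _ _ (ENNReal.mul_ne_top hc1' hc2')]
  have hw := women_exp σ hk1 (gf τ₁ τ₂ ε) (meas_gf τ₁ τ₂ ε)
    (AA_gf_fin (by linarith) hτ2 hk1 hkn) (fun t T hne => by
      have hw : Win τ₁ τ₂ t ∧ Win τ₁ τ₂ T ∧ t ≤ ε * T := by
        by_contra hc
        exact hne (if_neg hc)
      linarith [hw.1.1])
  refine (mul_le_mul_right hw _).trans (le_of_eq ?_)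
  rw [← mul_assoc]
  congr 1
  rw [hc1, hc2, ← ENNReal.ofReal_mul (Real.exp_pos _).le, ← Real.exp_add,
    ← ENNReal.ofReal_mul (Real.exp_pos _).le, ← Real.exp_add]
  congr 2
  ring

end

end Pool.Agent.SM
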