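import Pool.Agent.MP_d30e2b_pr.Rate
import Pool.Agent.MP_d30e2b_pr.Defs2

set_option autoImplicit false

/-! algebra for far pairs -/

namespace Pool.Agent.SM

open MeasureTheory Set
open scoped ENNReal

variable {n : ℕ}

theorem one_sub_le_exp {a : ℝ} (h0 : 0 ≤ a) : 1 - a ≤ Real.exp (-a - a ^ 2 / 2) := by
  by_cases h1 : a < 1
  · have h := Real.hasSum_pow_div_log_of_abs_lt_one (x := a) (by rw [abs_of_nonneg h0]; exact h1)
    have h2 := sum_le_hasSum (Finset.range 2) (fun i _ => by positivity) h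
    simp only [Finset.sum_range_succ, Finset.sum_range_zero] at h2
    norm_num at h2
    have h3 : Real.log (1 - a) ≤ -a - a ^ 2 / 2 := by linarith
    calc 1 - a = Real.exp (Real.log (1 - a)) := (Real.exp_log (by linarith)).symm
      _ ≤ _ := Real.exp_le_exp.mpr h3
  · push Not at h1
    have := Real.exp_pos (-a - a ^ 2 / 2)
    linarith

section

variable {σ : Equiv.Perm (Fin n)} {x y : Fin n → ℝ} {ξ η : Mov σ → ℝ}

theorem ys_moved {j : Fin n} (h : ys σ y η j ≠ y j) : σ j ≠ j := by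
  unfold ys at h
  split_ifs at h with hj
  · intro h'
    apply hj
    have : σ.symm j = j := by rw [Equiv.symm_apply_eq]; exact h'.symm
    rw [this, h']
  · exact absurd rfl h

theorem ar_eq (i j : Fin n) :
    ar σ (cla σ) x y ξ η i j = x i * y j + xs σ x ξ i * (ys σ y η j - y j) := by
  unfold ar
  by_cases h : ys σ y η j = y j
  · rw [h]
    ring
  · have hj := ys_moved h
    congr 2
    unfold xc
    by_cases hi : σ i ≠ i
    · have : cla σ i = cla σ j := by simp [cla, hi, hj]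
      rw [if_pos this]
    · have : ¬ cla σ i = cla σ j := by
        simp only [cla]
        simp [hi, hj]
      rw [if_neg this]
      unfold xs
      rw [dif_neg hi]

/-- excluded squares -/
def exq (σ : Equiv.Perm (Fin n)) (x y : Fin n → ℝ) (ξ η : Mov σ → ℝ) : ℝ :=
  ∑ i, (ar σ (cla σ) x y ξ η i i ^ 2 + if σ i ≠ i then ar σ (cla σ) x y ξ η i (σ i) ^ 2 else 0)

theorem sum_sq_rst :
    ∑ r : Rst σ, ar σ (cla σ) x y ξ η r.1.1 r.1.2 ^ 2
      = ∑ i, ∑ j, ar σ (cla σ) x y ξ η i j ^ 2 - exq σ x y ξ η := by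
  rw [sum_rst σ (fun i j => ar σ (cla σ) x y ξ η i j ^ 2)]
  unfold exq
  rw [← Finset.sum_sub_distrib]
  refine Finset.sum_congr rfl fun i _ => ?_
  exact sum_cols σ (fun j => ar σ (cla σ) x y ξ η i j ^ 2) i

theorem sum_sq_all :
    ∑ i, ∑ j, ar σ (cla σ) x y ξ η i j ^ 2
      = (∑ i, xs σ x ξ i ^ 2) * (∑ j, ys σ y η j ^ 2) +
        2 * ((∑ i, xs σ x ξ i * (x i - xs σ x ξ i)) * ∑ j, ys σ y η j * y j) +
        (∑ i, (x i - xs σ x ξ i) ^ 2) * ∑ j, y j ^ 2 := by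
  simp only [Finset.sum_mul_sum]
  rw [Finset.mul_sum, ← Finset.sum_add_distrib, ← Finset.sum_add_distrib]
  refine Finset.sum_congr rfl fun i _ => ?_
  rw [Finset.mul_sum, ← Finset.sum_add_distrib, ← Finset.sum_add_distrib]
  refine Finset.sum_congr rfl fun j _ => ?_
  rw [ar_eq]
  ring

theorem sum_x_sq :
    ∑ i, x i ^ 2 = ∑ i, xs σ x ξ i ^ 2 + 2 * (∑ i, xs σ x ξ i * (x i - xs σ x ξ i)) +
      ∑ i, (x i - xs σ x ξ i) ^ 2 := by
  rw [Finset.mul_sum, ← Finset.sum_add_distrib, ← Finset.sum_add_distrib]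
  refine Finset.sum_congr rfl fun i _ => ?_
  ring

theorem P_eq_mov :
    ∑ i, xs σ x ξ i * (x i - xs σ x ξ i) = ∑ d : Mov σ, ξ d * (x d.1 - ξ d) := by
  classical
  rw [← Finset.sum_filter_add_sum_filter_not _ (fun i => σ i ≠ i)]
  rw [Finset.sum_subtype (Finset.univ.filter fun i => σ i ≠ i) (p := fun i => σ i ≠ i) (by simp)]
  have h0 : ∑ i ∈ Finset.univ.filter (fun i => ¬ (σ i ≠ i)),
      xs σ x ξ i * (x i - xs σ x ξ i) = 0 := by
    refine Finset.sum_eq_zero fun i hi => ?_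
    simp only [Finset.mem_filter, Finset.mem_univ, true_and] at hi
    unfold xs
    rw [dif_neg hi]
    ring
  rw [h0, add_zero]
  refine Finset.sum_congr rfl fun d _ => ?_
  unfold xs
  rw [dif_pos d.2]

theorem Q_ge (hy : ∀ i, 0 ≤ y i) :
    ∑ d : Mov σ, (η d - y (σ d.1)) * y (σ d.1) ≤ ∑ j, ys σ y η j * y j := by
  have h := sum_ys_sub σ y y η
  have h1 : ∑ j, ys σ y η j * y j = ∑ j, y j * (ys σ y η j - y j) + ∑ j, y j * y j := by
    rw [← Finset.sum_add_distrib]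
    refine Finset.sum_congr rfl fun j _ => ?_
    ring
  rw [h1, h]
  have h2 : 0 ≤ ∑ j, y j * y j := Finset.sum_nonneg fun j _ => mul_nonneg (hy j) (hy j)
  have h3 : ∑ d : Mov σ, (η d - y (σ d.1)) * y (σ d.1)
      = ∑ d : Mov σ, y (σ d.1) * (η d - y (σ d.1)) :=
    Finset.sum_congr rfl fun d _ => mul_comm _ _
  linarith

/-- all the conditions on the cost vectors -/
structure FarC (C τ₁ τ₂ ε : ℝ) (σ : Equiv.Perm (Fin n)) (x y : Fin n → ℝ) (ξ η : Mov σ → ℝ) :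
    Prop where
  n1 : NiceXY C τ₁ τ₂ x y
  n2 : NiceXY C τ₁ τ₂ (xs σ x ξ) (ys σ y η)
  far : ∑ j, y j ≤ ε * ∑ j, ys σ y η j

theorem exq_le {C τ₁ τ₂ ε : ℝ} (h : Adm σ x y ξ η) (hF : FarC C τ₁ τ₂ ε σ x y ξ η) (hn : 0 < n)
    (hC : 0 ≤ C) (hτ : 0 < τ₁) (hε : 0 ≤ ε) (hsmall : C ^ 5 * (τ₂ / τ₁) ^ 6 / n ≤ ε ^ 3) :
    exq σ x y ξ η ≤ 2 * ε := by
  obtain ⟨⟨hw1, -, hx2, -, -, -⟩, ⟨hw2, -, -, -, -, hy3⟩, -⟩ := hF
  set t := ∑ j, y j with ht
  set T := ∑ j, ys σ y η j with hT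
  have ht0 : 0 < t := lt_of_lt_of_le hτ hw1.1
  have hT0 : 0 < T := lt_of_lt_of_le hτ hw2.1
  have hn0 : (0:ℝ) < n := by exact_mod_cast hn
  set X2 := ∑ i, x i ^ 2 with hX2
  have hX20 : 0 ≤ X2 := Finset.sum_nonneg fun i _ => sq_nonneg _
  have hTt : T / t ≤ τ₂ / τ₁ := div_le_div₀ (by linarith [hw2.1, hw2.2]) hw2.2 hτ hw1.1
  have hys0 : ∀ j, 0 ≤ ys σ y η j := fun j => (h.1 j).2.1.trans (h.y_le j)
  have hys : ∀ j, ys σ y η j ^ 2 * X2 ≤ ε := by
    intro j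
    have h1 : ys σ y η j ^ 3 ≤ C * T ^ 3 / n ^ 2 :=
      (Finset.single_le_sum (f := fun j => ys σ y η j ^ 3)
        (fun i _ => pow_nonneg (hys0 i) 3) (Finset.mem_univ j)).trans hy3
    have h2 : (ys σ y η j ^ 2 * X2) ^ 3 ≤ ε ^ 3 := by
      calc (ys σ y η j ^ 2 * X2) ^ 3 = (ys σ y η j ^ 3) ^ 2 * X2 ^ 3 := by ring
        _ ≤ (C * T ^ 3 / n ^ 2) ^ 2 * (C * n / t ^ 2) ^ 3 := by
            have := hys0 j
            gcongr
        _ = C ^ 5 * (T / t) ^ 6 / n := by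
            field_simp
        _ ≤ C ^ 5 * (τ₂ / τ₁) ^ 6 / n := by gcongr
        _ ≤ ε ^ 3 := hsmall
    exact le_of_pow_le_pow_left₀ (by norm_num) hε h2
  have hterm : ∀ π : Fin n → Fin n, ∑ i, x i ^ 2 * ys σ y η (π i) ^ 2 ≤ ε := by
    intro π
    have h1 : (∑ i, x i ^ 2 * ys σ y η (π i) ^ 2) * X2 ≤ X2 * ε := by
      rw [Finset.sum_mul]
      conv_rhs => rw [hX2, Finset.sum_mul]
      refine Finset.sum_le_sum fun i _ => ?_
      rw [mul_assoc]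
      exact mul_le_mul_of_nonneg_left (hys _) (sq_nonneg _)
    rcases hX20.eq_or_lt with h2 | h2
    · have h3 : ∀ i, x i = 0 := by
        intro i
        have := (Finset.sum_eq_zero_iff_of_nonneg (fun i _ => sq_nonneg (x i))).mp h2.symm i
          (Finset.mem_univ i)
        exact pow_eq_zero_iff (by norm_num) |>.mp this
      simp [h3, hε]
    · rw [mul_comm X2] at h1
      exact le_of_mul_le_mul_right h1 h2
  have har : ∀ i j, ar σ (cla σ) x y ξ η i j ^ 2 ≤ x i ^ 2 * ys σ y η j ^ 2 := by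
    intro i j
    rw [← mul_pow]
    have h1 : ar σ (cla σ) x y ξ η i j ≤ x i * ys σ y η j := by
      rw [ar_eq]
      have := mul_le_mul_of_nonneg_right (h.xs_le i) (sub_nonneg.mpr (h.y_le j))
      nlinarith
    have h2 : 0 ≤ ar σ (cla σ) x y ξ η i j := by
      rw [ar_eq]
      have := mul_nonneg (h.xs_nonneg i) (sub_nonneg.mpr (h.y_le j))
      have := mul_nonneg (h.1 i).1.1 (h.1 j).2.1
      linarith
    exact pow_le_pow_left₀ h2 h1 2
  unfold exq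
  rw [Finset.sum_add_distrib]
  have e1 : ∑ i, ar σ (cla σ) x y ξ η i i ^ 2 ≤ ε :=
    (Finset.sum_le_sum fun i _ => har i i).trans (hterm fun i => i)
  have e2 : ∑ i, (if σ i ≠ i then ar σ (cla σ) x y ξ η i (σ i) ^ 2 else 0) ≤ ε := by
    refine le_trans (Finset.sum_le_sum fun i _ => ?_) (hterm fun i => σ i)
    split_ifs
    · exact har i (σ i)
    · positivity
  linarith

/-- the key inequality between the weights and the areas -/
theorem far_alg {C τ₁ τ₂ ε : ℝ} (h : Adm σ x y ξ η) (hF : FarC C τ₁ τ₂ ε σ x y ξ η) (hn : 0 < n)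
    (hC : 0 ≤ C) (hτ : 0 < τ₁) (hε : 0 ≤ ε) (hε1 : ε ≤ 1)
    (hsmall : C ^ 5 * (τ₂ / τ₁) ^ 6 / n ≤ ε ^ 3) :
    ENNReal.ofReal (Real.exp ((∑ i, x i ^ 2) * (∑ i, y i ^ 2) / 2)) *
      ENNReal.ofReal (Real.exp ((∑ i, xs σ x ξ i ^ 2) * (∑ i, ys σ y η i ^ 2) / 2)) *
      ∏ r : Rst σ, ENNReal.ofReal (1 - ar σ (cla σ) x y ξ η r.1.1 r.1.2)
    ≤ ENNReal.ofReal (Real.exp ((3 / 2 * C ^ 2 + 1) * ε)) *
      ((∏ r : Rst σ, ENNReal.ofReal (Real.exp (-ar σ (cla σ) x y ξ η r.1.1 r.1.2))) *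
        ∏ d : Mov σ, ENNReal.ofReal (Real.exp (-((∑ j, ys σ y η j * y j) *
          (ξ d * (x d.1 - ξ d)))))) := by
  have hex := exq_le h hF hn hC hτ hε hsmall
  obtain ⟨⟨hw1, -, hx2, -, hy2, -⟩, ⟨hw2, -, hxs2, -, hys2, -⟩, hfar⟩ := hF
  set t := ∑ j, y j with ht
  set T := ∑ j, ys σ y η j with hT
  have ht0 : 0 < t := lt_of_lt_of_le hτ hw1.1
  have hT0 : 0 < T := lt_of_lt_of_le hτ hw2.1
  have hn0 : (0:ℝ) < n := by exact_mod_cast hn
  set X2 := ∑ i, x i ^ 2 with hX2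
  set Y2 := ∑ i, y i ^ 2 with hY2
  set A2 := ∑ i, xs σ x ξ i ^ 2 with hA2
  set B2 := ∑ i, ys σ y η i ^ 2 with hB2
  set Pq := ∑ i, xs σ x ξ i * (x i - xs σ x ξ i) with hPq
  set Q := ∑ j, ys σ y η j * y j with hQ
  have hX20 : 0 ≤ X2 := Finset.sum_nonneg fun i _ => sq_nonneg _
  have hY20 : 0 ≤ Y2 := Finset.sum_nonneg fun i _ => sq_nonneg _
  have hA20 : 0 ≤ A2 := Finset.sum_nonneg fun i _ => sq_nonneg _
  have hfar' : t / T ≤ ε := by rw [div_le_iff₀ hT0]; exact hfar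
  have htT0 : 0 ≤ t / T := by positivity
  have hP0 : 0 ≤ Pq := Finset.sum_nonneg fun i _ =>
    mul_nonneg (h.xs_nonneg i) (sub_nonneg.mpr (h.xs_le i))
  have hPle : Pq ≤ C * n / (t * T) := by
    have h1 : Pq ≤ ∑ i, xs σ x ξ i * x i := by
      refine Finset.sum_le_sum fun i _ => ?_
      have := h.xs_nonneg i
      nlinarith
    have h2 : (∑ i, xs σ x ξ i * x i) ^ 2 ≤ A2 * X2 := Finset.sum_mul_sq_le_sq_mul_sq _ _ _
    have h3 : (∑ i, xs σ x ξ i * x i) ^ 2 ≤ (C * n / (t * T)) ^ 2 := by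
      refine h2.trans ?_
      calc A2 * X2 ≤ (C * n / T ^ 2) * (C * n / t ^ 2) := by gcongr
        _ = _ := by field_simp
    exact h1.trans (le_of_sq_le_sq h3 (by positivity))
  have b1 : A2 * Y2 / 2 ≤ C ^ 2 * ε / 2 := by
    have : A2 * Y2 ≤ (C * n / T ^ 2) * (C * t ^ 2 / n) := by gcongr
    have e : (C * n / T ^ 2) * (C * t ^ 2 / n) = C ^ 2 * (t / T) ^ 2 := by field_simp
    rw [e] at this
    have h4 : (t / T) ^ 2 ≤ ε := by nlinarith
    have h5 : C ^ 2 * (t / T) ^ 2 ≤ C ^ 2 * ε := by gcongr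
    linarith
  have b2 : Pq * Y2 ≤ C ^ 2 * ε := by
    have : Pq * Y2 ≤ (C * n / (t * T)) * (C * t ^ 2 / n) := by gcongr
    have e : (C * n / (t * T)) * (C * t ^ 2 / n) = C ^ 2 * (t / T) := by field_simp
    rw [e] at this
    have h5 : C ^ 2 * (t / T) ≤ C ^ 2 * ε := by gcongr
    linarith
  have hprod : ∏ r : Rst σ, ENNReal.ofReal (1 - ar σ (cla σ) x y ξ η r.1.1 r.1.2)
      ≤ ENNReal.ofReal (Real.exp (-(∑ r : Rst σ, ar σ (cla σ) x y ξ η r.1.1 r.1.2) -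
          (∑ r : Rst σ, ar σ (cla σ) x y ξ η r.1.1 r.1.2 ^ 2) / 2)) := by
    have e : -(∑ r : Rst σ, ar σ (cla σ) x y ξ η r.1.1 r.1.2) -
          (∑ r : Rst σ, ar σ (cla σ) x y ξ η r.1.1 r.1.2 ^ 2) / 2
        = ∑ r : Rst σ, (-ar σ (cla σ) x y ξ η r.1.1 r.1.2 -
          ar σ (cla σ) x y ξ η r.1.1 r.1.2 ^ 2 / 2) := by
      rw [Finset.sum_sub_distrib, Finset.sum_neg_distrib, Finset.sum_div]
    rw [e, Real.exp_sum, ENNReal.ofReal_prod_of_nonneg fun _ _ => (Real.exp_pos _).le]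
    refine Finset.prod_le_prod' fun r _ => ENNReal.ofReal_le_ofReal (one_sub_le_exp ?_)
    rw [ar_eq]
    have := mul_nonneg (h.xs_nonneg r.1.1) (sub_nonneg.mpr (h.y_le r.1.2))
    have := mul_nonneg (h.1 r.1.1).1.1 (h.1 r.1.2).2.1
    linarith
  have hR : (∏ r : Rst σ, ENNReal.ofReal (Real.exp (-ar σ (cla σ) x y ξ η r.1.1 r.1.2))) *
        ∏ d : Mov σ, ENNReal.ofReal (Real.exp (-(Q * (ξ d * (x d.1 - ξ d)))))
      = ENNReal.ofReal (Real.exp (-(∑ r : Rst σ, ar σ (cla σ) x y ξ η r.1.1 r.1.2) - Pq * Q)) := by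
    rw [← ENNReal.ofReal_prod_of_nonneg fun _ _ => (Real.exp_pos _).le,
      ← ENNReal.ofReal_prod_of_nonneg fun _ _ => (Real.exp_pos _).le, ← Real.exp_sum,
      ← Real.exp_sum, ← ENNReal.ofReal_mul (Real.exp_pos _).le, ← Real.exp_add]
    congr 2
    rw [Finset.sum_neg_distrib, Finset.sum_neg_distrib, ← Finset.mul_sum, ← P_eq_mov]
    ring
  rw [hR]
  refine (mul_le_mul_right hprod _).trans ?_
  rw [← ENNReal.ofReal_mul (Real.exp_pos _).le, ← ENNReal.ofReal_mul (by positivity),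
    ← ENNReal.ofReal_mul (by positivity), ← Real.exp_add, ← Real.exp_add, ← Real.exp_add]
  refine ENNReal.ofReal_le_ofReal (Real.exp_le_exp.mpr ?_)
  have k1 := sum_sq_rst (σ := σ) (x := x) (y := y) (ξ := ξ) (η := η)
  have k2 := sum_sq_all (σ := σ) (x := x) (y := y) (ξ := ξ) (η := η)
  have k3 := sum_x_sq (σ := σ) (x := x) (ξ := ξ)
  rw [← hA2, ← hB2, ← hPq, ← hQ, ← hY2] at k2
  rw [← hX2, ← hA2, ← hPq] at k3
  set U2 := ∑ i, (x i - xs σ x ξ i) ^ 2 with hU2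
  rw [k1, k2, k3]
  nlinarith

end

end Pool.Agent.SM
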