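import Pool.Agent.MP_d30e2b_pr.PairSum
import Pool.Agent.MP_d30e2b_pr.Mom

set_option autoImplicit false

/-! helper61: two pieces for far_pairs -/

namespace Pool.Agent.SM

open MeasureTheory Set
open scoped ENNReal

namespace FarSum

theorem dr_le (k : ℕ) : dr k ≤ Real.exp (-1) + 2 / ((k : ℝ) + 1) := by
  have h1 : dr k = ∑ m ∈ Finset.range (k + 1), (-1 : ℝ) ^ m / m.factorial := by
    unfold dr
    have h2 := numDerangements_sum k
    have h3 : (numDerangements k : ℝ) = ∑ m ∈ Finset.range (k + 1),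
        (-1 : ℝ) ^ m * (Nat.ascFactorial (m + 1) (k - m) : ℝ) := by
      have := congrArg (fun z : ℤ => (z : ℝ)) h2
      push_cast at this
      exact this
    rw [h3, Finset.sum_div]
    refine Finset.sum_congr rfl fun m hm => ?_
    rw [Finset.mem_range] at hm
    have h4 : (m.factorial : ℝ) * (Nat.ascFactorial (m + 1) (k - m) : ℝ) = k.factorial := by
      have := Nat.factorial_mul_ascFactorial m (k - m)
      rw [show m + (k - m) = k by omega] at this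
      exact_mod_cast this
    have h5 : (k.factorial : ℝ) ≠ 0 := by positivity
    have h6 : (m.factorial : ℝ) ≠ 0 := by positivity
    rw [div_eq_div_iff h5 h6, ← h4]
    ring
  have h2 := Real.exp_bound (x := -1) (by norm_num) (n := k + 1) (by omega)
  rw [← h1] at h2
  have h3 := (abs_le.1 h2).1
  have h4 : |(-1 : ℝ)| ^ (k + 1) * (((k + 1).succ : ℝ) / (((k + 1).factorial : ℝ) * ((k + 1 : ℕ) : ℝ)))
      ≤ 2 / ((k : ℝ) + 1) := by
    rw [abs_neg, abs_one, one_pow, one_mul]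
    have h5 : ((k + 1).succ : ℝ) ≤ 2 * ((k + 1).factorial : ℝ) := by
      have h6 : k + 1 ≤ (k + 1).factorial := Nat.self_le_factorial _
      have h7 : (k + 1).succ ≤ 2 * (k + 1).factorial := by omega
      exact_mod_cast h7
    rw [div_le_div_iff₀ (by positivity) (by positivity)]
    push_cast at h5 ⊢
    nlinarith [Nat.cast_nonneg (α := ℝ) k]
  linarith

theorem sum_mean {n : ℕ} (hn : 1 ≤ n) {w : ℝ} (h0 : 0 < w) :
    ∑ j ∈ Finset.range n, ((n : ℝ) - ((j + 1 : ℕ) : ℝ)) / n * bi n j w ≤ w := by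
  obtain ⟨m, rfl⟩ : ∃ m, n = m + 1 := ⟨n - 1, by omega⟩
  rcases Nat.eq_zero_or_pos m with rfl | hm
  · simp
    exact h0.le
  obtain ⟨l, rfl⟩ : ∃ l, m = l + 1 := ⟨m - 1, by omega⟩
  rw [Finset.sum_range_succ]
  have h1 : ∀ j ∈ Finset.range (l + 1), (((l + 1 + 1 : ℕ) : ℝ) - ((j + 1 : ℕ) : ℝ)) / ((l + 1 + 1 : ℕ) : ℝ) *
      bi (l + 1 + 1) j w = (((l : ℝ) + 1) / (l + 2) * w) * bi (l + 1) j w := by
    intro j hj
    rw [Finset.mem_range] at hj
    obtain ⟨i, rfl⟩ : ∃ i, l = j + i := ⟨l - j, by omega⟩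
    unfold bi
    rw [show j + i + 1 + 1 - 1 - j = i + 1 by omega, show j + i + 1 + 1 - 1 = j + i + 1 by omega,
      show j + i + 1 - 1 - j = i by omega, show j + i + 1 - 1 = j + i by omega]
    have h2 : ((j + i + 1).choose j : ℝ) * (i + 1) = (j + i + 1) * ((j + i).choose j) := by
      have h3 := Nat.choose_mul_succ_eq (j + i) j
      rw [show j + i + 1 - j = i + 1 by omega] at h3
      have h4 : ((j + i).choose j : ℝ) * ((j + i + 1 : ℕ) : ℝ) = ((j + i + 1).choose j) * ((i + 1 : ℕ) : ℝ) := by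
        exact_mod_cast h3
      push_cast at h4
      linarith
    push_cast
    have h5 : ((j : ℝ) + i + 1 + 1) ≠ 0 := by positivity
    have h6 : ((j : ℝ) + i + 2) ≠ 0 := by positivity
    field_simp
    ring_nf
    ring_nf at h2
    linear_combination (w * w ^ i * (1 - w) ^ j * (2 + j + i)) * h2
  rw [Finset.sum_congr rfl h1, ← Finset.mul_sum, sum_bi (by omega)]
  have h2 : (((l + 1 + 1 : ℕ) : ℝ) - ((l + 1 + 1 : ℕ) : ℝ)) / ((l + 1 + 1 : ℕ) : ℝ) * bi (l + 1 + 1) (l + 1) w = 0 := by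
    simp
  rw [h2, add_zero, mul_one]
  have h3 : ((l : ℝ) + 1) / (l + 2) ≤ 1 := by
    rw [div_le_one (by positivity)]
    linarith
  nlinarith

theorem sum_inv {n : ℕ} (hn : 1 ≤ n) {w : ℝ} (h0 : 0 < w) (h1 : w ≤ 1 / 2) :
    ∑ j ∈ Finset.range n, bi n j w / (((j + 1 : ℕ) : ℝ) + 1) ≤ 2 / n := by
  obtain ⟨m, rfl⟩ : ∃ m, n = m + 1 := ⟨n - 1, by omega⟩
  have hw : 0 < 1 - w := by linarith
  have hA : ∀ j ∈ Finset.range (m + 1), bi (m + 1) j w / (((j + 1 : ℕ) : ℝ) + 1)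
      ≤ 2 / ((m + 1 : ℕ) : ℝ) * (((m + 1).choose (j + 1) : ℝ) * (w ^ (m + 1 - (j + 1)) * (1 - w) ^ (j + 1))) := by
    intro j hj
    rw [Finset.mem_range] at hj
    have hb := bi_nonneg (n := m + 1) (j := j) h0.le (by linarith)
    have h2 : bi (m + 1) j w / (((j + 1 : ℕ) : ℝ) + 1) ≤ bi (m + 1) j w / ((j + 1 : ℕ) : ℝ) := by
      refine div_le_div_of_nonneg_left hb (by positivity) (by linarith)
    refine h2.trans ?_
    unfold bi
    rw [show m + 1 - 1 - j = m + 1 - (j + 1) by omega, show m + 1 - 1 = m by omega]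
    have h4 : ((m + 1).choose (j + 1) : ℝ) * (j + 1) = (m + 1) * (m.choose j) := by
      have := Nat.add_one_mul_choose_eq m j
      have h5 : (((m + 1) * m.choose j : ℕ) : ℝ) = (((m + 1).choose (j + 1) * (j + 1) : ℕ) : ℝ) := by
        rw [this]
      push_cast at h5
      linarith
    have h6 : (m.choose j : ℝ) = ((m + 1).choose (j + 1) : ℝ) * (j + 1) / (m + 1) := by
      field_simp
      linarith
    rw [h6, pow_succ (1 - w) j, show m + 1 - (j + 1) = m - j by omega]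
    push_cast
    have hc : (0:ℝ) ≤ ((m + 1).choose (j + 1) : ℝ) * (w ^ (m - j) * (1 - w) ^ j) / (m + 1) := by
      positivity
    have h7 : ((m + 1).choose (j + 1) : ℝ) * (j + 1) / (m + 1) * (w ^ (m - j) * (1 - w) ^ j) / (j + 1)
      = ((m + 1).choose (j + 1) : ℝ) * (w ^ (m - j) * (1 - w) ^ j) / (m + 1) := by
      field_simp
    rw [h7]
    have h8 : 2 / ((m : ℝ) + 1) * (((m + 1).choose (j + 1) : ℝ) * (w ^ (m - j) * ((1 - w) ^ j * (1 - w))))
      = (((m + 1).choose (j + 1) : ℝ) * (w ^ (m - j) * (1 - w) ^ j) / (m + 1)) * (2 * (1 - w)) := by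
      field_simp
    rw [h8]
    nlinarith
  refine (Finset.sum_le_sum hA).trans ?_
  rw [← Finset.mul_sum]
  have h3 : ∑ j ∈ Finset.range (m + 1), (((m + 1).choose (j + 1) : ℝ) * (w ^ (m + 1 - (j + 1)) * (1 - w) ^ (j + 1))) ≤ 1 := by
    have h := add_pow (1 - w) w (m + 1)
    rw [sub_add_cancel, one_pow, Finset.sum_range_succ'] at h
    have h4 : 0 ≤ (1 - w) ^ 0 * w ^ (m + 1 - 0) * ((m + 1).choose 0 : ℝ) := by positivity
    have h5 : ∑ j ∈ Finset.range (m + 1), (((m + 1).choose (j + 1) : ℝ) * (w ^ (m + 1 - (j + 1)) * (1 - w) ^ (j + 1)))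
      = ∑ k ∈ Finset.range (m + 1), (1 - w) ^ (k + 1) * w ^ (m + 1 - (k + 1)) * ((m + 1).choose (k + 1) : ℝ) := by
      refine Finset.sum_congr rfl fun j _ => ?_
      ring
    rw [h5]
    linarith
  have h4 : (0:ℝ) ≤ 2 / ((m + 1 : ℕ) : ℝ) := by positivity
  calc _ ≤ 2 / ((m + 1 : ℕ) : ℝ) * 1 := mul_le_mul_of_nonneg_left h3 h4
    _ = _ := mul_one _

end FarSum

/-- `k = j + 1`. -/
theorem far_sum {n : ℕ} (hn : 1 ≤ n) {w : ℝ} (h0 : 0 < w) (h1 : w ≤ 1 / 2) :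
    ∑ j ∈ Finset.range n, (1 + 2 * (((n : ℝ) - ((j + 1 : ℕ) : ℝ)) / n + w) +
      2 / (((j + 1 : ℕ) : ℝ) + 1)) * bi n j w * dr (j + 1)
      ≤ Real.exp (-1) * (1 + 4 * w) + 24 / n := by
  have hnR : (1:ℝ) ≤ n := by exact_mod_cast hn
  have he0 : 0 < Real.exp (-1) := Real.exp_pos _
  have he1 : Real.exp (-1) ≤ 1 := by
    rw [Real.exp_le_one_iff]; norm_num
  have hterm : ∀ j ∈ Finset.range n, (1 + 2 * (((n : ℝ) - ((j + 1 : ℕ) : ℝ)) / n + w) +
      2 / (((j + 1 : ℕ) : ℝ) + 1)) * bi n j w * dr (j + 1)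
      ≤ Real.exp (-1) * (1 + 2 * w) * bi n j w
        + 2 * Real.exp (-1) * (((n : ℝ) - ((j + 1 : ℕ) : ℝ)) / n * bi n j w)
        + 12 * (bi n j w / (((j + 1 : ℕ) : ℝ) + 1)) := by
    intro j hj
    rw [Finset.mem_range] at hj
    have hb := bi_nonneg (n := n) (j := j) h0.le (by linarith)
    have hd := FarSum.dr_le (j + 1)
    set r : ℝ := ((n : ℝ) - ((j + 1 : ℕ) : ℝ)) / n with hr
    set s : ℝ := 1 / (((j + 1 : ℕ) : ℝ) + 1) with hs
    have hr0 : 0 ≤ r := by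
      rw [hr]
      have : ((j + 1 : ℕ) : ℝ) ≤ n := by exact_mod_cast hj
      apply div_nonneg (by linarith) (by linarith)
    have hr1 : r ≤ 1 := by
      rw [hr, div_le_one (by linarith)]
      have : (0:ℝ) ≤ ((j + 1 : ℕ) : ℝ) := by positivity
      linarith
    have hs0 : 0 ≤ s := by rw [hs]; positivity
    have hs1 : s ≤ 1 / 2 := by
      rw [hs]
      refine one_div_le_one_div_of_le (by norm_num) ?_
      push_cast
      have : (0:ℝ) ≤ j := by positivity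
      linarith
    have e1 : 2 / (((j + 1 : ℕ) : ℝ) + 1) = 2 * s := by rw [hs]; ring
    have e2 : bi n j w / (((j + 1 : ℕ) : ℝ) + 1) = bi n j w * s := by rw [hs]; ring
    rw [e1, e2]
    rw [e1] at hd
    have hc0 : 0 ≤ (1 + 2 * (r + w) + 2 * s) * bi n j w := by positivity
    refine (mul_le_mul_of_nonneg_left hd hc0).trans ?_
    have hkey : (1 + 2 * (r + w) + 2 * s) * (Real.exp (-1) + 2 * s)
        ≤ Real.exp (-1) * (1 + 2 * w) + 2 * Real.exp (-1) * r + 12 * s := by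
      have h5 : 1 + 2 * (r + w) + 2 * s ≤ 5 := by linarith
      have h6 : (1 + 2 * (r + w) + 2 * s) * (2 * s) ≤ 5 * (2 * s) :=
        mul_le_mul_of_nonneg_right h5 (by positivity)
      have h7 : Real.exp (-1) * s ≤ 1 * s := mul_le_mul_of_nonneg_right he1 hs0
      nlinarith
    have := mul_le_mul_of_nonneg_right hkey hb
    nlinarith
  refine (Finset.sum_le_sum hterm).trans ?_
  rw [Finset.sum_add_distrib, Finset.sum_add_distrib, ← Finset.mul_sum, ← Finset.mul_sum,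
    ← Finset.mul_sum, sum_bi hn]
  have h2 := FarSum.sum_mean hn h0
  have h3 := FarSum.sum_inv hn h0 h1
  have h4 : 2 * Real.exp (-1) * ∑ j ∈ Finset.range n, ((n : ℝ) - ((j + 1 : ℕ) : ℝ)) / n * bi n j w
      ≤ 2 * Real.exp (-1) * w := mul_le_mul_of_nonneg_left h2 (by positivity)
  have h5 : 12 * ∑ j ∈ Finset.range n, bi n j w / (((j + 1 : ℕ) : ℝ) + 1) ≤ 12 * (2 / n) :=
    mul_le_mul_of_nonneg_left h3 (by norm_num)
  have h6 : 12 * (2 / (n : ℝ)) = 24 / n := by ring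
  linarith

namespace FarSum

theorem exp_neg_le {y : ℝ} (hy : 0 ≤ y) : Real.exp (-y) + y ≤ 1 + y ^ 2 / 2 := by
  have h1 := Real.quadratic_le_exp_of_nonneg hy
  have h2 : Real.exp (-y) * Real.exp y = 1 := by rw [← Real.exp_add]; simp
  have h3 : 0 < Real.exp (-y) := Real.exp_pos _
  have h4 : Real.exp (-y) * (1 + y + y ^ 2 / 2) ≤ 1 :=
    (mul_le_mul_of_nonneg_left h1 h3.le).trans h2.le
  have h5 : 0 < 1 + y + y ^ 2 / 2 := by positivity
  have h6 : 1 ≤ (1 - y + y ^ 2 / 2) * (1 + y + y ^ 2 / 2) := by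
    nlinarith [sq_nonneg (y ^ 2)]
  have h7 : Real.exp (-y) * (1 + y + y ^ 2 / 2) ≤ (1 - y + y ^ 2 / 2) * (1 + y + y ^ 2 / 2) :=
    h4.trans h6
  have h8 := le_of_mul_le_mul_right h7 h5
  linarith

theorem mom {a b : ℝ} (ha : 0 < a) (hb : 0 < b) (p : ℕ) :
    ∫⁻ ξ in Ioi (0:ℝ), ∫⁻ u in Ioi (0:ℝ), ENNReal.ofReal (Real.exp (-(a * ξ + b * u))) *
      ENNReal.ofReal ((ξ * u) ^ p)
      = ENNReal.ofReal (p.factorial / a ^ (p + 1)) * ENNReal.ofReal (p.factorial / b ^ (p + 1)) := by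
  rw [← lint_exp_pow ha p, ← lintegral_mul_const _ (by fun_prop)]
  refine setLIntegral_congr_fun measurableSet_Ioi fun ξ hξ => ?_
  simp only [mem_Ioi] at hξ
  rw [← lint_exp_pow hb p, ← lintegral_const_mul _ (by fun_prop)]
  refine setLIntegral_congr_fun measurableSet_Ioi fun u hu => ?_
  simp only [mem_Ioi] at hu
  rw [← ENNReal.ofReal_mul (by positivity), ← ENNReal.ofReal_mul (by positivity),
    ← ENNReal.ofReal_mul (by positivity), ← ENNReal.ofReal_mul (by positivity)]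
  congr 1
  rw [neg_add, Real.exp_add, mul_pow]
  ring

end FarSum

theorem two_exp_quad {a b κ : ℝ} (ha : 0 < a) (hb : 0 < b) (hκ : 0 ≤ κ) :
    ∫⁻ x, ∫⁻ ξ, (if ξ < x then ENNReal.ofReal (Real.exp (-(a * ξ + b * (x - ξ)))) *
      ENNReal.ofReal (Real.exp (-(κ * (ξ * (x - ξ))))) else 0) ∂u1 ∂u1
      ≤ ENNReal.ofReal (1 / a) * ENNReal.ofReal (1 / b) *
        ENNReal.ofReal (Real.exp (-(κ / (a * b)) + 2 * κ ^ 2 / (a * b) ^ 2)) := by
  refine (two_le (fun ξ x => ENNReal.ofReal (Real.exp (-(a * ξ + b * (x - ξ)))) *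
      ENNReal.ofReal (Real.exp (-(κ * (ξ * (x - ξ)))))) (by
    unfold Function.uncurry; fun_prop)).trans ?_
  simp only [add_sub_cancel_left]
  set L : ℝ≥0∞ := ∫⁻ ξ in Ioi (0:ℝ), ∫⁻ u in Ioi (0:ℝ), ENNReal.ofReal (Real.exp (-(a * ξ + b * u))) *
      ENNReal.ofReal (Real.exp (-(κ * (ξ * u)))) with hL
  have h0 := FarSum.mom ha hb 0
  have h1 := FarSum.mom ha hb 1
  have h2 := FarSum.mom ha hb 2
  set M0 : ℝ≥0∞ := ∫⁻ ξ in Ioi (0:ℝ), ∫⁻ u in Ioi (0:ℝ), ENNReal.ofReal (Real.exp (-(a * ξ + b * u))) *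
      ENNReal.ofReal ((ξ * u) ^ 0) with hM0
  set M1 : ℝ≥0∞ := ∫⁻ ξ in Ioi (0:ℝ), ∫⁻ u in Ioi (0:ℝ), ENNReal.ofReal (Real.exp (-(a * ξ + b * u))) *
      ENNReal.ofReal ((ξ * u) ^ 1) with hM1
  set M2 : ℝ≥0∞ := ∫⁻ ξ in Ioi (0:ℝ), ∫⁻ u in Ioi (0:ℝ), ENNReal.ofReal (Real.exp (-(a * ξ + b * u))) *
      ENNReal.ofReal ((ξ * u) ^ 2) with hM2
  have hmeas : ∀ p : ℕ, Measurable fun ξ : ℝ => ∫⁻ u in Ioi (0:ℝ),
      ENNReal.ofReal (Real.exp (-(a * ξ + b * u))) * ENNReal.ofReal ((ξ * u) ^ p) := by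
    intro p
    refine Measurable.lintegral_prod_right' (f := fun q : ℝ × ℝ =>
      ENNReal.ofReal (Real.exp (-(a * q.1 + b * q.2))) * ENNReal.ofReal ((q.1 * q.2) ^ p)) ?_
    fun_prop
  have hkey : L + ENNReal.ofReal κ * M1 ≤ M0 + ENNReal.ofReal (κ ^ 2 / 2) * M2 := by
    rw [hL, hM1, hM0, hM2, ← lintegral_const_mul _ (hmeas 1), ← lintegral_const_mul _ (hmeas 2),
      ← lintegral_add_right _ ((hmeas 1).const_mul _), ← lintegral_add_right _ ((hmeas 2).const_mul _)]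
    refine setLIntegral_mono' measurableSet_Ioi fun ξ hξ => ?_
    simp only [mem_Ioi] at hξ
    rw [← lintegral_const_mul _ (by fun_prop), ← lintegral_const_mul _ (by fun_prop),
      ← lintegral_add_right _ (by fun_prop), ← lintegral_add_right _ (by fun_prop)]
    refine setLIntegral_mono' measurableSet_Ioi fun u hu => ?_
    simp only [mem_Ioi] at hu
    have h3 := FarSum.exp_neg_le (y := κ * (ξ * u)) (by positivity)
    have h4 : 0 < Real.exp (-(a * ξ + b * u)) := Real.exp_pos _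
    rw [← ENNReal.ofReal_mul h4.le, ← ENNReal.ofReal_mul h4.le, ← ENNReal.ofReal_mul h4.le,
      ← ENNReal.ofReal_mul h4.le, ← ENNReal.ofReal_mul hκ, ← ENNReal.ofReal_mul (by positivity),
      ← ENNReal.ofReal_add (by positivity) (by positivity),
      ← ENNReal.ofReal_add (by positivity) (by positivity)]
    refine ENNReal.ofReal_le_ofReal ?_
    nlinarith [mul_le_mul_of_nonneg_left h3 h4.le]
  have hab : 0 < a * b := by positivity
  have e0 : M0 = ENNReal.ofReal (1 / (a * b)) := by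
    rw [h0, ← ENNReal.ofReal_mul (by positivity)]
    congr 1
    simp
    ring
  have e1 : ENNReal.ofReal κ * M1 = ENNReal.ofReal (κ / (a * b) ^ 2) := by
    rw [h1, ← ENNReal.ofReal_mul (by positivity), ← ENNReal.ofReal_mul hκ]
    congr 1
    simp
    field_simp
  have e2 : ENNReal.ofReal (κ ^ 2 / 2) * M2 = ENNReal.ofReal (2 * κ ^ 2 / (a * b) ^ 3) := by
    rw [h2, ← ENNReal.ofReal_mul (by positivity), ← ENNReal.ofReal_mul (by positivity)]
    congr 1
    simp [Nat.factorial]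
    field_simp
  rw [e0, e1, e2, ← ENNReal.ofReal_add (by positivity) (by positivity)] at hkey
  have hL2 : L ≤ ENNReal.ofReal (1 / (a * b) + 2 * κ ^ 2 / (a * b) ^ 3) - ENNReal.ofReal (κ / (a * b) ^ 2) :=
    ENNReal.le_sub_of_add_le_right ENNReal.ofReal_ne_top hkey
  rw [← ENNReal.ofReal_sub _ (by positivity)] at hL2
  refine hL2.trans ?_
  rw [← ENNReal.ofReal_mul (by positivity), ← ENNReal.ofReal_mul (by positivity)]
  refine ENNReal.ofReal_le_ofReal ?_
  have h5 := Real.add_one_le_exp (-(κ / (a * b)) + 2 * κ ^ 2 / (a * b) ^ 2)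
  have h6 : 1 / (a * b) + 2 * κ ^ 2 / (a * b) ^ 3 - κ / (a * b) ^ 2
      = 1 / a * (1 / b) * (-(κ / (a * b)) + 2 * κ ^ 2 / (a * b) ^ 2 + 1) := by
    field_simp
    ring
  rw [h6]
  exact mul_le_mul_of_nonneg_left h5 (by positivity)

end Pool.Agent.SM
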