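import Pool.Agent.MP_d30e2b_pr.Bil

set_option autoImplicit false

/-! the exponential of the bilinear form -/

namespace Pool.Agent.SM

open MeasureTheory Set
open scoped ENNReal

theorem exp_quad {x : ℝ} (hx : x ≤ 1) : Real.exp x ≤ 1 + x + x ^ 2 := by
  by_cases h : -1 ≤ x
  · have h1 := Real.abs_exp_sub_one_sub_id_le (abs_le.mpr ⟨h, hx⟩)
    have := le_abs_self (Real.exp x - 1 - x)
    linarith
  · push Not at h
    have h1 : Real.exp x ≤ 1 := Real.exp_le_one_iff.mpr (by linarith)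
    nlinarith

theorem exp_neg_quad {z : ℝ} (hz : 0 ≤ z) :
    Real.exp (-z) + Real.exp (-1) * (3 * z) ≤ Real.exp (-1) * (3 + z ^ 2) := by
  have h1 := exp_quad (x := 1 - z) (by linarith)
  have h2 : Real.exp (-z) = Real.exp (-1) * Real.exp (1 - z) := by
    rw [← Real.exp_add]
    congr 1
    ring
  rw [h2]
  have h3 := Real.exp_pos (-1)
  nlinarith

variable {n : ℕ}

theorem women_exp (σ : Equiv.Perm (Fin n)) (hσ : 1 ≤ σ.support.card) (g : ℝ → ℝ → ℝ≥0∞)
    (hg : Measurable (Function.uncurry g)) (hfin : AA n σ.support.card g ≠ ∞)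
    (hpos : ∀ t T, g t T ≠ 0 → 0 < t) :
    ∫⁻ y, ∫⁻ v, g (∑ j, y j) (∑ j, y j + ∑ d, v d) *
      ENNReal.ofReal ((1 / (∑ j, y j + ∑ d, v d)) ^ n * (1 / ∑ j, y j) ^ σ.support.card) *
      ENNReal.ofReal (Real.exp (-((σ.support.card : ℝ) * bf σ y v /
        ((∑ j, y j) * (∑ j, y j + ∑ d, v d))))) ∂(orth (Mov σ)) ∂(orth (Fin n))
    ≤ ENNReal.ofReal (Real.exp (-1)) * AA n σ.support.card (fun t T => g t T *
      ENNReal.ofReal (1 + 2 * ((n - σ.support.card) / n + t / T) + 2 / (σ.support.card + 1))) := by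
  set k := σ.support.card with hk
  have hkn : k ≤ n := by
    have := Finset.card_le_univ σ.support
    rwa [Fintype.card_fin] at this
  have hn : 1 ≤ n := by omega
  have hn0 : (0:ℝ) < n := by exact_mod_cast hn
  have hk0 : (0:ℝ) < k := by exact_mod_cast hσ
  have hkn' : (k:ℝ) ≤ n := by exact_mod_cast hkn
  set w : ℝ → ℝ → ℝ≥0∞ := fun t a => g t (t + a) *
    ENNReal.ofReal ((1 / (t + a)) ^ n * (1 / t) ^ k) with hw
  have hg' : Measurable fun p : ℝ × ℝ => g p.1 p.2 := hg
  have hwm : Measurable fun p : ℝ × ℝ => w p.1 p.2 := by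
    refine Measurable.mul ?_ (by fun_prop)
    exact hg'.comp (measurable_fst.prodMk (measurable_fst.add measurable_snd))
  have hAA : AA n k g = ∫⁻ t, ∫⁻ a, w t a ∂(gm k) ∂(gm n) := rfl
  -- the mean
  set q : ℝ → ℝ → ℝ := fun t a => k * a / (n * (t + a)) with hq
  set q2 : ℝ → ℝ → ℝ := fun t a => k ^ 2 * a ^ 2 * (k + 3) / ((k + 1) * (n * (n + 1)) * (t + a) ^ 2)
    with hq2
  set X := ∫⁻ y, ∫⁻ v, w (∑ j, y j) (∑ d, v d) *
      ENNReal.ofReal (Real.exp (-((k : ℝ) * bf σ y v /
        ((∑ j, y j) * (∑ j, y j + ∑ d, v d))))) ∂(orth (Mov σ)) ∂(orth (Fin n)) with hX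
  have hbfm : Measurable fun p : (Fin n → ℝ) × (Mov σ → ℝ) => bf σ p.1 p.2 := by
    unfold bf
    exact Finset.measurable_sum _ fun d _ => by fun_prop
  have hsy : Measurable fun p : (Fin n → ℝ) × (Mov σ → ℝ) => ∑ j, p.1 j :=
    msum.comp measurable_fst
  have hsv : Measurable fun p : (Fin n → ℝ) × (Mov σ → ℝ) => ∑ d, p.2 d :=
    msum.comp measurable_snd
  have hwm2 : Measurable fun p : (Fin n → ℝ) × (Mov σ → ℝ) => w (∑ j, p.1 j) (∑ d, p.2 d) :=
    hwm.comp (hsy.prodMk hsv)
  set c1 : ℝ≥0∞ := ENNReal.ofReal (Real.exp (-1) * 3) with hc1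
  -- weights for first and second moments
  set w1 : ℝ → ℝ → ℝ≥0∞ := fun t a => w t a * ENNReal.ofReal (k / (t * (t + a))) with hw1
  set w2 : ℝ → ℝ → ℝ≥0∞ := fun t a => w t a * ENNReal.ofReal ((k / (t * (t + a))) ^ 2) with hw2
  have hw1m : Measurable (Function.uncurry w1) := hwm.mul (by fun_prop)
  have hw2m : Measurable (Function.uncurry w2) := hwm.mul (by fun_prop)
  have hb1 := bil1 σ hσ hw1m
  have hb2 := bil2 σ hσ hw2m
  have hb0 := bil0 σ (w := w) hwm
  rw [← hk] at hb1 hb2 hb0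
  -- the integrated inequality
  have hmain : X + c1 * (∫⁻ y, ∫⁻ v, w1 (∑ j, y j) (∑ d, v d) * ENNReal.ofReal (bf σ y v)
        ∂(orth (Mov σ)) ∂(orth (Fin n)))
      ≤ c1 * (∫⁻ y, ∫⁻ v, w (∑ j, y j) (∑ d, v d) ∂(orth (Mov σ)) ∂(orth (Fin n))) +
        ENNReal.ofReal (Real.exp (-1)) * (∫⁻ y, ∫⁻ v, w2 (∑ j, y j) (∑ d, v d) *
          ENNReal.ofReal (bf σ y v ^ 2) ∂(orth (Mov σ)) ∂(orth (Fin n))) := by
    have m1 : Measurable fun p : (Fin n → ℝ) × (Mov σ → ℝ) => w1 (∑ j, p.1 j) (∑ d, p.2 d) *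
        ENNReal.ofReal (bf σ p.1 p.2) := (hw1m.comp (hsy.prodMk hsv)).mul hbfm.ennreal_ofReal
    have m2 : Measurable fun p : (Fin n → ℝ) × (Mov σ → ℝ) => w2 (∑ j, p.1 j) (∑ d, p.2 d) *
        ENNReal.ofReal (bf σ p.1 p.2 ^ 2) :=
      (hw2m.comp (hsy.prodMk hsv)).mul (hbfm.pow_const 2).ennreal_ofReal
    have e1 : ∀ (c : ℝ≥0∞) (f : (Fin n → ℝ) → (Mov σ → ℝ) → ℝ≥0∞),
        Measurable (Function.uncurry f) →
        c * (∫⁻ y, ∫⁻ v, f y v ∂(orth (Mov σ)) ∂(orth (Fin n)))
        = ∫⁻ y, ∫⁻ v, c * f y v ∂(orth (Mov σ)) ∂(orth (Fin n)) := by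
      intro c f hf
      have h : Measurable fun y => ∫⁻ v, f y v ∂(orth (Mov σ)) := hf.lintegral_prod_right'
      rw [← lintegral_const_mul _ h]
      refine lintegral_congr fun y => ?_
      exact (lintegral_const_mul _ (hf.comp measurable_prodMk_left)).symm
    have e2 : ∀ (f f' : (Fin n → ℝ) → (Mov σ → ℝ) → ℝ≥0∞),
        Measurable (Function.uncurry f') →
        (∫⁻ y, ∫⁻ v, f y v ∂(orth (Mov σ)) ∂(orth (Fin n))) +
        (∫⁻ y, ∫⁻ v, f' y v ∂(orth (Mov σ)) ∂(orth (Fin n)))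
        = ∫⁻ y, ∫⁻ v, f y v + f' y v ∂(orth (Mov σ)) ∂(orth (Fin n)) := by
      intro f f' hf'
      have h : Measurable fun y => ∫⁻ v, f' y v ∂(orth (Mov σ)) := hf'.lintegral_prod_right'
      rw [← lintegral_add_right _ h]
      refine lintegral_congr fun y => ?_
      have h' : Measurable fun v => f' y v := hf'.comp measurable_prodMk_left
      rw [lintegral_add_right _ h']
    rw [hX, e1 c1 (fun y v => w1 (∑ j, y j) (∑ d, v d) * ENNReal.ofReal (bf σ y v)) m1,
      e1 c1 (fun y v => w (∑ j, y j) (∑ d, v d)) hwm2,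
      e1 _ (fun y v => w2 (∑ j, y j) (∑ d, v d) * ENNReal.ofReal (bf σ y v ^ 2)) m2,
      e2 _ (fun y v => c1 * (w1 (∑ j, y j) (∑ d, v d) * ENNReal.ofReal (bf σ y v)))
        (m1.const_mul c1),
      e2 _ (fun y v => ENNReal.ofReal (Real.exp (-1)) * (w2 (∑ j, y j) (∑ d, v d) *
        ENNReal.ofReal (bf σ y v ^ 2))) (m2.const_mul _)]
    refine lintegral_mono_ae ?_
    filter_upwards [ae_orth (Fin n)] with y hy
    refine lintegral_mono_ae ?_
    filter_upwards [ae_orth (Mov σ)] with v hv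
    set t := ∑ j, y j with ht
    set a := ∑ d, v d with ha
    have hb : 0 ≤ bf σ y v := by
      unfold bf
      exact Finset.sum_nonneg fun d _ => mul_nonneg (hv d).le (hy _).le
    have ha0 : 0 ≤ a := Finset.sum_nonneg fun d _ => (hv d).le
    by_cases hw0 : w t a = 0
    · simp only [hw1, hw2, hw0, zero_mul, mul_zero, add_zero]
      exact le_rfl
    · have hgne : g t (t + a) ≠ 0 := by
        intro h
        apply hw0
        simp only [hw, h, zero_mul]
      have ht0 : 0 < t := hpos _ _ hgne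
      have hT0 : 0 < t + a := by linarith
      have hz : 0 ≤ (k : ℝ) * bf σ y v / (t * (t + a)) := by positivity
      have hineq := exp_neg_quad hz
      simp only [hw1, hw2]
      have l1 : w t a * ENNReal.ofReal (Real.exp (-((k : ℝ) * bf σ y v / (t * (t + a))))) +
          c1 * (w t a * ENNReal.ofReal (k / (t * (t + a))) * ENNReal.ofReal (bf σ y v))
          = w t a * ENNReal.ofReal (Real.exp (-((k : ℝ) * bf σ y v / (t * (t + a)))) +
            Real.exp (-1) * (3 * ((k : ℝ) * bf σ y v / (t * (t + a))))) := by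
        rw [hc1, ENNReal.ofReal_add (by positivity) (by positivity), mul_add (w t a)]
        congr 1
        rw [mul_assoc (w t a), mul_left_comm, ← ENNReal.ofReal_mul (by positivity),
          ← ENNReal.ofReal_mul (by positivity)]
        congr 2
        ring
      have l2 : c1 * w t a + ENNReal.ofReal (Real.exp (-1)) * (w t a *
          ENNReal.ofReal ((k / (t * (t + a))) ^ 2) * ENNReal.ofReal (bf σ y v ^ 2))
          = w t a * ENNReal.ofReal (Real.exp (-1) * (3 + ((k : ℝ) * bf σ y v / (t * (t + a))) ^ 2)) := by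
        rw [hc1, mul_add (Real.exp (-1)), ENNReal.ofReal_add (by positivity) (by positivity),
          mul_add (w t a), mul_comm (w t a) (ENNReal.ofReal (Real.exp (-1) * 3))]
        congr 1
        rw [mul_assoc (w t a), mul_left_comm, ← ENNReal.ofReal_mul (by positivity),
          ← ENNReal.ofReal_mul (by positivity)]
        congr 2
        ring
      rw [l1, l2]
      exact mul_le_mul_right (ENNReal.ofReal_le_ofReal hineq) _
  rw [hb1, hb2, hb0] at hmain
  -- express everything through `w`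
  have hE1 : c1 * ∫⁻ t, ∫⁻ a, w1 t a * ENNReal.ofReal (t * a / n) ∂(gm k) ∂(gm n)
      = ∫⁻ t, ∫⁻ a, w t a * ENNReal.ofReal (Real.exp (-1) * (3 * q t a)) ∂(gm k) ∂(gm n) := by
    rw [lint2_const_mul _ (f := fun t a => w1 t a * ENNReal.ofReal (t * a / n))
      (hw1m.mul (by fun_prop))]
    refine lintegral_congr_ae ?_
    filter_upwards [gm_pos' hn] with t ht
    refine lintegral_congr_ae ?_
    filter_upwards [gm_pos k] with a ha
    simp only [hw1, hc1, hq]
    rw [mul_assoc (w t a), mul_left_comm, ← ENNReal.ofReal_mul (by positivity),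
      ← ENNReal.ofReal_mul (by positivity)]
    congr 2
    field_simp
  have hE2 : ENNReal.ofReal (Real.exp (-1)) * ∫⁻ t, ∫⁻ a, w2 t a * ENNReal.ofReal
        (t ^ 2 * a ^ 2 * (k + 3) / ((k + 1) * (n * (n + 1)))) ∂(gm k) ∂(gm n)
      = ∫⁻ t, ∫⁻ a, w t a * ENNReal.ofReal (Real.exp (-1) * q2 t a) ∂(gm k) ∂(gm n) := by
    rw [lint2_const_mul _ (f := fun t a => w2 t a * ENNReal.ofReal
        (t ^ 2 * a ^ 2 * (k + 3) / ((k + 1) * (n * (n + 1))))) (hw2m.mul (by fun_prop))]
    refine lintegral_congr_ae ?_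
    filter_upwards [gm_pos' hn] with t ht
    refine lintegral_congr_ae ?_
    filter_upwards [gm_pos k] with a ha
    simp only [hw2, hq2]
    rw [mul_assoc (w t a), mul_left_comm, ← ENNReal.ofReal_mul (by positivity),
      ← ENNReal.ofReal_mul (by positivity)]
    congr 2
    field_simp
  have hE0 : c1 * ∫⁻ t, ∫⁻ a, w t a ∂(gm k) ∂(gm n)
      = ∫⁻ t, ∫⁻ a, w t a * ENNReal.ofReal (Real.exp (-1) * 3) ∂(gm k) ∂(gm n) := by
    rw [lint2_const_mul _ (f := w) hwm]
    refine lintegral_congr fun t => lintegral_congr fun a => ?_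
    rw [hc1, mul_comm]
  rw [hE1, hE2, hE0] at hmain
  have add2 : ∀ (f f' : ℝ → ℝ → ℝ≥0∞), Measurable (Function.uncurry f') →
        (∫⁻ t, ∫⁻ a, f t a ∂(gm k) ∂(gm n)) + (∫⁻ t, ∫⁻ a, f' t a ∂(gm k) ∂(gm n))
        = ∫⁻ t, ∫⁻ a, f t a + f' t a ∂(gm k) ∂(gm n) := by
    intro f f' hf'
    have h : Measurable fun t => ∫⁻ a, f' t a ∂(gm k) := hf'.lintegral_prod_right'
    rw [← lintegral_add_right _ h]
    refine lintegral_congr fun y => ?_
    have h' : Measurable fun v => f' y v := hf'.comp measurable_prodMk_left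
    rw [lintegral_add_right _ h']
  have hqm : Measurable fun p : ℝ × ℝ => q p.1 p.2 := by fun_prop
  have hq2m : Measurable fun p : ℝ × ℝ => q2 p.1 p.2 := by fun_prop
  have hsplit : (∫⁻ t, ∫⁻ a, w t a * ENNReal.ofReal (Real.exp (-1) * 3) ∂(gm k) ∂(gm n)) +
      ∫⁻ t, ∫⁻ a, w t a * ENNReal.ofReal (Real.exp (-1) * q2 t a) ∂(gm k) ∂(gm n)
      = (∫⁻ t, ∫⁻ a, w t a * ENNReal.ofReal (Real.exp (-1) * (3 - 3 * q t a + q2 t a))
          ∂(gm k) ∂(gm n)) +
        ∫⁻ t, ∫⁻ a, w t a * ENNReal.ofReal (Real.exp (-1) * (3 * q t a)) ∂(gm k) ∂(gm n) := by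
    have ma1 : Measurable fun p : ℝ × ℝ => w p.1 p.2 * ENNReal.ofReal (Real.exp (-1) * q2 p.1 p.2) :=
      hwm.mul (by fun_prop)
    have ma2 : Measurable fun p : ℝ × ℝ => w p.1 p.2 *
        ENNReal.ofReal (Real.exp (-1) * (3 * q p.1 p.2)) := hwm.mul (by fun_prop)
    rw [add2 _ (fun t a => w t a * ENNReal.ofReal (Real.exp (-1) * q2 t a)) ma1,
      add2 _ (fun t a => w t a * ENNReal.ofReal (Real.exp (-1) * (3 * q t a))) ma2]
    refine lintegral_congr_ae ?_
    filter_upwards [gm_pos' hn] with t ht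
    refine lintegral_congr_ae ?_
    filter_upwards [gm_pos k] with a ha
    have hT0 : 0 < t + a := by linarith
    have hq0 : 0 ≤ q t a := by simp only [hq]; positivity
    have hq20 : 0 ≤ q2 t a := by simp only [hq2]; positivity
    have hq1 : q t a ≤ 1 := by
      simp only [hq]
      rw [div_le_one (by positivity)]
      have : (k:ℝ) * a ≤ n * a := mul_le_mul_of_nonneg_right hkn' ha
      nlinarith
    have hee := Real.exp_pos (-1)
    rw [← mul_add, ← mul_add, ← ENNReal.ofReal_add (by positivity) (by positivity),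
      ← ENNReal.ofReal_add (mul_nonneg hee.le (by linarith)) (by positivity)]
    congr 2
    ring
  rw [hsplit] at hmain
  have hfin2 : ∫⁻ t, ∫⁻ a, w t a * ENNReal.ofReal (Real.exp (-1) * (3 * q t a)) ∂(gm k) ∂(gm n) ≠ ∞ := by
    refine ne_top_of_le_ne_top (b := ENNReal.ofReal 3 * AA n k g)
      (ENNReal.mul_ne_top ENNReal.ofReal_ne_top hfin) ?_
    rw [hAA, lint2_const_mul _ (f := w) hwm]
    refine lintegral_mono_ae ?_
    filter_upwards [gm_pos' hn] with t ht
    refine lintegral_mono_ae ?_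
    filter_upwards [gm_pos k] with a ha
    rw [mul_comm]
    refine mul_le_mul_left (ENNReal.ofReal_le_ofReal ?_) _
    have hT0 : 0 < t + a := by linarith
    have hq1 : q t a ≤ 1 := by
      simp only [hq]
      rw [div_le_one (by positivity)]
      have : (k:ℝ) * a ≤ n * a := mul_le_mul_of_nonneg_right hkn' ha
      nlinarith
    have hq0 : 0 ≤ q t a := by simp only [hq]; positivity
    have hee : Real.exp (-1) ≤ 1 := Real.exp_le_one_iff.mpr (by norm_num)
    have hee0 := Real.exp_pos (-1)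
    nlinarith
  have hcancel := (ENNReal.add_le_add_iff_right hfin2).mp hmain
  refine hcancel.trans ?_
  unfold AA
  rw [lint2_const_mul _ (f := fun t a => g t (t + a) *
      ENNReal.ofReal (1 + 2 * ((n - k) / n + t / (t + a)) + 2 / (k + 1)) *
      ENNReal.ofReal ((1 / (t + a)) ^ n * (1 / t) ^ k))]
  · refine lintegral_mono_ae ?_
    filter_upwards [gm_pos' hn] with t ht
    refine lintegral_mono_ae ?_
    filter_upwards [gm_pos k] with a ha
    have hT0 : 0 < t + a := by linarith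
    have hq0 : 0 ≤ q t a := by simp only [hq]; positivity
    have hq1 : q t a ≤ 1 := by
      simp only [hq]
      rw [div_le_one (by positivity)]
      have : (k:ℝ) * a ≤ n * a := mul_le_mul_of_nonneg_right hkn' ha
      nlinarith
    have hq2le : q2 t a ≤ q t a ^ 2 + 2 / (k + 1) := by
      have h1 : q2 t a ≤ q t a ^ 2 * ((k + 3) / (k + 1)) := by
        simp only [hq, hq2]
        rw [div_pow, div_mul_div_comm, div_le_div_iff₀ (by positivity) (by positivity)]
        have : (0:ℝ) ≤ k ^ 2 * a ^ 2 * (k + 3) * ((k + 1) * (t + a) ^ 2 * n) := by positivity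
        nlinarith
      have h2 : q t a ^ 2 ≤ 1 := by nlinarith
      have h3 : q t a ^ 2 * ((k + 3) / (k + 1)) = q t a ^ 2 + q t a ^ 2 * (2 / (k + 1)) := by
        field_simp
        ring
      have h4 : q t a ^ 2 * (2 / (k + 1)) ≤ 2 / (k + 1) := by
        have : (0:ℝ) ≤ 2 / (k + 1) := by positivity
        nlinarith
      linarith
    have h1q : 1 - q t a ≤ (n - k) / n + t / (t + a) := by
      simp only [hq]
      have e : 1 - k * a / (n * (t + a)) = (n - k) / n + (k / n) * (t / (t + a)) := by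
        field_simp
        ring
      rw [e]
      have h5 : (k:ℝ) / n ≤ 1 := by rw [div_le_one hn0]; exact hkn'
      have h6 : 0 ≤ t / (t + a) := by positivity
      nlinarith
    have hfinal : Real.exp (-1) * (3 - 3 * q t a + q2 t a)
        ≤ Real.exp (-1) * (1 + 2 * ((n - k) / n + t / (t + a)) + 2 / (k + 1)) := by
      refine mul_le_mul_of_nonneg_left ?_ (Real.exp_pos _).le
      nlinarith
    calc w t a * ENNReal.ofReal (Real.exp (-1) * (3 - 3 * q t a + q2 t a))
        ≤ w t a * ENNReal.ofReal (Real.exp (-1) *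
          (1 + 2 * ((n - k) / n + t / (t + a)) + 2 / (k + 1))) :=
          mul_le_mul_right (ENNReal.ofReal_le_ofReal hfinal) _
      _ = _ := by
          rw [ENNReal.ofReal_mul (Real.exp_pos _).le]
          simp only [hw]
          ring
  · refine Measurable.mul (Measurable.mul ?_ (by fun_prop)) (by fun_prop)
    exact hg'.comp (measurable_fst.prodMk (measurable_fst.add measurable_snd))

end Pool.Agent.SM
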