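import Pool.Agent.MP_d30e2b_pr.FarAlg
import Pool.Agent.MP_d30e2b_pr.FarSum
import Pool.Agent.MP_d30e2b_pr.WExp

set_option autoImplicit false

/-! the men's integral for far pairs -/

namespace Pool.Agent.SM

open MeasureTheory Set
open scoped ENNReal

variable {n : ℕ}

open Classical in
theorem far_men {C τ₁ : ℝ} {σ : Equiv.Perm (Fin n)} {y : Fin n → ℝ} {η : Mov σ → ℝ}
    (h : AdmY σ y η) (hτ : 4 ≤ τ₁) (hn : 0 < n) (hC : 0 ≤ C)
    (ht : τ₁ ≤ ∑ j, y j)
    (hy2 : ∑ i, y i ^ 2 ≤ C * (∑ i, y i) ^ 2 / n)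
    (hys2 : ∑ i, ys σ y η i ^ 2 ≤ C * (∑ i, ys σ y η i) ^ 2 / n) :
    ∫⁻ x, ∫⁻ ξ, (if Adm σ x y ξ η then
          ((∏ r : Rst σ, ENNReal.ofReal (Real.exp (-ar σ (cla σ) x y ξ η r.1.1 r.1.2))) *
          ∏ d : Mov σ, ENNReal.ofReal (Real.exp (-((∑ j, ys σ y η j * y j) *
          (ξ d * (x d.1 - ξ d)))))) else 0)
          ∂(Measure.pi fun _ => u1) ∂(Measure.pi fun _ => u1)
    ≤ ENNReal.ofReal (Real.exp (4 + 8 / τ₁ + 32 * C ^ 2 / n)) *
      (ENNReal.ofReal ((1 / (∑ j, y j + ∑ d, inc σ y η d)) ^ n *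
        (1 / ∑ j, y j) ^ σ.support.card) *
      ENNReal.ofReal (Real.exp (-((σ.support.card : ℝ) * bf σ y (inc σ y η) /
        ((∑ j, y j) * (∑ j, y j + ∑ d, inc σ y η d)))))) := by
  have hσ : σ = σ * 1 := (mul_one σ).symm
  have hd : σ.Disjoint 1 := Equiv.Perm.disjoint_one_right σ
  have hcl : ∀ i, cla σ (σ i) = cla σ i := cla_inv hσ hd
  set t := ∑ j, y j with htdef
  have hTeq : ∑ j, ys σ y η j = t + ∑ d, inc σ y η d := sum_ys_eq σ y η
  set T := t + ∑ d, inc σ y η d with hTdef
  set Q := ∑ j, ys σ y η j * y j with hQ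
  set k := σ.support.card with hk
  have ht4 : 4 ≤ t := hτ.trans ht
  have htc : ∀ c, 4 ≤ tc σ (cla σ) c y η := fun c => ht4.trans (h.sum_le_tc c)
  have htT : t ≤ T := by
    rw [← hTeq]
    exact Finset.sum_le_sum fun j _ => h.y_le j
  have hT4 : 4 ≤ T := ht4.trans htT
  have ht0 : 0 < t := by linarith
  have hT0 : 0 < T := by linarith
  have hn0 : (0:ℝ) < n := by exact_mod_cast hn
  have hT' : 4 ≤ ∑ j, ys σ y η j := by rw [hTeq]; exact hT4
  have hal := fun i => h.al_pos hT' i
  have hQ0 : 0 ≤ Q := Finset.sum_nonneg fun j _ => mul_nonneg (h.ys_nonneg j) (h.1 j).1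
  have hkn : k ≤ n := by
    have := Finset.card_le_univ σ.support
    rwa [Fintype.card_fin] at this
  have hmcard : (mc σ (cla σ) true).card = k := by
    have := mc_A (σA := σ) (σB := 1) (Equiv.Perm.disjoint_one_right σ)
    rw [mul_one] at this
    rw [this]
  have htct : tc σ (cla σ) true y η = t := by
    unfold tc
    refine Finset.sum_congr rfl fun j _ => ?_
    split_ifs with hj
    · rfl
    · by_contra hne
      exact hj (by simp only [cla]; exact (decide_eq_true (ys_moved hne)).symm)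
  -- bound for Q
  have hQle : Q ≤ C * (t * T) / n := by
    have h2 : Q ^ 2 ≤ (∑ i, ys σ y η i ^ 2) * ∑ i, y i ^ 2 := Finset.sum_mul_sq_le_sq_mul_sq _ _ _
    rw [hTeq] at hys2
    have h3 : Q ^ 2 ≤ (C * (t * T) / n) ^ 2 := by
      refine h2.trans ?_
      calc _ ≤ (C * T ^ 2 / n) * (C * t ^ 2 / n) := by
            have : 0 ≤ ∑ i, y i ^ 2 := Finset.sum_nonneg fun i _ => sq_nonneg _
            gcongr
        _ = _ := by field_simp
    exact le_of_sq_le_sq h3 (by positivity)
  -- exponent for one man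
  set E : ℝ := -(Q / (t * T)) + 32 * C ^ 2 / n ^ 2 with hE
  have hone : ∀ i, σ i ≠ i → ENNReal.ofReal (1 / al σ y η i) *
      ENNReal.ofReal (1 / be σ (cla σ) y η i) *
      ENNReal.ofReal (Real.exp (-(Q / (al σ y η i * be σ (cla σ) y η i)) +
        2 * Q ^ 2 / (al σ y η i * be σ (cla σ) y η i) ^ 2))
      ≤ ENNReal.ofReal (1 / al σ y η i) *
      (ENNReal.ofReal (1 / be σ (cla σ) y η i) * ENNReal.ofReal (Real.exp E)) := by
    intro i hi
    rw [mul_assoc]
    refine mul_le_mul_right (mul_le_mul_right (ENNReal.ofReal_le_ofReal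
      (Real.exp_le_exp.mpr ?_)) _) _
    have hb : 0 < be σ (cla σ) y η i := h.be_pos hcl hi (htc _)
    have ha := hal i
    have hci : cla σ i = true := by simp only [cla]; exact decide_eq_true hi
    have hale : al σ y η i ≤ T := by
      rw [al_eq, hTeq]
      have h1 := h.ys_nonneg i
      have h2 := h.ys_nonneg (σ i)
      split_ifs
      linarith
    have hbele : be σ (cla σ) y η i ≤ t := by
      rw [be_eq σ (cla σ) hcl y η hi, hci, htct]
      linarith [(h.1 i).1, (h.1 (σ i)).1]
    have halge : T / 2 ≤ al σ y η i := by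
      rw [al_eq, hTeq]
      have h1 := h.ys_le i
      have h2 := h.ys_le (σ i)
      split_ifs
      linarith
    have hbege : t / 2 ≤ be σ (cla σ) y η i := be_ge h hcl hi ht4
    have hp1 : al σ y η i * be σ (cla σ) y η i ≤ t * T := by
      rw [mul_comm t]
      exact mul_le_mul hale hbele hb.le hT0.le
    have hp2 : t * T / 4 ≤ al σ y η i * be σ (cla σ) y η i := by
      calc t * T / 4 = (T / 2) * (t / 2) := by ring
        _ ≤ _ := mul_le_mul halge hbege (by positivity) ha.le
    have hp0 : 0 < al σ y η i * be σ (cla σ) y η i := by positivity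
    have e1 : Q / (t * T) ≤ Q / (al σ y η i * be σ (cla σ) y η i) :=
      div_le_div_of_nonneg_left hQ0 hp0 hp1
    have e2 : 2 * Q ^ 2 / (al σ y η i * be σ (cla σ) y η i) ^ 2 ≤ 32 * C ^ 2 / n ^ 2 := by
      calc 2 * Q ^ 2 / (al σ y η i * be σ (cla σ) y η i) ^ 2
          ≤ 2 * (C * (t * T) / n) ^ 2 / (t * T / 4) ^ 2 := by gcongr
        _ = _ := by field_simp; ring
    rw [hE]
    linarith
  refine (men_int σ (cla σ) y η (fun i p => ENNReal.ofReal (Real.exp (-(Q * (p.2 * (p.1 - p.2))))))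
    (fun i => by fun_prop) hal).trans ?_
  rw [if_pos h]
  calc _ ≤ ∏ i, (if σ i ≠ i then ENNReal.ofReal (1 / al σ y η i) *
        (ENNReal.ofReal (1 / be σ (cla σ) y η i) * ENNReal.ofReal (Real.exp E))
        else ENNReal.ofReal (1 / al σ y η i)) := by
        refine Finset.prod_le_prod' fun i _ => ?_
        split_ifs with hi
        · have hb : 0 < be σ (cla σ) y η i := h.be_pos hcl hi (htc _)
          exact (two_exp_quad (hal i) hb hQ0).trans (hone i hi)
        · exact le_rfl
    _ ≤ ENNReal.ofReal ((1 / T) ^ n * Real.exp (2 + 4 / T)) *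
        (ENNReal.ofReal ((1 / t) ^ k * Real.exp (2 + 4 / t)) *
          ENNReal.ofReal (Real.exp ((k:ℝ) * E))) := by
        rw [moved_split σ (cla σ)]
        have hf : mc σ (cla σ) false = ∅ := mc_false_one hσ rfl
        rw [hf, Finset.prod_empty, mul_one, Finset.prod_mul_distrib, Finset.prod_const, hmcard]
        have a1 : ∏ i, ENNReal.ofReal (1 / al σ y η i)
            ≤ ENNReal.ofReal ((1 / T) ^ n * Real.exp (2 + 4 / T)) := by
          rw [← ENNReal.ofReal_prod_of_nonneg (fun i _ => (one_div_pos.mpr (hal i)).le)]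
          have := h.al_prod hT'
          rw [hTeq] at this
          exact ENNReal.ofReal_le_ofReal this
        have a2 : ∏ i ∈ mc σ (cla σ) true, ENNReal.ofReal (1 / be σ (cla σ) y η i)
            ≤ ENNReal.ofReal ((1 / t) ^ k * Real.exp (2 + 4 / t)) := by
          rw [← ENNReal.ofReal_prod_of_nonneg]
          · have := h.be_prod hcl true (htc true)
            rw [htct, hmcard] at this
            exact ENNReal.ofReal_le_ofReal this
          · intro i hi
            simp only [mc, Finset.mem_filter, Finset.mem_univ, true_and] at hi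
            exact (one_div_pos.mpr (h.be_pos hcl hi.1 (htc _))).le
        have a3 : ENNReal.ofReal (Real.exp E) ^ k = ENNReal.ofReal (Real.exp ((k:ℝ) * E)) := by
          rw [← ENNReal.ofReal_pow (Real.exp_pos _).le, ← Real.exp_nat_mul]
        rw [a3]
        exact mul_le_mul' a1 (mul_le_mul' a2 le_rfl)
    _ ≤ _ := by
        rw [← ENNReal.ofReal_mul (by positivity), ← ENNReal.ofReal_mul (by positivity),
          ← ENNReal.ofReal_mul (by positivity), ← ENNReal.ofReal_mul (by positivity)]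
        refine ENNReal.ofReal_le_ofReal ?_
        have hbf : bf σ y (inc σ y η) ≤ Q := Q_ge fun i => (h.1 i).1
        have hexp : (2 + 4 / T) + ((2 + 4 / t) + (k:ℝ) * E)
            ≤ (4 + 8 / τ₁ + 32 * C ^ 2 / n) + -((k:ℝ) * bf σ y (inc σ y η) / (t * T)) := by
          have h1 : 4 / T ≤ 4 / τ₁ := div_le_div_of_nonneg_left (by norm_num) (by linarith)
            (by linarith)
          have h2 : 4 / t ≤ 4 / τ₁ := div_le_div_of_nonneg_left (by norm_num) (by linarith) ht
          have h3 : (k:ℝ) * (32 * C ^ 2 / n ^ 2) ≤ 32 * C ^ 2 / n := by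
            have : (k:ℝ) ≤ n := by exact_mod_cast hkn
            calc (k:ℝ) * (32 * C ^ 2 / n ^ 2) ≤ n * (32 * C ^ 2 / n ^ 2) := by gcongr
              _ = _ := by field_simp
          have h4 : (k:ℝ) * bf σ y (inc σ y η) / (t * T) ≤ (k:ℝ) * (Q / (t * T)) := by
            rw [mul_div_assoc]
            exact mul_le_mul_of_nonneg_left (div_le_div_of_nonneg_right hbf (mul_pos ht0 hT0).le)
              (Nat.cast_nonneg k)
          have h5 : 8 / τ₁ = 4 / τ₁ + 4 / τ₁ := by ring
          rw [hE, mul_add, h5]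
          linarith
        calc _ = ((1 / T) ^ n * (1 / t) ^ k) *
              Real.exp ((2 + 4 / T) + ((2 + 4 / t) + (k:ℝ) * E)) := by
              rw [Real.exp_add (2 + 4 / T), Real.exp_add (2 + 4 / t) ((k:ℝ) * E)]
              ring
          _ ≤ ((1 / T) ^ n * (1 / t) ^ k) * Real.exp ((4 + 8 / τ₁ + 32 * C ^ 2 / n) +
              -((k:ℝ) * bf σ y (inc σ y η) / (t * T))) := by
              gcongr
          _ = _ := by
              rw [Real.exp_add]
              ring

end Pool.Agent.SM
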