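import Pool.Agent.MP_d30e2b_pr.Far

set_option autoImplicit false

/-! far pairs: the sum -/

namespace Pool.Agent.SM

open MeasureTheory Set
open scoped ENNReal

/-- the coefficient -/
noncomputable def cf (n j : ℕ) (w : ℝ) : ℝ :=
  1 + 2 * (((n : ℝ) - ((j + 1 : ℕ) : ℝ)) / n + w) + 2 / (((j + 1 : ℕ) : ℝ) + 1)

theorem cf_nonneg {n j : ℕ} (hj : j < n) {w : ℝ} (hw : 0 ≤ w) : 0 ≤ cf n j w := by
  unfold cf
  have : (((j + 1 : ℕ) : ℝ)) ≤ n := by exact_mod_cast hj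
  have h1 : 0 ≤ ((n : ℝ) - ((j + 1 : ℕ) : ℝ)) / n := div_nonneg (by linarith) (by positivity)
  positivity

open Classical in
theorem far_total {n : ℕ} {C τ₁ τ₂ ε : ℝ} (hn : 0 < n) (hC : 0 ≤ C) (hτ : 4 ≤ τ₁) (hτ2 : τ₁ ≤ τ₂)
    (hε : 0 < ε) (hε1 : ε ≤ 1 / 2) (hsmall : C ^ 5 * (τ₂ / τ₁) ^ 6 / n ≤ ε ^ 3) :
    ∫⁻ z, ∑ μ : Equiv.Perm (Fin n), ∑ σ : Equiv.Perm (Fin n),
      (if Stab z μ ∧ Low z μ σ ∧ σ ≠ 1 ∧ Nice C τ₁ τ₂ z μ ∧
        Nice C τ₁ τ₂ z (μ * σ) ∧ tt z μ ≤ ε * tt z (μ * σ)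
        then gw z μ * gw z (μ * σ) else 0) ∂(P n) ≤
    ENNReal.ofReal (Real.exp (3 + (3 / 2 * C ^ 2 + 1) * ε + 8 / τ₁ + 32 * C ^ 2 / n) *
      ((n : ℝ) ^ 2 * (Real.exp (-1) * (1 + 4 * ε) + 24 / n) *
        (Real.log (τ₂ / τ₁) ^ 2 / 2))) := by
  set κ : ℝ≥0∞ := ENNReal.ofReal (Real.exp (3 + (3 / 2 * C ^ 2 + 1) * ε + 8 / τ₁ + 32 * C ^ 2 / n))
    with hκ
  have hmeas1 : ∀ σ : Equiv.Perm (Fin n), Measurable fun z : Conf n =>
      (if Stab z 1 ∧ Low z 1 σ ∧ σ ≠ 1 ∧ Nice C τ₁ τ₂ z 1 ∧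
        Nice C τ₁ τ₂ z (1 * σ) ∧ tt z 1 ≤ ε * tt z (1 * σ)
        then gw z 1 * gw z (1 * σ) else 0) := by
    intro σ
    refine Measurable.ite ?_ ((meas_gw 1).mul (meas_gw _)) measurable_const
    refine ms_and (meas_Stab 1) (ms_and (meas_Low 1 σ) (ms_and (ms_const _) (ms_and
      (meas_Nice 1 _ _ _) (ms_and (meas_Nice _ _ _ _) ?_))))
    exact measurableSet_le (meas_tt _) ((meas_tt _).const_mul _)
  rw [sum_rl (fun z μ => ∑ σ : Equiv.Perm (Fin n),
      (if Stab z μ ∧ Low z μ σ ∧ σ ≠ 1 ∧ Nice C τ₁ τ₂ z μ ∧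
        Nice C τ₁ τ₂ z (μ * σ) ∧ tt z μ ≤ ε * tt z (μ * σ)
        then gw z μ * gw z (μ * σ) else 0))]
  · rw [lintegral_finsetSum _ fun σ _ => hmeas1 σ]
    have hb : ∀ σ : Equiv.Perm (Fin n), ∫⁻ z, (if Stab z 1 ∧ Low z 1 σ ∧ σ ≠ 1 ∧
        Nice C τ₁ τ₂ z 1 ∧ Nice C τ₁ τ₂ z (1 * σ) ∧ tt z 1 ≤ ε * tt z (1 * σ)
        then gw z 1 * gw z (1 * σ) else 0) ∂(P n)
        ≤ κ * (if σ ≠ 1 then AA n σ.support.card (fun t T => gf τ₁ τ₂ ε t T *
          ENNReal.ofReal (cf n (σ.support.card - 1) (t / T))) else 0) := by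
      intro σ
      by_cases hσ : σ ≠ 1
      · rw [if_pos hσ]
        have hk1 : 1 ≤ σ.support.card := by
          have : σ.support.card ≠ 0 := by
            rw [Finset.card_ne_zero, Finset.nonempty_iff_ne_empty]
            rwa [ne_eq, Equiv.Perm.support_eq_empty_iff]
          omega
        have := prob_far (σ := σ) hn hC hτ hτ2 hε.le (by linarith) hsmall hσ
        have e1 : ∀ t T : ℝ, 1 + 2 * (((n:ℝ) - σ.support.card) / n + t / T) +
            2 / ((σ.support.card : ℝ) + 1) = cf n (σ.support.card - 1) (t / T) := by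
          intro t T
          unfold cf
          rw [Nat.sub_add_cancel hk1]
        simp_rw [e1] at this
        refine le_trans (le_of_eq ?_) this
        refine lintegral_congr fun z => ?_
        simp only [one_mul]
        refine if_congr ?_ rfl rfl
        tauto
      · rw [if_neg hσ]
        have e1 : ∀ z : Conf n, (if Stab z 1 ∧ Low z 1 σ ∧ σ ≠ 1 ∧
          Nice C τ₁ τ₂ z 1 ∧ Nice C τ₁ τ₂ z (1 * σ) ∧ tt z 1 ≤ ε * tt z (1 * σ)
          then gw z 1 * gw z (1 * σ) else 0) = 0 := by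
          intro z
          rw [if_neg]
          tauto
        simp_rw [e1]
        simp
    refine (mul_le_mul_right (Finset.sum_le_sum fun σ _ => hb σ) _).trans ?_
    rw [← Finset.mul_sum, mul_left_comm]
    have hcm : ∀ j, Measurable (Function.uncurry fun t T : ℝ => gf τ₁ τ₂ ε t T *
          ENNReal.ofReal (cf n j (t / T))) := by
      intro j
      refine Measurable.mul (meas_gf τ₁ τ₂ ε) ?_
      unfold cf
      fun_prop
    have h3 := pair_sum hn (fun σ => AA n σ.support.card (fun t T => gf τ₁ τ₂ ε t T *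
          ENNReal.ofReal (cf n (σ.support.card - 1) (t / T))))
      (fun j t T => gf τ₁ τ₂ ε t T * ENNReal.ofReal (cf n j (t / T))) hcm
      (fun σ j hj => by
        rw [hj]
        simp)
    refine (mul_le_mul_right h3 _).trans ?_
    rw [ENNReal.ofReal_mul (Real.exp_pos _).le]
    refine mul_le_mul_right ?_ _
    refine le_trans ?_ (far_int (c := (n : ℝ) ^ 2 * (Real.exp (-1) * (1 + 4 * ε) + 24 / n))
      (by linarith) hτ2 (by positivity))
    refine setLIntegral_mono' measurableSet_Ioi fun T hT => ?_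
    refine setLIntegral_mono' measurableSet_Ioo fun t ht => ?_
    simp only [mem_Ioi] at hT
    obtain ⟨ht0, htT⟩ := ht
    by_cases hw : Win τ₁ τ₂ t ∧ Win τ₁ τ₂ T ∧ t ≤ ε * T
    · have hg1 : gf τ₁ τ₂ ε t T = 1 := if_pos hw
      rw [if_pos (⟨hw.1, hw.2.1⟩ : Win τ₁ τ₂ t ∧ Win τ₁ τ₂ T)]
      simp only [hg1, one_mul]
      have hw0 : 0 < t / T := by positivity
      have hwε : t / T ≤ ε := by rw [div_le_iff₀ hT]; exact hw.2.2
      have hws : ∀ j ∈ Finset.range n, ENNReal.ofReal (cf n j (t / T)) *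
          ENNReal.ofReal (pd n j t T) * ENNReal.ofReal (dr (j + 1))
          = ENNReal.ofReal ((n:ℝ) ^ 2 / (t * T) * (cf n j (t / T) * bi n j (t / T) * dr (j + 1))) := by
        intro j hj
        rw [← ENNReal.ofReal_mul (cf_nonneg (Finset.mem_range.mp hj) hw0.le),
          ← ENNReal.ofReal_mul (mul_nonneg (cf_nonneg (Finset.mem_range.mp hj) hw0.le)
            (pd_nonneg ht0 htT))]
        congr 1
        unfold pd
        ring
      rw [Finset.sum_congr rfl hws, ← ENNReal.ofReal_sum_of_nonneg]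
      · refine ENNReal.ofReal_le_ofReal ?_
        rw [← Finset.mul_sum]
        have hs := far_sum hn hw0 (hwε.trans hε1)
        have hs' : ∑ j ∈ Finset.range n, cf n j (t / T) * bi n j (t / T) * dr (j + 1)
            ≤ Real.exp (-1) * (1 + 4 * (t / T)) + 24 / n := hs
        calc _ ≤ (n:ℝ) ^ 2 / (t * T) * (Real.exp (-1) * (1 + 4 * (t / T)) + 24 / n) :=
              mul_le_mul_of_nonneg_left hs' (by positivity)
          _ ≤ (n:ℝ) ^ 2 / (t * T) * (Real.exp (-1) * (1 + 4 * ε) + 24 / n) := by gcongr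
          _ = _ := by ring
      · intro j hj
        have h5 := cf_nonneg (Finset.mem_range.mp hj) hw0.le
        have h6 := bi_nonneg (n := n) (j := j) hw0.le (by linarith : t / T ≤ 1)
        have h7 := dr_nonneg (j + 1)
        positivity
    · have hg1 : gf τ₁ τ₂ ε t T = 0 := if_neg hw
      simp only [hg1, zero_mul, Finset.sum_const_zero]
      exact zero_le
  · exact Finset.measurable_sum _ fun σ _ => hmeas1 σ
  · intro z μ
    refine Finset.sum_congr rfl fun σ _ => ?_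
    simp only [stab_rl, low_rl, nice_rl, tt_rl, gw_rl, mul_one, one_mul]

open Classical in
/-- S3: comparable pairs, far apart -/
theorem far_pairs (C : ℝ) (hC : 1 ≤ C) : ∃ K : ℝ, 0 < K ∧ ∀ ε : ℝ, 0 < ε → ε ≤ 1 / 2 →
    ∃ N : ℕ, ∀ n : ℕ, N ≤ n →
    ∫⁻ z, ∑ μ : Equiv.Perm (Fin n), ∑ σ : Equiv.Perm (Fin n),
      (if Stab z μ ∧ Low z μ σ ∧ σ ≠ 1 ∧ Nice C (t1 n) (t2 n) z μ ∧
        Nice C (t1 n) (t2 n) z (μ * σ) ∧ tt z μ ≤ ε * tt z (μ * σ)
        then gw z μ * gw z (μ * σ) else 0) ∂(P n) ≤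
    ENNReal.ofReal (Real.exp 2 * (n : ℝ) ^ 2 * (lam n ^ 2 / 2) * (1 + K * ε)) := by
  set D : ℝ := 3 / 2 * C ^ 2 + 2 with hD
  have hD0 : 0 < D := by positivity
  refine ⟨6 * D * Real.exp D + 5, by positivity, fun ε hε hε1 => ?_⟩
  -- eventual conditions
  have ev1 : ∀ᶠ n : ℕ in Filter.atTop, 16 * (1 / ε) ≤ t1 n := by
    have : Filter.Tendsto t1 Filter.atTop Filter.atTop :=
      (tendsto_rpow_atTop (by norm_num : (0:ℝ) < 1 / 2)).comp tendsto_natCast_atTop_atTop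
    exact this.eventually_ge_atTop _
  have ev2 : ∀ᶠ n : ℕ in Filter.atTop, (64 * C ^ 2 + 24 * Real.exp 1) / ε ≤ (n:ℝ) :=
    tendsto_natCast_atTop_atTop.eventually_ge_atTop _
  have ev3 : ∀ᶠ n : ℕ in Filter.atTop, C ^ 5 / ε ^ 3 ≤ ((n:ℝ) ^ (1 / 10 : ℝ)) ^ 4 := by
    have h1 : Filter.Tendsto (fun n : ℕ => (n:ℝ) ^ (1 / 10 : ℝ)) Filter.atTop Filter.atTop :=
      (tendsto_rpow_atTop (by norm_num : (0:ℝ) < 1 / 10)).comp tendsto_natCast_atTop_atTop
    exact ((Filter.tendsto_pow_atTop (by norm_num : (4:ℕ) ≠ 0)).comp h1).eventually_ge_atTop _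
  obtain ⟨N, hN⟩ := Filter.eventually_atTop.mp (ev1.and (ev2.and ev3))
  refine ⟨max N 16, fun n hn => ?_⟩
  obtain ⟨h1, h2, h3⟩ := hN n (le_trans (le_max_left _ _) hn)
  have hn16 : 16 ≤ n := le_trans (le_max_right _ _) hn
  have hn1 : 1 ≤ n := by omega
  have hn0 : (0:ℝ) < n := by exact_mod_cast hn1
  have ht1 := t1_pos hn1
  have hsmall : C ^ 5 * (t2 n / t1 n) ^ 6 / n ≤ ε ^ 3 := by
    rw [t2_div_t1 hn1]
    set r := (n:ℝ) ^ (1 / 10 : ℝ) with hr
    have hr0 : 0 < r := by positivity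
    have hr10 : r ^ 10 = n := by
      rw [hr, ← Real.rpow_natCast, ← Real.rpow_mul hn0.le]
      norm_num
    rw [← hr10, div_le_iff₀ (by positivity)]
    rw [div_le_iff₀ (by positivity)] at h3
    calc C ^ 5 * r ^ 6 ≤ (r ^ 4 * ε ^ 3) * r ^ 6 := by gcongr
      _ = _ := by ring
  refine (far_total (by omega) (by linarith) (t1_ge_four hn16) (t1_le_t2 hn1) hε hε1 hsmall).trans
    (ENNReal.ofReal_le_ofReal ?_)
  have hlam : Real.log (t2 n / t1 n) = lam n := rfl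
  rw [hlam]
  have e1 : 8 / t1 n ≤ ε / 2 := by
    rw [div_le_iff₀ ht1]
    have : 16 * (1 / ε) * ε = 16 := by field_simp
    nlinarith
  have e2 : 32 * C ^ 2 / n ≤ ε / 2 := by
    rw [div_le_iff₀ hn0]
    rw [div_le_iff₀ hε] at h2
    have := Real.exp_pos 1
    nlinarith
  have e3 : 24 / (n:ℝ) ≤ Real.exp (-1) * ε := by
    rw [div_le_iff₀ hn0]
    rw [div_le_iff₀ hε] at h2
    have h4 : Real.exp (-1) * Real.exp 1 = 1 := by rw [← Real.exp_add]; simp
    have h5 := Real.exp_pos (-1)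
    have h6 : Real.exp (-1) * (24 * Real.exp 1) ≤ Real.exp (-1) * (n * ε) := by
      refine mul_le_mul_of_nonneg_left ?_ h5.le
      nlinarith
    nlinarith
  have e4 : Real.exp (3 + (3 / 2 * C ^ 2 + 1) * ε + 8 / t1 n + 32 * C ^ 2 / n)
      ≤ Real.exp 3 * Real.exp (D * ε) := by
    rw [← Real.exp_add]
    refine Real.exp_le_exp.mpr ?_
    rw [hD]
    linarith
  have e5 : Real.exp (D * ε) ≤ 1 + D * Real.exp D * ε := by
    have hx0 : 0 ≤ D * ε := by positivity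
    have hxD : D * ε ≤ D := by nlinarith
    have h7 : 1 - D * ε ≤ Real.exp (-(D * ε)) := by
      have := Real.add_one_le_exp (-(D * ε))
      linarith
    have h8 : Real.exp (D * ε) * Real.exp (-(D * ε)) = 1 := by rw [← Real.exp_add]; simp
    have h9 : Real.exp (D * ε) ≤ Real.exp D := Real.exp_le_exp.mpr hxD
    have h10 := Real.exp_pos (D * ε)
    nlinarith
  have e6 : Real.exp 3 * Real.exp (-1) = Real.exp 2 := by rw [← Real.exp_add]; norm_num
  have hX : 0 ≤ (n:ℝ) ^ 2 * (lam n ^ 2 / 2) := by positivity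
  have e7 : Real.exp (-1) * (1 + 4 * ε) + 24 / n ≤ Real.exp (-1) * (1 + 5 * ε) := by
    linarith
  have hexD := Real.exp_pos D
  calc _ = Real.exp (3 + (3 / 2 * C ^ 2 + 1) * ε + 8 / t1 n + 32 * C ^ 2 / n) *
        (Real.exp (-1) * (1 + 4 * ε) + 24 / n) * ((n:ℝ) ^ 2 * (lam n ^ 2 / 2)) := by ring
    _ ≤ (Real.exp 3 * (1 + D * Real.exp D * ε)) * (Real.exp (-1) * (1 + 5 * ε)) *
        ((n:ℝ) ^ 2 * (lam n ^ 2 / 2)) := by
        refine mul_le_mul_of_nonneg_right ?_ hX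
        refine mul_le_mul (e4.trans (mul_le_mul_of_nonneg_left e5 (by positivity))) e7
          (by positivity) (by positivity)
    _ = Real.exp 2 * ((n:ℝ) ^ 2 * (lam n ^ 2 / 2)) *
        ((1 + D * Real.exp D * ε) * (1 + 5 * ε)) := by rw [← e6]; ring
    _ ≤ Real.exp 2 * ((n:ℝ) ^ 2 * (lam n ^ 2 / 2)) * (1 + (6 * D * Real.exp D + 5) * ε) := by
        refine mul_le_mul_of_nonneg_left ?_ (by positivity)
        have : 0 < D * Real.exp D * ε := by positivity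
        nlinarith
    _ = _ := by ring

end Pool.Agent.SM
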