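import Pool.Agent.MP_d30e2b_pr.TaskG

set_option autoImplicit false

/-! final assembly: from the continuous model to the frozen statement -/

namespace Pool.Agent.SM

open MeasureTheory Filter Nd52b3d98
open scoped ENNReal Topology

lemma TaskG.exp_le : ∃ C₀ : ℝ, 0 < C₀ ∧ ∀ n : ℕ, 2 ≤ n →
    expectedNumStableMatchings n ≤ C₀ * n * Real.log n := by
  obtain ⟨C₀, hC₀, h⟩ := exp_nst_le
  refine ⟨C₀, hC₀, fun n hn => ?_⟩
  have h1 := h n hn
  rw [← bridge_exp] at h1
  have h2 : (1 : ℝ) ≤ n := by exact_mod_cast (by omega : 1 ≤ n)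
  exact (ENNReal.ofReal_le_ofReal_iff (by
    have := Real.log_nonneg h2
    positivity)).1 h1

theorem final (ε : ℕ → ℝ) (hε_pos : ∀ n, 0 < ε n) (hε_tendsto : Tendsto ε atTop (𝓝 0)) :
    Tendsto (fun n ↦ (uniformProfile n).toMeasure
      {p | (numStableMatchings p : ℝ) ≥ ε n * expectedNumStableMatchings n}) atTop (𝓝 1) := by
  obtain ⟨C₀, hC₀, hE⟩ := TaskG.exp_le
  have hprob := fun n => isProb_P n
  refine tendsto_order.2 ⟨fun a ha => ?_, fun a ha => ?_⟩
  swap
  · filter_upwards with n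
    exact lt_of_le_of_lt prob_le_one ha
  have hafin : a ≠ ∞ := ne_top_of_lt ha
  obtain ⟨b, hb⟩ : ∃ b : ℝ, b = a.toReal := ⟨_, rfl⟩
  have hab : a = ENNReal.ofReal b := by rw [hb, ENNReal.ofReal_toReal hafin]
  have hb1 : b < 1 := by
    rw [hb, ← ENNReal.toReal_one]
    exact (ENNReal.toReal_lt_toReal hafin ENNReal.one_ne_top).2 ha
  have hb0 : 0 ≤ b := hb ▸ ENNReal.toReal_nonneg
  obtain ⟨c, hc, N, hN⟩ := tight ((1 - b) / 2) (by linarith)
  have hsmall : ∀ᶠ n in atTop, ε n < c / C₀ := by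
    exact (tendsto_order.1 hε_tendsto).2 _ (by positivity)
  filter_upwards [hsmall, eventually_ge_atTop N, eventually_ge_atTop 2] with n h1 h2 h3
  rw [bridge_prob]
  specialize hN n h2
  have hn1 : (1 : ℝ) ≤ n := by exact_mod_cast (by omega : 1 ≤ n)
  have hlog := Real.log_nonneg hn1
  set A : Set (Conf n) := {z | ε n * expectedNumStableMatchings n ≤ (nst z : ℝ)} with hA
  have hsub : Aᶜ ⊆ {z : Conf n | (nst z : ℝ) < c * n * Real.log n} := by
    intro z hz
    rw [Set.mem_compl_iff, hA, Set.mem_ofPred_eq, not_le] at hz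
    rw [Set.mem_ofPred_eq]
    refine lt_of_lt_of_le hz ?_
    calc ε n * expectedNumStableMatchings n ≤ ε n * (C₀ * n * Real.log n) :=
          mul_le_mul_of_nonneg_left (hE n h3) (hε_pos n).le
      _ ≤ (c / C₀) * (C₀ * n * Real.log n) := by
          apply mul_le_mul_of_nonneg_right h1.le
          positivity
      _ = c * n * Real.log n := by field_simp
  have h4 : (1 : ℝ≥0∞) ≤ P n A + P n Aᶜ := by
    have := hprob n
    rw [← measure_univ (μ := P n), ← Set.union_compl_self A]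
    exact measure_union_le _ _
  have h5 : P n Aᶜ ≤ ENNReal.ofReal ((1 - b) / 2) := (measure_mono hsub).trans hN
  by_contra hcon
  rw [not_lt] at hcon
  have h6 : (1 : ℝ≥0∞) ≤ ENNReal.ofReal (b + (1 - b) / 2) := by
    rw [ENNReal.ofReal_add hb0 (by linarith)]
    exact h4.trans (add_le_add (hab ▸ hcon) h5)
  rw [ENNReal.one_le_ofReal] at h6
  linarith

end Pool.Agent.SM
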