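import Pool.Agent.MP_d30e2b_pr.FL4

set_option autoImplicit false

/-! lower bound for the first moment -/

namespace Pool.Agent.SM

open MeasureTheory Set
open scoped ENNReal

variable {n : ℕ}

namespace FL

theorem prod_ge {t : ℝ} (ht : 1 < t) {y : Fin n → ℝ} (hy1 : ∀ i, y i ≤ 1)
    (hsum : ∑ i, y i = t) :
    ENNReal.ofReal (Real.exp 1 * (1 / t) ^ n) ≤ ∏ i, ENNReal.ofReal (1 / (t - y i)) := by
  have ht0 : 0 < t := by linarith
  rw [← ENNReal.ofReal_prod_of_nonneg fun i _ => by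
    have : 0 < t - y i := by linarith [hy1 i]
    positivity]
  refine ENNReal.ofReal_le_ofReal ?_
  have h1 : ∀ i, (1 / t) * Real.exp (y i / t) ≤ 1 / (t - y i) := by
    intro i
    have h2 : 0 < t - y i := by linarith [hy1 i]
    rw [le_div_iff₀ h2]
    have h3 := Real.add_one_le_exp (-(y i / t))
    have h4 : (t - y i) / t ≤ Real.exp (-(y i / t)) := by
      have : (t - y i) / t = -(y i / t) + 1 := by
        field_simp
        ring
      rw [this]
      exact h3
    calc 1 / t * Real.exp (y i / t) * (t - y i) = Real.exp (y i / t) * ((t - y i) / t) := by ring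
      _ ≤ Real.exp (y i / t) * Real.exp (-(y i / t)) :=
          mul_le_mul_of_nonneg_left h4 (by positivity)
      _ = 1 := by rw [← Real.exp_add]; simp
  calc Real.exp 1 * (1 / t) ^ n = ∏ i, ((1 / t) * Real.exp (y i / t)) := by
        rw [Finset.prod_mul_distrib, Finset.prod_const, Finset.card_univ, Fintype.card_fin,
          ← Real.exp_sum, ← Finset.sum_div, hsum, div_self ht0.ne', mul_comm]
    _ ≤ _ := Finset.prod_le_prod (fun i _ => by positivity) fun i _ => h1 i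

theorem measNiceXY (C τ₁ τ₂ : ℝ) : MeasurableSet {q : Fin n → ℝ × ℝ |
    NiceXY C τ₁ τ₂ (fun i => (q i).1) (fun i => (q i).2)} := by
  unfold NiceXY
  have ht : Measurable fun q : Fin n → ℝ × ℝ => ∑ i, (q i).2 := by fun_prop
  refine MeasurableSet.inter (measurable_win τ₁ τ₂ ht) (MeasurableSet.inter ?_
    (MeasurableSet.inter ?_ (MeasurableSet.inter ?_ (MeasurableSet.inter ?_ ?_))))
  · exact measurableSet_le (f := fun q : Fin n → ℝ × ℝ => (n : ℝ) / (2 * ∑ i, (q i).2))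
      (g := fun q => ∑ i, (q i).1) (by fun_prop) (by fun_prop)
  · exact measurableSet_le (f := fun q : Fin n → ℝ × ℝ => ∑ i, (q i).1 ^ 2)
      (g := fun q => C * n / (∑ i, (q i).2) ^ 2) (by fun_prop) (by fun_prop)
  · exact measurableSet_le (f := fun q : Fin n → ℝ × ℝ => ∑ i, (q i).1 ^ 3)
      (g := fun q => C * n / (∑ i, (q i).2) ^ 3) (by fun_prop) (by fun_prop)
  · exact measurableSet_le (f := fun q : Fin n → ℝ × ℝ => ∑ i, (q i).2 ^ 2)
      (g := fun q => C * (∑ i, (q i).2) ^ 2 / n) (by fun_prop) (by fun_prop)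
  · exact measurableSet_le (f := fun q : Fin n → ℝ × ℝ => ∑ i, (q i).2 ^ 3)
      (g := fun q => C * (∑ i, (q i).2) ^ 3 / (n : ℝ) ^ 2) (by fun_prop) (by fun_prop)

theorem badx_le {C t : ℝ} (hC : 0 < C) (hn : 1 ≤ n) (ht : 26 ≤ t) (htn : (n : ℝ) ≤ t ^ 2)
    (hN1 : 7680 * C ≤ n) (hN2 : (Real.exp (1 / 2) / 2) ^ n ≤ 1 / (2 * C)) :
    badx n C t ≤ 10 / C := by
  unfold badx
  have hn0 : (0:ℝ) < n := by exact_mod_cast hn
  have ht1 : 0 < t - 1 := by linarith
  have h1 : t / (t - 1) ≤ 26 / 25 := by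
    rw [div_le_div_iff₀ ht1 (by norm_num)]
    linarith
  have h0 : 0 ≤ t / (t - 1) := by positivity
  have h2 : (t / (t - 1)) ^ 2 ≤ 9 / 8 :=
    (pow_le_pow_left₀ h0 h1 2).trans (by norm_num)
  have h3 : (t / (t - 1)) ^ 3 ≤ 9 / 8 :=
    (pow_le_pow_left₀ h0 h1 3).trans (by norm_num)
  have h4 : n * (120 / (t - 1) ^ 5) ≤ 1 / (2 * C) := by
    have h5 : (t / 2) ^ 5 ≤ (t - 1) ^ 5 := pow_le_pow_left₀ (by positivity) (by linarith) 5
    have h6 : (n : ℝ) ^ 2 ≤ t ^ 4 := by
      calc (n : ℝ) ^ 2 ≤ (t ^ 2) ^ 2 := pow_le_pow_left₀ hn0.le htn 2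
        _ = t ^ 4 := by ring
    have h7 : (n : ℝ) ^ 2 / 32 ≤ (t - 1) ^ 5 := by
      refine le_trans ?_ h5
      have : (t / 2) ^ 5 = t ^ 4 * t / 32 := by ring
      rw [this]
      have : (0:ℝ) ≤ t ^ 4 := by positivity
      nlinarith
    rw [mul_div_assoc', div_le_div_iff₀ (by positivity) (by positivity)]
    nlinarith
  have e1 : 2 / C * (t / (t - 1)) ^ 2 ≤ 2 / C * (9 / 8) :=
    mul_le_mul_of_nonneg_left h2 (by positivity)
  have e2 : 6 / C * (t / (t - 1)) ^ 3 ≤ 6 / C * (9 / 8) :=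
    mul_le_mul_of_nonneg_left h3 (by positivity)
  have e3 : 2 / C * (9 / 8) + 6 / C * (9 / 8) + (1 / (2 * C) + 1 / (2 * C)) = 10 / C := by
    field_simp
    norm_num
  linarith

open Classical in
/-- the integral over one matching -/
theorem one_lower {C τ₁ τ₂ : ℝ} (hC : 40 ≤ C) (h1 : 26 ≤ τ₁) (h2 : τ₁ ≤ τ₂) (hn : 1 ≤ n)
    (hn1 : (n : ℝ) ≤ τ₁ ^ 2) (hn2 : τ₂ ^ 5 ≤ (n : ℝ) ^ 3)
    (hN0 : 8 * C ^ 2 ≤ n) (hN1 : 7680 * C ≤ n)
    (hN2 : (Real.exp (1 / 2) / 2) ^ n ≤ 1 / (2 * C)) :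
    ENNReal.ofReal (Real.exp (-(2 * C ^ 2 / n)) * (1 - 10 / C) * Real.exp 1 *
      ((Real.log (τ₂ / τ₁) * (1 - 8 / C) - 120 / n) / (n - 1).factorial)) ≤
    ∫⁻ z, (if Stab z 1 ∧ Nice C τ₁ τ₂ z 1 then gw z (1 : Equiv.Perm (Fin n)) else 0) ∂(P n) := by
  have hC0 : 0 < C := by linarith
  have hn0 : (0:ℝ) < n := by exact_mod_cast hn
  have hC1 : 0 ≤ 1 - 10 / C := by
    rw [sub_nonneg, div_le_one hC0]
    linarith
  have hbox : ∀ᵐ x ∂(Measure.pi fun _ : Fin n => u1), ∀ i, x i ∈ Icc (0:ℝ) 1 := by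
    rw [ae_all_iff]
    intro p
    have h1 : ∀ᵐ w ∂u1, w ∈ Icc (0:ℝ) 1 := ae_restrict_mem measurableSet_Icc
    exact (Measure.quasiMeasurePreserving_eval (fun _ => u1) p).ae h1
  set K : (Fin n → ℝ) → (Fin n → ℝ) → ℝ≥0∞ := fun x y =>
    if NiceXY C τ₁ τ₂ x y then
      ENNReal.ofReal (Real.exp ((∑ i, x i ^ 2) * (∑ i, y i ^ 2) / 2)) else 0 with hKdef
  have hK : Measurable fun q : Fin n → ℝ × ℝ => K (fun i => (q i).1) (fun i => (q i).2) :=
    Measurable.ite (measNiceXY C τ₁ τ₂) (by fun_prop) measurable_const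
  have hst := stab_lower K hK
  have e0 : ∀ z : Conf n, (if Stab z 1 ∧ Nice C τ₁ τ₂ z 1 then gw z (1 : Equiv.Perm (Fin n)) else 0)
      = (if Stab z 1 then K (zx z) (zy z) else 0) := by
    intro z
    by_cases a1 : Stab z 1
    · rw [if_pos a1]
      simp only [a1, true_and]
      rfl
    · simp [a1]
  simp_rw [e0]
  refine le_trans ?_ hst
  have hc1 : 0 ≤ Real.exp (-(2 * C ^ 2 / n)) * (1 - 10 / C) * Real.exp 1 := by positivity
  have hy := y_lower (n := n) (C := C) hC0 (by linarith : 0 < τ₁) h2 hn hn2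
  rw [ENNReal.ofReal_mul hc1]
  refine (mul_le_mul_right hy _).trans ?_
  rw [← lintegral_const_mul']
  swap
  · exact ENNReal.ofReal_ne_top
  refine lintegral_mono_ae ?_
  filter_upwards [hbox] with y hyb
  by_cases hw : Win τ₁ τ₂ (∑ i, y i) ∧ ∑ i, y i ^ 2 ≤ C * (∑ i, y i) ^ 2 / n ∧
        ∑ i, y i ^ 3 ≤ C * (∑ i, y i) ^ 3 / (n : ℝ) ^ 2
  · rw [if_pos hw, ← ENNReal.ofReal_mul hc1]
    set t := ∑ i, y i with ht
    have ht26 : 26 ≤ t := by linarith [hw.1.1]
    have htn : (n : ℝ) ≤ t ^ 2 := hn1.trans (pow_le_pow_left₀ (by linarith) hw.1.1 2)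
    have hb := badx_le hC0 hn ht26 htn hN1 hN2
    have hx := x_lower (n := n) hC0 (by linarith : 1 < t) hn (fun i => (hyb i).1)
      (fun i => (hyb i).2)
    have hp := prod_ge (n := n) (by linarith : 1 < t) (fun i => (hyb i).2) ht.symm
    calc ENNReal.ofReal (Real.exp (-(2 * C ^ 2 / n)) * (1 - 10 / C) * Real.exp 1 * (1 / t) ^ n)
        = ENNReal.ofReal (Real.exp (-(2 * C ^ 2 / n))) * (ENNReal.ofReal (1 - 10 / C) *
          ENNReal.ofReal (Real.exp 1 * (1 / t) ^ n)) := by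
          rw [← ENNReal.ofReal_mul hC1, ← ENNReal.ofReal_mul (by positivity)]
          congr 1
          ring
      _ ≤ ENNReal.ofReal (Real.exp (-(2 * C ^ 2 / n))) * (ENNReal.ofReal (1 - badx n C t) *
          ∏ i, ENNReal.ofReal (1 / (t - y i))) := by
          gcongr
      _ ≤ ENNReal.ofReal (Real.exp (-(2 * C ^ 2 / n))) * _ := mul_le_mul_right hx _
      _ ≤ _ := by
          rw [← lintegral_const_mul']
          swap
          · exact ENNReal.ofReal_ne_top
          refine lintegral_mono_ae ?_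
          filter_upwards [hbox] with x hxb
          by_cases hc : (n : ℝ) / (2 * t) ≤ ∑ i, x i ∧ ∑ i, x i ^ 2 ≤ C * n / t ^ 2 ∧
              ∑ i, x i ^ 3 ≤ C * n / t ^ 3
          · have hN : NiceXY C τ₁ τ₂ x y := ⟨hw.1, hc.1, hc.2.1, hc.2.2, hw.2.1, hw.2.2⟩
            rw [if_pos hc, ← ENNReal.ofReal_mul (by positivity)]
            simp only [hKdef, if_pos hN]
            exact prod_lower hC0.le (by linarith : 0 < τ₁) (fun i => (hxb i).1)
              (fun i => (hyb i).1) hN hN0 hn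
          · rw [if_neg hc, mul_zero]
            exact zero_le
  · rw [if_neg hw, mul_zero]
    exact zero_le

end FL

open Classical in
/-- S2: first moment, lower bound -/
theorem first_lower (C : ℝ) (hC : 40 ≤ C) : ∃ N : ℕ, ∀ n : ℕ, N ≤ n →
    ENNReal.ofReal (Real.exp 1 * n * lam n * (1 - 20 / C)) ≤
    ∫⁻ z, ∑ μ : Equiv.Perm (Fin n),
      (if Stab z μ ∧ Nice C (t1 n) (t2 n) z μ then gw z μ else 0) ∂(P n) := by
  have hC0 : 0 < C := by linarith
  have he : Real.exp (1 / 2) / 2 < 1 := by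
    rw [div_lt_one (by norm_num)]
    have h1 : Real.exp (1 / 2) ^ 2 < 2 ^ 2 := by
      rw [← Real.exp_nat_mul]
      norm_num
      have := Real.exp_one_lt_d9
      linarith
    exact lt_of_pow_lt_pow_left₀ 2 (by norm_num) h1
  have hlim := tendsto_pow_atTop_nhds_zero_of_lt_one (by positivity : 0 ≤ Real.exp (1 / 2) / 2) he
  have hev := hlim.eventually_le_const (show (0:ℝ) < 1 / (2 * C) by positivity)
  rw [Filter.eventually_atTop] at hev
  obtain ⟨N1, hN1⟩ := hev
  obtain ⟨N2, hN2⟩ := exists_nat_ge (8 * C ^ 2 + 7680 * C + 2 * C ^ 3)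
  refine ⟨max (max N1 N2) 676, fun n hn => ?_⟩
  have hnN1 : N1 ≤ n := le_trans (le_trans (le_max_left _ _) (le_max_left _ _)) hn
  have hnN2 : N2 ≤ n := le_trans (le_trans (le_max_right _ _) (le_max_left _ _)) hn
  have hn676 : 676 ≤ n := le_trans (le_max_right _ _) hn
  have hn1 : 1 ≤ n := by omega
  have hn676' : (676:ℝ) ≤ n := by exact_mod_cast hn676
  have hn0 : (0:ℝ) < n := by linarith
  have hbig : 8 * C ^ 2 + 7680 * C + 2 * C ^ 3 ≤ n := hN2.trans (by exact_mod_cast hnN2)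
  have hp2 : 0 ≤ C ^ 2 := by positivity
  have hp3 : 0 ≤ C ^ 3 := by positivity
  have ht1 : 26 ≤ t1 n := by
    have h1 := t1_sq n
    have h3 := t1_pos hn1
    nlinarith
  have hone := FL.one_lower (n := n) (C := C) hC ht1 (t1_le_t2 hn1) hn1 (t1_sq n).ge
    (t2_pow5 n).le (by linarith) (by linarith) (hN1 n hnN1)
  rw [sum_rl (fun z μ => if Stab z μ ∧ Nice C (t1 n) (t2 n) z μ then gw z μ else 0)]
  · refine le_trans ?_ (mul_le_mul_right hone _)
    rw [← ENNReal.ofReal_natCast, ← ENNReal.ofReal_mul (by positivity)]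
    refine ENNReal.ofReal_le_ofReal ?_
    have hfact : (n.factorial : ℝ) = n * (n - 1).factorial := by
      rw [← Nat.mul_factorial_pred (by omega : n ≠ 0)]
      push_cast
      ring
    have hlam : Real.log (t2 n / t1 n) = lam n := rfl
    rw [hlam, hfact]
    have hF : (0:ℝ) < (n - 1).factorial := by positivity
    set F : ℝ := ((n - 1).factorial : ℝ) with hFdef
    have hl1 : 1 / 10 ≤ lam n := by
      rw [lam_eq hn1]
      have : 1 ≤ Real.log n := by
        rw [Real.le_log_iff_exp_le hn0]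
        have := Real.exp_one_lt_d9
        linarith
      linarith
    have h120 : 120 / n ≤ lam n * (1 / C) := by
      have : 120 / (n : ℝ) ≤ 1 / 10 * (1 / C) := by
        rw [div_mul_div_comm, div_le_div_iff₀ hn0 (by positivity)]
        linarith
      exact this.trans (mul_le_mul_of_nonneg_right hl1 (by positivity))
    have hexp : 1 - 1 / C ≤ Real.exp (-(2 * C ^ 2 / n)) := by
      have h1 : 2 * C ^ 2 / n ≤ 1 / C := by
        rw [div_le_div_iff₀ hn0 hC0]
        have : 2 * C ^ 2 * C = 2 * C ^ 3 := by ring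
        rw [this]
        linarith
      have h2 := Real.add_one_le_exp (-(2 * C ^ 2 / (n:ℝ)))
      linarith
    set a := 1 / C with ha
    have ha0 : 0 ≤ a := by positivity
    have ha1 : a ≤ 1 / 40 := by
      rw [ha]
      exact one_div_le_one_div_of_le (by norm_num) hC
    have e20 : (20:ℝ) / C = 20 * a := by rw [ha]; ring
    have e10 : (10:ℝ) / C = 10 * a := by rw [ha]; ring
    have e8 : (8:ℝ) / C = 8 * a := by rw [ha]; ring
    rw [e20, e10, e8]
    have hE : n * F * (Real.exp (-(2 * C ^ 2 / n)) * (1 - 10 * a) * Real.exp 1 *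
        ((lam n * (1 - 8 * a) - 120 / n) / F))
        = Real.exp 1 * n * (Real.exp (-(2 * C ^ 2 / n)) * (1 - 10 * a) *
          (lam n * (1 - 8 * a) - 120 / n)) := by
      field_simp
    rw [hE, mul_assoc (Real.exp 1 * n)]
    refine mul_le_mul_of_nonneg_left ?_ (by positivity)
    have hl0 : 0 ≤ lam n := by linarith
    have g1 : lam n * (1 - 9 * a) ≤ lam n * (1 - 8 * a) - 120 / n := by
      have : lam n * (1 - 9 * a) = lam n * (1 - 8 * a) - lam n * a := by ring
      rw [this]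
      linarith
    have g2 : (1 - a) * (1 - 10 * a) ≤ Real.exp (-(2 * C ^ 2 / n)) * (1 - 10 * a) :=
      mul_le_mul_of_nonneg_right hexp (by linarith)
    have g3 : 0 ≤ lam n * (1 - 9 * a) := mul_nonneg hl0 (by linarith)
    have g4 : 0 ≤ Real.exp (-(2 * C ^ 2 / n)) * (1 - 10 * a) := by
      have : 0 ≤ 1 - 10 * a := by linarith
      positivity
    calc lam n * (1 - 20 * a) ≤ (1 - a) * (1 - 10 * a) * (lam n * (1 - 9 * a)) := by
          have : (1 - a) * (1 - 10 * a) * (lam n * (1 - 9 * a))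
              = lam n * (1 - 20 * a) + lam n * (a ^ 2 * (109 - 90 * a)) := by ring
          rw [this]
          have : 0 ≤ lam n * (a ^ 2 * (109 - 90 * a)) :=
            mul_nonneg hl0 (mul_nonneg (by positivity) (by linarith))
          linarith
      _ ≤ Real.exp (-(2 * C ^ 2 / n)) * (1 - 10 * a) * (lam n * (1 - 9 * a)) :=
          mul_le_mul_of_nonneg_right g2 g3
      _ ≤ _ := mul_le_mul_of_nonneg_left g1 g4
  · exact Measurable.ite (ms_and (meas_Stab 1) (meas_Nice 1 C _ _)) (meas_gw 1) measurable_const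
  · intro z μ
    rw [stab_rl, nice_rl, gw_rl, mul_one]

end Pool.Agent.SM
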