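import Pool.Agent.MP_d30e2b_pr.PiInt

set_option autoImplicit false

/-! Dirichlet/Gamma integrals -/

namespace Pool.Agent.SM

open MeasureTheory Set
open scoped ENNReal Nat

theorem beta_real (p q : ℕ) (t : ℝ) :
    ∫ a in (0:ℝ)..t, a ^ p / p ! * ((t - a) ^ q / q !) = t ^ (p + q + 1) / (p + q + 1)! := by
  induction q generalizing p with
  | zero =>
    simp only [pow_zero, Nat.factorial_zero, Nat.cast_one, div_one, mul_one, add_zero]
    rw [intervalIntegral.integral_div, integral_pow]
    rw [Nat.factorial_succ]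
    push_cast
    have : (p ! : ℝ) ≠ 0 := by positivity
    field_simp
    simp
  | succ q ih =>
    have hstep : ∫ a in (0:ℝ)..t, a ^ p / p ! * ((t - a) ^ (q + 1) / (q + 1)!)
        = ∫ a in (0:ℝ)..t, a ^ (p + 1) / (p + 1)! * ((t - a) ^ q / q !) := by
      rw [← sub_eq_zero, ← intervalIntegral.integral_sub]
      · have hd : ∀ a ∈ Set.uIcc 0 t, HasDerivAt
            (fun a : ℝ => a ^ (p + 1) / (p + 1)! * ((t - a) ^ (q + 1) / (q + 1)!))
            (a ^ p / p ! * ((t - a) ^ (q + 1) / (q + 1)!) -
              a ^ (p + 1) / (p + 1)! * ((t - a) ^ q / q !)) a := by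
          intro a _
          have h1 : HasDerivAt (fun a : ℝ => a ^ (p + 1) / (p + 1)!) (a ^ p / p !) a := by
            refine ((hasDerivAt_pow (p + 1) a).div_const ((p + 1)! : ℝ)).congr_deriv ?_
            rw [Nat.factorial_succ]
            push_cast
            have : (p ! : ℝ) ≠ 0 := by positivity
            field_simp
          have h2 : HasDerivAt (fun a : ℝ => (t - a) ^ (q + 1) / (q + 1)!)
              (-((t - a) ^ q / q !)) a := by
            have h3 : HasDerivAt (fun a : ℝ => t - a) (-1) a := by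
              simpa using (hasDerivAt_id a).const_sub t
            refine ((h3.fun_pow (q + 1)).div_const ((q + 1)! : ℝ)).congr_deriv ?_
            rw [Nat.factorial_succ]
            push_cast
            have : (q ! : ℝ) ≠ 0 := by positivity
            field_simp
          refine (h1.fun_mul h2).congr_deriv ?_
          ring
        rw [intervalIntegral.integral_eq_sub_of_hasDerivAt hd]
        · simp
        · apply Continuous.intervalIntegrable
          fun_prop
      · apply Continuous.intervalIntegrable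
        fun_prop
      · apply Continuous.intervalIntegrable
        fun_prop
    rw [hstep, ih]
    congr 2 <;> ring_nf

theorem beta_lint (p q : ℕ) {t : ℝ} (ht : 0 < t) :
    ∫⁻ a in Ioo 0 t, ENNReal.ofReal (a ^ p / p !) * ENNReal.ofReal ((t - a) ^ q / q !)
      = ENNReal.ofReal (t ^ (p + q + 1) / (p + q + 1)!) := by
  rw [← beta_real p q t, intervalIntegral.integral_of_le ht.le, integral_Ioc_eq_integral_Ioo,
    ofReal_integral_eq_lintegral_ofReal]
  · refine setLIntegral_congr_fun measurableSet_Ioo fun a ha => ?_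
    rw [← ENNReal.ofReal_mul]
    exact div_nonneg (pow_nonneg ha.1.le _) (by positivity)
  · apply (Continuous.integrableOn_Icc (a := 0) (b := t) (by fun_prop)).mono_set
    exact Ioo_subset_Icc_self
  · filter_upwards [ae_restrict_mem measurableSet_Ioo] with a ha
    exact mul_nonneg (div_nonneg (pow_nonneg ha.1.le _) (by positivity))
      (div_nonneg (pow_nonneg (by linarith [ha.2]) _) (by positivity))

/-- general planar change of variables `(a, b) ↦ (a, a + b)` -/
theorem lint_shear (g : ℝ → ℝ → ℝ≥0∞) (hg : Measurable (Function.uncurry g)) :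
    ∫⁻ a in Ioi (0:ℝ), ∫⁻ b in Ioi (0:ℝ), g a (a + b)
    = ∫⁻ t in Ioi (0:ℝ), ∫⁻ a in Ioo (0:ℝ) t, g a t := by
  have h1 : ∀ a : ℝ, ∫⁻ b in Ioi (0:ℝ), g a (a + b)
      = ∫⁻ t, (Ioi a).indicator (fun t => g a t) t := by
    intro a
    rw [← lintegral_indicator measurableSet_Ioi]
    rw [← lintegral_add_right_eq_self (μ := volume) _ (-a)]
    refine lintegral_congr fun t => ?_
    simp only [Set.indicator, mem_Ioi]
    have : (0 < t + -a) ↔ (a < t) := by constructor <;> intro h <;> linarith
    simp only [this]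
    split_ifs
    · congr 2
      ring
    · rfl
  simp_rw [h1]
  rw [← lintegral_indicator measurableSet_Ioi]
  have h2 : ∀ a : ℝ, (Ioi (0:ℝ)).indicator (fun a => ∫⁻ t, (Ioi a).indicator (fun t => g a t) t) a
      = ∫⁻ t, (if 0 < a ∧ a < t then g a t else 0) := by
    intro a
    simp only [Set.indicator, mem_Ioi]
    split_ifs with h
    · refine lintegral_congr fun t => ?_
      simp [h]
    · simp [h]
  simp_rw [h2]
  rw [lintegral_lintegral_swap]
  · rw [← lintegral_indicator measurableSet_Ioi]
    refine lintegral_congr fun t => ?_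
    simp only [Set.indicator, mem_Ioi]
    split_ifs with h
    · rw [← lintegral_indicator measurableSet_Ioo]
      refine lintegral_congr fun a => ?_
      simp only [Set.indicator, mem_Ioo]
    · have : ∀ a : ℝ, ¬ (0 < a ∧ a < t) := fun a ha => h (ha.1.trans ha.2)
      simp [this]
  · apply Measurable.aemeasurable
    apply Measurable.ite
    · exact (measurableSet_lt measurable_const measurable_fst).inter
        (measurableSet_lt measurable_fst measurable_snd)
    · exact hg
    · fun_prop

theorem lint_conv (p q : ℕ) (f : ℝ → ℝ≥0∞) (hf : Measurable f) :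
    ∫⁻ a in Ioi (0:ℝ), ∫⁻ b in Ioi (0:ℝ),
      f (a + b) * (ENNReal.ofReal (a ^ p / p !) * ENNReal.ofReal (b ^ q / q !))
    = ∫⁻ t in Ioi (0:ℝ), f t * ENNReal.ofReal (t ^ (p + q + 1) / (p + q + 1)!) := by
  have h := lint_shear (fun a t => f t * (ENNReal.ofReal (a ^ p / p !) *
    ENNReal.ofReal ((t - a) ^ q / q !))) (by
      unfold Function.uncurry
      fun_prop)
  simp only [add_sub_cancel_left] at h
  rw [h]
  refine setLIntegral_congr_fun measurableSet_Ioi fun t ht => ?_
  rw [lintegral_const_mul _ (by fun_prop), beta_lint p q ht]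

/-- measure on the positive orthant -/
noncomputable def orth (ι : Type*) [Fintype ι] : Measure (ι → ℝ) :=
  Measure.pi fun _ => volume.restrict (Ioi (0:ℝ))

instance {ι : Type*} [Fintype ι] : SigmaFinite (orth ι) := by unfold orth; infer_instance

theorem lint_orth_fin (n : ℕ) (p : Fin (n + 1) → ℕ) (f : ℝ → ℝ≥0∞) (hf : Measurable f) :
    ∫⁻ y, f (∑ i, y i) * ∏ i, ENNReal.ofReal (y i ^ p i / (p i)!) ∂(orth (Fin (n + 1)))
    = ∫⁻ t in Ioi (0:ℝ), f t * ENNReal.ofReal (t ^ (∑ i, p i + n) / (∑ i, p i + n)!) := by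
  induction n generalizing f with
  | zero =>
    unfold orth
    have hmp := measurePreserving_funUnique (volume.restrict (Ioi (0:ℝ))) (Fin 1)
    rw [← hmp.lintegral_comp_emb (MeasurableEquiv.measurableEmbedding _)]
    refine lintegral_congr fun y => ?_
    simp
  | succ n ih =>
    unfold orth
    have hmp := measurePreserving_piFinSuccAbove (fun _ : Fin (n + 2) => volume.restrict (Ioi (0:ℝ))) 0
    rw [← hmp.symm.lintegral_comp_emb (MeasurableEquiv.measurableEmbedding _)]
    have h1 : ∀ a : ℝ × (Fin (n + 1) → ℝ),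
        (f (∑ i, ((MeasurableEquiv.piFinSuccAbove (fun _ => ℝ) 0).symm a) i) *
          ∏ i, ENNReal.ofReal (((MeasurableEquiv.piFinSuccAbove (fun _ => ℝ) 0).symm a) i ^ p i / (p i)!))
        = ENNReal.ofReal (a.1 ^ p 0 / (p 0)!) * (f (a.1 + ∑ i, a.2 i) *
          ∏ i : Fin (n + 1), ENNReal.ofReal (a.2 i ^ p i.succ / (p i.succ)!)) := by
      intro a
      rw [Fin.sum_univ_succ, Fin.prod_univ_succ]
      simp [MeasurableEquiv.piFinSuccAbove, Fin.insertNthEquiv]
      ring
    simp_rw [h1]
    rw [lintegral_prod]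
    · have h2 : ∀ a : ℝ, ∫⁻ y : Fin (n + 1) → ℝ, ENNReal.ofReal (a ^ p 0 / (p 0)!) * (f (a + ∑ i, y i) *
          ∏ i : Fin (n + 1), ENNReal.ofReal (y i ^ p i.succ / (p i.succ)!))
            ∂(Measure.pi fun _ => volume.restrict (Ioi (0:ℝ)))
          = ∫⁻ b in Ioi (0:ℝ), f (a + b) * (ENNReal.ofReal (a ^ p 0 / (p 0)!) *
            ENNReal.ofReal (b ^ (∑ i : Fin (n + 1), p i.succ + n) / (∑ i : Fin (n + 1), p i.succ + n)!)) := by
        intro a
        rw [lintegral_const_mul _ (by fun_prop)]
        have := ih (fun i => p i.succ) (fun t => f (a + t)) (by fun_prop)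
        unfold orth at this
        rw [this, ← lintegral_const_mul _ (by fun_prop)]
        refine lintegral_congr fun b => ?_
        ring
      simp_rw [h2]
      rw [lint_conv _ _ f hf]
      refine lintegral_congr fun t => ?_
      have h3 : ∑ i : Fin (n + 1 + 1), p i + (n + 1) = p 0 + (∑ i : Fin (n + 1), p i.succ + n) + 1 := by
        rw [Fin.sum_univ_succ p]
        ring
      rw [h3]
    · apply Measurable.aemeasurable
      fun_prop

theorem lint_orth {ι : Type*} [Fintype ι] (n : ℕ) (hn : Fintype.card ι = n + 1)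
    (p : ι → ℕ) (f : ℝ → ℝ≥0∞) (hf : Measurable f) :
    ∫⁻ y, f (∑ i, y i) * ∏ i, ENNReal.ofReal (y i ^ p i / (p i)!) ∂(orth ι)
    = ∫⁻ t in Ioi (0:ℝ), f t * ENNReal.ofReal (t ^ (∑ i, p i + n) / (∑ i, p i + n)!) := by
  classical
  let e : Fin (n + 1) ≃ ι := (Fintype.equivFinOfCardEq hn).symm
  have hmp := measurePreserving_piCongrLeft (fun _ : ι => volume.restrict (Ioi (0:ℝ))) e
  unfold orth
  rw [← hmp.lintegral_comp_emb (MeasurableEquiv.measurableEmbedding _)]
  have h0 : ∀ (x : Fin (n + 1) → ℝ) (j : Fin (n + 1)),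
      (MeasurableEquiv.piCongrLeft (fun _ => ℝ) e x) (e j) = x j := fun x j =>
    Equiv.piCongrLeft_apply_apply (fun _ => ℝ) e x j
  have h1 : ∀ x : Fin (n + 1) → ℝ,
      (f (∑ i, (MeasurableEquiv.piCongrLeft (fun _ => ℝ) e x) i) *
        ∏ i, ENNReal.ofReal ((MeasurableEquiv.piCongrLeft (fun _ => ℝ) e x) i ^ p i / (p i)!))
      = f (∑ j, x j) * ∏ j, ENNReal.ofReal (x j ^ p (e j) / (p (e j))!) := by
    intro x
    rw [← e.sum_comp, ← e.prod_comp]
    simp only [h0]
  simp_rw [h1]
  have := lint_orth_fin n (fun j => p (e j)) f hf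
  unfold orth at this
  rw [this, e.sum_comp]

end Pool.Agent.SM
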