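import Pool.Agent.MP_d30e2b_pr.Crude2

set_option autoImplicit false

/-! law of the sum of independent variables with density 1 on (0,∞) -/

namespace Pool.Agent.SM

open MeasureTheory Set
open scoped ENNReal

variable {n : ℕ}

/-- law of the sum of `k` coordinates -/
noncomputable def gm (k : ℕ) : Measure ℝ := Measure.map (fun v : Fin k → ℝ => ∑ i, v i) (orth (Fin k))

theorem lintegral_gm (k : ℕ) {f : ℝ → ℝ≥0∞} (hf : Measurable f) :
    ∫⁻ a, f a ∂(gm k) = ∫⁻ v, f (∑ i, v i) ∂(orth (Fin k)) := by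
  unfold gm
  rw [lintegral_map hf (by fun_prop)]

theorem gm_zero {f : ℝ → ℝ≥0∞} (hf : Measurable f) : ∫⁻ a, f a ∂(gm 0) = f 0 := by
  rw [lintegral_gm 0 hf]
  unfold orth
  simp

theorem gm_succ (k : ℕ) {f : ℝ → ℝ≥0∞} (hf : Measurable f) :
    ∫⁻ a, f a ∂(gm (k + 1)) = ∫⁻ a in Ioi (0:ℝ), f a * ENNReal.ofReal (a ^ k / k.factorial) := by
  rw [lintegral_gm (k + 1) hf]
  have := lint_orth_fin k (fun _ => 0) f hf
  simpa using this

theorem orth_sum (ι : Type*) [Fintype ι] {f : ℝ → ℝ≥0∞} (hf : Measurable f) :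
    ∫⁻ v, f (∑ i, v i) ∂(orth ι) = ∫⁻ a, f a ∂(gm (Fintype.card ι)) := by
  rcases h : Fintype.card ι with _ | k
  · rw [gm_zero hf]
    have : IsEmpty ι := Fintype.card_eq_zero_iff.mp h
    unfold orth
    simp
  · rw [gm_succ k hf]
    have := lint_orth k h (fun _ => 0) f hf
    simpa using this

instance (k : ℕ) : SFinite (gm k) := by unfold gm; infer_instance

theorem gm_pos (k : ℕ) : ∀ᵐ a ∂(gm k), 0 ≤ a := by
  rw [ae_iff]
  have hm : MeasurableSet {a : ℝ | ¬ 0 ≤ a} := by
    have : {a : ℝ | ¬ 0 ≤ a} = Iio 0 := by ext; simp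
    rw [this]
    exact measurableSet_Iio
  rw [← lintegral_indicator_one hm]
  rcases k with _ | k
  · rw [gm_zero (by fun_prop (disch := exact hm))]
    simp
  · rw [gm_succ k (by fun_prop (disch := exact hm))]
    rw [setLIntegral_congr_fun measurableSet_Ioi (g := fun _ => 0)]
    · simp
    · intro a ha
      simp only [mem_Ioi] at ha
      simp [ha.le]

theorem gm_conv (p q : ℕ) {f : ℝ → ℝ≥0∞} (hf : Measurable f) :
    ∫⁻ a, ∫⁻ b, f (a + b) ∂(gm q) ∂(gm p) = ∫⁻ t, f t ∂(gm (p + q)) := by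
  rcases p with _ | p
  · rw [gm_zero]
    · simp
    · exact Measurable.lintegral_prod_right' (f := fun p : ℝ × ℝ => f (p.1 + p.2)) (by fun_prop)
  · rcases q with _ | q
    · have : ∀ a, ∫⁻ b, f (a + b) ∂(gm 0) = f a := by
        intro a
        rw [gm_zero (by fun_prop)]
        simp
      simp_rw [this]
    · rw [show p + 1 + (q + 1) = (p + q + 1) + 1 by ring, gm_succ (p + q + 1) hf,
        ← lint_conv p q f hf, gm_succ]
      · refine setLIntegral_congr_fun measurableSet_Ioi fun a _ => ?_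
        rw [gm_succ q (by fun_prop), ← lintegral_mul_const _ (by fun_prop)]
        refine lintegral_congr fun b => ?_
        ring
      · exact Measurable.lintegral_prod_right' (f := fun p : ℝ × ℝ => f (p.1 + p.2)) (by fun_prop)

/-- `t⁻ᵏ gm n = const · gm (n - k)` -/
theorem gm_div {n k : ℕ} (hk : k < n) {f : ℝ → ℝ≥0∞} (hf : Measurable f) :
    ∫⁻ t, f t * ENNReal.ofReal ((1 / t) ^ k) ∂(gm n)
      = ENNReal.ofReal ((n - k - 1).factorial / (n - 1).factorial) * ∫⁻ t, f t ∂(gm (n - k)) := by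
  obtain ⟨m, rfl⟩ : ∃ m, n = k + m + 1 := ⟨n - k - 1, by omega⟩
  rw [show k + m + 1 - k = m + 1 by omega, show m + 1 - 1 = m by omega,
    show k + m + 1 - 1 = k + m by omega, gm_succ _ (by fun_prop), gm_succ _ hf,
    ← lintegral_const_mul _ (by fun_prop)]
  refine setLIntegral_congr_fun measurableSet_Ioi fun t ht => ?_
  simp only [mem_Ioi] at ht
  have h1 : ((k + m).factorial : ℝ) ≠ 0 := by positivity
  have h2 : (m.factorial : ℝ) ≠ 0 := by positivity
  rw [mul_assoc, ← ENNReal.ofReal_mul (by positivity), mul_left_comm,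
    ← ENNReal.ofReal_mul (by positivity)]
  congr 2
  rw [one_div, inv_pow, pow_add]
  field_simp

/-- `a gm k = k gm (k+1)` -/
theorem gm_mul (k : ℕ) {f : ℝ → ℝ≥0∞} (hf : Measurable f) :
    ∫⁻ t, f t * ENNReal.ofReal t ∂(gm k) = ENNReal.ofReal k * ∫⁻ t, f t ∂(gm (k + 1)) := by
  rcases k with _ | k
  · rw [gm_zero (by fun_prop)]
    simp
  · rw [gm_succ _ (by fun_prop), gm_succ _ hf, ← lintegral_const_mul _ (by fun_prop)]
    refine setLIntegral_congr_fun measurableSet_Ioi fun t ht => ?_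
    simp only [mem_Ioi] at ht
    have h1 : (k.factorial : ℝ) ≠ 0 := by positivity
    rw [mul_assoc, ← ENNReal.ofReal_mul (by positivity), mul_left_comm,
      ← ENNReal.ofReal_mul (by positivity)]
    congr 2
    rw [Nat.factorial_succ]
    push_cast
    field_simp
    ring

theorem lint_inv_pow {c : ℝ} (hc : 0 < c) (m : ℕ) :
    ∫⁻ a in Ioi (0:ℝ), ENNReal.ofReal ((1 / (c + a)) ^ (m + 2))
      = ENNReal.ofReal ((1 / c) ^ (m + 1) / (m + 1)) := by
  have h1 : ∫⁻ a in Ioi (0:ℝ), ENNReal.ofReal ((1 / (c + a)) ^ (m + 2))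
      = ∫⁻ t in Ioi c, ENNReal.ofReal (t ^ (-(m + 2 : ℝ))) := by
    rw [← lintegral_indicator measurableSet_Ioi, ← lintegral_indicator measurableSet_Ioi,
      ← lintegral_add_right_eq_self (μ := volume)
        ((Ioi c).indicator fun t => ENNReal.ofReal (t ^ (-(m + 2 : ℝ)))) c]
    refine lintegral_congr fun a => ?_
    simp only [indicator, mem_Ioi]
    have : (c < a + c) ↔ (0 < a) := by constructor <;> intro h <;> linarith
    simp only [this]
    split_ifs with h
    · congr 1
      have h3 : 0 < a + c := by linarith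
      rw [Real.rpow_neg h3.le, show ((m : ℝ) + 2) = ((m + 2 : ℕ) : ℝ) by push_cast; ring,
        Real.rpow_natCast, one_div, inv_pow, add_comm c a]
    · rfl
  rw [h1, ← ofReal_integral_eq_lintegral_ofReal]
  · rw [integral_Ioi_rpow_of_lt (by linarith [(Nat.cast_nonneg m : (0:ℝ) ≤ m)]) hc]
    congr 1
    have h4 : (-(m + 2 : ℝ) + 1) = -((m + 1 : ℕ) : ℝ) := by push_cast; ring
    rw [h4, Real.rpow_neg hc.le, Real.rpow_natCast]
    push_cast
    rw [one_div, inv_pow]
    have : ((m : ℝ) + 1) ≠ 0 := by positivity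
    field_simp
  · exact integrableOn_Ioi_rpow_of_lt (by linarith [(Nat.cast_nonneg m : (0:ℝ) ≤ m)]) hc
  · filter_upwards [ae_restrict_mem measurableSet_Ioi] with t ht
    simp only [mem_Ioi] at ht
    exact Real.rpow_nonneg (by linarith) _

theorem gm_pow {n q : ℕ} (hq : q < n) {c : ℝ} (hc : 0 < c) :
    ∫⁻ a, ENNReal.ofReal ((1 / (c + a)) ^ n) ∂(gm q)
      = ENNReal.ofReal ((1 / c) ^ (n - q) * ((n - q - 1).factorial / (n - 1).factorial)) := by
  induction q generalizing c with
  | zero =>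
    rw [gm_zero (by fun_prop)]
    simp only [add_zero, Nat.sub_zero]
    congr 1
    have : ((n - 1).factorial : ℝ) ≠ 0 := by positivity
    field_simp
  | succ q ih =>
    have hm : Measurable fun a : ℝ => ENNReal.ofReal ((1 / (c + a)) ^ n) := by fun_prop
    rw [add_comm q 1, ← gm_conv 1 q hm, gm_succ 0]
    · have e1 : ∀ a ∈ Ioi (0:ℝ), (∫⁻ b, ENNReal.ofReal ((1 / (c + (a + b))) ^ n) ∂(gm q)) *
          ENNReal.ofReal (a ^ 0 / (Nat.factorial 0))
          = ENNReal.ofReal ((n - q - 1).factorial / (n - 1).factorial) *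
            ENNReal.ofReal ((1 / (c + a)) ^ (n - q)) := by
        intro a ha
        simp only [mem_Ioi] at ha
        have h3 : 0 < c + a := by linarith
        have := ih (by omega) h3
        simp only [pow_zero, Nat.factorial_zero, Nat.cast_one, div_one, ENNReal.ofReal_one, mul_one]
        simp only [← add_assoc]
        rw [this, ← ENNReal.ofReal_mul (by positivity)]
        congr 1
        ring
      rw [setLIntegral_congr_fun measurableSet_Ioi e1]
      obtain ⟨m, rfl⟩ : ∃ m, n = q + m + 2 := ⟨n - q - 2, by omega⟩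
      rw [show q + m + 2 - q = m + 2 by omega, lintegral_const_mul _ (by fun_prop),
        lint_inv_pow hc m, ← ENNReal.ofReal_mul (by positivity)]
      congr 1
      rw [show q + m + 2 - (1 + q) = m + 1 by omega, show m + 2 - 1 = m + 1 by omega,
        show m + 1 - 1 = m by omega, Nat.factorial_succ m]
      push_cast
      have : ((m : ℝ) + 1) ≠ 0 := by positivity
      field_simp
    · exact Measurable.lintegral_prod_right'
        (f := fun p : ℝ × ℝ => ENNReal.ofReal ((1 / (c + (p.1 + p.2))) ^ n)) (by fun_prop)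

open Classical in
theorem gm_window {n : ℕ} (hn : 1 ≤ n) {τ₁ τ₂ : ℝ} (h1 : 0 < τ₁) (h2 : τ₁ ≤ τ₂) :
    ∫⁻ t, (if τ₁ ≤ t ∧ t ≤ τ₂ then ENNReal.ofReal ((1 / t) ^ n) else 0) ∂(gm n)
      = ENNReal.ofReal (Real.log (τ₂ / τ₁) / (n - 1).factorial) := by
  obtain ⟨m, rfl⟩ : ∃ m, n = m + 1 := ⟨n - 1, by omega⟩
  have hm : Measurable fun t : ℝ =>
      (if τ₁ ≤ t ∧ t ≤ τ₂ then ENNReal.ofReal ((1 / t) ^ (m + 1)) else 0) := by
    refine Measurable.ite ?_ (by fun_prop) measurable_const
    exact measurableSet_Icc (a := τ₁) (b := τ₂)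
  rw [gm_succ m hm]
  have e1 : ∀ t ∈ Ioi (0:ℝ), (if τ₁ ≤ t ∧ t ≤ τ₂ then ENNReal.ofReal ((1 / t) ^ (m + 1)) else 0)
      * ENNReal.ofReal (t ^ m / m.factorial)
      = (Icc τ₁ τ₂).indicator (fun t => ENNReal.ofReal (t⁻¹ / m.factorial)) t := by
    intro t ht
    simp only [mem_Ioi] at ht
    simp only [indicator, mem_Icc]
    split_ifs
    · rw [← ENNReal.ofReal_mul (by positivity)]
      congr 1
      rw [one_div, inv_pow, pow_succ]
      field_simp
    · simp
  rw [setLIntegral_congr_fun measurableSet_Ioi e1, lintegral_indicator measurableSet_Icc,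
    Measure.restrict_restrict measurableSet_Icc]
  have e2 : Icc τ₁ τ₂ ∩ Ioi 0 = Icc τ₁ τ₂ := by
    apply inter_eq_left.mpr
    intro t ht
    exact lt_of_lt_of_le h1 ht.1
  rw [e2, ← ofReal_integral_eq_lintegral_ofReal]
  · congr 1
    rw [integral_div, integral_Icc_eq_integral_Ioc, ← intervalIntegral.integral_of_le h2,
      integral_inv_of_pos h1 (by linarith)]
    simp
  · have : ContinuousOn (fun t : ℝ => t⁻¹ / (m.factorial : ℝ)) (Icc τ₁ τ₂) := by
      refine ContinuousOn.div_const ?_ _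
      exact ContinuousOn.inv₀ continuousOn_id fun t ht => (lt_of_lt_of_le h1 ht.1).ne'
    exact this.integrableOn_Icc
  · filter_upwards [ae_restrict_mem measurableSet_Icc] with t ht
    have : 0 < t := lt_of_lt_of_le h1 ht.1
    positivity

end Pool.Agent.SM
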