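import Pool.Agent.MP_d30e2b_pr.Red
import Pool.Agent.MP_d30e2b_pr.Gam

set_option autoImplicit false

/-! integrating out the men's variables -/

namespace Pool.Agent.SM

open MeasureTheory Set
open scoped ENNReal

variable {n : ℕ}

theorem inner_prod (σ : Equiv.Perm (Fin n)) (f : Fin n → ℝ → ℝ≥0∞) (g : Fin n → ℝ × ℝ → ℝ≥0∞)
    (hf : ∀ i, Measurable (f i)) (hg : ∀ i, Measurable (g i)) :
    ∫⁻ x : Fin n → ℝ, ∫⁻ ξ : Mov σ → ℝ,
      ∏ i, (if h : σ i ≠ i then g i (x i, ξ ⟨i, h⟩) else f i (x i))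
        ∂(Measure.pi fun _ => u1) ∂(Measure.pi fun _ => u1)
    = ∏ i, (if σ i ≠ i then ∫⁻ x, ∫⁻ ξ, g i (x, ξ) ∂u1 ∂u1 else ∫⁻ x, f i x ∂u1) := by
  have h1 : ∀ x : Fin n → ℝ, ∫⁻ ξ : Mov σ → ℝ,
      ∏ i, (if h : σ i ≠ i then g i (x i, ξ ⟨i, h⟩) else f i (x i))
        ∂(Measure.pi fun _ => u1)
      = ∏ i, (if σ i ≠ i then ∫⁻ ξ, g i (x i, ξ) ∂u1 else f i (x i)) := by
    intro x
    have h2 : ∀ ξ : Mov σ → ℝ,
        ∏ i, (if h : σ i ≠ i then g i (x i, ξ ⟨i, h⟩) else f i (x i))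
        = (∏ i : {i // ¬ (σ i ≠ i)}, f i (x i)) * ∏ d : Mov σ, g d.1 (x d.1, ξ d) := by
      intro ξ
      rw [← Fintype.prod_subtype_mul_prod_subtype (fun i => σ i ≠ i), mul_comm]
      congr 1
      · refine Finset.prod_congr rfl fun i _ => ?_
        rw [dif_neg i.2]
      · refine Finset.prod_congr rfl fun d _ => ?_
        rw [dif_pos d.2]
    simp_rw [h2]
    rw [lintegral_const_mul, lintegral_pi_prod (fun _ => u1) (fun d : Mov σ => fun ξ => g d.1 (x d.1, ξ))]
    · rw [← Fintype.prod_subtype_mul_prod_subtype (fun i => σ i ≠ i), mul_comm]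
      congr 1
      · refine Finset.prod_congr rfl fun d _ => ?_
        rw [if_pos d.2]
      · refine Finset.prod_congr rfl fun i _ => ?_
        rw [if_neg i.2]
    · intro d
      exact (hg d.1).comp measurable_prodMk_left
    · refine Finset.measurable_prod _ fun d _ => ?_
      exact (hg d.1).comp (measurable_const.prodMk (measurable_pi_apply d))
  simp_rw [h1]
  rw [lintegral_pi_prod (fun _ => u1) (fun i : Fin n => fun t =>
    if σ i ≠ i then ∫⁻ ξ, g i (t, ξ) ∂u1 else f i t)]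
  · refine Finset.prod_congr rfl fun i _ => ?_
    split_ifs <;> rfl
  · intro i
    split_ifs
    · exact (hg i).lintegral_prod_right'
    · exact hf i

/-- one-dimensional exponential integral -/
theorem lint_exp {a : ℝ} (ha : 0 < a) :
    ∫⁻ x in Ioi (0:ℝ), ENNReal.ofReal (Real.exp (-(a * x))) = ENNReal.ofReal (1 / a) := by
  rw [← ofReal_integral_eq_lintegral_ofReal]
  · congr 1
    have := integral_exp_mul_Ioi (a := -a) (by linarith) 0
    simp only [mul_zero, Real.exp_zero] at this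
    calc ∫ x in Ioi (0:ℝ), Real.exp (-(a * x)) = ∫ x in Ioi (0:ℝ), Real.exp (-a * x) := by
          congr 1; funext x; ring_nf
      _ = _ := by rw [this]; ring
  · have := exp_neg_integrableOn_Ioi 0 ha
    refine this.congr ?_
    filter_upwards with x
    ring_nf
  · filter_upwards with x
    positivity

theorem u1_eq : u1 = volume.restrict (Ioc (0:ℝ) 1) := by
  unfold u1
  exact Measure.restrict_congr_set Ioc_ae_eq_Icc.symm

theorem u1_le : u1 ≤ volume.restrict (Ioi (0:ℝ)) := by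
  rw [u1_eq]
  exact Measure.restrict_mono Ioc_subset_Ioi_self le_rfl

theorem lint_exp_u1 {a : ℝ} (ha : 0 < a) :
    ∫⁻ x, ENNReal.ofReal (Real.exp (-(a * x))) ∂u1 ≤ ENNReal.ofReal (1 / a) := by
  rw [← lint_exp ha]
  exact lintegral_mono' u1_le le_rfl

/-- two ordered variables in `[0,1]`, lower one first -/
theorem two_le (G : ℝ → ℝ → ℝ≥0∞) (hG : Measurable (Function.uncurry G)) :
    ∫⁻ x, ∫⁻ ξ, (if ξ < x then G ξ x else 0) ∂u1 ∂u1
      ≤ ∫⁻ ξ in Ioi (0:ℝ), ∫⁻ u in Ioi (0:ℝ), G ξ (ξ + u) := by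
  rw [lint_shear G hG]
  refine (lintegral_mono' u1_le le_rfl).trans ?_
  refine lintegral_mono fun x => ?_
  refine (lintegral_mono' u1_le le_rfl).trans ?_
  rw [← lintegral_indicator measurableSet_Ioi, ← lintegral_indicator measurableSet_Ioo]
  refine lintegral_mono fun ξ => ?_
  simp only [indicator, mem_Ioi, mem_Ioo]
  split_ifs with h1 h2 h3 h4 h5
  · exact le_rfl
  · exact absurd ⟨h1, h2⟩ h3
  · exact zero_le
  · exact le_rfl
  · exact absurd h5.1 h1
  · exact le_rfl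

theorem two_exp {a b : ℝ} (ha : 0 < a) (hb : 0 < b) :
    ∫⁻ x, ∫⁻ ξ, (if ξ < x then ENNReal.ofReal (Real.exp (-(a * ξ + b * (x - ξ)))) else 0) ∂u1 ∂u1
      ≤ ENNReal.ofReal (1 / a) * ENNReal.ofReal (1 / b) := by
  refine (two_le (fun ξ x => ENNReal.ofReal (Real.exp (-(a * ξ + b * (x - ξ))))) (by
    unfold Function.uncurry; fun_prop)).trans ?_
  have h : ∀ ξ : ℝ, ∫⁻ u in Ioi (0:ℝ), ENNReal.ofReal (Real.exp (-(a * ξ + b * (ξ + u - ξ))))
      = ENNReal.ofReal (Real.exp (-(a * ξ))) * ENNReal.ofReal (1 / b) := by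
    intro ξ
    rw [← lint_exp hb, ← lintegral_const_mul _ (by fun_prop)]
    refine lintegral_congr fun u => ?_
    rw [← ENNReal.ofReal_mul (by positivity), ← Real.exp_add]
    congr 2
    ring
  simp_rw [h]
  rw [lintegral_mul_const _ (by fun_prop), lint_exp ha]

end Pool.Agent.SM
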