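import Pool.Agent.MP_d30e2b_pr.Inner

set_option autoImplicit false

/-! probability that two or three matchings are stable -/

namespace Pool.Agent.SM

open MeasureTheory Set
open scoped ENNReal

variable {n : ℕ}

/-- allowed region for the pair (man with costs `x ≥ x'`, woman with costs `y ≤ y'`) -/
def Bset (x x' y y' : ℝ) : Set (ℝ × ℝ) :=
  {w | ¬ (w.1 < x ∧ w.2 < y) ∧ ¬ (w.1 < x' ∧ w.2 < y')}

theorem u1_Iio {x : ℝ} (h1 : x ≤ 1) : u1 (Iio x) = ENNReal.ofReal x := by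
  unfold u1
  rw [Measure.restrict_apply measurableSet_Iio]
  have : Iio x ∩ Icc 0 1 = Ico 0 x := by
    ext t
    simp only [mem_inter_iff, mem_Iio, mem_Icc, mem_Ico]
    constructor
    · rintro ⟨a, b, c⟩; exact ⟨b, a⟩
    · rintro ⟨a, b⟩; exact ⟨b, a, by linarith⟩
  rw [this]
  simp

theorem u1_Ico {y y' : ℝ} (h0 : 0 ≤ y) (h2 : y' ≤ 1) :
    u1 (Ico y y') = ENNReal.ofReal (y' - y) := by
  unfold u1
  rw [Measure.restrict_apply measurableSet_Ico]
  have : Ico y y' ∩ Icc 0 1 = Ico y y' := by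
    apply inter_eq_left.mpr
    intro t ht
    exact ⟨h0.trans ht.1, ht.2.le.trans h2⟩
  rw [this]
  simp

theorem measurableSet_Bset (x x' y y' : ℝ) : MeasurableSet (Bset x x' y y') := by
  unfold Bset
  apply MeasurableSet.inter
  · apply MeasurableSet.compl
    exact (measurableSet_lt measurable_fst measurable_const).inter
      (measurableSet_lt measurable_snd measurable_const)
  · apply MeasurableSet.compl
    exact (measurableSet_lt measurable_fst measurable_const).inter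
      (measurableSet_lt measurable_snd measurable_const)

theorem u2_Bset {x x' y y' : ℝ} (hx0 : 0 ≤ x') (hx : x' ≤ x) (hx1 : x ≤ 1)
    (hy0 : 0 ≤ y) (hy : y ≤ y') (hy1 : y' ≤ 1) :
    u2 (Bset x x' y y') = ENNReal.ofReal (1 - (x * y + x' * (y' - y))) := by
  have hc : Bset x x' y y' = ((Iio x ×ˢ Iio y) ∪ (Iio x' ×ˢ Ico y y'))ᶜ := by
    ext ⟨a, b⟩
    simp only [Bset, Set.mem_ofPred_eq, mem_compl_iff, mem_union, mem_prod, mem_Iio, mem_Ico]
    constructor
    · rintro ⟨h1, h2⟩ (h | ⟨h3, h4, h5⟩)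
      · exact h1 h
      · exact h2 ⟨h3, h5⟩
    · intro h
      refine ⟨fun h1 => h (Or.inl h1), fun ⟨h3, h4⟩ => ?_⟩
      by_cases hb : b < y
      · exact h (Or.inl ⟨lt_of_lt_of_le h3 hx, hb⟩)
      · exact h (Or.inr ⟨h3, not_lt.mp hb, h4⟩)
  have hm : MeasurableSet ((Iio x ×ˢ Iio y) ∪ (Iio x' ×ˢ Ico y y')) :=
    (measurableSet_Iio.prod measurableSet_Iio).union (measurableSet_Iio.prod measurableSet_Ico)
  rw [hc, prob_compl_eq_one_sub hm, measure_union _ (measurableSet_Iio.prod measurableSet_Ico)]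
  · change 1 - ((u1.prod u1) _ + (u1.prod u1) _) = _
    rw [Measure.prod_prod, Measure.prod_prod, u1_Iio hx1, u1_Iio (hy.trans hy1),
      u1_Iio (hx.trans hx1), u1_Ico hy0 hy1, ← ENNReal.ofReal_mul (hx0.trans hx),
      ← ENNReal.ofReal_mul hx0, ← ENNReal.ofReal_add (mul_nonneg (hx0.trans hx) hy0)
        (mul_nonneg hx0 (by linarith)), ← ENNReal.ofReal_one, ← ENNReal.ofReal_sub]
    have := mul_nonneg (hx0.trans hx) hy0
    have := mul_nonneg hx0 (show 0 ≤ y' - y by linarith)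
    linarith
  · rw [Set.disjoint_left]
    rintro ⟨a, b⟩ ⟨_, h2⟩ ⟨_, h4⟩
    exact absurd h2 (not_lt.mpr h4.1)

/-- woman `j`'s (larger) cost in the lower matchings -/
def ys (σ : Equiv.Perm (Fin n)) (y : Fin n → ℝ) (η : Mov σ → ℝ) (j : Fin n) : ℝ :=
  if h : σ (σ.symm j) ≠ σ.symm j then η ⟨σ.symm j, h⟩ else y j

/-- man `i`'s (smaller) cost in the lower matchings -/
def xs (σ : Equiv.Perm (Fin n)) (x : Fin n → ℝ) (ξ : Mov σ → ℝ) (i : Fin n) : ℝ :=
  if h : σ i ≠ i then ξ ⟨i, h⟩ else x i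

/-- man `i`'s cost relevant for woman `j` -/
def xc (σ : Equiv.Perm (Fin n)) (cl : Fin n → Bool) (x : Fin n → ℝ) (ξ : Mov σ → ℝ)
    (i j : Fin n) : ℝ :=
  if cl i = cl j then xs σ x ξ i else x i

/-- blocking area for the pair `(i,j)` -/
def ar (σ : Equiv.Perm (Fin n)) (cl : Fin n → Bool) (x y : Fin n → ℝ) (ξ η : Mov σ → ℝ)
    (i j : Fin n) : ℝ :=
  x i * y j + xc σ cl x ξ i j * (ys σ y η j - y j)

/-- admissible values -/
def Adm (σ : Equiv.Perm (Fin n)) (x y : Fin n → ℝ) (ξ η : Mov σ → ℝ) : Prop :=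
  (∀ i, x i ∈ Icc (0:ℝ) 1 ∧ y i ∈ Icc (0:ℝ) 1) ∧
  (∀ d, ξ d ∈ Icc (0:ℝ) 1 ∧ η d ∈ Icc (0:ℝ) 1) ∧
  (∀ d : Mov σ, ξ d < x d.1 ∧ y (σ d.1) < η d)

section facts

variable {σ : Equiv.Perm (Fin n)} {cl : Fin n → Bool} {x y : Fin n → ℝ} {ξ η : Mov σ → ℝ}

theorem Adm.y_le (h : Adm σ x y ξ η) (j : Fin n) : y j ≤ ys σ y η j := by
  unfold ys
  split_ifs with hj
  · have := (h.2.2 ⟨σ.symm j, hj⟩).2
    simp only [Equiv.apply_symm_apply] at this
    exact this.le
  · exact le_rfl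

theorem Adm.ys_le (h : Adm σ x y ξ η) (j : Fin n) : ys σ y η j ≤ 1 := by
  unfold ys
  split_ifs with hj
  · exact (h.2.1 _).2.2
  · exact (h.1 j).2.2

theorem Adm.xs_le (h : Adm σ x y ξ η) (i : Fin n) : xs σ x ξ i ≤ x i := by
  unfold xs
  split_ifs with hi
  · exact (h.2.2 ⟨i, hi⟩).1.le
  · exact le_rfl

theorem Adm.xs_nonneg (h : Adm σ x y ξ η) (i : Fin n) : 0 ≤ xs σ x ξ i := by
  unfold xs
  split_ifs with hi
  · exact (h.2.1 _).1.1
  · exact (h.1 i).1.1

theorem Adm.xc_le (h : Adm σ x y ξ η) (i j : Fin n) : xc σ cl x ξ i j ≤ x i := by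
  unfold xc
  split_ifs
  · exact h.xs_le i
  · exact le_rfl

theorem Adm.xc_nonneg (h : Adm σ x y ξ η) (i j : Fin n) : 0 ≤ xc σ cl x ξ i j := by
  unfold xc
  split_ifs
  · exact h.xs_nonneg i
  · exact (h.1 i).1.1

theorem Adm.u2_eq (h : Adm σ x y ξ η) (i j : Fin n) :
    u2 (Bset (x i) (xc σ cl x ξ i j) (y j) (ys σ y η j))
      = ENNReal.ofReal (1 - ar σ cl x y ξ η i j) :=
  u2_Bset (h.xc_nonneg i j) (h.xc_le i j) (h.1 i).1.2 (h.1 j).2.1 (h.y_le j) (h.ys_le j)

end facts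

/-- man's costs along the diagonal etc. -/
def zx (z : Conf n) : Fin n → ℝ := fun i => (z (i, i)).1
def zy (z : Conf n) : Fin n → ℝ := fun i => (z (i, i)).2
def zξ (σ : Equiv.Perm (Fin n)) (z : Conf n) : Mov σ → ℝ := fun d => (z (d.1, σ d.1)).1
def zη (σ : Equiv.Perm (Fin n)) (z : Conf n) : Mov σ → ℝ := fun d => (z (d.1, σ d.1)).2

/-- class of a man -/
def cla (σA : Equiv.Perm (Fin n)) (i : Fin n) : Bool := decide (σA i ≠ i)

section event

variable {σA σB : Equiv.Perm (Fin n)} {z : Conf n}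

theorem disj_A (hd : σA.Disjoint σB) {i : Fin n} (hi : σA i ≠ i) : (σA * σB) i = σA i := by
  have := (hd i).resolve_left hi
  simp [this]

theorem disj_B (hd : σA.Disjoint σB) {i : Fin n} (hi : σB i ≠ i) : (σA * σB) i = σB i := by
  have h1 : σA (σB i) = σB i := by
    rcases hd (σB i) with h | h
    · exact h
    · exact absurd (σB.injective h) hi
  simp [h1]

theorem disj_symm_A (hd : σA.Disjoint σB) {j : Fin n} (hj : σA j ≠ j) :
    (σA * σB).symm j = σA.symm j := by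
  rw [Equiv.symm_apply_eq]
  have h1 : σA (σA.symm j) ≠ σA.symm j := by
    simp only [Equiv.apply_symm_apply]
    intro h
    apply hj
    nth_rewrite 1 [h]
    simp
  rw [disj_A hd h1]
  simp

theorem disj_symm_B (hd : σA.Disjoint σB) {j : Fin n} (hj : σB j ≠ j) :
    (σA * σB).symm j = σB.symm j := by
  rw [Equiv.symm_apply_eq]
  have h1 : σB (σB.symm j) ≠ σB.symm j := by
    simp only [Equiv.apply_symm_apply]
    intro h
    apply hj
    nth_rewrite 1 [h]
    simp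
  rw [disj_B hd h1]
  simp

theorem ev_adm (hz : ∀ p, z p ∈ (Icc (0:ℝ) 1) ×ˢ (Icc (0:ℝ) 1)) (hd : σA.Disjoint σB)
    (hA : Low z 1 σA) (hB : Low z 1 σB) :
    Adm (σA * σB) (zx z) (zy z) (zξ (σA * σB) z) (zη (σA * σB) z) := by
  refine ⟨fun i => ⟨(hz _).1, (hz _).2⟩, fun d => ⟨(hz _).1, (hz _).2⟩, ?_⟩
  rintro ⟨i, hi⟩
  simp only [zx, zy, zξ, zη]
  by_cases h : σA i ≠ i
  · have := hA.2 i h
    simp only [mx, wy, one_mul, Equiv.Perm.one_apply] at this
    rw [disj_A hd h]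
    exact this
  · have hB' : σB i ≠ i := by
      intro h'
      apply hi
      simp only [ne_eq, not_not] at h
      simp [h', h]
    have := hB.2 i hB'
    simp only [mx, wy, one_mul, Equiv.Perm.one_apply] at this
    rw [disj_B hd hB']
    exact this

theorem xc_A (hd : σA.Disjoint σB) (i : Fin n) {j : Fin n} (hj : σA j ≠ j) :
    xc (σA * σB) (cla σA) (zx z) (zξ (σA * σB) z) i j = (z (i, σA i)).1 := by
  unfold xc cla xs
  by_cases hi : σA i ≠ i
  · have h1 : (σA * σB) i ≠ i := by rw [disj_A hd hi]; exact hi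
    rw [if_pos (by simp [hi, hj]), dif_pos h1]
    simp only [zξ]
    rw [disj_A hd hi]
  · simp only [ne_eq, not_not] at hi
    rw [if_neg (by simp [hi, hj])]
    simp [zx, hi]

theorem xc_B (hd : σA.Disjoint σB) (i : Fin n) {j : Fin n} (hj : σB j ≠ j) :
    xc (σA * σB) (cla σA) (zx z) (zξ (σA * σB) z) i j = (z (i, σB i)).1 := by
  have hj' : σA j = j := (hd j).resolve_right hj
  unfold xc cla xs
  by_cases hi : σA i ≠ i
  · have hi' : σB i = i := (hd i).resolve_left hi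
    rw [if_neg (by simp [hi, hj'])]
    simp [zx, hi']
  · simp only [ne_eq, not_not] at hi
    rw [if_pos (by simp [hi, hj'])]
    by_cases h2 : σB i ≠ i
    · have h1 : (σA * σB) i ≠ i := by rw [disj_B hd h2]; exact h2
      rw [dif_pos h1]
      simp only [zξ]
      rw [disj_B hd h2]
    · simp only [ne_eq, not_not] at h2
      rw [dif_neg (by simp [h2, hi])]
      simp [zx, h2]

theorem ys_A (hd : σA.Disjoint σB) {j : Fin n} (hj : σA j ≠ j) :
    ys (σA * σB) (zy z) (zη (σA * σB) z) j = (z (σA.symm j, j)).2 := by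
  unfold ys
  have h1 : (σA * σB) ((σA * σB).symm j) ≠ (σA * σB).symm j := by
    rw [Equiv.apply_symm_apply, disj_symm_A hd hj]
    intro h
    apply hj
    nth_rewrite 1 [h]
    simp
  rw [dif_pos h1]
  simp only [zη, Equiv.apply_symm_apply]
  rw [disj_symm_A hd hj]

theorem ys_B (hd : σA.Disjoint σB) {j : Fin n} (hj : σB j ≠ j) :
    ys (σA * σB) (zy z) (zη (σA * σB) z) j = (z (σB.symm j, j)).2 := by
  unfold ys
  have h1 : (σA * σB) ((σA * σB).symm j) ≠ (σA * σB).symm j := by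
    rw [Equiv.apply_symm_apply, disj_symm_B hd hj]
    intro h
    apply hj
    nth_rewrite 1 [h]
    simp
  rw [dif_pos h1]
  simp only [zη, Equiv.apply_symm_apply]
  rw [disj_symm_B hd hj]

theorem ev_mem (hz : ∀ p, z p ∈ (Icc (0:ℝ) 1) ×ˢ (Icc (0:ℝ) 1)) (hd : σA.Disjoint σB)
    (h1 : Stab z 1) (hA : Low z 1 σA) (hB : Low z 1 σB) (r : Rst (σA * σB)) :
    z r.1 ∈ Bset (zx z r.1.1) (xc (σA * σB) (cla σA) (zx z) (zξ (σA * σB) z) r.1.1 r.1.2)
      (zy z r.1.2) (ys (σA * σB) (zy z) (zη (σA * σB) z) r.1.2) := by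
  obtain ⟨⟨i, j⟩, hr1, hr2⟩ := r
  simp only at hr1 hr2
  have hadm := ev_adm hz hd hA hB
  have hfirst : ¬ ((z (i, j)).1 < zx z i ∧ (z (i, j)).2 < zy z j) := by
    have := h1 i j (by simpa using hr1.symm)
    have e : ((1 : Equiv.Perm (Fin n)).symm j) = j := rfl
    rw [e] at this
    simpa [zx, zy] using this
  refine ⟨hfirst, ?_⟩
  by_cases hjA : σA j ≠ j
  · rw [xc_A hd i hjA, ys_A hd hjA]
    have h2 : σA i ≠ j := by
      by_cases hi : σA i ≠ i
      · rw [disj_A hd hi] at hr2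
        exact hr2.symm
      · simp only [ne_eq, not_not] at hi
        rw [hi]
        exact hr1.symm
    have := hA.1 i j (by simpa using h2)
    simpa using this
  · by_cases hjB : σB j ≠ j
    · rw [xc_B hd i hjB, ys_B hd hjB]
      have h2 : σB i ≠ j := by
        by_cases hi : σB i ≠ i
        · rw [disj_B hd hi] at hr2
          exact hr2.symm
        · simp only [ne_eq, not_not] at hi
          rw [hi]
          exact hr1.symm
      have := hB.1 i j (by simpa using h2)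
      simpa using this
    · simp only [ne_eq, not_not] at hjA hjB
      have h3 : ys (σA * σB) (zy z) (zη (σA * σB) z) j = zy z j := by
        unfold ys
        have : (σA * σB).symm j = j := by
          rw [Equiv.symm_apply_eq]
          simp [hjA, hjB]
        rw [dif_neg]
        rw [this]
        simp [hjA, hjB]
      rw [h3]
      rintro ⟨h4, h5⟩
      exact hfirst ⟨lt_of_lt_of_le h4 (hadm.xc_le i j), h5⟩

end event

theorem measurable_zpair (σ : Equiv.Perm (Fin n)) :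
    Measurable fun z : Conf n => (dg z, gr σ z) := by
  refine Measurable.prodMk ?_ ?_
  · exact measurable_pi_lambda _ fun i => measurable_pi_apply _
  · exact measurable_pi_lambda _ fun i => measurable_pi_apply _

theorem ae_box (n : ℕ) : ∀ᵐ z ∂(P n), ∀ p, z p ∈ (Icc (0:ℝ) 1) ×ˢ (Icc (0:ℝ) 1) := by
  rw [ae_all_iff]
  intro p
  have h1 : ∀ᵐ w ∂u2, w ∈ (Icc (0:ℝ) 1) ×ˢ (Icc (0:ℝ) 1) := by
    unfold u2
    rw [Measure.prod_restrict]
    exact ae_restrict_mem (measurableSet_Icc.prod measurableSet_Icc)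
  unfold P
  exact (Measure.quasiMeasurePreserving_eval (fun _ => u2) p).ae h1

section meas

variable (σ : Equiv.Perm (Fin n)) (cl : Fin n → Bool)

theorem meas_xs (i : Fin n) : Measurable fun q : (Fin n → ℝ × ℝ) × (Mov σ → ℝ × ℝ) =>
      xs σ (fun i => (q.1 i).1) (fun d => (q.2 d).1) i := by
  unfold xs
  split_ifs <;> fun_prop

theorem meas_xc (i j : Fin n) : Measurable fun q : (Fin n → ℝ × ℝ) × (Mov σ → ℝ × ℝ) =>
      xc σ cl (fun i => (q.1 i).1) (fun d => (q.2 d).1) i j := by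
  unfold xc
  split_ifs
  · exact meas_xs σ i
  · fun_prop

theorem meas_ys (i : Fin n) : Measurable fun q : (Fin n → ℝ × ℝ) × (Mov σ → ℝ × ℝ) =>
      ys σ (fun i => (q.1 i).2) (fun d => (q.2 d).2) i := by
  unfold ys
  split_ifs <;> fun_prop

theorem meas_ar (i j : Fin n) : Measurable fun q : (Fin n → ℝ × ℝ) × (Mov σ → ℝ × ℝ) =>
      ar σ cl (fun i => (q.1 i).1) (fun i => (q.1 i).2) (fun d => (q.2 d).1)
        (fun d => (q.2 d).2) i j := by
  unfold ar
  have := meas_xc σ cl i j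
  have := meas_ys σ j
  fun_prop

theorem meas_Adm : MeasurableSet {q : (Fin n → ℝ × ℝ) × (Mov σ → ℝ × ℝ) |
      Adm σ (fun i => (q.1 i).1) (fun i => (q.1 i).2) (fun d => (q.2 d).1)
        (fun d => (q.2 d).2)} := by
  have h1 : MeasurableSet {q : (Fin n → ℝ × ℝ) × (Mov σ → ℝ × ℝ) |
      ∀ i, (q.1 i).1 ∈ Icc (0:ℝ) 1 ∧ (q.1 i).2 ∈ Icc (0:ℝ) 1} := by
    rw [Set.ofPred_forall]
    refine MeasurableSet.iInter fun i => MeasurableSet.inter ?_ ?_
    · exact measurableSet_Icc.preimage (f := fun q : (Fin n → ℝ × ℝ) × (Mov σ → ℝ × ℝ) =>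
        (q.1 i).1) (by fun_prop)
    · exact measurableSet_Icc.preimage (f := fun q : (Fin n → ℝ × ℝ) × (Mov σ → ℝ × ℝ) =>
        (q.1 i).2) (by fun_prop)
  have h2 : MeasurableSet {q : (Fin n → ℝ × ℝ) × (Mov σ → ℝ × ℝ) |
      ∀ d, (q.2 d).1 ∈ Icc (0:ℝ) 1 ∧ (q.2 d).2 ∈ Icc (0:ℝ) 1} := by
    rw [Set.ofPred_forall]
    refine MeasurableSet.iInter fun d => MeasurableSet.inter ?_ ?_
    · exact measurableSet_Icc.preimage (f := fun q : (Fin n → ℝ × ℝ) × (Mov σ → ℝ × ℝ) =>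
        (q.2 d).1) (by fun_prop)
    · exact measurableSet_Icc.preimage (f := fun q : (Fin n → ℝ × ℝ) × (Mov σ → ℝ × ℝ) =>
        (q.2 d).2) (by fun_prop)
  have h3 : MeasurableSet {q : (Fin n → ℝ × ℝ) × (Mov σ → ℝ × ℝ) |
      ∀ d : Mov σ, (q.2 d).1 < (q.1 d.1).1 ∧ (q.1 (σ d.1)).2 < (q.2 d).2} := by
    rw [Set.ofPred_forall]
    refine MeasurableSet.iInter fun d => ?_
    have h4 : MeasurableSet {q : (Fin n → ℝ × ℝ) × (Mov σ → ℝ × ℝ) |
        (q.2 d).1 < (q.1 d.1).1} := measurableSet_lt (by fun_prop) (by fun_prop)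
    have h5 : MeasurableSet {q : (Fin n → ℝ × ℝ) × (Mov σ → ℝ × ℝ) |
        (q.1 (σ d.1)).2 < (q.2 d).2} := measurableSet_lt (by fun_prop) (by fun_prop)
    exact h4.inter h5
  exact h1.inter (h2.inter h3)

theorem meas_Bset (i j : Fin n) : MeasurableSet
    {p : ((Fin n → ℝ × ℝ) × (Mov σ → ℝ × ℝ)) × (ℝ × ℝ) | p.2 ∈
      Bset (p.1.1 i).1 (xc σ cl (fun i => (p.1.1 i).1) (fun d => (p.1.2 d).1) i j)
      (p.1.1 j).2 (ys σ (fun i => (p.1.1 i).2) (fun d => (p.1.2 d).2) j)} := by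
  have hx : Measurable fun p : ((Fin n → ℝ × ℝ) × (Mov σ → ℝ × ℝ)) × (ℝ × ℝ) =>
      xc σ cl (fun i => (p.1.1 i).1) (fun d => (p.1.2 d).1) i j :=
    (meas_xc σ cl i j).comp measurable_fst
  have hy : Measurable fun p : ((Fin n → ℝ × ℝ) × (Mov σ → ℝ × ℝ)) × (ℝ × ℝ) =>
      ys σ (fun i => (p.1.1 i).2) (fun d => (p.1.2 d).2) j :=
    (meas_ys σ j).comp measurable_fst
  have h1 : MeasurableSet {p : ((Fin n → ℝ × ℝ) × (Mov σ → ℝ × ℝ)) × (ℝ × ℝ) |
      p.2.1 < (p.1.1 i).1} := measurableSet_lt (by fun_prop) (by fun_prop)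
  have h2 : MeasurableSet {p : ((Fin n → ℝ × ℝ) × (Mov σ → ℝ × ℝ)) × (ℝ × ℝ) |
      p.2.2 < (p.1.1 j).2} := measurableSet_lt (by fun_prop) (by fun_prop)
  have h3 : MeasurableSet {p : ((Fin n → ℝ × ℝ) × (Mov σ → ℝ × ℝ)) × (ℝ × ℝ) |
      p.2.1 < xc σ cl (fun i => (p.1.1 i).1) (fun d => (p.1.2 d).1) i j} :=
    measurableSet_lt (by fun_prop) hx
  have h4 : MeasurableSet {p : ((Fin n → ℝ × ℝ) × (Mov σ → ℝ × ℝ)) × (ℝ × ℝ) |
      p.2.2 < ys σ (fun i => (p.1.1 i).2) (fun d => (p.1.2 d).2) j} :=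
    measurableSet_lt (by fun_prop) hy
  exact (h1.inter h2).compl.inter (h3.inter h4).compl

end meas

open Classical in
/-- main reduction: three matchings `1`, `σA`, `σB` -/
theorem triple_bound {σ σA σB : Equiv.Perm (Fin n)} (hσ : σ = σA * σB) (hd : σA.Disjoint σB)
    (K : (Fin n → ℝ) → (Fin n → ℝ) → (Mov σ → ℝ) → (Mov σ → ℝ) → ℝ≥0∞)
    (hK : Measurable fun q : (Fin n → ℝ × ℝ) × (Mov σ → ℝ × ℝ) =>
      K (fun i => (q.1 i).1) (fun i => (q.1 i).2) (fun d => (q.2 d).1) (fun d => (q.2 d).2)) :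
    ∫⁻ z, (if Stab z 1 ∧ Low z 1 σA ∧ Low z 1 σB then
        K (zx z) (zy z) (zξ σ z) (zη σ z) else 0) ∂(P n)
    ≤ ∫⁻ y, ∫⁻ η, ∫⁻ x, ∫⁻ ξ,
        (if Adm σ x y ξ η then K x y ξ η *
          ∏ r : Rst σ, ENNReal.ofReal (1 - ar σ (cla σA) x y ξ η r.1.1 r.1.2) else 0)
          ∂(Measure.pi fun _ => u1) ∂(Measure.pi fun _ => u1)
          ∂(Measure.pi fun _ => u1) ∂(Measure.pi fun _ => u1) := by
  let K' : (Fin n → ℝ × ℝ) × (Mov σ → ℝ × ℝ) → ℝ≥0∞ := fun q =>
    if Adm σ (fun i => (q.1 i).1) (fun i => (q.1 i).2) (fun d => (q.2 d).1) (fun d => (q.2 d).2)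
    then K (fun i => (q.1 i).1) (fun i => (q.1 i).2) (fun d => (q.2 d).1) (fun d => (q.2 d).2)
    else 0
  let B' : Rst σ → ((Fin n → ℝ × ℝ) × (Mov σ → ℝ × ℝ)) → Set (ℝ × ℝ) := fun r q =>
    Bset (q.1 r.1.1).1 (xc σ (cla σA) (fun i => (q.1 i).1) (fun d => (q.2 d).1) r.1.1 r.1.2)
      (q.1 r.1.2).2 (ys σ (fun i => (q.1 i).2) (fun d => (q.2 d).2) r.1.2)
  let β : Rst σ → (((Fin n → ℝ × ℝ) × (Mov σ → ℝ × ℝ)) × (ℝ × ℝ)) → ℝ≥0∞ := fun r p =>
    if p.2 ∈ B' r p.1 then 1 else 0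
  have hK' : Measurable K' := Measurable.ite (meas_Adm σ) hK measurable_const
  have hβ : ∀ r, Measurable (β r) := fun r =>
    Measurable.ite (meas_Bset σ (cla σA) r.1.1 r.1.2) measurable_const measurable_const
  have hred := red σ K' hK' β hβ
  calc _ ≤ ∫⁻ z, K' (dg z, gr σ z) * ∏ r, β r ((dg z, gr σ z), z r.1) ∂(P n) := by
        refine lintegral_mono_ae ?_
        filter_upwards [ae_box n] with z hz
        split_ifs with hev
        · obtain ⟨h1, hA, hB⟩ := hev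
          have hadm := ev_adm hz hd hA hB
          have hmem := ev_mem hz hd h1 hA hB
          rw [← hσ] at hadm hmem
          have e1 : K' (dg z, gr σ z) = K (zx z) (zy z) (zξ σ z) (zη σ z) := by
            simp only [K']
            exact if_pos hadm
          have e2 : ∀ r, β r ((dg z, gr σ z), z r.1) = 1 := by
            intro r
            simp only [β]
            exact if_pos (hmem r)
          rw [e1]
          simp [e2]
        · exact zero_le
    _ = ∫⁻ q, K' q * ∏ r, ∫⁻ w, β r (q, w) ∂u2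
          ∂((Measure.pi fun _ => u2).prod (Measure.pi fun _ => u2)) := hred
    _ = ∫⁻ q, (if Adm σ (fun i => (q.1 i).1) (fun i => (q.1 i).2) (fun d => (q.2 d).1)
            (fun d => (q.2 d).2) then K (fun i => (q.1 i).1) (fun i => (q.1 i).2)
              (fun d => (q.2 d).1) (fun d => (q.2 d).2) *
          ∏ r : Rst σ, ENNReal.ofReal (1 - ar σ (cla σA) (fun i => (q.1 i).1) (fun i => (q.1 i).2)
            (fun d => (q.2 d).1) (fun d => (q.2 d).2) r.1.1 r.1.2) else 0)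
          ∂((Measure.pi fun _ => u2).prod (Measure.pi fun _ => u2)) := by
        refine lintegral_congr fun q => ?_
        by_cases h : Adm σ (fun i => (q.1 i).1) (fun i => (q.1 i).2) (fun d => (q.2 d).1)
            (fun d => (q.2 d).2)
        · rw [if_pos h]
          simp only [K', if_pos h]
          congr 1
          refine Finset.prod_congr rfl fun r _ => ?_
          rw [← h.u2_eq (cl := cla σA) r.1.1 r.1.2]
          have : ∀ w, β r (q, w) = (B' r q).indicator 1 w := by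
            intro w
            simp only [β, indicator]
            rfl
          simp_rw [this]
          rw [lintegral_indicator_one]
          exact measurableSet_Bset _ _ _ _
        · rw [if_neg h]
          simp only [K', if_neg h, zero_mul]
    _ = _ := by
        rw [split_xy (n := n)]
        refine Measurable.ite (meas_Adm σ) ?_ measurable_const
        refine hK.mul (Finset.measurable_prod _ fun r _ => ?_)
        apply Measurable.ennreal_ofReal
        exact measurable_const.sub (meas_ar σ _ _ _)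

end Pool.Agent.SM
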