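import Pool.Agent.MP_d30e2b_pr.Defs

set_option autoImplicit false

/-!
Task A: the continuous model and the uniform profile.
-/

namespace Pool.Agent.SM

open MeasureTheory Nd52b3d98 Equiv
open scoped ENNReal

/-! ### the measure -/

lemma u2_eq_restrict : u2 = (volume : Measure (ℝ × ℝ)).restrict
    (Set.Icc (0 : ℝ) 1 ×ˢ Set.Icc (0 : ℝ) 1) := by
  unfold u2
  rw [Measure.prod_restrict]
  rfl

lemma isProb_unit : IsProbabilityMeasure (volume.restrict (Set.Icc (0 : ℝ) 1)) := by
  refine ⟨?_⟩
  rw [Measure.restrict_apply MeasurableSet.univ, Set.univ_inter, Real.volume_Icc]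
  simp

lemma isProb_u2 : IsProbabilityMeasure u2 := by
  have := isProb_unit
  unfold u2
  infer_instance

lemma isProb_P (n : ℕ) : IsProbabilityMeasure (P n) := by
  have := isProb_u2
  unfold P
  infer_instance

lemma P_eq_restrict (n : ℕ) : P n = (volume : Measure (Conf n)).restrict
    (Set.univ.pi fun _ => Set.Icc (0 : ℝ) 1 ×ˢ Set.Icc (0 : ℝ) 1) := by
  unfold P
  rw [u2_eq_restrict, ← Measure.restrict_pi_pi]
  rfl

lemma P_null_of_volume_null {n : ℕ} {s : Set (Conf n)} (h : (volume : Measure (Conf n)) s = 0) :
    P n s = 0 := by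
  rw [P_eq_restrict]
  exact nonpos_iff_eq_zero.mp ((Measure.restrict_apply_le _ _).trans h.le)

/-! ### no ties -/

lemma null_fst (n : ℕ) (a b : Fin n × Fin n) (hab : a ≠ b) :
    P n {z : Conf n | (z a).1 = (z b).1} = 0 := by
  classical
  apply P_null_of_volume_null
  set f : Conf n →ₗ[ℝ] ℝ :=
    (LinearMap.fst ℝ ℝ ℝ).comp (LinearMap.proj a) -
      (LinearMap.fst ℝ ℝ ℝ).comp (LinearMap.proj b) with hf
  have hset : {z : Conf n | (z a).1 = (z b).1} = (LinearMap.ker f : Set (Conf n)) := by
    ext z
    simp [hf, sub_eq_zero]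
  rw [hset]
  apply Measure.addHaar_submodule
  intro htop
  have h1 : (Pi.single a ((1 : ℝ), (0 : ℝ)) : Conf n) ∈ LinearMap.ker f := by
    rw [htop]
    trivial
  rw [LinearMap.mem_ker, hf] at h1
  simp [hab.symm] at h1

lemma null_snd (n : ℕ) (a b : Fin n × Fin n) (hab : a ≠ b) :
    P n {z : Conf n | (z a).2 = (z b).2} = 0 := by
  classical
  apply P_null_of_volume_null
  set f : Conf n →ₗ[ℝ] ℝ :=
    (LinearMap.snd ℝ ℝ ℝ).comp (LinearMap.proj a) -
      (LinearMap.snd ℝ ℝ ℝ).comp (LinearMap.proj b) with hf
  have hset : {z : Conf n | (z a).2 = (z b).2} = (LinearMap.ker f : Set (Conf n)) := by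
    ext z
    simp [hf, sub_eq_zero]
  rw [hset]
  apply Measure.addHaar_submodule
  intro htop
  have h1 : (Pi.single a ((0 : ℝ), (1 : ℝ)) : Conf n) ∈ LinearMap.ker f := by
    rw [htop]
    trivial
  rw [LinearMap.mem_ker, hf] at h1
  simp [hab.symm] at h1

theorem ae_gen (n : ℕ) : ∀ᵐ z ∂(P n), Gen z := by
  have h1 : ∀ᵐ z ∂(P n), ∀ a b : Fin n × Fin n, a ≠ b → (z a).1 ≠ (z b).1 := by
    rw [ae_all_iff]
    intro a
    rw [ae_all_iff]
    intro b
    by_cases hab : a = b
    · exact Filter.Eventually.of_forall fun z h => absurd hab h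
    · have := null_fst n a b hab
      rw [measure_eq_zero_iff_ae_notMem] at this
      filter_upwards [this] with z hz _
      exact hz
  have h2 : ∀ᵐ z ∂(P n), ∀ a b : Fin n × Fin n, a ≠ b → (z a).2 ≠ (z b).2 := by
    rw [ae_all_iff]
    intro a
    rw [ae_all_iff]
    intro b
    by_cases hab : a = b
    · exact Filter.Eventually.of_forall fun z h => absurd hab h
    · have := null_snd n a b hab
      rw [measure_eq_zero_iff_ae_notMem] at this
      filter_upwards [this] with z hz _
      exact hz
  filter_upwards [h1, h2] with z hz1 hz2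
  refine ⟨fun i j k hjk => ?_, fun j i k hik => ?_⟩
  · by_contra hne
    exact hz1 (i, j) (i, k) (fun e => hne (Prod.mk.inj e).2) hjk
  · by_contra hne
    exact hz2 (i, j) (k, j) (fun e => hne (Prod.mk.inj e).1) hik

/-! ### configurations inducing a given profile -/

/-- the configuration `z` induces the profile `p` -/
def Ind {n : ℕ} (z : Conf n) (p : Profile n) : Prop :=
  (∀ i j k, (z (i, j)).1 < (z (i, k)).1 ↔ p.manRank i j < p.manRank i k) ∧
    (∀ j i k, (z (i, j)).2 < (z (k, j)).2 ↔ p.womanRank j i < p.womanRank j k)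

lemma measurableSet_ind {n : ℕ} (p : Profile n) : MeasurableSet {z : Conf n | Ind z p} := by
  have hset : {z : Conf n | Ind z p} =
      {z : Conf n | ∀ i j k, (z (i, j)).1 < (z (i, k)).1 ↔ p.manRank i j < p.manRank i k} ∩
      {z : Conf n | ∀ j i k, (z (i, j)).2 < (z (k, j)).2 ↔
        p.womanRank j i < p.womanRank j k} := rfl
  rw [hset]
  refine MeasurableSet.inter ?_ ?_
  · rw [Set.ofPred_forall]
    refine MeasurableSet.iInter fun i => ?_
    rw [Set.ofPred_forall]
    refine MeasurableSet.iInter fun j => ?_
    rw [Set.ofPred_forall]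
    refine MeasurableSet.iInter fun k => ?_
    have hm : MeasurableSet {z : Conf n | (z (i, j)).1 < (z (i, k)).1} :=
      measurableSet_lt (by fun_prop) (by fun_prop)
    by_cases hp : p.manRank i j < p.manRank i k
    · simpa [hp] using hm
    · have := hm.compl
      simpa [hp, Set.compl_def] using this
  · rw [Set.ofPred_forall]
    refine MeasurableSet.iInter fun j => ?_
    rw [Set.ofPred_forall]
    refine MeasurableSet.iInter fun i => ?_
    rw [Set.ofPred_forall]
    refine MeasurableSet.iInter fun k => ?_
    have hm : MeasurableSet {z : Conf n | (z (i, j)).2 < (z (k, j)).2} :=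
      measurableSet_lt (by fun_prop) (by fun_prop)
    by_cases hp : p.womanRank j i < p.womanRank j k
    · simpa [hp] using hm
    · have := hm.compl
      simpa [hp, Set.compl_def] using this

/-- every injective vector is induced by a ranking. -/
lemma exists_rank {n : ℕ} (v : Fin n → ℝ) (hv : Function.Injective v) :
    ∃ ρ : Perm (Fin n), ∀ j k, v j < v k ↔ ρ j < ρ k := by
  classical
  have hlt : ∀ j, (Finset.univ.filter fun k => v k < v j).card < n := by
    intro j
    have : (Finset.univ.filter fun k => v k < v j) ⊂ (Finset.univ : Finset (Fin n)) := by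
      refine Finset.ssubset_univ_iff.mpr ?_
      intro e
      have : j ∈ Finset.univ.filter fun k => v k < v j := by rw [e]; exact Finset.mem_univ _
      rw [Finset.mem_filter] at this
      exact lt_irrefl _ this.2
    have := Finset.card_lt_card this
    simpa using this
  set r : Fin n → Fin n := fun j => ⟨(Finset.univ.filter fun k => v k < v j).card, hlt j⟩ with hr
  have hmono : ∀ j k, v j < v k → r j < r k := by
    intro j k hjk
    rw [hr, Fin.mk_lt_mk]
    refine Finset.card_lt_card ?_
    rw [Finset.ssubset_iff_of_subset]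
    · refine ⟨j, ?_, ?_⟩
      · rw [Finset.mem_filter]
        exact ⟨Finset.mem_univ _, hjk⟩
      · rw [Finset.mem_filter]
        exact fun h => lt_irrefl _ h.2
    · intro l hl
      rw [Finset.mem_filter] at hl ⊢
      exact ⟨hl.1, hl.2.trans hjk⟩
  have hiff : ∀ j k, v j < v k ↔ r j < r k := by
    intro j k
    refine ⟨hmono j k, fun h => ?_⟩
    by_contra hcon
    rcases (not_lt.mp hcon).lt_or_eq with h1 | h1
    · exact lt_asymm h (hmono k j h1)
    · have := hv h1
      rw [this] at h
      exact lt_irrefl _ h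
  have hinj : Function.Injective r := by
    intro j k hjk
    rcases lt_trichotomy (v j) (v k) with h | h | h
    · exact absurd hjk (hmono j k h).ne
    · exact hv h
    · exact absurd hjk (hmono k j h).ne'
  refine ⟨Equiv.ofBijective r (Finite.injective_iff_bijective.mp hinj), ?_⟩
  intro j k
  rw [hiff]
  rfl

lemma gen_iff_ind {n : ℕ} (z : Conf n) : Gen z ↔ ∃ p, Ind z p := by
  constructor
  · rintro ⟨h1, h2⟩
    choose ρ hρ using fun i => exists_rank _ (h1 i)
    choose ω hω using fun j => exists_rank _ (h2 j)
    exact ⟨⟨ρ, ω⟩, fun i j k => hρ i j k, fun j i k => hω j i k⟩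
  · rintro ⟨p, h1, h2⟩
    refine ⟨fun i j k hjk => ?_, fun j i k hik => ?_⟩
    · have a1 := (h1 i j k).not.mp (not_lt.mpr (le_of_eq hjk.symm))
      have a2 := (h1 i k j).not.mp (not_lt.mpr (le_of_eq hjk))
      exact (p.manRank i).injective (le_antisymm (not_lt.mp a2) (not_lt.mp a1))
    · have a1 := (h2 j i k).not.mp (not_lt.mpr (le_of_eq hik.symm))
      have a2 := (h2 j k i).not.mp (not_lt.mpr (le_of_eq hik))
      exact (p.womanRank j).injective (le_antisymm (not_lt.mp a2) (not_lt.mp a1))

/-- two permutations of `Fin n` inducing the same order are equal. -/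
lemma perm_eq_of_lt_iff {n : ℕ} (ρ ρ' : Perm (Fin n))
    (h : ∀ j k, ρ j < ρ k ↔ ρ' j < ρ' k) : ρ = ρ' := by
  have hm : StrictMono fun j => ρ (ρ'.symm j) := by
    intro j k hjk
    change ρ (ρ'.symm j) < ρ (ρ'.symm k)
    rw [h]
    simpa using hjk
  have h1 : (fun j => ρ (ρ'.symm j)) = id := by
    have e := Subsingleton.elim (StrictMono.orderIsoOfSurjective _ hm
      ((ρ'.symm.trans ρ).surjective)) (OrderIso.refl (Fin n))
    funext j
    have := congrArg (fun f : Fin n ≃o Fin n => f j) e
    exact this
  ext j : 1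
  have := congrFun h1 (ρ' j)
  simpa using this

lemma ind_unique {n : ℕ} {z : Conf n} {p q : Profile n} (hp : Ind z p) (hq : Ind z q) :
    p = q := by
  have h1 : p.manRank = q.manRank := by
    funext i
    exact perm_eq_of_lt_iff _ _ fun j k => (hp.1 i j k).symm.trans (hq.1 i j k)
  have h2 : p.womanRank = q.womanRank := by
    funext j
    exact perm_eq_of_lt_iff _ _ fun i k => (hp.2 j i k).symm.trans (hq.2 j i k)
  cases p
  cases q
  simp only at h1 h2
  rw [h1, h2]

lemma stab_iff {n : ℕ} {z : Conf n} {p : Profile n} (h : Ind z p) (μ : Perm (Fin n)) :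
    Stab z μ ↔ IsStable p μ := by
  unfold Stab IsStable IsBlockingPair
  refine forall_congr' fun i => forall_congr' fun j => ?_
  rw [h.1 i j (μ i), h.2 j i (μ.symm j)]
  tauto

lemma nst_eq {n : ℕ} {z : Conf n} {p : Profile n} (h : Ind z p) :
    nst z = numStableMatchings p := by
  classical
  unfold nst numStableMatchings
  rw [Fintype.card_subtype]
  congr 1
  ext μ
  rw [Finset.mem_filter, Finset.mem_filter]
  simp only [Finset.mem_univ, true_and]
  exact stab_iff h μ

/-! ### symmetry -/

lemma mp_comp {ι : Type*} [Fintype ι] (e : Perm ι) (ν : Measure ℝ) [SigmaFinite ν] :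
    MeasurePreserving (fun (x : ι → ℝ) (i : ι) => x (e i)) (Measure.pi fun _ => ν)
      (Measure.pi fun _ => ν) := by
  have h := measurePreserving_piCongrLeft (fun _ : ι => ν) e.symm
  have e1 : (fun (x : ι → ℝ) (i : ι) => x (e i)) =
      ⇑(MeasurableEquiv.piCongrLeft (fun _ : ι => ℝ) e.symm) := by
    funext x i
    have := Equiv.piCongrLeft_apply_apply (fun _ : ι => ℝ) e.symm x (e i)
    rw [Equiv.symm_apply_apply] at this
    exact this.symm
  rw [e1]
  exact h

/-- permuting men's and women's coordinates separately. -/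
lemma mp_twist (n : ℕ) (e f : Perm (Fin n × Fin n)) :
    MeasurePreserving (fun (z : Conf n) (q : Fin n × Fin n) => ((z (e q)).1, (z (f q)).2))
      (P n) (P n) := by
  have := isProb_unit
  set ν : Measure ℝ := volume.restrict (Set.Icc (0 : ℝ) 1) with hν
  have hE := measurePreserving_arrowProdEquivProdArrow ℝ ℝ (Fin n × Fin n)
    (fun _ => ν) (fun _ => ν)
  have h1 := (mp_comp e ν).prod (mp_comp f ν)
  have h2 := (hE.symm.comp (h1.comp hE))
  exact h2

/-- the measure of the configurations inducing `p` does not depend on `p`. -/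
lemma P_ind_eq {n : ℕ} (p q : Profile n) :
    P n {z | Ind z p} = P n {z | Ind z q} := by
  -- index permutations
  set α : Fin n → Perm (Fin n) := fun i => (q.manRank i)⁻¹ * p.manRank i with hα
  set β : Fin n → Perm (Fin n) := fun j => (q.womanRank j)⁻¹ * p.womanRank j with hβ
  set e : Perm (Fin n × Fin n) := Equiv.prodShear (Equiv.refl (Fin n)) α with he
  set f : Perm (Fin n × Fin n) := (Equiv.prodComm _ _).trans
    ((Equiv.prodShear (Equiv.refl (Fin n)) β).trans (Equiv.prodComm _ _)) with hf
  have he' : ∀ i j, e (i, j) = (i, α i j) := fun i j => rfl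
  have hf' : ∀ i j, f (i, j) = (β j i, j) := fun i j => rfl
  have hT := mp_twist n e f
  have h1 := hT.measure_preimage (measurableSet_ind p).nullMeasurableSet
  rw [← h1]
  congr 1
  ext z
  simp only [Set.mem_preimage, Set.mem_ofPred_eq]
  constructor
  · rintro ⟨a1, a2⟩
    refine ⟨fun i j k => ?_, fun j i k => ?_⟩
    · have := a1 i ((α i).symm j) ((α i).symm k)
      simp only [he', Equiv.apply_symm_apply] at this
      rw [this]
      have hs : ∀ l, p.manRank i ((α i).symm l) = q.manRank i l := by
        intro l
        have : α i ((α i).symm l) = l := Equiv.apply_symm_apply _ _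
        rw [hα] at this
        simp only [Equiv.Perm.mul_apply] at this
        rw [Equiv.Perm.inv_eq_iff_eq] at this
        exact this
      rw [hs, hs]
    · have := a2 j ((β j).symm i) ((β j).symm k)
      simp only [hf', Equiv.apply_symm_apply] at this
      rw [this]
      have hs : ∀ l, p.womanRank j ((β j).symm l) = q.womanRank j l := by
        intro l
        have : β j ((β j).symm l) = l := Equiv.apply_symm_apply _ _
        rw [hβ] at this
        simp only [Equiv.Perm.mul_apply] at this
        rw [Equiv.Perm.inv_eq_iff_eq] at this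
        exact this
      rw [hs, hs]
  · rintro ⟨a1, a2⟩
    refine ⟨fun i j k => ?_, fun j i k => ?_⟩
    · simp only [he']
      rw [a1 i (α i j) (α i k)]
      have hs : ∀ l, q.manRank i (α i l) = p.manRank i l := by
        intro l
        rw [hα]
        simp
      rw [hs, hs]
    · simp only [hf']
      rw [a2 j (β j i) (β j k)]
      have hs : ∀ l, q.womanRank j (β j l) = p.womanRank j l := by
        intro l
        rw [hβ]
        simp
      rw [hs, hs]

/-! ### the ranking map -/

open Classical in
/-- the profile induced by a configuration -/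
noncomputable def Rk {n : ℕ} (z : Conf n) : Profile n :=
  if h : ∃ p, Ind z p then h.choose else default

lemma Rk_eq {n : ℕ} {z : Conf n} {p : Profile n} (h : Ind z p) : Rk z = p := by
  have hex : ∃ p, Ind z p := ⟨p, h⟩
  unfold Rk
  rw [dif_pos hex]
  exact ind_unique hex.choose_spec h

lemma ind_Rk {n : ℕ} {z : Conf n} (h : Gen z) : Ind z (Rk z) := by
  obtain ⟨p, hp⟩ := (gen_iff_ind z).mp h
  rw [Rk_eq hp]
  exact hp

lemma measurableSet_gen (n : ℕ) : MeasurableSet {z : Conf n | Gen z} := by
  have : {z : Conf n | Gen z} = ⋃ p, {z : Conf n | Ind z p} := by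
    ext z
    simp [gen_iff_ind]
  rw [this]
  exact MeasurableSet.iUnion fun p => measurableSet_ind p

lemma measurable_Rk (n : ℕ) : Measurable (Rk : Conf n → Profile n) := by
  classical
  have hcount : Countable (Profile n) := inferInstance
  refine measurable_to_countable' ?_
  intro p
  have : (Rk : Conf n → Profile n) ⁻¹' {p} =
      {z | Ind z p} ∪ ({z | Gen z}ᶜ ∩ {_z | (default : Profile n) = p}) := by
    ext z
    simp only [Set.mem_preimage, Set.mem_singleton_iff, Set.mem_union, Set.mem_ofPred_eq,
      Set.mem_inter_iff, Set.mem_compl_iff]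
    constructor
    · intro h
      by_cases hg : Gen z
      · left
        rw [← h]
        exact ind_Rk hg
      · right
        refine ⟨hg, ?_⟩
        rw [← h]
        unfold Rk
        rw [dif_neg]
        rwa [← gen_iff_ind]
    · rintro (h | ⟨h1, h2⟩)
      · exact Rk_eq h
      · unfold Rk
        rw [dif_neg, h2]
        rwa [← gen_iff_ind]
  rw [this]
  refine (measurableSet_ind p).union ((measurableSet_gen n).compl.inter ?_)
  exact MeasurableSet.const _

/-- the push-forward of the uniform configuration is the uniform profile. -/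
theorem map_Rk (n : ℕ) : (P n).map Rk = (uniformProfile n).toMeasure := by
  classical
  have := isProb_P n
  have hsing : ∀ p : Profile n, (P n).map Rk {p} = P n {z | Ind z p} := by
    intro p
    rw [Measure.map_apply (measurable_Rk n) (MeasurableSet.singleton p)]
    refine measure_congr ?_
    filter_upwards [ae_gen n] with z hz
    apply propext
    change Rk z = p ↔ Ind z p
    exact ⟨fun h => h ▸ ind_Rk hz, fun h => Rk_eq h⟩
  have hconst : ∀ p q : Profile n, (P n).map Rk {p} = (P n).map Rk {q} := by
    intro p q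
    rw [hsing, hsing]
    exact P_ind_eq p q
  have hprob : IsProbabilityMeasure ((P n).map Rk) :=
    Measure.isProbabilityMeasure_map (measurable_Rk n).aemeasurable
  have hsum : ∑ p : Profile n, (P n).map Rk {p} = 1 := by
    rw [← measure_univ (μ := (P n).map Rk)]
    have := MeasureTheory.sum_measure_singleton (μ := (P n).map Rk)
      (s := (Finset.univ : Finset (Profile n)))
    rw [this, Finset.coe_univ]
  refine Measure.ext_of_singleton ?_
  intro p
  have h1 : (Fintype.card (Profile n) : ℝ≥0∞) * (P n).map Rk {p} = 1 := by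
    rw [← hsum]
    rw [Finset.sum_congr rfl (fun q _ => hconst q p), Finset.sum_const, nsmul_eq_mul]
    rfl
  rw [PMF.toMeasure_apply_singleton _ _ (MeasurableSet.singleton p)]
  unfold uniformProfile
  rw [PMF.uniformOfFintype_apply]
  exact ENNReal.eq_inv_of_mul_eq_one_left (by rw [mul_comm]; exact h1)

theorem bridge_prob (n : ℕ) (a : ℝ) :
    (uniformProfile n).toMeasure {p | (numStableMatchings p : ℝ) ≥ a} =
      P n {z | a ≤ (nst z : ℝ)} := by
  rw [← map_Rk, Measure.map_apply (measurable_Rk n) (by trivial)]
  refine measure_congr ?_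
  filter_upwards [ae_gen n] with z hz
  apply propext
  change a ≤ (numStableMatchings (Rk z) : ℝ) ↔ a ≤ (nst z : ℝ)
  rw [nst_eq (ind_Rk hz)]

theorem bridge_exp (n : ℕ) :
    ENNReal.ofReal (expectedNumStableMatchings n) = ∫⁻ z, (nst z : ENNReal) ∂(P n) := by
  unfold expectedNumStableMatchings
  rw [ofReal_integral_eq_lintegral_ofReal]
  · rw [← map_Rk, lintegral_map (by exact measurable_from_top) (measurable_Rk n)]
    refine lintegral_congr_ae ?_
    filter_upwards [ae_gen n] with z hz
    rw [nst_eq (ind_Rk hz)]
    exact ENNReal.ofReal_natCast _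
  · exact Integrable.of_finite
  · exact Filter.Eventually.of_forall fun p => Nat.cast_nonneg _

end Pool.Agent.SM
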