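import Pool.Agent.MP_d30e2b_pr.Defs

set_option autoImplicit false

/-!
Task C: combinatorics of stable matchings (lattice decomposition, clean cycles).
-/

namespace Pool.Agent.SM

open Equiv Equiv.Perm

variable {n : ℕ} {z : Conf n} {μ μ' : Perm (Fin n)}

/-! ### decomposition -/

/-- if `i` strictly prefers `μ'`, then the `μ'`-wife of `i` strictly prefers `μ`. -/
lemma wife_worse (hz : Gen z) (h : Stab z μ) {i : Fin n}
    (hi : (z (i, μ' i)).1 < (z (i, μ i)).1) :
    (z (μ.symm (μ' i), μ' i)).2 < (z (i, μ' i)).2 := by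
  have hne : μ i ≠ μ' i := by
    intro e
    rw [e] at hi
    exact lt_irrefl _ hi
  have h1 := h i (μ' i) hne
  have h2 : (z (μ.symm (μ' i), μ' i)).2 ≤ (z (i, μ' i)).2 := by
    by_contra h3
    exact h1 ⟨hi, not_le.mp h3⟩
  refine lt_of_le_of_ne h2 ?_
  intro e
  have := hz.2 (μ' i) e
  apply hne
  rw [Equiv.symm_apply_eq] at this
  exact this.symm

/-- if `i` strictly prefers `μ'`, so does the `μ`-husband of his `μ'`-wife. -/
lemma husband_better (hz : Gen z) (h : Stab z μ) (h' : Stab z μ') {i : Fin n}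
    (hi : (z (i, μ' i)).1 < (z (i, μ i)).1) :
    (z (μ.symm (μ' i), μ' (μ.symm (μ' i)))).1 <
      (z (μ.symm (μ' i), μ (μ.symm (μ' i)))).1 := by
  have h1 := wife_worse hz h hi
  set j := μ.symm (μ' i) with hj
  have hne : j ≠ i := by
    intro e
    rw [e] at h1
    exact lt_irrefl _ h1
  have hμj : μ j = μ' i := by rw [hj, Equiv.apply_symm_apply]
  rw [hμj]
  have hne' : μ' j ≠ μ' i := fun e => hne (μ'.injective e)
  have h2 := h' j (μ' i) hne'
  rw [Equiv.symm_apply_apply] at h2
  have h3 : (z (j, μ' j)).1 ≤ (z (j, μ' i)).1 := by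
    by_contra h3
    exact h2 ⟨not_le.mp h3, h1⟩
  refine lt_of_le_of_ne h3 ?_
  intro e
  exact hne' (hz.1 j e)

/-- a set closed under a permutation of a finite type is stable under it. -/
lemma perm_iff_of_imp {σ : Perm (Fin n)} {p : Fin n → Prop} (h : ∀ x, p x → p (σ x)) :
    ∀ x, p (σ x) ↔ p x := by
  intro x
  refine ⟨fun hx => ?_, h x⟩
  have := Equiv.Perm.perm_symm_on_of_perm_on_finite (f := σ) (p := p) h hx
  simpa using this

/-- the restriction of a permutation to an invariant set. -/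
lemma exists_restrict (σ : Perm (Fin n)) (p : Fin n → Prop) (h : ∀ x, p (σ x) ↔ p x) :
    ∃ τ : Perm (Fin n), (∀ x, p x → τ x = σ x) ∧ (∀ x, ¬ p x → τ x = x) ∧
      (∀ x, p x → τ.symm x = σ.symm x) ∧ (∀ x, ¬ p x → τ.symm x = x) := by
  classical
  refine ⟨Equiv.Perm.ofSubtype (σ.subtypePerm h), ?_, ?_, ?_, ?_⟩
  · intro x hx
    exact Equiv.Perm.ofSubtype_apply_of_mem _ hx
  · intro x hx
    exact Equiv.Perm.ofSubtype_apply_of_not_mem _ hx
  · intro x hx
    rw [Equiv.symm_apply_eq]
    have hx' : p (σ.symm x) := by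
      rw [← h, Equiv.apply_symm_apply]
      exact hx
    have := Equiv.Perm.ofSubtype_apply_of_mem (σ.subtypePerm h) hx'
    rw [this]
    simp
  · intro x hx
    rw [Equiv.symm_apply_eq]
    exact (Equiv.Perm.ofSubtype_apply_of_not_mem _ hx).symm

theorem decomp (hz : Gen z) (h : Stab z μ) (h' : Stab z μ') :
    ∃ υ τ : Perm (Fin n), Upp z μ υ ∧ Low z μ τ ∧ υ.Disjoint τ ∧ μ' = μ * υ * τ ∧
      Low z (μ * υ) υ⁻¹ ∧ Low z (μ * υ) τ := by
  classical
  -- men preferring `μ'`
  set A : Fin n → Prop := fun i => (z (i, μ' i)).1 < (z (i, μ i)).1 with hA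
  set B : Fin n → Prop := fun i => (z (i, μ i)).1 < (z (i, μ' i)).1 with hB
  set σ : Perm (Fin n) := Equiv.trans μ' μ.symm with hσ
  have hσa : ∀ i, σ i = μ.symm (μ' i) := fun i => rfl
  have hσs : ∀ i, σ.symm i = μ'.symm (μ i) := fun i => rfl
  have hμσ : ∀ i, μ (σ i) = μ' i := fun i => by rw [hσa, Equiv.apply_symm_apply]
  have hA1 : ∀ x, A x → A (σ x) := fun x hx => husband_better hz h h' hx
  have hA2 : ∀ x, A (σ x) ↔ A x := perm_iff_of_imp hA1
  have hB1 : ∀ x, B x → B (σ.symm x) := fun x hx => husband_better hz h' h hx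
  have hB2 : ∀ x, B (σ.symm x) ↔ B x := perm_iff_of_imp hB1
  have hB3 : ∀ x, B (σ x) ↔ B x := fun x => by
    rw [← hB2 (σ x), Equiv.symm_apply_apply]
  have hAB : ∀ x, A x → ¬ B x := fun x hx hx' => lt_asymm hx hx'
  have hC : ∀ x, ¬ A x → ¬ B x → μ' x = μ x := by
    intro x hx hx'
    apply hz.1 x
    exact le_antisymm (not_lt.mp hx') (not_lt.mp hx)
  obtain ⟨τ, hτ1, hτ2, hτ3, hτ4⟩ := exists_restrict σ A hA2
  obtain ⟨υ, hυ1, hυ2, hυ3, hυ4⟩ := exists_restrict σ B hB3
  have hτA : ∀ x, τ x ≠ x → A x := fun x hx => by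
    by_contra hn
    exact hx (hτ2 x hn)
  have hυB : ∀ x, υ x ≠ x → B x := fun x hx => by
    by_contra hn
    exact hx (hυ2 x hn)
  have hdisj : υ.Disjoint τ := by
    intro x
    by_cases hx : B x
    · right
      exact hτ2 x (fun hA => hAB x hA hx)
    · left
      exact hυ2 x hx
  -- the women
  -- women whose `μ`-husband is in `A` prefer `μ`
  have hwA : ∀ w, A (μ.symm w) → (z (μ.symm w, w)).2 < (z (μ'.symm w, w)).2 := by
    intro w hw
    have h1 : A (μ'.symm w) := by
      rw [← hA2, hσa, Equiv.apply_symm_apply]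
      exact hw
    have h2 := wife_worse hz h h1
    rw [Equiv.apply_symm_apply] at h2
    exact h2
  have hwB : ∀ w, B (μ.symm w) → (z (μ'.symm w, w)).2 < (z (μ.symm w, w)).2 := by
    intro w hw
    have h2 := wife_worse hz h' hw
    rw [Equiv.apply_symm_apply] at h2
    exact h2
  have hwC : ∀ w, ¬ A (μ.symm w) → ¬ B (μ.symm w) → μ'.symm w = μ.symm w := by
    intro w h1 h2
    have := hC _ h1 h2
    rw [Equiv.symm_apply_eq, this, Equiv.apply_symm_apply]
  -- the meet
  have hmeet : Stab z (μ * τ) := by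
    intro i w hne ⟨hx, hy⟩
    have e1 : (μ * τ).symm w = τ.symm (μ.symm w) := rfl
    rw [e1] at hy
    have hx1 : (z (i, w)).1 < (z (i, μ i)).1 := by
      by_cases hi : A i
      · have e2 : (μ * τ) i = μ' i := by rw [Equiv.Perm.mul_apply, hτ1 i hi, hμσ]
        rw [e2] at hx
        exact hx.trans hi
      · have e2 : (μ * τ) i = μ i := by rw [Equiv.Perm.mul_apply, hτ2 i hi]
        rwa [e2] at hx
    have hx2 : (z (i, w)).1 < (z (i, μ' i)).1 := by
      by_cases hi : A i
      · have e2 : (μ * τ) i = μ' i := by rw [Equiv.Perm.mul_apply, hτ1 i hi, hμσ]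
        rwa [e2] at hx
      · have e2 : (μ * τ) i = μ i := by rw [Equiv.Perm.mul_apply, hτ2 i hi]
        rw [e2] at hx
        exact hx.trans_le (not_lt.mp hi)
    by_cases hw : A (μ.symm w)
    · have e3 : τ.symm (μ.symm w) = μ'.symm w := by
        rw [hτ3 _ hw, hσs, Equiv.apply_symm_apply]
      rw [e3] at hy
      refine h' i w ?_ ⟨hx2, hy⟩
      intro e
      rw [e] at hx2
      exact lt_irrefl _ hx2
    · rw [hτ4 _ hw] at hy
      refine h i w ?_ ⟨hx1, hy⟩
      intro e
      rw [e] at hx1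
      exact lt_irrefl _ hx1
  -- the join
  have hjoin : Stab z (μ * υ) := by
    intro i w hne ⟨hx, hy⟩
    have e1 : (μ * υ).symm w = υ.symm (μ.symm w) := rfl
    rw [e1] at hy
    have hy12 : (z (i, w)).2 < (z (μ.symm w, w)).2 ∧ (z (i, w)).2 < (z (μ'.symm w, w)).2 := by
      by_cases hw : B (μ.symm w)
      · have e3 : υ.symm (μ.symm w) = μ'.symm w := by
          rw [hυ3 _ hw, hσs, Equiv.apply_symm_apply]
        rw [e3] at hy
        exact ⟨hy.trans (hwB w hw), hy⟩
      · rw [hυ4 _ hw] at hy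
        refine ⟨hy, ?_⟩
        by_cases hw' : A (μ.symm w)
        · exact hy.trans (hwA w hw')
        · rw [hwC w hw' hw]
          exact hy
    by_cases hi : B i
    · have e2 : (μ * υ) i = μ' i := by rw [Equiv.Perm.mul_apply, hυ1 i hi, hμσ]
      rw [e2] at hx
      refine h' i w ?_ ⟨hx, hy12.2⟩
      intro e
      rw [e] at hx
      exact lt_irrefl _ hx
    · have e2 : (μ * υ) i = μ i := by rw [Equiv.Perm.mul_apply, hυ2 i hi]
      rw [e2] at hx
      refine h i w ?_ ⟨hx, hy12.1⟩
      intro e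
      rw [e] at hx
      exact lt_irrefl _ hx
  -- costs
  have hτcost : ∀ i, τ i ≠ i → (mx z (μ * τ) i < mx z μ i ∧ wy z μ (τ i) < wy z (μ * τ) i) := by
    intro i hi
    have hAi := hτA i hi
    have e2 : (μ * τ) i = μ' i := by rw [Equiv.Perm.mul_apply, hτ1 i hAi, hμσ]
    have e3 : τ i = μ.symm (μ' i) := by rw [hτ1 i hAi, hσa]
    refine ⟨?_, ?_⟩
    · unfold mx
      rw [e2]
      exact hAi
    · unfold wy
      rw [e2, e3, Equiv.apply_symm_apply]
      exact wife_worse hz h hAi
  have hυcost : ∀ i, υ i ≠ i → (mx z μ i < mx z (μ * υ) i ∧ wy z (μ * υ) i < wy z μ (υ i)) := by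
    intro i hi
    have hBi := hυB i hi
    have e2 : (μ * υ) i = μ' i := by rw [Equiv.Perm.mul_apply, hυ1 i hBi, hμσ]
    have e3 : υ i = μ.symm (μ' i) := by rw [hυ1 i hBi, hσa]
    refine ⟨?_, ?_⟩
    · unfold mx
      rw [e2]
      exact hBi
    · unfold wy
      rw [e2, e3, Equiv.apply_symm_apply]
      have hw : B (μ.symm (μ' i)) := by
        rw [← hσa, hB3]
        exact hBi
      have := hwB (μ' i) hw
      rwa [Equiv.symm_apply_apply] at this
  have hprod : μ' = μ * υ * τ := by
    ext i : 1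
    rw [Equiv.Perm.mul_apply, Equiv.Perm.mul_apply]
    by_cases hAi : A i
    · have hBn : ¬ B (σ i) := by
        rw [hB3]
        exact hAB i hAi
      rw [hτ1 i hAi, hυ2 _ hBn, hμσ]
    · rw [hτ2 i hAi]
      by_cases hBi : B i
      · rw [hυ1 i hBi, hμσ]
      · rw [hυ2 i hBi, hC i hAi hBi]
  refine ⟨υ, τ, ⟨hjoin, hυcost⟩, ⟨hmeet, hτcost⟩, hdisj, hprod, ⟨?_, ?_⟩, ⟨?_, ?_⟩⟩
  · rw [mul_inv_cancel_right]
    exact h
  · intro i hi
    rw [mul_inv_cancel_right]
    set k := υ⁻¹ i with hk
    have hki : υ k = i := by rw [hk]; simp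
    have hk' : υ k ≠ k := by
      rw [hki]
      exact fun e => hi e.symm
    have hk2 : υ i ≠ i := by
      intro e
      apply hk'
      have : k = i := by
        apply υ.injective
        rw [hki, e]
      rw [this, e]
    have h1 := (hυcost i hk2).1
    have h2 := (hυcost k hk').2
    rw [hki] at h2
    exact ⟨h1, h2⟩
  · rw [← hprod]
    exact h'
  · intro i hi
    have h1 := hτcost i hi
    have hAi := hτA i hi
    have hυi : υ i = i := hυ2 i (hAB i hAi)
    have hAt : A (τ i) := by
      rw [hτ1 i hAi, hA2]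
      exact hAi
    have hυt : υ (τ i) = τ i := hυ2 _ (hAB _ hAt)
    have e1 : mx z (μ * υ * τ) i = mx z (μ * τ) i := by
      unfold mx
      rw [Equiv.Perm.mul_apply, Equiv.Perm.mul_apply, Equiv.Perm.mul_apply, hυt]
    have e2 : mx z (μ * υ) i = mx z μ i := by
      unfold mx
      rw [Equiv.Perm.mul_apply, hυi]
    have e3 : wy z (μ * υ) (τ i) = wy z μ (τ i) := by
      unfold wy
      rw [Equiv.Perm.mul_apply, hυt]
    have e4 : wy z (μ * υ * τ) i = wy z (μ * τ) i := by
      unfold wy
      rw [Equiv.Perm.mul_apply, Equiv.Perm.mul_apply, Equiv.Perm.mul_apply, hυt]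
    rw [e1, e2, e3, e4]
    exact h1

/-! ### clean cycles -/

/-- if a low, clean `τ` agrees with `c` on the support of `c`, then `c` is low and clean. -/
lemma low_clean_of_factor (h : Stab z μ) {τ c : Perm (Fin n)} (hl : Low z μ τ)
    (hcl : Clean z μ τ) (hc : c ∈ τ.cycleFactorsFinset) : Low z μ c ∧ Clean z μ c := by
  have hag : ∀ a, c a ≠ a → c a = τ a := fun a ha =>
    (mem_cycleFactorsFinset_iff.mp hc).2 a (mem_support.mpr ha)
  have hmv : ∀ a, c a ≠ a → τ a ≠ a := fun a ha => by
    rw [← hag a ha]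
    exact ha
  have hsymm : ∀ j, c j ≠ j → c.symm j = τ.symm j := by
    intro j hj
    set k := c.symm j with hk
    have hck : c k = j := by rw [hk, Equiv.apply_symm_apply]
    have hkk : c k ≠ k := by
      rw [hck]
      intro e
      apply hj
      rw [← e] at hck
      exact hck
    rw [Equiv.eq_symm_apply, ← hag k hkk, hck]
  have hcost : ∀ i, c i ≠ i → (mx z (μ * c) i < mx z μ i ∧ wy z μ (c i) < wy z (μ * c) i) := by
    intro i hi
    have h1 := hl.2 i (hmv i hi)
    have e1 : mx z (μ * c) i = mx z (μ * τ) i := by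
      unfold mx
      rw [Equiv.Perm.mul_apply, Equiv.Perm.mul_apply, hag i hi]
    have e2 : wy z (μ * c) i = wy z (μ * τ) i := by
      unfold wy
      rw [Equiv.Perm.mul_apply, Equiv.Perm.mul_apply, hag i hi]
    rw [e1, e2, hag i hi]
    exact h1
  refine ⟨⟨?_, hcost⟩, ?_⟩
  · intro i w hne ⟨hx, hy⟩
    have e1 : (μ * c).symm w = c.symm (μ.symm w) := rfl
    rw [e1] at hy
    set j := μ.symm w with hj
    have hw : μ j = w := by rw [hj, Equiv.apply_symm_apply]
    have hx0 : (z (i, w)).1 < (z (i, μ i)).1 := by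
      by_cases hi : c i = i
      · have : (μ * c) i = μ i := by rw [Equiv.Perm.mul_apply, hi]
        rwa [this] at hx
      · exact hx.trans (hcost i hi).1
    by_cases hcj : c j = j
    · have e2 : c.symm j = j := by rw [Equiv.symm_apply_eq, hcj]
      rw [e2] at hy
      refine h i w ?_ ⟨hx0, hy⟩
      intro e
      rw [e] at hx0
      exact lt_irrefl _ hx0
    · rw [hsymm j hcj] at hy
      by_cases hi : c i = i
      · by_cases hti : τ i = i
        · have e3 : (μ * τ) i = μ i := by rw [Equiv.Perm.mul_apply, hti]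
          refine hl.1 i w ?_ ⟨?_, hy⟩
          · rw [e3]
            intro e
            rw [e] at hx0
            exact lt_irrefl _ hx0
          · rw [e3]
            exact hx0
        · refine hcl i j hti (hmv j hcj) ⟨?_, ?_⟩
          · rw [hw]
            exact hx0
          · have e4 : (μ * τ) (τ.symm j) = w := by
              rw [Equiv.Perm.mul_apply, Equiv.apply_symm_apply, hw]
            unfold wy
            rw [e4, hw]
            exact hy
      · have e3 : (μ * c) i = (μ * τ) i := by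
          rw [Equiv.Perm.mul_apply, Equiv.Perm.mul_apply, hag i hi]
        rw [e3] at hx
        refine hl.1 i w ?_ ⟨hx, hy⟩
        rw [← e3]
        exact hne
  · intro i j hi hj ⟨hx, hy⟩
    refine hcl i j (hmv i hi) (hmv j hj) ⟨hx, ?_⟩
    unfold wy at hy ⊢
    rw [Equiv.Perm.mul_apply, Equiv.apply_symm_apply] at hy ⊢
    rw [← hsymm j hj]
    exact hy

open Classical in
theorem clean_card_le (hz : Gen z) (h : Stab z μ) (L : ℕ) :
    (Finset.univ.filter fun τ : Perm (Fin n) =>
        Low z μ τ ∧ Clean z μ τ ∧ τ.support.card ≤ L).card ≤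
      2 ^ (Finset.univ.filter fun c : Perm (Fin n) =>
        Low z μ c ∧ Clean z μ c ∧ c.IsCycle ∧ c.support.card ≤ L).card := by
  have _ := hz
  rw [← Finset.card_powerset]
  refine Finset.card_le_card_of_injOn (fun τ => τ.cycleFactorsFinset) ?_ ?_
  · intro τ hτ
    simp only [Finset.coe_filter, Finset.mem_univ, true_and, Set.mem_ofPred_eq] at hτ
    obtain ⟨h1, h2, h3⟩ := hτ
    simp only [Finset.coe_powerset, Set.mem_preimage, Set.mem_powerset_iff]
    intro c hc
    have hc' : c ∈ τ.cycleFactorsFinset := by exact_mod_cast hc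
    simp only [Finset.coe_filter, Finset.mem_univ, true_and, Set.mem_ofPred_eq]
    obtain ⟨h4, h5⟩ := low_clean_of_factor h h1 h2 hc'
    refine ⟨h4, h5, (mem_cycleFactorsFinset_iff.mp hc').1, le_trans ?_ h3⟩
    exact Finset.card_le_card (mem_cycleFactorsFinset_support_le hc')
  · intro τ _ τ' _ e
    exact Equiv.Perm.cycleFactorsFinset_injective e

/-- two clean low cycles with a common moved point agree (inverse) at it. -/
lemma inv_eq_of_clean (hz : Gen z) {c c' : Perm (Fin n)} (hl : Low z μ c)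
    (hcl : Clean z μ c) (hl' : Low z μ c') (hcl' : Clean z μ c') {j : Fin n}
    (hj : c j ≠ j) (hj' : c' j ≠ j) : c.symm j = c'.symm j := by
  -- one half
  have key : ∀ d d' : Perm (Fin n), Low z μ d → Low z μ d' → Clean z μ d' →
      d j ≠ j → d' j ≠ j →
      ¬ (z (d.symm j, μ j)).2 < (z (d'.symm j, μ j)).2 := by
    intro d d' hd hd' hcd' hdj hdj' hlt
    set m := d.symm j with hm
    have hdm : d m = j := by rw [hm, Equiv.apply_symm_apply]
    have hmm : d m ≠ m := by
      rw [hdm]
      intro e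
      rw [← e] at hdm
      exact hdj hdm
    have hx : (z (m, μ j)).1 < (z (m, μ m)).1 := by
      have := (hd.2 m hmm).1
      unfold mx at this
      rwa [Equiv.Perm.mul_apply, hdm] at this
    by_cases hd'm : d' m = m
    · have e1 : (μ * d') m = μ m := by rw [Equiv.Perm.mul_apply, hd'm]
      have e2 : (μ * d').symm (μ j) = d'.symm j := by
        change d'.symm (μ.symm (μ j)) = _
        rw [Equiv.symm_apply_apply]
      refine hd'.1 m (μ j) ?_ ⟨?_, ?_⟩
      · rw [e1]
        intro e
        rw [e] at hx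
        exact lt_irrefl _ hx
      · rw [e1]
        exact hx
      · rw [e2]
        exact hlt
    · refine hcd' m j hd'm hdj' ⟨?_, ?_⟩
      · exact hx
      · unfold wy
        rw [Equiv.Perm.mul_apply, Equiv.apply_symm_apply]
        exact hlt
  have h1 := key c c' hl hl' hcl' hj hj'
  have h2 := key c' c hl' hl hcl hj' hj
  exact hz.2 (μ j) (le_antisymm (not_lt.mp h2) (not_lt.mp h1))

lemma clean_cycles_disjoint (hz : Gen z) {c c' : Perm (Fin n)} (hl : Low z μ c)
    (hcl : Clean z μ c) (hc : c.IsCycle) (hl' : Low z μ c') (hcl' : Clean z μ c')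
    (hc' : c'.IsCycle) (hne : c ≠ c') : c.Disjoint c' := by
  intro j
  by_contra hcon
  push Not at hcon
  obtain ⟨hj, hj'⟩ := hcon
  apply hne
  have h1 : c⁻¹ = c'⁻¹ := by
    apply Equiv.Perm.IsCycle.eq_on_support_inter_nonempty_congr (x := j) hc.inv hc'.inv
    · intro x hx
      rw [Finset.mem_inter, Equiv.Perm.support_inv, Equiv.Perm.support_inv, mem_support,
        mem_support] at hx
      exact inv_eq_of_clean hz hl hcl hl' hcl' hx.1 hx.2
    · exact inv_eq_of_clean hz hl hcl hl' hcl' hj hj'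
    · rw [Equiv.Perm.support_inv, mem_support]
      exact hj
  exact inv_injective h1

open Classical in
theorem choose_clean_le (hz : Gen z) (h : Stab z μ) (L j : ℕ) :
    (Finset.univ.filter fun c : Perm (Fin n) =>
        Low z μ c ∧ Clean z μ c ∧ c.IsCycle ∧ c.support.card ≤ L).card.choose j ≤
      (Finset.univ.filter fun τ : Perm (Fin n) =>
        Low z μ τ ∧ τ.cycleType.card = j ∧ ∀ l ∈ τ.cycleType, l ≤ L).card := by
  set S := Finset.univ.filter fun c : Perm (Fin n) =>
        Low z μ c ∧ Clean z μ c ∧ c.IsCycle ∧ c.support.card ≤ L with hS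
  rw [← Finset.card_powersetCard]
  have hSm : ∀ c, c ∈ S ↔ (Low z μ c ∧ Clean z μ c ∧ c.IsCycle ∧ c.support.card ≤ L) := by
    intro c
    rw [hS, Finset.mem_filter]
    simp
  have hex : ∀ T ∈ S.powersetCard j, ∃ τ : Perm (Fin n), τ.cycleFactorsFinset = T := by
    intro T hT
    rw [Finset.mem_powersetCard] at hT
    have hd : (T : Set (Perm (Fin n))).Pairwise Equiv.Perm.Disjoint := by
      intro c hc c' hc' hne
      have h1 := (hSm c).mp (hT.1 hc)
      have h2 := (hSm c').mp (hT.1 hc')
      exact clean_cycles_disjoint hz h1.1 h1.2.1 h1.2.2.1 h2.1 h2.2.1 h2.2.2.1 hne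
    refine ⟨T.noncommProd id (hd.mono' fun _ _ => Equiv.Perm.Disjoint.commute), ?_⟩
    rw [cycleFactorsFinset_eq_finset]
    exact ⟨fun f hf => ((hSm f).mp (hT.1 hf)).2.2.1, hd, rfl⟩
  choose! g hg using hex
  refine Finset.card_le_card_of_injOn g ?_ ?_
  · intro T hT
    have hT' : T ∈ S.powersetCard j := by exact_mod_cast hT
    have hgT := hg T hT'
    rw [Finset.mem_powersetCard] at hT'
    set τ := g T with hτ
    simp only [Finset.coe_filter, Finset.mem_univ, true_and, Set.mem_ofPred_eq]
    have hfac : ∀ c ∈ τ.cycleFactorsFinset, Low z μ c ∧ Clean z μ c ∧ c.IsCycle ∧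
        c.support.card ≤ L := by
      intro c hc
      rw [hgT] at hc
      exact (hSm c).mp (hT'.1 hc)
    have hmem : ∀ a, τ a ≠ a → ∃ c ∈ τ.cycleFactorsFinset, c a ≠ a := by
      intro a ha
      obtain ⟨c, hc, hc'⟩ := mem_support_iff_mem_support_of_mem_cycleFactorsFinset.mp
        (mem_support.mpr ha)
      exact ⟨c, hc, mem_support.mp hc'⟩
    have hag : ∀ c ∈ τ.cycleFactorsFinset, ∀ a, c a ≠ a → c a = τ a := fun c hc a ha =>
      (mem_cycleFactorsFinset_iff.mp hc).2 a (mem_support.mpr ha)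
    have hsymm : ∀ c ∈ τ.cycleFactorsFinset, ∀ j, c j ≠ j → c.symm j = τ.symm j := by
      intro c hc j hj
      set k := c.symm j with hk
      have hck : c k = j := by rw [hk, Equiv.apply_symm_apply]
      have hkk : c k ≠ k := by
        rw [hck]
        intro e
        apply hj
        rw [← e] at hck
        exact hck
      rw [Equiv.eq_symm_apply, ← hag c hc k hkk, hck]
    have hcost : ∀ i, τ i ≠ i →
        (mx z (μ * τ) i < mx z μ i ∧ wy z μ (τ i) < wy z (μ * τ) i) := by
      intro i hi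
      obtain ⟨c, hc, hci⟩ := hmem i hi
      have h1 := (hfac c hc).1.2 i hci
      have e1 : mx z (μ * c) i = mx z (μ * τ) i := by
        unfold mx
        rw [Equiv.Perm.mul_apply, Equiv.Perm.mul_apply, hag c hc i hci]
      have e2 : wy z (μ * c) i = wy z (μ * τ) i := by
        unfold wy
        rw [Equiv.Perm.mul_apply, Equiv.Perm.mul_apply, hag c hc i hci]
      rw [e1, e2, hag c hc i hci] at h1
      exact h1
    refine ⟨⟨?_, hcost⟩, ?_, ?_⟩
    · intro i w hne ⟨hx, hy⟩
      have e1 : (μ * τ).symm w = τ.symm (μ.symm w) := rfl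
      rw [e1] at hy
      set k := μ.symm w with hk
      have hx0 : (z (i, w)).1 < (z (i, μ i)).1 := by
        by_cases hi : τ i = i
        · have : (μ * τ) i = μ i := by rw [Equiv.Perm.mul_apply, hi]
          rwa [this] at hx
        · exact hx.trans (hcost i hi).1
      by_cases hτk : τ k = k
      · have e2 : τ.symm k = k := by rw [Equiv.symm_apply_eq, hτk]
        rw [e2] at hy
        refine h i w ?_ ⟨hx0, hy⟩
        intro e
        rw [e] at hx0
        exact lt_irrefl _ hx0
      · obtain ⟨c, hc, hck⟩ := hmem k hτk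
        have e2 : (μ * c).symm w = τ.symm k := by
          change c.symm (μ.symm w) = _
          rw [← hk, hsymm c hc k hck]
        have hx1 : (z (i, w)).1 < (z (i, (μ * c) i)).1 := by
          by_cases hci : c i = i
          · have : (μ * c) i = μ i := by rw [Equiv.Perm.mul_apply, hci]
            rw [this]
            exact hx0
          · have : (μ * c) i = (μ * τ) i := by
              rw [Equiv.Perm.mul_apply, Equiv.Perm.mul_apply, hag c hc i hci]
            rw [this]
            exact hx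
        refine (hfac c hc).1.1 i w ?_ ⟨hx1, ?_⟩
        · intro e
          rw [e] at hx1
          exact lt_irrefl _ hx1
        · rw [e2]
          exact hy
    · rw [cycleType_def, Multiset.card_map, Finset.card_val, hgT]
      exact hT'.2
    · intro l hl
      rw [cycleType_def, Multiset.mem_map] at hl
      obtain ⟨c, hc, rfl⟩ := hl
      exact (hfac c (by exact_mod_cast hc)).2.2.2
  · intro T hT T' hT' e
    have h1 := hg T (by exact_mod_cast hT)
    have h2 := hg T' (by exact_mod_cast hT')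
    rw [← h1, ← h2, e]

end Pool.Agent.SM
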