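import Pool.Agent.MP_d30e2b_pr.Unclean
import Pool.Agent.MP_d30e2b_pr.T12
import Pool.Agent.MP_d30e2b_pr.TaskC

set_option autoImplicit false

/-! Task D: the truncation costs little -/

namespace Pool.Agent.SM.TaskD

open MeasureTheory Set Pool.Agent.SM
open scoped ENNReal

section
variable {n : ℕ}

open Classical in
/-- number of clean lower cycles of length at most `2 L` -/
noncomputable def KK (z : Conf n) (μ : Equiv.Perm (Fin n)) (L : ℕ) : ℕ :=
  (Finset.univ.filter fun c : Equiv.Perm (Fin n) =>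
        Low z μ c ∧ Clean z μ c ∧ c.IsCycle ∧ c.support.card ≤ 2 * L).card

open Classical in
/-- number of unclean lower matchings at distance less than `2 L` -/
noncomputable def UU (z : Conf n) (μ : Equiv.Perm (Fin n)) (L : ℕ) : ℕ :=
  (Finset.univ.filter fun τ : Equiv.Perm (Fin n) =>
        Low z μ τ ∧ ¬ Clean z μ τ ∧ τ.support.card < 2 * L).card

theorem DD_le {z : Conf n} {μ : Equiv.Perm (Fin n)} (hz : Gen z) (h : Stab z μ) (L : ℕ) :
    DD z μ L ≤ 2 ^ KK z μ L + UU z μ L := by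
  classical
  have h1 := clean_card_le hz h (2 * L)
  refine le_trans ?_ (Nat.add_le_add_right h1 _)
  unfold DD UU
  refine (Finset.card_le_card ?_).trans (Finset.card_union_le _ _)
  intro τ hτ
  simp only [Finset.mem_filter, Finset.mem_univ, true_and, Finset.mem_union] at hτ ⊢
  by_cases hc : Clean z μ τ
  · exact Or.inl ⟨hτ.1, hc, hτ.2.2.le⟩
  · exact Or.inr ⟨hτ.1, hc, hτ.2.2⟩

open Classical in
theorem UU_eq (z : Conf n) (μ : Equiv.Perm (Fin n)) (L : ℕ) :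
    (UU z μ L : ℝ≥0∞) = ∑ k ∈ Finset.range (2 * L), ∑ τ : Equiv.Perm (Fin n),
      (if Low z μ τ ∧ ¬ Clean z μ τ ∧ τ.support.card = k then (1 : ℝ≥0∞) else 0) := by
  rw [Finset.sum_comm]
  unfold UU
  rw [Finset.card_filter]
  push_cast
  refine Finset.sum_congr rfl fun τ _ => ?_
  by_cases h1 : Low z μ τ ∧ ¬ Clean z μ τ
  · by_cases h2 : τ.support.card < 2 * L
    · rw [if_pos ⟨h1.1, h1.2, h2⟩, Finset.sum_eq_single τ.support.card]
      · simp [h1.1, h1.2]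
      · intro k _ hk
        rw [if_neg]
        rintro ⟨-, -, h3⟩
        exact hk h3.symm
      · intro h3
        exact absurd (Finset.mem_range.mpr h2) h3
    · rw [if_neg (by tauto)]
      symm
      refine Finset.sum_eq_zero fun k hk => ?_
      rw [if_neg]
      rintro ⟨-, -, h3⟩
      rw [Finset.mem_range] at hk
      omega
  · rw [if_neg (by tauto)]
    symm
    refine Finset.sum_eq_zero fun k _ => ?_
    rw [if_neg]
    tauto

open Classical in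
/-- expected number of unclean matchings -/
theorem unclean_part {τ₁ τ₂ : ℝ} (h1 : 4 ≤ τ₁) (h2 : τ₁ ≤ τ₂) {L : ℕ} (hL : 2 * L < n) (c : ℝ≥0∞) :
    ∫⁻ z, ∑ μ : Equiv.Perm (Fin n), (if Stab z μ ∧ Win τ₁ τ₂ (tt z μ) then c * (UU z μ L : ℝ≥0∞)
      else 0) ∂(P n)
    ≤ c * ∑ k ∈ Finset.range (2 * L), ENNReal.ofReal (Real.exp 11 * Real.log (τ₂ / τ₁) *
      (n : ℝ) ^ 2 * (k : ℝ) ^ 2 / ((n - k) * (n - k - 1))) := by
  have hm : ∀ k : ℕ, Measurable fun z : Conf n => ∑ μ : Equiv.Perm (Fin n),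
      ∑ τ : Equiv.Perm (Fin n),
      (if Stab z μ ∧ Win τ₁ τ₂ (tt z μ) ∧ Low z μ τ ∧ ¬ Clean z μ τ ∧ τ.support.card = k
        then (1 : ℝ≥0∞) else 0) := by
    intro k
    refine Finset.measurable_sum _ fun μ _ => Finset.measurable_sum _ fun τ _ => ?_
    exact Measurable.ite (ms_and (meas_Stab μ) (ms_and (meas_Win μ _ _) (ms_and (meas_Low μ τ)
      (ms_and (ms_not (meas_Clean μ τ)) (ms_const _))))) measurable_const measurable_const
  have e1 : ∀ z : Conf n, ∑ μ : Equiv.Perm (Fin n), (if Stab z μ ∧ Win τ₁ τ₂ (tt z μ)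
      then c * (UU z μ L : ℝ≥0∞) else 0)
      = c * ∑ k ∈ Finset.range (2 * L), ∑ μ : Equiv.Perm (Fin n), ∑ τ : Equiv.Perm (Fin n),
      (if Stab z μ ∧ Win τ₁ τ₂ (tt z μ) ∧ Low z μ τ ∧ ¬ Clean z μ τ ∧ τ.support.card = k
        then (1 : ℝ≥0∞) else 0) := by
    intro z
    rw [Finset.sum_comm, Finset.mul_sum]
    refine Finset.sum_congr rfl fun μ _ => ?_
    by_cases h3 : Stab z μ ∧ Win τ₁ τ₂ (tt z μ)
    · rw [if_pos h3, UU_eq]
      congr 1
      refine Finset.sum_congr rfl fun k _ => Finset.sum_congr rfl fun τ _ => ?_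
      refine if_congr ?_ rfl rfl
      tauto
    · rw [if_neg h3]
      symm
      rw [mul_eq_zero]
      right
      refine Finset.sum_eq_zero fun k _ => Finset.sum_eq_zero fun τ _ => ?_
      rw [if_neg]
      tauto
  simp_rw [e1]
  rw [lintegral_const_mul _ (Finset.measurable_sum _ fun k _ => hm k),
    lintegral_finsetSum _ fun k _ => hm k]
  refine mul_le_mul_right (Finset.sum_le_sum fun k hk => ?_) _
  rw [Finset.mem_range] at hk
  exact exp_unclean n τ₁ τ₂ h1 h2 k (by omega)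

open Classical in
/-- few clean cycles -/
theorem clean_part {τ₁ τ₂ : ℝ} (h1 : 4 ≤ τ₁) (h2 : τ₁ ≤ τ₂) {L j m : ℕ} (hL : 2 * L * j < n)
    (hjm : j ≤ m) :
    ∫⁻ z, ∑ μ : Equiv.Perm (Fin n), (if Stab z μ ∧ Win τ₁ τ₂ (tt z μ) ∧ m ≤ KK z μ L
      then (1 : ℝ≥0∞) else 0) ∂(P n)
    ≤ ENNReal.ofReal (1 / (m.choose j : ℝ)) *
      ENNReal.ofReal (Real.exp 9 * Real.log (τ₂ / τ₁) * (n : ℝ) ^ 2 / (n - (2 * L : ℕ) * j) *
      ((∑ l ∈ Finset.Icc 2 (2 * L), (1 : ℝ) / l) ^ j / j.factorial)) := by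
  have hc0 : 0 < m.choose j := Nat.choose_pos hjm
  refine le_trans ?_ (mul_le_mul_right (exp_cycles n τ₁ τ₂ h1 h2 (2 * L) j hL) _)
  rw [← lintegral_const_mul' _ _ ENNReal.ofReal_ne_top]
  refine lintegral_mono_ae ?_
  filter_upwards [ae_gen n] with z hz
  rw [Finset.mul_sum]
  refine Finset.sum_le_sum fun μ _ => ?_
  by_cases h3 : Stab z μ ∧ Win τ₁ τ₂ (tt z μ) ∧ m ≤ KK z μ L
  · rw [if_pos h3]
    have h4 := choose_clean_le hz h3.1 (2 * L) j
    have h5 : m.choose j ≤ (KK z μ L).choose j := Nat.choose_le_choose j h3.2.2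
    have h6 := h5.trans h4
    have e2 : ∑ τ : Equiv.Perm (Fin n), (if Stab z μ ∧ Win τ₁ τ₂ (tt z μ) ∧ Low z μ τ ∧
        τ.cycleType.card = j ∧ (∀ l ∈ τ.cycleType, l ≤ 2 * L) then (1 : ℝ≥0∞) else 0)
        = (((Finset.univ.filter fun τ : Equiv.Perm (Fin n) =>
        Low z μ τ ∧ τ.cycleType.card = j ∧ ∀ l ∈ τ.cycleType, l ≤ 2 * L).card : ℕ) : ℝ≥0∞) := by
      rw [Finset.card_filter]
      push_cast
      refine Finset.sum_congr rfl fun τ _ => ?_
      refine if_congr ?_ rfl rfl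
      tauto
    rw [e2]
    calc (1 : ℝ≥0∞) = ENNReal.ofReal (1 / (m.choose j : ℝ)) * ((m.choose j : ℕ) : ℝ≥0∞) := by
          rw [← ENNReal.ofReal_natCast, ← ENNReal.ofReal_mul (by positivity)]
          have : ((m.choose j : ℕ) : ℝ) ≠ 0 := by positivity
          rw [one_div, inv_mul_cancel₀ this, ENNReal.ofReal_one]
      _ ≤ _ := mul_le_mul_right (by exact_mod_cast h6) _
  · rw [if_neg h3]
    exact zero_le

end

/-! numerical estimates -/

theorem harm_le (a : ℕ) : ∑ l ∈ Finset.Icc (2:ℕ) (2 * 2 ^ a), (1 : ℝ) / (l : ℝ) ≤ (a + 1) * Real.log 2 := by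
  have h : ∀ m : ℕ, 1 ≤ m → ∑ l ∈ Finset.Icc (2:ℕ) m, (1 : ℝ) / (l : ℝ) ≤ Real.log m := by
    intro m hm
    induction m, hm using Nat.le_induction with
    | base => simp
    | succ m hm ih =>
      rw [Finset.sum_Icc_succ_top (by omega)]
      have hm0 : (0:ℝ) < m := by exact_mod_cast hm
      have h1 : Real.log ((m:ℝ) / (m + 1)) ≤ (m:ℝ) / (m + 1) - 1 :=
        Real.log_le_sub_one_of_pos (by positivity)
      rw [Real.log_div (by positivity) (by positivity)] at h1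
      have h2 : (m:ℝ) / (m + 1) - 1 = -(1 / (m + 1)) := by field_simp; ring
      push_cast
      rw [h2] at h1
      linarith
  have h1 := h (2 * 2 ^ a) (by
    have : 1 ≤ 2 ^ a := Nat.one_le_two_pow
    omega)
  refine h1.trans (le_of_eq ?_)
  push_cast
  rw [← pow_succ', Real.log_pow]
  push_cast
  ring

theorem rat_le {a h : ℕ} (ha : 40 * h + 40 ≤ a) :
    ((a + 1) * Real.log 2) ^ (a / 5) / (a / 5).factorial * (1 / ((a - h).choose (a / 5) : ℝ))
      ≤ (9 / 10) ^ (a / 5) := by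
  set j := a / 5 with hj
  set m := a - h with hm
  have hjm : j ≤ m := by omega
  have hdesc : ((m + 1 - j : ℕ) : ℝ) ^ j ≤ (m.descFactorial j : ℝ) := by
    exact_mod_cast Nat.pow_sub_le_descFactorial m j
  have hfac : (m.descFactorial j : ℝ) = j.factorial * m.choose j := by
    exact_mod_cast Nat.descFactorial_eq_factorial_mul_choose m j
  have hb : (a + 1) * Real.log 2 ≤ 9 / 10 * ((m + 1 - j : ℕ) : ℝ) := by
    have hlog : Real.log 2 < 0.6931471808 := Real.log_two_lt_d9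
    have h5 : (j : ℝ) ≤ a / 5 := by
      rw [hj]
      exact Nat.cast_div_le
    have h6 : ((m + 1 - j : ℕ) : ℝ) = a - h + 1 - j := by
      rw [Nat.cast_sub (by omega)]
      push_cast
      rw [hm, Nat.cast_sub (by omega)]
    rw [h6]
    have h7 : (40 * h + 40 : ℝ) ≤ a := by exact_mod_cast ha
    have h8 : (0:ℝ) ≤ h := Nat.cast_nonneg h
    nlinarith
  have hlog0 : 0 ≤ Real.log 2 := Real.log_nonneg (by norm_num)
  have hD0 : 0 < ((m + 1 - j : ℕ) : ℝ) := by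
    have : 0 < m + 1 - j := by omega
    exact_mod_cast this
  have hc0 : (0:ℝ) < m.choose j := by exact_mod_cast Nat.choose_pos hjm
  calc ((a + 1) * Real.log 2) ^ j / j.factorial * (1 / (m.choose j : ℝ))
      = ((a + 1) * Real.log 2) ^ j / (m.descFactorial j : ℝ) := by
        rw [hfac]
        field_simp
    _ ≤ (9 / 10 * ((m + 1 - j : ℕ) : ℝ)) ^ j / ((m + 1 - j : ℕ) : ℝ) ^ j := by
        gcongr
    _ = (9 / 10) ^ j := by
        rw [mul_pow]
        field_simp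

theorem pow_le (a : ℕ) : ((9:ℝ) / 10) ^ (a / 5) ≤ 2 * (49 / 50) ^ a := by
  have h1 : ((9:ℝ) / 10) ^ (a / 5) ≤ ((49 / 50) ^ 5) ^ (a / 5) := by
    refine pow_le_pow_left₀ (by norm_num) (by norm_num) _
  rw [← pow_mul] at h1
  refine h1.trans ?_
  have h2 : ((49:ℝ) / 50) ^ a = (49 / 50) ^ (5 * (a / 5)) * (49 / 50) ^ (a % 5) := by
    rw [← pow_add, Nat.div_add_mod]
  rw [h2]
  have h3 : (1:ℝ) / 2 ≤ (49 / 50) ^ (a % 5) := by
    have h4 : a % 5 ≤ 4 := by omega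
    calc (1:ℝ) / 2 ≤ (49 / 50) ^ 4 := by norm_num
      _ ≤ _ := pow_le_pow_of_le_one (by norm_num) (by norm_num) h4
  have h5 : (0:ℝ) < (49 / 50) ^ (5 * (a / 5)) := by positivity
  nlinarith

theorem geo_le (a₀ M : ℕ) : ∑ a ∈ Finset.Icc a₀ M, ((49:ℝ) / 50) ^ a ≤ 50 * (49 / 50) ^ a₀ := by
  rcases Nat.lt_or_ge M a₀ with h | h
  · rw [Finset.Icc_eq_empty (by omega)]
    simp
    positivity
  · have h1 : ∑ a ∈ Finset.Icc a₀ M, ((49:ℝ) / 50) ^ a
        = ((49:ℝ) / 50) ^ a₀ * ∑ i ∈ Finset.range (M + 1 - a₀), ((49:ℝ) / 50) ^ i := by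
      rw [← Finset.Ico_add_one_right_eq_Icc, Finset.sum_Ico_eq_sum_range, Finset.mul_sum]
      refine Finset.sum_congr rfl fun i _ => ?_
      rw [pow_add]
    rw [h1, geom_sum_eq (by norm_num)]
    have h2 : (0:ℝ) < (49 / 50) ^ (M + 1 - a₀) := by positivity
    have h3 : (0:ℝ) < (49 / 50) ^ a₀ := by positivity
    have h4 : (((49:ℝ) / 50) ^ (M + 1 - a₀) - 1) / (49 / 50 - 1)
        = 50 * (1 - (49 / 50) ^ (M + 1 - a₀)) := by ring
    rw [h4]
    nlinarith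


section
variable {n : ℕ}

theorem point_le {z : Conf n} {μ : Equiv.Perm (Fin n)} (hz : Gen z) (hS : Stab z μ) {a h : ℕ}
    {η : ℝ} (hη : 0 < η) (hh : 2 / η ≤ 2 ^ h) (hD : η * 2 ^ a < DD z μ (2 ^ a)) :
    (1 : ℝ≥0∞) ≤ ENNReal.ofReal (2 / (η * 2 ^ a)) * (UU z μ (2 ^ a) : ℝ≥0∞) ∨
      a - h ≤ KK z μ (2 ^ a) := by
  have h1 : (DD z μ (2 ^ a) : ℝ) ≤ 2 ^ KK z μ (2 ^ a) + UU z μ (2 ^ a) := by
    exact_mod_cast DD_le hz hS (2 ^ a)
  by_cases h2 : η * 2 ^ a / 2 ≤ UU z μ (2 ^ a)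
  · left
    have h3 : (0:ℝ) < η * 2 ^ a := by positivity
    rw [← ENNReal.ofReal_natCast, ← ENNReal.ofReal_mul (by positivity), ← ENNReal.ofReal_one]
    refine ENNReal.ofReal_le_ofReal ?_
    calc (1:ℝ) = 2 / (η * 2 ^ a) * (η * 2 ^ a / 2) := by field_simp
      _ ≤ _ := by gcongr
  · right
    push Not at h2
    have h3 : η * 2 ^ a / 2 < 2 ^ KK z μ (2 ^ a) := by linarith
    have h4 : (2:ℝ) ^ a < 2 ^ (h + KK z μ (2 ^ a)) := by
      rw [pow_add]
      calc (2:ℝ) ^ a = 2 / η * (η * 2 ^ a / 2) := by field_simp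
        _ < 2 / η * 2 ^ KK z μ (2 ^ a) := by gcongr
        _ ≤ _ := by gcongr
    have h5 := (pow_lt_pow_iff_right₀ (by norm_num : (1:ℝ) < 2)).1 h4
    omega

theorem meas_UU (μ : Equiv.Perm (Fin n)) (L : ℕ) : Measurable fun z : Conf n => UU z μ L := by
  unfold UU
  have h := meas_card_filter (p := fun τ z => Low z μ τ ∧ ¬ Clean z μ τ ∧
    τ.support.card < 2 * L) fun τ => ms_and (meas_Low μ τ) (ms_and (ms_not (meas_Clean μ τ))
      (ms_const _))
  convert h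

theorem meas_KK (μ : Equiv.Perm (Fin n)) (L : ℕ) : Measurable fun z : Conf n => KK z μ L := by
  unfold KK
  have h := meas_card_filter (p := fun τ z => Low z μ τ ∧ Clean z μ τ ∧ τ.IsCycle ∧
    τ.support.card ≤ 2 * L) fun τ => ms_and (meas_Low μ τ) (ms_and (meas_Clean μ τ)
      (ms_const _))
  convert h

open Classical in
theorem int_le {τ₁ τ₂ : ℝ} (a₀ h : ℕ) (δ η : ℝ) (hδ : 0 < δ) (hη : 0 < η) (hh : 2 / η ≤ 2 ^ h)
    (hn : 1 ≤ n) :
    ∫⁻ z, ∑ μ : Equiv.Perm (Fin n),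
      (if Stab z μ ∧ Win τ₁ τ₂ (tt z μ) ∧ ¬ Trunc a₀ δ η z μ then (1 : ℝ≥0∞) else 0) ∂(P n)
    ≤ ∑ a ∈ (Finset.Icc a₀ (Nat.log 2 n)).filter
        (fun a => (2 : ℝ) ^ a ≤ (n : ℝ) ^ (1 / 2 - δ)),
      (∫⁻ z, ∑ μ : Equiv.Perm (Fin n), (if Stab z μ ∧ Win τ₁ τ₂ (tt z μ)
        then ENNReal.ofReal (2 / (η * 2 ^ a)) * (UU z μ (2 ^ a) : ℝ≥0∞) else 0) ∂(P n) +
       ∫⁻ z, ∑ μ : Equiv.Perm (Fin n), (if Stab z μ ∧ Win τ₁ τ₂ (tt z μ) ∧
        a - h ≤ KK z μ (2 ^ a) then (1 : ℝ≥0∞) else 0) ∂(P n)) := by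
  have hF : ∀ a : ℕ, Measurable fun z : Conf n => ∑ μ : Equiv.Perm (Fin n),
      (if Stab z μ ∧ Win τ₁ τ₂ (tt z μ)
        then ENNReal.ofReal (2 / (η * 2 ^ a)) * (UU z μ (2 ^ a) : ℝ≥0∞) else 0) := by
    intro a
    refine Finset.measurable_sum _ fun μ _ => ?_
    refine Measurable.ite (ms_and (meas_Stab μ) (meas_Win μ _ _)) ?_ measurable_const
    exact Measurable.const_mul ((measurable_of_countable _).comp (meas_UU μ (2 ^ a))) _
  have hG : ∀ a : ℕ, Measurable fun z : Conf n => ∑ μ : Equiv.Perm (Fin n),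
      (if Stab z μ ∧ Win τ₁ τ₂ (tt z μ) ∧ a - h ≤ KK z μ (2 ^ a)
        then (1 : ℝ≥0∞) else 0) := by
    intro a
    refine Finset.measurable_sum _ fun μ _ => ?_
    exact Measurable.ite (ms_and (meas_Stab μ) (ms_and (meas_Win μ _ _)
      (measurableSet_le measurable_const (meas_KK μ (2 ^ a))))) measurable_const measurable_const
  have e : ∀ a : ℕ, (∫⁻ z, ∑ μ : Equiv.Perm (Fin n), (if Stab z μ ∧ Win τ₁ τ₂ (tt z μ)
        then ENNReal.ofReal (2 / (η * 2 ^ a)) * (UU z μ (2 ^ a) : ℝ≥0∞) else 0) ∂(P n) +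
       ∫⁻ z, ∑ μ : Equiv.Perm (Fin n), (if Stab z μ ∧ Win τ₁ τ₂ (tt z μ) ∧
        a - h ≤ KK z μ (2 ^ a) then (1 : ℝ≥0∞) else 0) ∂(P n))
      = ∫⁻ z, (∑ μ : Equiv.Perm (Fin n), (if Stab z μ ∧ Win τ₁ τ₂ (tt z μ)
        then ENNReal.ofReal (2 / (η * 2 ^ a)) * (UU z μ (2 ^ a) : ℝ≥0∞) else 0) +
       ∑ μ : Equiv.Perm (Fin n), (if Stab z μ ∧ Win τ₁ τ₂ (tt z μ) ∧
        a - h ≤ KK z μ (2 ^ a) then (1 : ℝ≥0∞) else 0)) ∂(P n) := by
    intro a
    rw [lintegral_add_left (hF a)]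
  have hFG : ∀ a : ℕ, Measurable fun z : Conf n =>
      (∑ μ : Equiv.Perm (Fin n), (if Stab z μ ∧ Win τ₁ τ₂ (tt z μ)
        then ENNReal.ofReal (2 / (η * 2 ^ a)) * (UU z μ (2 ^ a) : ℝ≥0∞) else 0) +
       ∑ μ : Equiv.Perm (Fin n), (if Stab z μ ∧ Win τ₁ τ₂ (tt z μ) ∧
        a - h ≤ KK z μ (2 ^ a) then (1 : ℝ≥0∞) else 0)) := fun a => (hF a).add (hG a)
  simp_rw [e]
  rw [← lintegral_finsetSum _ fun a _ => hFG a]
  refine lintegral_mono_ae ?_
  filter_upwards [ae_gen n] with z hz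
  simp_rw [← Finset.sum_add_distrib]
  rw [Finset.sum_comm]
  refine Finset.sum_le_sum fun μ _ => ?_
  by_cases h3 : Stab z μ ∧ Win τ₁ τ₂ (tt z μ) ∧ ¬ Trunc a₀ δ η z μ
  · rw [if_pos h3]
    obtain ⟨hS, hW, hT⟩ := h3
    unfold Trunc at hT
    push Not at hT
    obtain ⟨a, ha0, ha1, ha2⟩ := hT
    have hn1 : (1:ℝ) ≤ n := by exact_mod_cast hn
    have ha3 : a ≤ Nat.log 2 n := by
      have h4 : (2:ℝ) ^ a ≤ n := by
        refine ha1.trans ?_
        calc (n:ℝ) ^ (1 / 2 - δ) ≤ (n:ℝ) ^ (1:ℝ) :=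
              Real.rpow_le_rpow_of_exponent_le hn1 (by linarith)
          _ = n := Real.rpow_one _
      have h5 : 2 ^ a ≤ n := by exact_mod_cast h4
      exact Nat.le_log_of_pow_le (by norm_num) h5
    refine le_trans ?_ (Finset.single_le_sum (f := fun a : ℕ =>
      (if Stab z μ ∧ Win τ₁ τ₂ (tt z μ)
        then ENNReal.ofReal (2 / (η * 2 ^ a)) * (UU z μ (2 ^ a) : ℝ≥0∞) else 0) +
       (if Stab z μ ∧ Win τ₁ τ₂ (tt z μ) ∧
        a - h ≤ KK z μ (2 ^ a) then (1 : ℝ≥0∞) else 0)) (fun _ _ => zero_le) (a := a) ?_)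
    · rcases point_le hz hS hη hh ha2 with h6 | h6
      · rw [if_pos ⟨hS, hW⟩]
        exact h6.trans le_self_add
      · rw [if_pos (show Stab z μ ∧ Win τ₁ τ₂ (tt z μ) ∧ a - h ≤ KK z μ (2 ^ a) from
          ⟨hS, hW, h6⟩)]
        exact le_add_self
    · rw [Finset.mem_filter, Finset.mem_Icc]
      exact ⟨⟨ha0, ha3⟩, ha1⟩
  · rw [if_neg h3]
    exact zero_le

end

/-- numerical bound for the unclean part -/
theorem num_unclean {n L : ℕ} (hL : 1 ≤ L) (hn : 4 * L ≤ n) {lam' η : ℝ} (hl : 0 ≤ lam')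
    (hη : 0 < η) :
    ENNReal.ofReal (2 / (η * L)) * ∑ k ∈ Finset.range (2 * L), ENNReal.ofReal (Real.exp 11 *
      lam' * (n : ℝ) ^ 2 * (k : ℝ) ^ 2 / ((n - k) * (n - k - 1)))
    ≤ ENNReal.ofReal (64 * Real.exp 11 * lam' * (L : ℝ) ^ 2 / η) := by
  have hL0 : (1:ℝ) ≤ L := by exact_mod_cast hL
  have hn0 : (4:ℝ) * L ≤ n := by exact_mod_cast hn
  have h1 : ∀ k ∈ Finset.range (2 * L), ENNReal.ofReal (Real.exp 11 *
      lam' * (n : ℝ) ^ 2 * (k : ℝ) ^ 2 / ((n - k) * (n - k - 1)))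
      ≤ ENNReal.ofReal (16 * Real.exp 11 * lam' * (L:ℝ) ^ 2) := by
    intro k hk
    rw [Finset.mem_range] at hk
    have hk1 : (k:ℝ) + 1 ≤ 2 * L := by exact_mod_cast hk
    have hk0 : (0:ℝ) ≤ k := Nat.cast_nonneg k
    refine ENNReal.ofReal_le_ofReal ?_
    have h2 : (n:ℝ) ^ 2 / 4 ≤ (n - k) * (n - k - 1) := by
      have h3 : (n:ℝ) / 2 ≤ n - k := by linarith
      have h4 : (n:ℝ) / 2 ≤ n - k - 1 := by linarith
      calc (n:ℝ) ^ 2 / 4 = n / 2 * (n / 2) := by ring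
        _ ≤ _ := by
          refine mul_le_mul h3 h4 (by positivity) ?_
          linarith
    have h5 : (0:ℝ) < (n - k) * (n - k - 1) := by
      refine lt_of_lt_of_le ?_ h2
      have : (0:ℝ) < n := by linarith
      positivity
    rw [div_le_iff₀ h5]
    have h6 : (k:ℝ) ^ 2 ≤ 4 * (L:ℝ) ^ 2 := by nlinarith
    calc Real.exp 11 * lam' * (n : ℝ) ^ 2 * (k : ℝ) ^ 2
        ≤ Real.exp 11 * lam' * (n : ℝ) ^ 2 * (4 * (L:ℝ) ^ 2) := by gcongr
      _ = 16 * Real.exp 11 * lam' * (L:ℝ) ^ 2 * ((n:ℝ) ^ 2 / 4) := by ring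
      _ ≤ _ := by gcongr
  calc _ ≤ ENNReal.ofReal (2 / (η * L)) * ∑ k ∈ Finset.range (2 * L),
        ENNReal.ofReal (16 * Real.exp 11 * lam' * (L:ℝ) ^ 2) :=
        mul_le_mul_right (Finset.sum_le_sum h1) _
    _ = ENNReal.ofReal (2 / (η * L)) * ENNReal.ofReal (2 * L * (16 * Real.exp 11 * lam' *
        (L:ℝ) ^ 2)) := by
        rw [Finset.sum_const, Finset.card_range, nsmul_eq_mul, ← ENNReal.ofReal_natCast,
          ← ENNReal.ofReal_mul (by positivity)]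
        push_cast
        rfl
    _ = ENNReal.ofReal (64 * Real.exp 11 * lam' * (L : ℝ) ^ 2 / η) := by
        rw [← ENNReal.ofReal_mul (by positivity)]
        congr 1
        field_simp
        ring

/-- numerical bound for the clean part -/
theorem num_clean {n a h : ℕ} (ha : 40 * h + 40 ≤ a) (hn : 4 * 2 ^ a * (a / 5) ≤ n) (hn0 : 1 ≤ n)
    {lam' : ℝ} (hl : 0 ≤ lam') :
    ENNReal.ofReal (1 / ((a - h).choose (a / 5) : ℝ)) *
      ENNReal.ofReal (Real.exp 9 * lam' * (n : ℝ) ^ 2 / (n - (2 * 2 ^ a : ℕ) * (a / 5 : ℕ)) *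
      ((∑ l ∈ Finset.Icc (2:ℕ) (2 * 2 ^ a), (1 : ℝ) / (l : ℝ)) ^ (a / 5) / (a / 5).factorial))
    ≤ ENNReal.ofReal (4 * Real.exp 9 * lam' * n * (49 / 50) ^ a) := by
  rw [← ENNReal.ofReal_mul (by positivity)]
  refine ENNReal.ofReal_le_ofReal ?_
  have hnn : (0:ℝ) < n := by exact_mod_cast hn0
  have h0 : 0 ≤ ∑ l ∈ Finset.Icc (2:ℕ) (2 * 2 ^ a), (1 : ℝ) / (l : ℝ) :=
    Finset.sum_nonneg fun l _ => by positivity
  have h1 : (n:ℝ) / 2 ≤ n - (2 * 2 ^ a : ℕ) * (a / 5 : ℕ) := by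
    have h2 : ((4 * 2 ^ a * (a / 5) : ℕ) : ℝ) ≤ n := by exact_mod_cast hn
    push_cast at h2 ⊢
    linarith
  have h3 : Real.exp 9 * lam' * (n : ℝ) ^ 2 / (n - (2 * 2 ^ a : ℕ) * (a / 5 : ℕ))
      ≤ 2 * Real.exp 9 * lam' * n := by
    rw [div_le_iff₀ (by linarith)]
    calc Real.exp 9 * lam' * (n : ℝ) ^ 2 = 2 * Real.exp 9 * lam' * n * (n / 2) := by ring
      _ ≤ _ := by gcongr
  calc _ ≤ 1 / ((a - h).choose (a / 5) : ℝ) * (2 * Real.exp 9 * lam' * n *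
        (((a + 1) * Real.log 2) ^ (a / 5) / (a / 5).factorial)) := by
        have h4 := harm_le a
        gcongr
    _ = 2 * Real.exp 9 * lam' * n * (((a + 1) * Real.log 2) ^ (a / 5) / (a / 5).factorial *
        (1 / ((a - h).choose (a / 5) : ℝ))) := by ring
    _ ≤ 2 * Real.exp 9 * lam' * n * (2 * (49 / 50) ^ a) := by
        refine mul_le_mul_of_nonneg_left ((rat_le ha).trans (pow_le a)) (by positivity)
    _ = _ := by ring


theorem ev1 (δ : ℝ) (hδ : 0 < δ) (K : ℝ) :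
    ∀ᶠ n : ℕ in Filter.atTop, K ≤ (n:ℝ) ^ (2 * δ) := by
  have h := (tendsto_rpow_atTop (by positivity : 0 < 2 * δ)).comp tendsto_natCast_atTop_atTop
  exact h.eventually_ge_atTop K

theorem ev2 (δ : ℝ) (hδ : 0 < δ) (K : ℝ) (hK : 0 < K) :
    ∀ᶠ n : ℕ in Filter.atTop, K * Real.log n ≤ (n:ℝ) ^ (2 * δ) := by
  have h := (isLittleO_log_rpow_atTop (by positivity : 0 < 2 * δ)).comp_tendsto
    tendsto_natCast_atTop_atTop
  have h2 := h.def (c := 1 / K) (by positivity)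
  filter_upwards [h2, Filter.eventually_ge_atTop 1] with n hn hn1
  simp only [Function.comp, Real.norm_eq_abs] at hn
  have h3 : 0 ≤ Real.log n := Real.log_nonneg (by exact_mod_cast hn1)
  rw [abs_of_nonneg h3, abs_of_nonneg (by positivity)] at hn
  calc K * Real.log n ≤ K * (1 / K * (n:ℝ) ^ (2 * δ)) := by gcongr
    _ = _ := by field_simp

theorem log2_le {n : ℕ} (hn : 3 ≤ n) : ((Nat.log 2 n : ℕ) : ℝ) + 1 ≤ 3 * Real.log n := by
  have hn0 : (0:ℝ) < n := by exact_mod_cast (show 0 < n by omega)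
  have h1 : (2:ℝ) ^ (Nat.log 2 n) ≤ n := by
    exact_mod_cast Nat.pow_log_le_self 2 (show n ≠ 0 by omega)
  have h2 : (Nat.log 2 n : ℝ) * Real.log 2 ≤ Real.log n := by
    rw [← Real.log_pow]
    exact Real.log_le_log (by positivity) h1
  have h3 : (0.6931471803 : ℝ) < Real.log 2 := Real.log_two_gt_d9
  have h4 : 1 ≤ Real.log n := by
    rw [Real.le_log_iff_exp_le hn0]
    have h5 : (3:ℝ) ≤ n := by exact_mod_cast hn
    linarith [Real.exp_one_lt_d9]
  have h6 : (0:ℝ) ≤ (Nat.log 2 n : ℝ) := Nat.cast_nonneg _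
  nlinarith

open Classical in
theorem main (ε δ η : ℝ) (hε : 0 < ε) (hδ : 0 < δ) (hδ2 : δ < 1 / 2) (hη : 0 < η) :
    ∃ a₀ N : ℕ, ∀ n : ℕ, N ≤ n →
    ∫⁻ z, ∑ μ : Equiv.Perm (Fin n),
      (if Stab z μ ∧ Win (t1 n) (t2 n) (tt z μ) ∧ ¬ Trunc a₀ δ η z μ
        then (1 : ℝ≥0∞) else 0) ∂(P n) ≤ ENNReal.ofReal (ε * n * Real.log n) := by
  obtain ⟨h, hh⟩ : ∃ h : ℕ, 2 / η ≤ 2 ^ h := by
    obtain ⟨h, hh⟩ := pow_unbounded_of_one_lt (2 / η) (by norm_num : (1:ℝ) < 2)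
    exact ⟨h, hh.le⟩
  obtain ⟨a₁, ha₁⟩ : ∃ a₁ : ℕ, (49 / 50 : ℝ) ^ a₁ < ε / (40 * Real.exp 9) :=
    exists_pow_lt_of_lt_one (by positivity) (by norm_num)
  obtain ⟨a₀, ha₀, ha₀'⟩ : ∃ a₀ : ℕ, 40 * h + 40 ≤ a₀ ∧
      (49 / 50 : ℝ) ^ a₀ ≤ ε / (40 * Real.exp 9) := by
    refine ⟨max a₁ (40 * h + 40), le_max_right _ _, ?_⟩
    exact (pow_le_pow_of_le_one (by norm_num) (by norm_num) (le_max_left _ _)).trans ha₁.le
  refine ⟨a₀, ?_⟩
  have hK : 0 < 192 / 5 * Real.exp 11 / (η * ε) := by positivity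
  obtain ⟨N, hN⟩ := Filter.eventually_atTop.1 ((ev1 δ hδ 4).and (ev2 δ hδ _ hK))
  refine ⟨max N 1024, fun n hn => ?_⟩
  obtain ⟨hn1, hn2⟩ := hN n ((le_max_left _ _).trans hn)
  have hn3 : 1024 ≤ n := (le_max_right _ _).trans hn
  have hnn : (0:ℝ) < n := by exact_mod_cast (show 0 < n by omega)
  have hlam := lam_eq (show 1 ≤ n by omega)
  have hlam0 := lam_nonneg (show 1 ≤ n by omega)
  have hlog0 : 0 ≤ Real.log n := Real.log_nonneg (by exact_mod_cast (show 1 ≤ n by omega))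
  have hX : ((n:ℝ) ^ (1 / 2 - δ)) ^ 2 = n / (n:ℝ) ^ (2 * δ) := by
    rw [← Real.rpow_natCast, ← Real.rpow_mul hnn.le, eq_div_iff (by positivity),
      ← Real.rpow_add hnn]
    conv_rhs => rw [← Real.rpow_one (n:ℝ)]
    congr 1
    push_cast
    ring
  have hX4 : 4 * ((n:ℝ) ^ (1 / 2 - δ)) ^ 2 ≤ n := by
    rw [hX]
    rw [← mul_div_assoc, div_le_iff₀ (by positivity)]
    nlinarith
  refine (int_le a₀ h δ η hδ hη hh (show 1 ≤ n by omega)).trans ?_
  calc _ ≤ ∑ a ∈ (Finset.Icc a₀ (Nat.log 2 n)).filter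
        (fun a => (2 : ℝ) ^ a ≤ (n : ℝ) ^ (1 / 2 - δ)),
        ENNReal.ofReal (64 * Real.exp 11 * lam n * ((n:ℝ) ^ (1 / 2 - δ)) ^ 2 / η +
          4 * Real.exp 9 * lam n * n * (49 / 50) ^ a) := by
        refine Finset.sum_le_sum fun a ha => ?_
        rw [Finset.mem_filter, Finset.mem_Icc] at ha
        obtain ⟨⟨ha1, ha2⟩, ha3⟩ := ha
        have h20 : (0:ℝ) < 2 ^ a := by positivity
        have hsq : ((2:ℝ) ^ a) ^ 2 ≤ ((n:ℝ) ^ (1 / 2 - δ)) ^ 2 :=
          pow_le_pow_left₀ h20.le ha3 2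
        have h41 : 4 * (2 ^ a) ^ 2 ≤ n := by
          have : (4:ℝ) * (2 ^ a) ^ 2 ≤ n := by linarith
          exact_mod_cast this
        have h1a : 1 ≤ 2 ^ a := Nat.one_le_two_pow
        have haa : a < 2 ^ a := Nat.lt_two_pow_self
        have h42 : 4 * 2 ^ a ≤ n := by nlinarith
        have h43 : 4 * 2 ^ a * (a / 5) ≤ n := by
          have : a / 5 ≤ 2 ^ a := by omega
          calc 4 * 2 ^ a * (a / 5) ≤ 4 * 2 ^ a * 2 ^ a := by gcongr
            _ = 4 * (2 ^ a) ^ 2 := by ring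
            _ ≤ n := h41
        rw [ENNReal.ofReal_add (by positivity) (by positivity)]
        refine add_le_add ?_ ?_
        · refine (unclean_part (t1_ge_four (by omega)) (t1_le_t2 (by omega))
            (L := 2 ^ a) (by omega) _).trans ?_
          have h5 := num_unclean (n := n) (L := 2 ^ a) h1a h42 hlam0 hη
          push_cast at h5
          refine h5.trans ?_
          refine ENNReal.ofReal_le_ofReal ?_
          gcongr
        · refine (clean_part (t1_ge_four (by omega)) (t1_le_t2 (by omega))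
            (L := 2 ^ a) (j := a / 5) (m := a - h) ?_ (by omega)).trans ?_
          · have : 2 * 2 ^ a * (a / 5) * 2 = 4 * 2 ^ a * (a / 5) := by ring
            omega
          · exact num_clean (by omega) h43 (by omega) hlam0
    _ ≤ ENNReal.ofReal (∑ a ∈ (Finset.Icc a₀ (Nat.log 2 n)),
        (64 * Real.exp 11 * lam n * ((n:ℝ) ^ (1 / 2 - δ)) ^ 2 / η +
          4 * Real.exp 9 * lam n * n * (49 / 50) ^ a)) := by
        rw [ENNReal.ofReal_sum_of_nonneg (fun a _ => by positivity)]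
        exact Finset.sum_le_sum_of_subset (Finset.filter_subset _ _)
    _ ≤ ENNReal.ofReal (ε * n * Real.log n) := by
        refine ENNReal.ofReal_le_ofReal ?_
        rw [Finset.sum_add_distrib, Finset.sum_const, nsmul_eq_mul, ← Finset.mul_sum]
        have hcard : ((Finset.Icc a₀ (Nat.log 2 n)).card : ℝ) ≤ 3 * Real.log n := by
          have h1 : (Finset.Icc a₀ (Nat.log 2 n)).card ≤ Nat.log 2 n + 1 := by
            rw [Nat.card_Icc]
            omega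
          have h2 : ((Finset.Icc a₀ (Nat.log 2 n)).card : ℝ) ≤ (Nat.log 2 n : ℝ) + 1 := by
            exact_mod_cast h1
          exact h2.trans (log2_le (by omega))
        have hA : ((Finset.Icc a₀ (Nat.log 2 n)).card : ℝ) * (64 * Real.exp 11 * lam n *
            ((n:ℝ) ^ (1 / 2 - δ)) ^ 2 / η) ≤ ε / 2 * n * Real.log n := by
          rw [hX, hlam]
          have hpos : 0 < (n:ℝ) ^ (2 * δ) := by positivity
          calc _ ≤ 3 * Real.log n * (64 * Real.exp 11 * (Real.log n / 10) *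
                (n / (n:ℝ) ^ (2 * δ)) / η) := by gcongr
            _ = (192 / 5 * Real.exp 11 / (η * ε) * Real.log n) *
                (ε / 2 * n * Real.log n / (n:ℝ) ^ (2 * δ)) := by
                field_simp
                ring
            _ ≤ (n:ℝ) ^ (2 * δ) * (ε / 2 * n * Real.log n / (n:ℝ) ^ (2 * δ)) := by gcongr
            _ = _ := by field_simp
        have hB : 4 * Real.exp 9 * lam n * n * ∑ a ∈ Finset.Icc a₀ (Nat.log 2 n),
            ((49:ℝ) / 50) ^ a ≤ ε / 2 * n * Real.log n := by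
          rw [hlam]
          calc _ ≤ 4 * Real.exp 9 * (Real.log n / 10) * n * (50 * (ε / (40 * Real.exp 9))) := by
                refine mul_le_mul_of_nonneg_left ?_ (by positivity)
                refine (geo_le a₀ _).trans ?_
                gcongr
            _ = _ := by
                field_simp
                ring
        linarith

end Pool.Agent.SM.TaskD

namespace Pool.Agent.SM
open MeasureTheory
open scoped ENNReal

open Classical in
/-- the truncation loses little of the first moment -/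
theorem trunc_fail (ε δ η : ℝ) (hε : 0 < ε) (hδ : 0 < δ) (hδ2 : δ < 1 / 2) (hη : 0 < η) :
    ∃ a₀ N : ℕ, ∀ n : ℕ, N ≤ n →
    ∫⁻ z, ∑ μ : Equiv.Perm (Fin n),
      (if Stab z μ ∧ Win (t1 n) (t2 n) (tt z μ) ∧ ¬ Trunc a₀ δ η z μ
        then (1 : ℝ≥0∞) else 0) ∂(P n) ≤ ENNReal.ofReal (ε * n * Real.log n) :=
  TaskD.main ε δ η hε hδ hδ2 hη

end Pool.Agent.SM
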