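import Pool.Agent.MP_d30e2b_pr.Defs2
import Pool.Agent.MP_d30e2b_pr.TaskA
import Pool.Agent.MP_d30e2b_pr.TaskC
import Pool.Agent.MP_d30e2b_pr.TaskM

set_option autoImplicit false

/-! Task E, part 1: finite combinatorics of incomparable pairs -/

namespace Pool.Agent.SM.TaskE

open MeasureTheory Equiv
open scoped ENNReal

variable {n : ℕ}

/-- symmetric form of the decomposition -/
theorem low_swap {z : Conf n} {μ υ τ : Perm (Fin n)} (hd : υ.Disjoint τ) (hU : Upp z μ υ)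
    (hL : Low z μ τ) : Low z (μ * υ * τ) υ⁻¹ := by
  have hcomm : υ * τ = τ * υ := hd.commute
  have h1 : μ * υ * τ * υ⁻¹ = μ * τ := by
    rw [mul_assoc μ υ τ, hcomm]; group
  refine ⟨by rw [h1]; exact hL.1, fun i hi => ?_⟩
  have hυ : υ i ≠ i := fun h => hi (by rw [Perm.inv_eq_iff_eq]; exact h.symm)
  have hτi : τ i = i := (hd i).resolve_left hυ
  -- j = υ⁻¹ i
  set j := υ⁻¹ i with hj
  have hji : υ j = i := by rw [hj]; simp
  have hυj : υ j ≠ j := by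
    intro h
    exact hi (h.symm.trans hji)
  have hτj : τ j = j := (hd j).resolve_left hυj
  have hu1 := (hU.2 i hυ).1
  have hu2 := (hU.2 j hυj).2
  constructor
  · simp only [mx, Perm.mul_apply] at hu1 ⊢
    rw [← hj, hτj, hji, hτi]
    exact hu1
  · simp only [wy, Perm.mul_apply] at hu2 ⊢
    rw [← hj, hτj, hji]
    rw [hji] at hu2
    exact hu2

/-- symmetric form of the decomposition -/
theorem upp_swap {z : Conf n} {μ υ τ : Perm (Fin n)} (hd : υ.Disjoint τ) (hU : Upp z μ υ)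
    (hL : Low z μ τ) : Upp z (μ * υ * τ) τ⁻¹ := by
  have h1 : μ * υ * τ * τ⁻¹ = μ * υ := by group
  refine ⟨by rw [h1]; exact hU.1, fun i hi => ?_⟩
  have hτ : τ i ≠ i := fun h => hi (by rw [Perm.inv_eq_iff_eq]; exact h.symm)
  have hυi : υ i = i := (hd i).resolve_right hτ
  have hττ : τ (τ i) ≠ τ i := fun h => hτ (τ.injective h)
  have hυτ : υ (τ i) = τ i := (hd (τ i)).resolve_right hττ
  set j := τ⁻¹ i with hj
  have hji : τ j = i := by rw [hj]; simp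
  have hτj : τ j ≠ j := by
    intro h
    exact hi (h.symm.trans hji)
  have hυj : υ j = j := (hd j).resolve_right hτj
  have hl1 := (hL.2 i hτ).1
  have hl2 := (hL.2 j hτj).2
  constructor
  · simp only [mx, Perm.mul_apply] at hl1 ⊢
    rw [← hj, hji, hυi, hυτ]
    exact hl1
  · simp only [wy, Perm.mul_apply] at hl2 ⊢
    rw [← hj, hji, hυi]
    rw [hji] at hl2
    exact hl2

/-- the pair `(μ, μ')` is incomparable with the lower part not larger than the upper part -/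
def Qr (z : Conf n) (μ μ' υ τ : Perm (Fin n)) : Prop :=
  Upp z μ υ ∧ Low z μ τ ∧ υ.Disjoint τ ∧ μ' = μ * υ * τ ∧ Low z (μ * υ) υ⁻¹ ∧ Low z (μ * υ) τ ∧
    2 ≤ τ.support.card ∧ τ.support.card ≤ υ.support.card

theorem exists_Qr {z : Conf n} (hz : Gen z) {μ μ' : Perm (Fin n)} (h : Stab z μ) (h' : Stab z μ')
    (hI : Inc z μ μ') : (∃ υ τ, Qr z μ μ' υ τ) ∨ ∃ υ τ, Qr z μ' μ υ τ := by
  obtain ⟨υ, τ, hU, hL, hd, he, hLυ, hLτ⟩ := decomp hz h h'
  have hυ1 : υ ≠ 1 := by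
    intro h1
    apply hI.1
    exact ⟨τ, hL, by rw [he, h1, mul_one]⟩
  have hτ1 : τ ≠ 1 := by
    intro h1
    apply hI.2
    refine ⟨υ⁻¹, ?_, ?_⟩
    · rw [he, h1, mul_one]; exact hLυ
    · rw [he, h1]; group
  have hυ2 : 2 ≤ υ.support.card := Perm.two_le_card_support_of_ne_one hυ1
  have hτ2 : 2 ≤ τ.support.card := Perm.two_le_card_support_of_ne_one hτ1
  rcases le_total τ.support.card υ.support.card with hle | hle
  · left
    exact ⟨υ, τ, hU, hL, hd, he, hLυ, hLτ, hτ2, hle⟩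
  · right
    refine ⟨τ⁻¹, υ⁻¹, ?_, ?_, ?_, ?_, ?_, ?_, ?_, ?_⟩
    · rw [he]; exact upp_swap hd hU hL
    · rw [he]; exact low_swap hd hU hL
    · exact (Perm.Disjoint.inv_left (Perm.Disjoint.inv_right hd.symm))
    · rw [he]; group
    · have h2 : μ' * τ⁻¹ = μ * υ := by rw [he]; group
      rw [h2, inv_inv]; exact hLτ
    · have h2 : μ' * τ⁻¹ = μ * υ := by rw [he]; group
      rw [h2]; exact hLυ
    · rw [Perm.support_inv]; exact hυ2
    · rw [Perm.support_inv, Perm.support_inv]; exact hle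

section count
variable (C δ η : ℝ) (a₀ : ℕ)

open Classical in
/-- the count of `exp_vee` -/
noncomputable def Vc (n k l : ℕ) (z : Conf n) : ℝ≥0∞ :=
  ∑ ν : Equiv.Perm (Fin n), ∑ σA : Equiv.Perm (Fin n), ∑ σB : Equiv.Perm (Fin n),
      (if Stab z ν ∧ Low z ν σA ∧ Low z ν σB ∧ σA.Disjoint σB ∧ σA.support.card = k ∧
        σB.support.card = l ∧ Win (t1 n) (t2 n) (tt z (ν * σA)) ∧
        Win (t1 n) (t2 n) (tt z (ν * σB)) then (1 : ℝ≥0∞) else 0)

open Classical in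
/-- the count of `exp_up` -/
noncomputable def Uc (n k : ℕ) (z : Conf n) : ℝ≥0∞ :=
  ∑ μ : Equiv.Perm (Fin n), ∑ υ : Equiv.Perm (Fin n),
      (if Stab z μ ∧ Nice C (t1 n) (t2 n) z μ ∧ Upp z μ υ ∧ υ.support.card = k
        then (1 : ℝ≥0∞) else 0)

open Classical in
noncomputable def TV (z : Conf n) (k l : ℕ) : Finset (Perm (Fin n) × Perm (Fin n) × Perm (Fin n)) :=
  Finset.univ.filter fun q => Stab z q.1 ∧ Low z q.1 q.2.1 ∧ Low z q.1 q.2.2 ∧
    q.2.1.Disjoint q.2.2 ∧ q.2.1.support.card = k ∧ q.2.2.support.card = l ∧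
    Win (t1 n) (t2 n) (tt z (q.1 * q.2.1)) ∧ Win (t1 n) (t2 n) (tt z (q.1 * q.2.2))

open Classical in
noncomputable def TW (z : Conf n) (K a : ℕ) : Finset (Perm (Fin n) × Perm (Fin n) × Perm (Fin n)) :=
  Finset.univ.filter fun q => Stab z q.1 ∧ Nice C (t1 n) (t2 n) z q.1 ∧ Trunc a₀ δ η z q.1 ∧
    Upp z q.1 q.2.1 ∧ q.2.1.support.card ≤ K ∧ Low z q.1 q.2.2 ∧ 2 ^ a ≤ q.2.2.support.card ∧
    q.2.2.support.card < 2 * 2 ^ a

open Classical in
noncomputable def SQ (z : Conf n) : Finset (Perm (Fin n) × Perm (Fin n)) :=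
  Finset.univ.filter fun p => Nice C (t1 n) (t2 n) z p.1 ∧ Nice C (t1 n) (t2 n) z p.2 ∧
    Stab z p.1 ∧ Trunc a₀ δ η z p.1 ∧ ∃ υ τ, Qr z p.1 p.2 υ τ

theorem card_TV (z : Conf n) (k l : ℕ) : ((TV z k l).card : ℝ≥0∞) = Vc n k l z := by
  classical
  unfold TV Vc
  rw [Finset.card_filter]
  push_cast
  rw [← Finset.univ_product_univ, Finset.sum_product]
  refine Finset.sum_congr rfl fun ν _ => ?_
  rw [← Finset.univ_product_univ, Finset.sum_product]

open Classical in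
theorem card_TW (z : Conf n) (K a : ℕ) (ha : a₀ ≤ a) (ha' : (2 : ℝ) ^ a ≤ (n : ℝ) ^ (1 / 2 - δ)) :
    ((TW C δ η a₀ z K a).card : ℝ≥0∞) ≤
      ENNReal.ofReal (η * 2 ^ a) * ∑ k ∈ Finset.range (K + 1), Uc C n k z := by
  have h1 : ((TW C δ η a₀ z K a).card : ℝ≥0∞) = ∑ μ : Perm (Fin n), ∑ υ : Perm (Fin n),
      (if Stab z μ ∧ Nice C (t1 n) (t2 n) z μ ∧ Trunc a₀ δ η z μ ∧ Upp z μ υ ∧
        υ.support.card ≤ K then ((DD z μ (2 ^ a) : ℕ) : ℝ≥0∞) else 0) := by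
    unfold TW
    rw [Finset.card_filter]
    push_cast
    rw [← Finset.univ_product_univ, Finset.sum_product]
    refine Finset.sum_congr rfl fun μ _ => ?_
    rw [← Finset.univ_product_univ, Finset.sum_product]
    refine Finset.sum_congr rfl fun υ _ => ?_
    split_ifs with h
    · unfold DD
      rw [Finset.card_filter]
      push_cast
      refine Finset.sum_congr rfl fun τ _ => ?_
      refine if_congr ?_ rfl rfl
      simp only [h, true_and]
    · refine Finset.sum_eq_zero fun τ _ => ?_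
      rw [if_neg]
      rintro ⟨h1, h2, h3, h4, h5, -⟩
      exact h ⟨h1, h2, h3, h4, h5⟩
  rw [h1, Finset.mul_sum]
  have h2 : ∀ k, ENNReal.ofReal (η * 2 ^ a) * Uc C n k z = ∑ μ : Perm (Fin n), ∑ υ : Perm (Fin n),
      (if Stab z μ ∧ Nice C (t1 n) (t2 n) z μ ∧ Upp z μ υ ∧ υ.support.card = k
        then ENNReal.ofReal (η * 2 ^ a) else 0) := by
    intro k
    unfold Uc
    rw [Finset.mul_sum]
    refine Finset.sum_congr rfl fun μ _ => ?_
    rw [Finset.mul_sum]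
    refine Finset.sum_congr rfl fun υ _ => ?_
    rw [mul_ite, mul_one, mul_zero]
  simp_rw [h2]
  have h5 : ∑ k ∈ Finset.range (K + 1), ∑ μ : Perm (Fin n), ∑ υ : Perm (Fin n),
      (if Stab z μ ∧ Nice C (t1 n) (t2 n) z μ ∧ Upp z μ υ ∧ υ.support.card = k
        then ENNReal.ofReal (η * 2 ^ a) else 0) = ∑ μ : Perm (Fin n), ∑ υ : Perm (Fin n),
      ∑ k ∈ Finset.range (K + 1),
      (if Stab z μ ∧ Nice C (t1 n) (t2 n) z μ ∧ Upp z μ υ ∧ υ.support.card = k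
        then ENNReal.ofReal (η * 2 ^ a) else 0) := by
    rw [Finset.sum_comm]
    exact Finset.sum_congr rfl fun μ _ => Finset.sum_comm
  rw [h5]
  refine Finset.sum_le_sum fun μ _ => ?_
  refine Finset.sum_le_sum fun υ _ => ?_
  split_ifs with h
  · obtain ⟨hS, hN, hT, hU, hK⟩ := h
    have h3 : (DD z μ (2 ^ a) : ℝ≥0∞) ≤ ENNReal.ofReal (η * 2 ^ a) := by
      have := hT a ha ha'
      rw [← ENNReal.ofReal_natCast]
      exact ENNReal.ofReal_le_ofReal this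
    refine h3.trans ?_
    have h4 := Finset.single_le_sum (s := Finset.range (K + 1)) (f := fun k => (if Stab z μ ∧
      Nice C (t1 n) (t2 n) z μ ∧ Upp z μ υ ∧ υ.support.card = k
        then ENNReal.ofReal (η * 2 ^ a) else 0 : ℝ≥0∞)) (fun _ _ => zero_le)
      (Finset.mem_range.2 (Nat.lt_succ_of_le hK))
    refine le_trans ?_ h4
    simp only [hS, hN, hU, and_self, if_true, le_refl]
  · exact zero_le

theorem SQ_subset (z : Conf n) (B : Finset (ℕ × ℕ)) (A : Finset ℕ) (K : ℕ → ℕ)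
    (hcov : ∀ k l, 2 ≤ l → l ≤ k → k + l ≤ n → (k, l) ∈ B ∨
      ∃ a ∈ A, 2 ^ a ≤ l ∧ l < 2 * 2 ^ a ∧ k ≤ K a) :
    SQ C δ η a₀ z ⊆
      (B.biUnion fun p => (TV z p.1 p.2).image fun q => (q.1 * q.2.1, q.1 * q.2.2)) ∪
      (A.biUnion fun a => (TW C δ η a₀ z (K a) a).image fun q => (q.1, q.1 * q.2.1 * q.2.2)) := by
  classical
  rintro ⟨μ, μ'⟩ hp
  unfold SQ at hp
  rw [Finset.mem_filter] at hp
  obtain ⟨-, hN, hN', hS, hT, υ, τ, hU, hL, hd, he, hLυ, hLτ, h2, hle⟩ := hp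
  simp only at hN hN' hS hT hU hL hd he hLυ hLτ h2 hle
  have hkl : υ.support.card + τ.support.card ≤ n := by
    rw [← hd.card_support_mul]
    exact (Finset.card_le_univ _).trans (by simp)
  rw [Finset.mem_union]
  rcases hcov _ _ h2 hle hkl with hB | ⟨a, haA, ha1, ha2, hk⟩
  · left
    rw [Finset.mem_biUnion]
    refine ⟨_, hB, ?_⟩
    rw [Finset.mem_image]
    refine ⟨(μ * υ, υ⁻¹, τ), ?_, ?_⟩
    · unfold TV
      rw [Finset.mem_filter]
      refine ⟨Finset.mem_univ _, hU.1, hLυ, hLτ, hd.inv_left, ?_, rfl, ?_, ?_⟩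
      · rw [Perm.support_inv]
      · have : μ * υ * υ⁻¹ = μ := by group
        simp only [this]
        exact hN.1
      · simp only [← he]
        exact hN'.1
    · simp only [Prod.mk.injEq]
      refine ⟨by group, he.symm⟩
  · right
    rw [Finset.mem_biUnion]
    refine ⟨a, haA, ?_⟩
    rw [Finset.mem_image]
    refine ⟨(μ, υ, τ), ?_, ?_⟩
    · unfold TW
      rw [Finset.mem_filter]
      exact ⟨Finset.mem_univ _, hS, hN, hT, hU, hk, hL, ha1, ha2⟩
    · simp only [Prod.mk.injEq]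
      exact ⟨trivial, he.symm⟩

open Classical in
/-- the pointwise bound -/
theorem pointwise (z : Conf n) (hz : Gen z) (B : Finset (ℕ × ℕ)) (A : Finset ℕ) (K : ℕ → ℕ)
    (hcov : ∀ k l, 2 ≤ l → l ≤ k → k + l ≤ n → (k, l) ∈ B ∨
      ∃ a ∈ A, 2 ^ a ≤ l ∧ l < 2 * 2 ^ a ∧ k ≤ K a)
    (hA : ∀ a ∈ A, a₀ ≤ a ∧ (2 : ℝ) ^ a ≤ (n : ℝ) ^ (1 / 2 - δ)) :
    ∑ μ : Equiv.Perm (Fin n), ∑ μ' : Equiv.Perm (Fin n),
      (if Stab z μ ∧ Stab z μ' ∧ Nice C (t1 n) (t2 n) z μ ∧ Nice C (t1 n) (t2 n) z μ' ∧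
        Trunc a₀ δ η z μ ∧ Trunc a₀ δ η z μ' ∧ Inc z μ μ'
        then (1 : ℝ≥0∞) else 0) ≤
    2 * (∑ p ∈ B, Vc n p.1 p.2 z +
      ∑ a ∈ A, ENNReal.ofReal (η * 2 ^ a) * ∑ k ∈ Finset.range (K a + 1), Uc C n k z) := by
  set S : Finset (Perm (Fin n) × Perm (Fin n)) := Finset.univ.filter fun p =>
    Stab z p.1 ∧ Stab z p.2 ∧ Nice C (t1 n) (t2 n) z p.1 ∧ Nice C (t1 n) (t2 n) z p.2 ∧
        Trunc a₀ δ η z p.1 ∧ Trunc a₀ δ η z p.2 ∧ Inc z p.1 p.2 with hSdef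
  have h0 : ∑ μ : Equiv.Perm (Fin n), ∑ μ' : Equiv.Perm (Fin n),
      (if Stab z μ ∧ Stab z μ' ∧ Nice C (t1 n) (t2 n) z μ ∧ Nice C (t1 n) (t2 n) z μ' ∧
        Trunc a₀ δ η z μ ∧ Trunc a₀ δ η z μ' ∧ Inc z μ μ'
        then (1 : ℝ≥0∞) else 0) = (S.card : ℝ≥0∞) := by
    rw [hSdef, Finset.card_filter]
    push_cast
    rw [← Finset.univ_product_univ, Finset.sum_product]
  rw [h0]
  have h1 : S ⊆ SQ C δ η a₀ z ∪ (SQ C δ η a₀ z).image Prod.swap := by
    rintro ⟨μ, μ'⟩ hp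
    rw [hSdef, Finset.mem_filter] at hp
    obtain ⟨-, hS, hS', hN, hN', hT, hT', hI⟩ := hp
    rw [Finset.mem_union]
    rcases exists_Qr hz hS hS' hI with h | h
    · left
      unfold SQ
      rw [Finset.mem_filter]
      exact ⟨Finset.mem_univ _, hN, hN', hS, hT, h⟩
    · right
      rw [Finset.mem_image]
      refine ⟨(μ', μ), ?_, rfl⟩
      unfold SQ
      rw [Finset.mem_filter]
      exact ⟨Finset.mem_univ _, hN', hN, hS', hT', h⟩
  have h2 : S.card ≤ 2 * (SQ C δ η a₀ z).card := by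
    refine (Finset.card_le_card h1).trans ((Finset.card_union_le _ _).trans ?_)
    have := Finset.card_image_le (s := SQ C δ η a₀ z) (f := Prod.swap)
    omega
  have h3 : (SQ C δ η a₀ z).card ≤ ∑ p ∈ B, (TV z p.1 p.2).card +
      ∑ a ∈ A, (TW C δ η a₀ z (K a) a).card := by
    refine (Finset.card_le_card (SQ_subset C δ η a₀ z B A K hcov)).trans
      ((Finset.card_union_le _ _).trans ?_)
    refine add_le_add ?_ ?_
    · refine Finset.card_biUnion_le.trans (Finset.sum_le_sum fun p _ => Finset.card_image_le)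
    · refine Finset.card_biUnion_le.trans (Finset.sum_le_sum fun p _ => Finset.card_image_le)
  have h4 : (S.card : ℝ≥0∞) ≤ 2 * (∑ p ∈ B, ((TV z p.1 p.2).card : ℝ≥0∞) +
      ∑ a ∈ A, ((TW C δ η a₀ z (K a) a).card : ℝ≥0∞)) := by
    have : S.card ≤ 2 * (∑ p ∈ B, (TV z p.1 p.2).card +
      ∑ a ∈ A, (TW C δ η a₀ z (K a) a).card) := h2.trans (Nat.mul_le_mul_left 2 h3)
    exact_mod_cast this
  refine h4.trans (mul_le_mul_right ?_ 2)
  refine add_le_add (Finset.sum_le_sum fun p _ => (card_TV z p.1 p.2).le)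
    (Finset.sum_le_sum fun a ha => card_TW C δ η a₀ z (K a) a (hA a ha).1 (hA a ha).2)

theorem meas_Vc (k l : ℕ) : Measurable (Vc n k l) := by
  classical
  unfold Vc
  refine Finset.measurable_fun_sum _ fun ν _ => Finset.measurable_fun_sum _ fun σA _ =>
    Finset.measurable_fun_sum _ fun σB _ => ?_
  refine Measurable.ite ?_ measurable_const measurable_const
  exact ms_and (meas_Stab _) (ms_and (meas_Low _ _) (ms_and (meas_Low _ _) (ms_and (ms_const _)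
    (ms_and (ms_const _) (ms_and (ms_const _) (ms_and (meas_Win _ _ _) (meas_Win _ _ _)))))))

theorem meas_Uc (k : ℕ) : Measurable (Uc C n k) := by
  classical
  unfold Uc
  refine Finset.measurable_fun_sum _ fun ν _ => Finset.measurable_fun_sum _ fun σA _ => ?_
  refine Measurable.ite ?_ measurable_const measurable_const
  exact ms_and (meas_Stab _) (ms_and (meas_Nice _ _ _ _) (ms_and (meas_Upp _ _) (ms_const _)))

open Classical in
/-- the bound in expectation -/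
theorem expectation_bound (B : Finset (ℕ × ℕ)) (A : Finset ℕ) (K : ℕ → ℕ)
    (hcov : ∀ k l, 2 ≤ l → l ≤ k → k + l ≤ n → (k, l) ∈ B ∨
      ∃ a ∈ A, 2 ^ a ≤ l ∧ l < 2 * 2 ^ a ∧ k ≤ K a)
    (hA : ∀ a ∈ A, a₀ ≤ a ∧ (2 : ℝ) ^ a ≤ (n : ℝ) ^ (1 / 2 - δ)) :
    ∫⁻ z, ∑ μ : Equiv.Perm (Fin n), ∑ μ' : Equiv.Perm (Fin n),
      (if Stab z μ ∧ Stab z μ' ∧ Nice C (t1 n) (t2 n) z μ ∧ Nice C (t1 n) (t2 n) z μ' ∧
        Trunc a₀ δ η z μ ∧ Trunc a₀ δ η z μ' ∧ Inc z μ μ'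
        then (1 : ℝ≥0∞) else 0) ∂(P n) ≤
    2 * (∑ p ∈ B, ∫⁻ z, Vc n p.1 p.2 z ∂(P n) +
      ∑ a ∈ A, ENNReal.ofReal (η * 2 ^ a) *
        ∑ k ∈ Finset.range (K a + 1), ∫⁻ z, Uc C n k z ∂(P n)) := by
  have h1 := lintegral_mono_ae (μ := P n) ((ae_gen n).mono fun z hz =>
    pointwise C δ η a₀ z hz B A K hcov hA)
  refine h1.trans (le_of_eq ?_)
  have mV : Measurable fun z : Conf n => ∑ p ∈ B, Vc n p.1 p.2 z :=
    Finset.measurable_fun_sum _ fun p _ => meas_Vc _ _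
  have mU : ∀ a, Measurable fun z : Conf n => ∑ k ∈ Finset.range (K a + 1), Uc C n k z :=
    fun a => Finset.measurable_fun_sum _ fun k _ => meas_Uc C _
  have mW : Measurable fun z : Conf n => ∑ a ∈ A, ENNReal.ofReal (η * 2 ^ a) *
      ∑ k ∈ Finset.range (K a + 1), Uc C n k z :=
    Finset.measurable_fun_sum _ fun a _ => (mU a).const_mul _
  have mS : Measurable fun z : Conf n => (∑ p ∈ B, Vc n p.1 p.2 z +
      ∑ a ∈ A, ENNReal.ofReal (η * 2 ^ a) * ∑ k ∈ Finset.range (K a + 1), Uc C n k z) := mV.add mW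
  rw [lintegral_const_mul 2 mS, lintegral_add_left mV, lintegral_finsetSum _ fun p _ => meas_Vc _ _,
    lintegral_finsetSum _ fun a _ => (mU a).const_mul _]
  congr 2
  refine Finset.sum_congr rfl fun a _ => ?_
  rw [lintegral_const_mul _ (mU a), lintegral_finsetSum _ fun k _ => meas_Uc C _]

end count

end Pool.Agent.SM.TaskE
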