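import Mathlib

set_option autoImplicit false

/-! Task E, part 2: real analysis -/

namespace Pool.Agent.SM.TaskE

open Finset

/-- the ratio of factorials of `exp_vee` -/
noncomputable def RR (n k l : ℕ) : ℝ :=
  ((n - l - 1).factorial : ℝ) * ((n - k - 1).factorial : ℝ) /
    (((n - k - l).factorial : ℝ) * ((n - 1).factorial : ℝ))

theorem RR_nonneg (n k l : ℕ) : 0 ≤ RR n k l := by unfold RR; positivity

theorem RR_ind (n k : ℕ) (hk : 1 ≤ k) : ∀ m : ℕ, k + (m + 1) ≤ n →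
    RR n k (m + 1) * ((n : ℝ) - (m + 1)) ≤ (1 - (k : ℝ) / n) ^ m := by
  intro m
  induction m with
  | zero =>
    intro h
    obtain ⟨a, rfl⟩ : ∃ a, n = k + 1 + a := ⟨n - (k + 1), by omega⟩
    obtain ⟨k, rfl⟩ : ∃ k', k = k' + 1 := ⟨k - 1, by omega⟩
    unfold RR
    have e1 : k + 1 + 1 + a - (0 + 1) - 1 = k + a := by omega
    have e2 : k + 1 + 1 + a - (k + 1) - 1 = a := by omega
    have e4 : k + 1 + 1 + a - 1 = k + a + 1 := by omega
    rw [e1, e2, e4, Nat.factorial_succ]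
    have h1 : ((k + a).factorial : ℝ) ≠ 0 := by positivity
    have h2 : (a.factorial : ℝ) ≠ 0 := by positivity
    have h3 : ((k + a + 1 : ℕ) : ℝ) ≠ 0 := by positivity
    push_cast at h3 ⊢
    rw [pow_zero]
    apply le_of_eq
    field_simp
    ring
  | succ m ih =>
    intro h
    have ih := ih (by omega)
    have hrec : RR n k (m + 1 + 1) * ((n : ℝ) - ((m + 1 : ℕ) + 1)) =
        RR n k (m + 1) * ((n : ℝ) - (m + 1)) * (1 - (k : ℝ) / (n - (m + 1))) := by
      obtain ⟨a, rfl⟩ : ∃ a, n = k + (m + 1 + 1) + a := ⟨n - (k + (m + 1 + 1)), by omega⟩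
      obtain ⟨k, rfl⟩ : ∃ k', k = k' + 1 := ⟨k - 1, by omega⟩
      unfold RR
      have e1 : k + 1 + (m + 1 + 1) + a - (m + 1 + 1) - 1 = k + a := by omega
      have e2 : k + 1 + (m + 1 + 1) + a - (k + 1) - 1 = m + 1 + a := by omega
      have e3 : k + 1 + (m + 1 + 1) + a - (k + 1) - (m + 1 + 1) = a := by omega
      have e4 : k + 1 + (m + 1 + 1) + a - 1 = k + m + a + 2 := by omega
      have e5 : k + 1 + (m + 1 + 1) + a - (m + 1) - 1 = k + a + 1 := by omega
      have e6 : k + 1 + (m + 1 + 1) + a - (k + 1) - (m + 1) = a + 1 := by omega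
      rw [e1, e2, e3, e4, e5, e6, Nat.factorial_succ (k + a), Nat.factorial_succ a]
      have h1 : ((k + a).factorial : ℝ) ≠ 0 := by positivity
      have h2 : (a.factorial : ℝ) ≠ 0 := by positivity
      have h3 : ((k + m + a + 2).factorial : ℝ) ≠ 0 := by positivity
      have h4 : ((k : ℝ) + 1 + (m + 1 + 1) + a - (m + 1)) ≠ 0 := by
        have : ((k : ℝ) + 1 + (m + 1 + 1) + a - (m + 1)) = k + a + 2 := by ring
        rw [this]; positivity
      have h5 : (a : ℝ) + 1 ≠ 0 := by positivity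
      push_cast
      field_simp
      ring
    have hn : (0 : ℝ) < n - (m + 1) := by
      have : ((k + (m + 1 + 1) : ℕ) : ℝ) ≤ n := by exact_mod_cast h
      push_cast at this
      have hk0 : (0 : ℝ) ≤ k := by positivity
      linarith
    have hn0 : (0 : ℝ) < n := by
      have : (0 : ℝ) ≤ m + 1 := by positivity
      linarith
    have hkn : (k : ℝ) ≤ n - (m + 1) := by
      have : ((k + (m + 1 + 1) : ℕ) : ℝ) ≤ n := by exact_mod_cast h
      push_cast at this
      linarith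
    rw [hrec, pow_succ]
    have h6 : 1 - (k : ℝ) / (n - (m + 1)) ≤ 1 - (k : ℝ) / n := by
      have : (k : ℝ) / n ≤ (k : ℝ) / (n - (m + 1)) := by
        apply div_le_div_of_nonneg_left (by positivity) hn
        have : (0 : ℝ) ≤ m + 1 := by positivity
        linarith
      linarith
    have h7 : 0 ≤ 1 - (k : ℝ) / (n - (m + 1)) := by
      rw [sub_nonneg, div_le_one hn]; exact hkn
    have h8 : 0 ≤ 1 - (k : ℝ) / n := h7.trans h6
    exact mul_le_mul ih h6 h7 (pow_nonneg h8 _)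

theorem RR_le (n k l : ℕ) (hl : 2 ≤ l) (hlk : l ≤ k) (hkl : k + l ≤ n) :
    RR n k l ≤ 2 / n * Real.exp (-((k : ℝ) * ((l : ℝ) - 1) / n)) := by
  obtain ⟨m, rfl⟩ : ∃ m, l = m + 1 := ⟨l - 1, by omega⟩
  have h := RR_ind n k (by omega) m (by omega)
  have hn : (0 : ℝ) < n := by
    have : 0 < n := by omega
    exact_mod_cast this
  have h2 : (n : ℝ) / 2 ≤ n - (m + 1) := by
    have : 2 * (m + 1) ≤ n := by omega
    have h3 : ((2 * (m + 1) : ℕ) : ℝ) ≤ n := by exact_mod_cast this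
    push_cast at h3
    linarith
  have h3 : RR n k (m + 1) * ((n : ℝ) / 2) ≤ (1 - (k : ℝ) / n) ^ m :=
    (mul_le_mul_of_nonneg_left h2 (RR_nonneg _ _ _)).trans h
  have hkn : (k : ℝ) / n ≤ 1 := by
    rw [div_le_one hn]
    have : k ≤ n := by omega
    exact_mod_cast this
  have h4 : (1 - (k : ℝ) / n) ^ m ≤ Real.exp (-((k : ℝ) * (((m + 1 : ℕ) : ℝ) - 1) / n)) := by
    have h5 : 1 - (k : ℝ) / n ≤ Real.exp (-((k : ℝ) / n)) := by
      have := Real.add_one_le_exp (-((k : ℝ) / n))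
      linarith
    calc (1 - (k : ℝ) / n) ^ m ≤ (Real.exp (-((k : ℝ) / n))) ^ m :=
          pow_le_pow_left₀ (by linarith) h5 m
      _ = Real.exp (-((k : ℝ) * (((m + 1 : ℕ) : ℝ) - 1) / n)) := by
          rw [← Real.exp_nat_mul]
          congr 1
          push_cast
          ring
  have h6 := h3.trans h4
  rw [div_mul_eq_mul_div, le_div_iff₀ hn]
  linarith

/-- tail of a geometric series -/
theorem geo_tail (n : ℕ) (c x : ℝ) (hc : 0 < c) (hc1 : c ≤ 1) :
    ∑ k ∈ (range (n + 1)).filter (fun k : ℕ => x ≤ k), Real.exp (-((k : ℝ) * c)) ≤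
      Real.exp (-(x * c)) * (2 / c) := by
  set r := Real.exp (-c) with hr
  have hr0 : 0 < r := Real.exp_pos _
  have hr1 : r < 1 := by rw [hr, ← Real.exp_zero]; exact Real.exp_lt_exp.2 (by linarith)
  have h1 : ∀ k : ℕ, Real.exp (-((k : ℝ) * c)) = r ^ k := by
    intro k
    rw [hr, ← Real.exp_nat_mul]
    congr 1; ring
  simp_rw [h1]
  have hsub : (range (n + 1)).filter (fun k : ℕ => x ≤ k) ⊆ Ico ⌈x⌉₊ (n + 1) := by
    intro k hk
    rw [mem_filter, mem_range] at hk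
    rw [mem_Ico]
    exact ⟨Nat.ceil_le.2 hk.2, hk.1⟩
  have h2 : ∑ k ∈ (range (n + 1)).filter (fun k : ℕ => x ≤ k), r ^ k ≤
      ∑ k ∈ Ico ⌈x⌉₊ (n + 1), r ^ k :=
    sum_le_sum_of_subset_of_nonneg hsub fun _ _ _ => by positivity
  have h3 : ∑ k ∈ Ico ⌈x⌉₊ (n + 1), r ^ k ≤ r ^ ⌈x⌉₊ / (1 - r) :=
    geom_sum_Ico_le_of_lt_one hr0.le hr1
  refine h2.trans (h3.trans ?_)
  have h4 : r ^ ⌈x⌉₊ ≤ Real.exp (-(x * c)) := by
    rw [← h1]
    apply Real.exp_le_exp.2
    have := Nat.le_ceil x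
    nlinarith
  have h5 : c / 2 ≤ 1 - r := by
    -- exp(-c) ≤ 1 - c/2 on [0,1]
    have h6 : r ≤ 1 - c + c ^ 2 / 2 := by
      rw [hr]
      have := Real.one_sub_le_exp_neg c
      have h7 := Real.quadratic_le_exp_of_nonneg hc.le
      -- exp(-c) = 1/exp c ≤ 1/(1+c+c²/2) ≤ 1 - c + c²/2
      rw [Real.exp_neg, inv_le_comm₀ (Real.exp_pos c) (by nlinarith)]
      refine le_trans ?_ h7
      rw [inv_le_iff_one_le_mul₀ (by nlinarith)]
      nlinarith [sq_nonneg (c ^ 2), pow_pos hc 3, pow_pos hc 4]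
    nlinarith
  rw [div_eq_mul_inv]
  refine mul_le_mul h4 ?_ (by rw [inv_nonneg]; linarith) (Real.exp_pos _).le
  rw [inv_le_comm₀ (by linarith) (by positivity)]
  rw [inv_div]; exact h5

theorem sum_inv_le (N : ℕ) : ∑ m ∈ Icc 1 N, ((m : ℝ))⁻¹ ≤ 1 + Real.log N := by
  have h := harmonic_le_one_add_log N
  rw [harmonic_eq_sum_Icc] at h
  push_cast at h
  exact h

theorem le_sum_inv (N : ℕ) : Real.log (N + 1) ≤ ∑ m ∈ Icc 1 N, ((m : ℝ))⁻¹ := by
  have h := log_add_one_le_harmonic N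
  rw [harmonic_eq_sum_Icc] at h
  push_cast at h
  exact h

/-- the Gaussian-type harmonic sum -/
theorem sum_gauss (n : ℕ) (hn : 1 ≤ n) (x : ℝ) (hx : 2 ≤ x) (hxn : x ≤ Real.sqrt n) :
    ∑ m ∈ (Icc 1 n).filter (fun m : ℕ => x < (m : ℝ) + 1),
      Real.exp (-((m : ℝ) * m / n)) / m ≤ 4 + Real.log (Real.sqrt n) - Real.log x := by
  have hn0 : (0 : ℝ) < n := by exact_mod_cast hn
  have hs0 : 0 < Real.sqrt n := Real.sqrt_pos.2 hn0
  have hs1 : 1 ≤ Real.sqrt n := by
    rw [Real.one_le_sqrt]; exact_mod_cast hn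
  have hss : Real.sqrt n * Real.sqrt n = n := Real.mul_self_sqrt hn0.le
  set M := ⌊Real.sqrt n⌋₊ with hM
  set J := ⌊x - 1⌋₊ with hJ
  have hMn : M ≤ n := by
    have h1 : (M : ℝ) ≤ Real.sqrt n := Nat.floor_le hs0.le
    have h2 : Real.sqrt n ≤ n := by nlinarith
    exact_mod_cast h1.trans h2
  have hJM : J ≤ M := by
    rw [hJ, hM]
    exact Nat.floor_le_floor (by linarith)
  -- pointwise bound
  have hpt : ∀ m ∈ (Icc 1 n).filter (fun m : ℕ => x < (m : ℝ) + 1),
      Real.exp (-((m : ℝ) * m / n)) / m ≤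
        (if m ∈ Ioc J M then ((m : ℝ))⁻¹ else 0) +
          (Real.sqrt n)⁻¹ * Real.exp (-((m : ℝ) * (Real.sqrt n)⁻¹)) := by
    intro m hm
    rw [mem_filter, mem_Icc] at hm
    obtain ⟨⟨hm1, hmn⟩, hmx⟩ := hm
    have hm0 : (0 : ℝ) < m := by exact_mod_cast hm1
    have hJm : J < m := by
      rw [hJ, Nat.floor_lt (by linarith)]
      linarith
    by_cases hmM : m ≤ M
    · rw [if_pos (mem_Ioc.2 ⟨hJm, hmM⟩)]
      have h1 : Real.exp (-((m : ℝ) * m / n)) / m ≤ ((m : ℝ))⁻¹ := by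
        rw [div_eq_mul_inv]
        have : Real.exp (-((m : ℝ) * m / n)) ≤ 1 := by
          rw [← Real.exp_zero]; apply Real.exp_le_exp.2
          have : 0 ≤ (m : ℝ) * m / n := by positivity
          linarith
        exact mul_le_of_le_one_left (by positivity) this
      have h2 : 0 ≤ (Real.sqrt n)⁻¹ * Real.exp (-((m : ℝ) * (Real.sqrt n)⁻¹)) := by positivity
      linarith
    · rw [if_neg (by rw [mem_Ioc]; tauto), zero_add]
      push Not at hmM
      have h1 : Real.sqrt n < m := by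
        rw [hM] at hmM
        exact (Nat.floor_lt hs0.le).1 hmM
      have h2 : (m : ℝ)⁻¹ ≤ (Real.sqrt n)⁻¹ := by
        rw [inv_le_inv₀ hm0 hs0]; exact h1.le
      have h3 : Real.exp (-((m : ℝ) * m / n)) ≤ Real.exp (-((m : ℝ) * (Real.sqrt n)⁻¹)) := by
        apply Real.exp_le_exp.2
        apply neg_le_neg
        rw [mul_div_assoc]
        apply mul_le_mul_of_nonneg_left _ hm0.le
        rw [le_div_iff₀ hn0]
        calc (Real.sqrt n)⁻¹ * n = Real.sqrt n := by
              nth_rewrite 2 [← hss]; field_simp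
          _ ≤ m := h1.le
      rw [div_eq_mul_inv, mul_comm]
      exact mul_le_mul h2 h3 (Real.exp_pos _).le (by positivity)
  refine (sum_le_sum hpt).trans ?_
  rw [sum_add_distrib]
  have hA : ∑ m ∈ (Icc 1 n).filter (fun m : ℕ => x < (m : ℝ) + 1),
      (if m ∈ Ioc J M then ((m : ℝ))⁻¹ else 0) ≤ ∑ m ∈ Ioc J M, ((m : ℝ))⁻¹ := by
    rw [← sum_filter]
    refine sum_le_sum_of_subset_of_nonneg ?_ fun _ _ _ => by positivity
    intro m hm
    rw [mem_filter] at hm
    exact hm.2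
  have hB : ∑ m ∈ (Icc 1 n).filter (fun m : ℕ => x < (m : ℝ) + 1),
      (Real.sqrt n)⁻¹ * Real.exp (-((m : ℝ) * (Real.sqrt n)⁻¹)) ≤ 2 := by
    rw [← mul_sum]
    have h1 : ∑ m ∈ (Icc 1 n).filter (fun m : ℕ => x < (m : ℝ) + 1),
        Real.exp (-((m : ℝ) * (Real.sqrt n)⁻¹)) ≤
        ∑ k ∈ (range (n + 1)).filter (fun k : ℕ => (0 : ℝ) ≤ k),
          Real.exp (-((k : ℝ) * (Real.sqrt n)⁻¹)) := by
      refine sum_le_sum_of_subset_of_nonneg ?_ fun _ _ _ => (Real.exp_pos _).le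
      intro m hm
      rw [mem_filter, mem_Icc] at hm
      rw [mem_filter, mem_range]
      exact ⟨by omega, by positivity⟩
    have h2 := geo_tail n (Real.sqrt n)⁻¹ 0 (by positivity) (inv_le_one_of_one_le₀ hs1)
    rw [zero_mul, neg_zero, Real.exp_zero, one_mul] at h2
    calc (Real.sqrt n)⁻¹ * _ ≤ (Real.sqrt n)⁻¹ * (2 / (Real.sqrt n)⁻¹) :=
          mul_le_mul_of_nonneg_left (h1.trans h2) (by positivity)
      _ = 2 := by field_simp
  have hC : ∑ m ∈ Ioc J M, ((m : ℝ))⁻¹ ≤ 1 + Real.log (Real.sqrt n) - (Real.log x - 1) := by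
    have h1 : ∑ m ∈ Icc 1 M, ((m : ℝ))⁻¹ = ∑ m ∈ Icc 1 J, ((m : ℝ))⁻¹ +
        ∑ m ∈ Ioc J M, ((m : ℝ))⁻¹ := by
      rw [← sum_union]
      · congr 1
        ext m
        simp only [mem_Icc, mem_union, mem_Ioc]
        omega
      · rw [disjoint_left]
        intro m hm hm'
        rw [mem_Icc] at hm
        rw [mem_Ioc] at hm'
        omega
    have h2 := sum_inv_le M
    have h3 := le_sum_inv J
    have h4 : Real.log M ≤ Real.log (Real.sqrt n) := by
      rcases Nat.eq_zero_or_pos M with h0 | h0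
      · rw [h0]; simp only [Nat.cast_zero, Real.log_zero]
        exact Real.log_nonneg hs1
      · exact Real.log_le_log (by exact_mod_cast h0) (Nat.floor_le hs0.le)
    have h5 : Real.log x - 1 ≤ Real.log (J + 1) := by
      have h6 : x / 2 ≤ (J : ℝ) + 1 := by
        have := Nat.lt_floor_add_one (x - 1)
        rw [← hJ] at this
        linarith
      have h7 : Real.log (x / 2) ≤ Real.log (J + 1) := Real.log_le_log (by linarith) h6
      rw [Real.log_div (by linarith) (by norm_num)] at h7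
      have := Real.log_two_lt_d9
      linarith
    linarith
  linarith

/-- the region handled by `exp_vee` -/
noncomputable def BB (n a₂ : ℕ) (Λ C₁ : ℝ) : Finset (ℕ × ℕ) :=
  ((range (n + 1)) ×ˢ (range (n + 1))).filter fun p => 2 ≤ p.2 ∧ p.2 ≤ p.1 ∧ p.1 + p.2 ≤ n ∧
    (p.2 < 2 ^ a₂ ∨ Λ < p.2 ∨ C₁ * n < p.1 * p.2)

theorem sum_BB (n a₂ : ℕ) (hn : 1 ≤ n) (Λ C₁ : ℝ) (hΛ : 2 ≤ Λ) (hΛn : Λ ≤ Real.sqrt n)
    (hC : 0 ≤ C₁) :
    ∑ p ∈ BB n a₂ Λ C₁, RR n p.1 p.2 ≤ 4 * 2 ^ a₂ +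
      4 * (4 + Real.log (Real.sqrt n) - Real.log Λ) +
      4 * Real.exp (-(C₁ / 2)) * (1 + Real.log n) := by
  classical
  have hn0 : (0 : ℝ) < n := by exact_mod_cast hn
  set g : ℕ → ℕ → ℝ := fun k m => Real.exp (-((k : ℝ) * ((m : ℝ) / n))) with hg
  have hg0 : ∀ k m, 0 ≤ g k m := fun k m => (Real.exp_pos _).le
  -- step 1
  have h1 : ∑ p ∈ BB n a₂ Λ C₁, RR n p.1 p.2 ≤ ∑ m ∈ Icc 1 n,
      ((if m + 1 < 2 ^ a₂ then ∑ k ∈ range (n + 1), 2 / (n : ℝ) * g k m else 0) +
      (if Λ < (m : ℝ) + 1 then ∑ k ∈ (range (n + 1)).filter (fun k : ℕ => ((m : ℝ) ≤ k)),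
        2 / (n : ℝ) * g k m else 0) +
      ∑ k ∈ (range (n + 1)).filter (fun k : ℕ => (C₁ * n / (m + 1) ≤ k)),
        2 / (n : ℝ) * g k m) := by
    have h2 : ∑ p ∈ BB n a₂ Λ C₁, RR n p.1 p.2 ≤
        ∑ q ∈ (Icc 1 n) ×ˢ (range (n + 1)),
          ((if q.1 + 1 < 2 ^ a₂ then 2 / (n : ℝ) * g q.2 q.1 else 0) +
          (if Λ < (q.1 : ℝ) + 1 ∧ (q.1 : ℝ) ≤ q.2 then 2 / (n : ℝ) * g q.2 q.1 else 0) +
          (if C₁ * n / (q.1 + 1) ≤ q.2 then 2 / (n : ℝ) * g q.2 q.1 else 0)) := by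
      have h3 : ∑ p ∈ BB n a₂ Λ C₁, RR n p.1 p.2 ≤ ∑ p ∈ BB n a₂ Λ C₁,
          ((if (p.2 - 1) + 1 < 2 ^ a₂ then 2 / (n : ℝ) * g p.1 (p.2 - 1) else 0) +
          (if Λ < ((p.2 - 1 : ℕ) : ℝ) + 1 ∧ ((p.2 - 1 : ℕ) : ℝ) ≤ p.1 then
            2 / (n : ℝ) * g p.1 (p.2 - 1) else 0) +
          (if C₁ * n / (((p.2 - 1 : ℕ) : ℝ) + 1) ≤ p.1 then
            2 / (n : ℝ) * g p.1 (p.2 - 1) else 0)) := by
        refine sum_le_sum fun p hp => ?_
        unfold BB at hp
        rw [mem_filter] at hp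
        obtain ⟨-, hl, hlk, hkl, hor⟩ := hp
        have hR := RR_le n p.1 p.2 hl hlk hkl
        have hcast : ((p.2 - 1 : ℕ) : ℝ) = (p.2 : ℝ) - 1 := by
          rw [Nat.cast_sub (by omega)]; simp
        have hgg : 2 / (n : ℝ) * g p.1 (p.2 - 1) =
            2 / n * Real.exp (-((p.1 : ℝ) * ((p.2 : ℝ) - 1) / n)) := by
          rw [hg]; simp only; rw [hcast, mul_div_assoc]
        rw [← hgg] at hR
        have hpos : 0 ≤ 2 / (n : ℝ) * g p.1 (p.2 - 1) := mul_nonneg (by positivity) (hg0 _ _)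
        have i1 : 0 ≤ (if (p.2 - 1) + 1 < 2 ^ a₂ then 2 / (n : ℝ) * g p.1 (p.2 - 1) else 0) := by
          split_ifs <;> [exact hpos; exact le_rfl]
        have i2 : 0 ≤ (if Λ < ((p.2 - 1 : ℕ) : ℝ) + 1 ∧ ((p.2 - 1 : ℕ) : ℝ) ≤ p.1 then
            2 / (n : ℝ) * g p.1 (p.2 - 1) else 0) := by
          split_ifs <;> [exact hpos; exact le_rfl]
        have i3 : 0 ≤ (if C₁ * n / (((p.2 - 1 : ℕ) : ℝ) + 1) ≤ p.1 then
            2 / (n : ℝ) * g p.1 (p.2 - 1) else 0) := by
          split_ifs <;> [exact hpos; exact le_rfl]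
        rcases hor with h | h | h
        · rw [if_pos (show p.2 - 1 + 1 < 2 ^ a₂ by omega)]
          linarith
        · have hle : ((p.2 - 1 : ℕ) : ℝ) ≤ p.1 := by
            have : p.2 - 1 ≤ p.1 := by omega
            exact_mod_cast this
          have hlt : Λ < ((p.2 - 1 : ℕ) : ℝ) + 1 := by rw [hcast]; linarith
          rw [if_pos (show Λ < ((p.2 - 1 : ℕ) : ℝ) + 1 ∧ ((p.2 - 1 : ℕ) : ℝ) ≤ p.1 from
            ⟨hlt, hle⟩)]
          linarith
        · have hp2 : (0 : ℝ) < p.2 := by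
            have : 0 < p.2 := by omega
            exact_mod_cast this
          have hle : C₁ * n / (((p.2 - 1 : ℕ) : ℝ) + 1) ≤ p.1 := by
            rw [hcast, sub_add_cancel, div_le_iff₀ hp2]
            exact h.le
          rw [if_pos hle]
          linarith
      refine h3.trans ?_
      -- reindex
      have hinj : Set.InjOn (fun p : ℕ × ℕ => (p.2 - 1, p.1)) (BB n a₂ Λ C₁ : Set (ℕ × ℕ)) := by
        intro p hp q hq hpq
        unfold BB at hp hq
        rw [mem_coe, mem_filter] at hp hq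
        simp only [Prod.mk.injEq] at hpq
        ext
        · exact hpq.2
        · omega
      rw [← sum_image (g := fun p : ℕ × ℕ => (p.2 - 1, p.1)) (f := fun q : ℕ × ℕ =>
          ((if q.1 + 1 < 2 ^ a₂ then 2 / (n : ℝ) * g q.2 q.1 else 0) +
          (if Λ < (q.1 : ℝ) + 1 ∧ (q.1 : ℝ) ≤ q.2 then 2 / (n : ℝ) * g q.2 q.1 else 0) +
          (if C₁ * n / (q.1 + 1) ≤ q.2 then 2 / (n : ℝ) * g q.2 q.1 else 0))) hinj]
      refine sum_le_sum_of_subset_of_nonneg ?_ ?_
      · intro q hq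
        rw [mem_image] at hq
        obtain ⟨p, hp, rfl⟩ := hq
        unfold BB at hp
        rw [mem_filter, mem_product, mem_range, mem_range] at hp
        rw [mem_product, mem_Icc, mem_range]
        simp only
        omega
      · intro q _ _
        have hpos : 0 ≤ 2 / (n : ℝ) * g q.2 q.1 := mul_nonneg (by positivity) (hg0 _ _)
        refine add_nonneg (add_nonneg ?_ ?_) ?_ <;> split_ifs <;> first | exact hpos | exact le_rfl
    refine h2.trans (le_of_eq ?_)
    rw [sum_product]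
    refine sum_congr rfl fun m _ => ?_
    rw [sum_add_distrib, sum_add_distrib]
    congr 1
    · congr 1
      · split_ifs <;> simp
      · split_ifs with h
        · rw [sum_filter]; simp only [h, true_and]
        · simp only [h, false_and, if_false, sum_const_zero]
    · rw [sum_filter]
  refine h1.trans ?_
  -- step 2
  have h2 : ∀ m ∈ Icc 1 n,
      ((if m + 1 < 2 ^ a₂ then ∑ k ∈ range (n + 1), 2 / (n : ℝ) * g k m else 0) +
      (if Λ < (m : ℝ) + 1 then ∑ k ∈ (range (n + 1)).filter (fun k : ℕ => ((m : ℝ) ≤ k)),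
        2 / (n : ℝ) * g k m else 0) +
      ∑ k ∈ (range (n + 1)).filter (fun k : ℕ => (C₁ * n / (m + 1) ≤ k)),
        2 / (n : ℝ) * g k m) ≤
      (if m < 2 ^ a₂ then (4 : ℝ) else 0) +
      (if Λ < (m : ℝ) + 1 then 4 * (Real.exp (-((m : ℝ) * m / n)) / m) else 0) +
      4 * Real.exp (-(C₁ / 2)) * ((m : ℝ))⁻¹ := by
    intro m hm
    rw [mem_Icc] at hm
    have hm0 : (0 : ℝ) < m := by exact_mod_cast hm.1
    have hm1 : (1 : ℝ) ≤ m := by exact_mod_cast hm.1
    have hmn : (m : ℝ) ≤ n := by exact_mod_cast hm.2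
    have hc : (0 : ℝ) < (m : ℝ) / n := by positivity
    have hc1 : (m : ℝ) / n ≤ 1 := by rw [div_le_one hn0]; exact hmn
    refine add_le_add (add_le_add ?_ ?_) ?_
    · split_ifs with h h' h'
      · have : ∀ k ∈ range (n + 1), 2 / (n : ℝ) * g k m ≤ 2 / n := by
          intro k _
          refine mul_le_of_le_one_right (by positivity) ?_
          rw [hg]; simp only
          rw [← Real.exp_zero]
          apply Real.exp_le_exp.2
          have : 0 ≤ (k : ℝ) * ((m : ℝ) / n) := by positivity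
          linarith
        refine (sum_le_sum this).trans ?_
        rw [sum_const, card_range, nsmul_eq_mul]
        push_cast
        rw [mul_div_assoc', div_le_iff₀ hn0]
        have : (1 : ℝ) ≤ n := by exact_mod_cast hn
        linarith
      · omega
      · norm_num
      · exact le_rfl
    · split_ifs with h
      · rw [← mul_sum]
        have := geo_tail n ((m : ℝ) / n) m hc hc1
        calc 2 / (n : ℝ) * _ ≤ 2 / (n : ℝ) * (Real.exp (-((m : ℝ) * ((m : ℝ) / n))) *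
              (2 / ((m : ℝ) / n))) := mul_le_mul_of_nonneg_left this (by positivity)
          _ = 4 * (Real.exp (-((m : ℝ) * m / n)) / m) := by
            rw [mul_div_assoc]
            field_simp
            ring
      · exact le_rfl
    · rw [← mul_sum]
      have := geo_tail n ((m : ℝ) / n) (C₁ * n / (m + 1)) hc hc1
      have h3 : Real.exp (-(C₁ * n / (m + 1) * ((m : ℝ) / n))) ≤ Real.exp (-(C₁ / 2)) := by
        apply Real.exp_le_exp.2
        apply neg_le_neg
        have : C₁ * n / (m + 1) * ((m : ℝ) / n) = C₁ * (m / (m + 1)) := by field_simp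
        rw [this, div_eq_mul_inv]
        apply mul_le_mul_of_nonneg_left _ hC
        rw [le_div_iff₀ (by linarith)]
        linarith
      calc 2 / (n : ℝ) * _ ≤ 2 / (n : ℝ) * (Real.exp (-(C₁ * n / (m + 1) * ((m : ℝ) / n))) *
            (2 / ((m : ℝ) / n))) := mul_le_mul_of_nonneg_left this (by positivity)
        _ ≤ 2 / (n : ℝ) * (Real.exp (-(C₁ / 2)) * (2 / ((m : ℝ) / n))) := by
            gcongr
        _ = 4 * Real.exp (-(C₁ / 2)) * ((m : ℝ))⁻¹ := by
            field_simp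
            ring
  refine (sum_le_sum h2).trans ?_
  rw [sum_add_distrib, sum_add_distrib]
  refine add_le_add (add_le_add ?_ ?_) ?_
  · rw [← sum_filter, sum_const, nsmul_eq_mul, mul_comm]
    refine mul_le_mul_of_nonneg_left ?_ (by norm_num)
    have : ((Icc 1 n).filter fun m => m < 2 ^ a₂).card ≤ 2 ^ a₂ := by
      refine (card_le_card (t := range (2 ^ a₂)) ?_).trans (card_range _).le
      intro m hm
      rw [mem_filter] at hm
      exact mem_range.2 hm.2
    exact_mod_cast this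
  · rw [← sum_filter, ← mul_sum]
    exact mul_le_mul_of_nonneg_left (sum_gauss n hn Λ hΛ hΛn) (by norm_num)
  · rw [← mul_sum]
    exact mul_le_mul_of_nonneg_left (sum_inv_le n) (by positivity)

end Pool.Agent.SM.TaskE
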