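import Pool.Agent.MP_d30e2b_pr.Exp
import Pool.Agent.MP_d30e2b_pr.Exp2
import Pool.Agent.MP_d30e2b_pr.TaskE1
import Pool.Agent.MP_d30e2b_pr.TaskE2

set_option autoImplicit false

/-! Task E: incomparable pairs -/

namespace Pool.Agent.SM.TaskE

open MeasureTheory Equiv
open scoped ENNReal

theorem log_t2_div_t1 (n : ℕ) (hn : 1 ≤ n) : Real.log (t2 n / t1 n) = Real.log n / 10 := by
  have hn0 : (0 : ℝ) < n := by exact_mod_cast hn
  unfold t1 t2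
  rw [← Real.rpow_sub hn0, Real.log_rpow hn0]
  ring

/-- the region covered by the truncation -/
noncomputable def AA (n a₂ : ℕ) (δ : ℝ) : Finset ℕ :=
  (Finset.range (n + 1)).filter fun a => a₂ ≤ a ∧ (2 : ℝ) ^ a ≤ (n : ℝ) ^ (1 / 2 - δ)

theorem card_AA (n a₂ : ℕ) (δ : ℝ) (hn : 1 ≤ n) (hδ : 0 ≤ δ) (hlog : 1 ≤ Real.log n) :
    ((AA n a₂ δ).card : ℝ) ≤ 3 * Real.log n := by
  have hn0 : (0 : ℝ) < n := by exact_mod_cast hn
  have hn1 : (1 : ℝ) ≤ n := by exact_mod_cast hn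
  have hsub : AA n a₂ δ ⊆ Finset.range (⌊Real.log n / Real.log 2⌋₊ + 1) := by
    intro a ha
    unfold AA at ha
    rw [Finset.mem_filter] at ha
    rw [Finset.mem_range, Nat.lt_succ_iff]
    apply Nat.le_floor
    rw [le_div_iff₀ (Real.log_pos (by norm_num))]
    rw [← Real.log_pow]
    apply Real.log_le_log (by positivity)
    refine ha.2.2.trans ?_
    calc (n : ℝ) ^ (1 / 2 - δ) ≤ (n : ℝ) ^ (1 : ℝ) :=
          Real.rpow_le_rpow_of_exponent_le hn1 (by linarith)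
      _ = n := Real.rpow_one _
  have h1 : ((AA n a₂ δ).card : ℝ) ≤ ⌊Real.log n / Real.log 2⌋₊ + 1 := by
    have := Finset.card_le_card hsub
    rw [Finset.card_range] at this
    exact_mod_cast this
  have h2 : (⌊Real.log n / Real.log 2⌋₊ : ℝ) ≤ Real.log n / Real.log 2 :=
    Nat.floor_le (by positivity)
  have h3 : Real.log n / Real.log 2 ≤ 2 * Real.log n := by
    rw [div_le_iff₀ (Real.log_pos (by norm_num))]
    have := Real.log_two_gt_d9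
    nlinarith
  linarith

theorem aux_lam {δ L : ℝ} (hδ : δ ≤ 1 / 4) (h : 4 * Real.log 2 ≤ L) (hL : 0 < L) :
    Real.log 2 ≤ (1 / 2 - δ) * L := by nlinarith

theorem aux_sqrt {n : ℝ} (h1 : 1 ≤ n) : Real.sqrt n ≤ n := by
  have h3 : Real.sqrt n * Real.sqrt n = n := Real.mul_self_sqrt (by linarith)
  have h4 : 1 ≤ Real.sqrt n := by rw [Real.one_le_sqrt]; exact h1
  nlinarith

theorem aux_half {c n p : ℝ} (h : 2 * c ≤ p) (hn : 0 < n) : c * n * 2 ≤ n * p := by nlinarith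

theorem aux_div {e l n k : ℝ} (h : 0 ≤ e * l * n) (hk : k ≤ n / 2) :
    e * l * n ^ 2 ≤ 2 * e * l * n * (n - k) := by nlinarith

theorem aux_floor {p f c n : ℝ} (hp : 0 < p) (hf : f ≤ c * n / p) (hpn : p ≤ n) :
    p * (f + 1) ≤ (c + 1) * n := by
  have h7 : p * (c * n / p) = c * n := by field_simp
  nlinarith

theorem aux_S0 {A δ L e : ℝ} (hA : 0 ≤ A) (hδ : 0 < δ) (hL : 0 < L) (he : 0 < e) :
    0 ≤ 4 * A + 4 * (4 + L / 2 - (1 / 2 - δ) * L) + 4 * e * (1 + L) := by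
  have h3 : 0 ≤ δ * L := by positivity
  have h4 : 0 ≤ 4 * e * (1 + L) := by positivity
  nlinarith

theorem aux_f1 {l q ε : ℝ} (h : q ≤ ε / 16 * l) (hl : 0 < l) : l * q ≤ ε / 16 * l ^ 2 := by
  nlinarith

theorem aux_f2 {l q ε : ℝ} (h : q ≤ ε / 8) : 4 / 10 * q * l ^ 2 ≤ 4 / 10 * (ε / 8) * l ^ 2 := by
  have : 0 ≤ l ^ 2 := by positivity
  nlinarith

theorem aux_f3 {l q ε : ℝ} (hq : q ≤ ε / 16) (hl : 1 ≤ l) (hε : 0 < ε) :
    4 / 10 * q * (l * (1 + l)) ≤ 4 / 10 * (ε / 16) * (2 * l ^ 2) := by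
  have h6 : l * (1 + l) ≤ 2 * l ^ 2 := by nlinarith
  have h7 : 0 ≤ l * (1 + l) := by positivity
  calc 4 / 10 * q * (l * (1 + l)) ≤ 4 / 10 * (ε / 16) * (l * (1 + l)) := by
        apply mul_le_mul_of_nonneg_right _ h7
        linarith
    _ ≤ 4 / 10 * (ε / 16) * (2 * l ^ 2) := mul_le_mul_of_nonneg_left h6 (by positivity)

theorem aux_fin {x y w ε L : ℝ} (h1 : x ≤ ε / 16 * L) (h2 : y ≤ 4 / 10 * (ε / 8) * L)
    (h3 : w ≤ 4 / 10 * (ε / 16) * (2 * L)) (h0 : 0 ≤ ε * L) :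
    2 * (x + y + w + ε / 16 * L) ≤ ε * L := by linarith

open Classical in
/-- Task E, with the inputs `exp_vee` and `exp_up` (exact statements of `Stmts.lean`) as
hypotheses -/
theorem incomparable_pairs_of
    (exp_vee : ∀ (n : ℕ) (τ₁ τ₂ : ℝ) (_ : 4 ≤ τ₁) (_ : τ₁ ≤ τ₂) (k l : ℕ) (_ : 1 ≤ k)
      (_ : 1 ≤ l) (_ : k + l ≤ n),
      ∫⁻ z, ∑ ν : Equiv.Perm (Fin n), ∑ σA : Equiv.Perm (Fin n), ∑ σB : Equiv.Perm (Fin n),
        (if Stab z ν ∧ Low z ν σA ∧ Low z ν σB ∧ σA.Disjoint σB ∧ σA.support.card = k ∧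
          σB.support.card = l ∧ Win τ₁ τ₂ (tt z (ν * σA)) ∧ Win τ₁ τ₂ (tt z (ν * σB))
          then (1 : ℝ≥0∞) else 0) ∂(P n) ≤
      ENNReal.ofReal (Real.exp 9 * Real.log (τ₂ / τ₁) * (n : ℝ) ^ 2 *
        (((n - l - 1).factorial : ℝ) * ((n - k - 1).factorial : ℝ) /
          (((n - k - l).factorial : ℝ) * ((n - 1).factorial : ℝ)))))
    (exp_up : ∀ (C : ℝ) (_ : 1 ≤ C), ∃ N : ℕ, ∀ n : ℕ, N ≤ n → ∀ k : ℕ, k < n →
      ∫⁻ z, ∑ μ : Equiv.Perm (Fin n), ∑ υ : Equiv.Perm (Fin n),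
        (if Stab z μ ∧ Nice C (t1 n) (t2 n) z μ ∧ Upp z μ υ ∧ υ.support.card = k
          then (1 : ℝ≥0∞) else 0) ∂(P n) ≤
      ENNReal.ofReal (Real.exp 9 * Real.log n * (n : ℝ) ^ 2 / (n - k)))
    (C ε : ℝ) (hC : 1 ≤ C) (hε : 0 < ε) :
    ∃ δ η : ℝ, 0 < δ ∧ δ < 1 / 2 ∧ 0 < η ∧ ∀ a₀ : ℕ, ∃ N : ℕ, ∀ n : ℕ, N ≤ n →
    ∫⁻ z, ∑ μ : Equiv.Perm (Fin n), ∑ μ' : Equiv.Perm (Fin n),
      (if Stab z μ ∧ Stab z μ' ∧ Nice C (t1 n) (t2 n) z μ ∧ Nice C (t1 n) (t2 n) z μ' ∧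
        Trunc a₀ δ η z μ ∧ Trunc a₀ δ η z μ' ∧ Inc z μ μ'
        then (1 : ℝ≥0∞) else 0) ∂(P n) ≤
    ENNReal.ofReal (ε * (n : ℝ) ^ 2 * Real.log n ^ 2) := by
  set E9 : ℝ := Real.exp 9 with hE9
  have hE0 : 0 < E9 := Real.exp_pos _
  obtain ⟨δ, hδ0, hδ1, hδ2⟩ : ∃ δ : ℝ, 0 < δ ∧ δ ≤ 1 / 4 ∧ δ ≤ ε / (8 * E9) :=
    ⟨min (1 / 4) (ε / (8 * E9)), lt_min (by norm_num) (by positivity), min_le_left _ _,
      min_le_right _ _⟩
  obtain ⟨C₁, hC1, hCe⟩ : ∃ C₁ : ℝ, 1 ≤ C₁ ∧ Real.exp (-(C₁ / 2)) ≤ ε / (16 * E9) := by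
    refine ⟨max 1 (2 * Real.log (16 * E9 / ε)), le_max_left _ _, ?_⟩
    have h1 : Real.log (16 * E9 / ε) ≤ max 1 (2 * Real.log (16 * E9 / ε)) / 2 := by
      have := le_max_right 1 (2 * Real.log (16 * E9 / ε))
      linarith
    have h2 : Real.exp (-(max 1 (2 * Real.log (16 * E9 / ε)) / 2)) ≤
        Real.exp (-(Real.log (16 * E9 / ε))) := Real.exp_le_exp.2 (neg_le_neg h1)
    refine h2.trans (le_of_eq ?_)
    rw [Real.exp_neg, Real.exp_log (by positivity), inv_div]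
  obtain ⟨η, hη⟩ : ∃ η : ℝ, η = ε / (96 * E9 * (C₁ + 1)) := ⟨_, rfl⟩
  have hη0 : 0 < η := by rw [hη]; positivity
  refine ⟨δ, η, hδ0, by linarith, hη0, fun a₀ => ?_⟩
  obtain ⟨N₁, hN₁⟩ := exp_up C hC
  obtain ⟨a₂, ha₂, ha₂'⟩ : ∃ a₂ : ℕ, a₀ ≤ a₂ ∧ 2 * C₁ ≤ (2 : ℝ) ^ a₂ := by
    refine ⟨max a₀ ⌈2 * C₁⌉₊, le_max_left _ _, ?_⟩
    have h1 : 2 * C₁ ≤ (⌈2 * C₁⌉₊ : ℝ) := Nat.le_ceil _
    have h2 : (⌈2 * C₁⌉₊ : ℝ) ≤ (2 : ℝ) ^ ⌈2 * C₁⌉₊ := by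
      exact_mod_cast (Nat.lt_two_pow_self).le
    have h3 : (2 : ℝ) ^ ⌈2 * C₁⌉₊ ≤ (2 : ℝ) ^ (max a₀ ⌈2 * C₁⌉₊) :=
      pow_le_pow_right₀ (by norm_num) (le_max_right _ _)
    linarith
  set T : ℝ := 16 * E9 / 10 * (4 * 2 ^ a₂ + 16) / ε with hT
  refine ⟨max (max N₁ 16) ⌈Real.exp T⌉₊, fun n hn => ?_⟩
  have hnN₁ : N₁ ≤ n := (le_max_left _ _).trans ((le_max_left _ _).trans hn)
  have hn16 : 16 ≤ n := (le_max_right _ _).trans ((le_max_left _ _).trans hn)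
  have hnT : Real.exp T ≤ n := by
    have := (le_max_right (max N₁ 16) ⌈Real.exp T⌉₊).trans hn
    exact (Nat.le_ceil _).trans (by exact_mod_cast this)
  have hn1 : 1 ≤ n := by omega
  have hn0 : (0 : ℝ) < n := by exact_mod_cast hn1
  have hn16' : (16 : ℝ) ≤ n := by exact_mod_cast hn16
  have hlogT : T ≤ Real.log n := by
    rw [← Real.log_exp T]
    exact Real.log_le_log (Real.exp_pos _) hnT
  have hlog16 : 4 * Real.log 2 ≤ Real.log n := by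
    have h1 : 4 * Real.log 2 = Real.log 16 := by
      rw [show (16 : ℝ) = 2 ^ 4 by norm_num, Real.log_pow]; norm_num
    rw [h1]
    exact Real.log_le_log (by norm_num) hn16'
  have hl2 := Real.log_two_gt_d9
  have hlog1 : 1 ≤ Real.log n := by linarith
  have hlog0 : 0 < Real.log n := by linarith
  set Λ : ℝ := (n : ℝ) ^ (1 / 2 - δ) with hΛ
  have hlogΛ : Real.log Λ = (1 / 2 - δ) * Real.log n := by rw [hΛ, Real.log_rpow hn0]
  have hΛ2 : 2 ≤ Λ := by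
    have h1 : Real.log 2 ≤ Real.log Λ := by
      rw [hlogΛ]
      exact aux_lam hδ1 hlog16 hlog0
    exact (Real.log_le_log_iff (by norm_num) (by positivity)).1 h1
  have hΛs : Λ ≤ Real.sqrt n := by
    rw [Real.sqrt_eq_rpow, hΛ]
    exact Real.rpow_le_rpow_of_exponent_le (by linarith) (by linarith)
  have ht1 : 4 ≤ t1 n := by
    unfold t1
    rw [← Real.sqrt_eq_rpow]
    rw [show (4 : ℝ) = Real.sqrt 16 by
      rw [show (16 : ℝ) = 4 ^ 2 by norm_num, Real.sqrt_sq (by norm_num)]]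
    exact Real.sqrt_le_sqrt hn16'
  have ht12 : t1 n ≤ t2 n := by
    unfold t1 t2
    exact Real.rpow_le_rpow_of_exponent_le (by linarith) (by norm_num)
  -- the covering
  have hcov : ∀ k l, 2 ≤ l → l ≤ k → k + l ≤ n → (k, l) ∈ BB n a₂ Λ C₁ ∨
      ∃ a ∈ AA n a₂ δ, 2 ^ a ≤ l ∧ l < 2 * 2 ^ a ∧ k ≤ ⌊C₁ * n / 2 ^ a⌋₊ := by
    intro k l hl hlk hkl
    by_cases hB : l < 2 ^ a₂ ∨ Λ < l ∨ C₁ * n < k * l
    · left
      unfold BB
      rw [Finset.mem_filter, Finset.mem_product, Finset.mem_range, Finset.mem_range]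
      exact ⟨⟨by simp only; omega, by simp only; omega⟩, hl, hlk, hkl, hB⟩
    · right
      push Not at hB
      obtain ⟨hB1, hB2, hB3⟩ := hB
      have hl0 : l ≠ 0 := by omega
      have hpow : 2 ^ Nat.log 2 l ≤ l := Nat.pow_log_le_self 2 hl0
      have hpow' : ((2 : ℝ)) ^ Nat.log 2 l ≤ l := by exact_mod_cast hpow
      refine ⟨Nat.log 2 l, ?_, hpow, ?_, ?_⟩
      · unfold AA
        rw [Finset.mem_filter, Finset.mem_range]
        refine ⟨?_, ?_, hpow'.trans hB2⟩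
        · have := Nat.log_le_self 2 l
          omega
        · exact Nat.le_log_of_pow_le (by norm_num) hB1
      · have := Nat.lt_pow_succ_log_self (b := 2) (by norm_num) l
        rw [pow_succ] at this
        omega
      · apply Nat.le_floor
        rw [le_div_iff₀ (by positivity)]
        refine le_trans ?_ hB3
        exact mul_le_mul_of_nonneg_left hpow' (by positivity)
  have hA : ∀ a ∈ AA n a₂ δ, a₀ ≤ a ∧ (2 : ℝ) ^ a ≤ (n : ℝ) ^ (1 / 2 - δ) := by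
    intro a ha
    unfold AA at ha
    rw [Finset.mem_filter] at ha
    exact ⟨ha₂.trans ha.2.1, ha.2.2⟩
  refine (expectation_bound C δ η a₀ (BB n a₂ Λ C₁) (AA n a₂ δ) (fun a => ⌊C₁ * n / 2 ^ a⌋₊)
    hcov hA).trans ?_
  -- the part handled by `exp_vee`
  set κ : ℝ := E9 * Real.log (t2 n / t1 n) * (n : ℝ) ^ 2 with hκ
  have hκ0 : 0 ≤ κ := by
    rw [hκ, log_t2_div_t1 n hn1]; positivity
  have hV : ∑ p ∈ BB n a₂ Λ C₁, ∫⁻ z, Vc n p.1 p.2 z ∂(P n) ≤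
      ENNReal.ofReal (κ * (4 * 2 ^ a₂ + 4 * (4 + Real.log (Real.sqrt n) - Real.log Λ) +
      4 * Real.exp (-(C₁ / 2)) * (1 + Real.log n))) := by
    have h1 : ∀ p ∈ BB n a₂ Λ C₁, ∫⁻ z, Vc n p.1 p.2 z ∂(P n) ≤
        ENNReal.ofReal (κ * RR n p.1 p.2) := by
      intro p hp
      unfold BB at hp
      rw [Finset.mem_filter] at hp
      obtain ⟨-, hl, hlk, hkl, -⟩ := hp
      exact exp_vee n (t1 n) (t2 n) ht1 ht12 p.1 p.2 (by omega) (by omega) hkl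
    refine (Finset.sum_le_sum h1).trans ?_
    rw [← ENNReal.ofReal_sum_of_nonneg fun p _ => mul_nonneg hκ0 (RR_nonneg _ _ _)]
    apply ENNReal.ofReal_le_ofReal
    rw [← Finset.mul_sum]
    exact mul_le_mul_of_nonneg_left (sum_BB n a₂ hn1 Λ C₁ hΛ2 hΛs (by linarith)) hκ0
  -- the part handled by the truncation
  have hU : ∑ a ∈ AA n a₂ δ, ENNReal.ofReal (η * 2 ^ a) *
        ∑ k ∈ Finset.range (⌊C₁ * n / 2 ^ a⌋₊ + 1), ∫⁻ z, Uc C n k z ∂(P n) ≤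
      ENNReal.ofReal (3 * Real.log n * (η * ((C₁ + 1) * n) * (2 * E9 * Real.log n * n))) := by
    have h1 : ∀ a ∈ AA n a₂ δ, ENNReal.ofReal (η * 2 ^ a) *
        ∑ k ∈ Finset.range (⌊C₁ * n / 2 ^ a⌋₊ + 1), ∫⁻ z, Uc C n k z ∂(P n) ≤
        ENNReal.ofReal (η * ((C₁ + 1) * n) * (2 * E9 * Real.log n * n)) := by
      intro a ha
      have ha1 := (hA a ha).2
      have ha2 : a₂ ≤ a := by
        unfold AA at ha
        rw [Finset.mem_filter] at ha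
        exact ha.2.1
      have hpa : 2 * C₁ ≤ (2 : ℝ) ^ a :=
        ha₂'.trans (pow_le_pow_right₀ (by norm_num) ha2)
      have hpa0 : (0 : ℝ) < (2 : ℝ) ^ a := by positivity
      have hpan : (2 : ℝ) ^ a ≤ n := by
        exact ha1.trans (hΛs.trans (aux_sqrt (by linarith)))
      have hfl : (⌊C₁ * n / 2 ^ a⌋₊ : ℝ) ≤ C₁ * n / 2 ^ a := Nat.floor_le (by positivity)
      have hhalf : C₁ * n / 2 ^ a ≤ n / 2 := by
        rw [div_le_div_iff₀ hpa0 (by norm_num)]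
        exact aux_half hpa hn0
      have h2 : ∀ k ∈ Finset.range (⌊C₁ * n / 2 ^ a⌋₊ + 1), ∫⁻ z, Uc C n k z ∂(P n) ≤
          ENNReal.ofReal (2 * E9 * Real.log n * n) := by
        intro k hk
        rw [Finset.mem_range, Nat.lt_succ_iff] at hk
        have hk1 : (k : ℝ) ≤ n / 2 := by
          have : (k : ℝ) ≤ ⌊C₁ * n / 2 ^ a⌋₊ := by exact_mod_cast hk
          linarith
        have hkn : k < n := by
          have : (k : ℝ) < n := by linarith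
          exact_mod_cast this
        refine (hN₁ n hnN₁ k hkn).trans ?_
        apply ENNReal.ofReal_le_ofReal
        rw [div_le_iff₀ (by linarith)]
        have h5 : 0 ≤ E9 * Real.log n * n := by positivity
        exact aux_div h5 hk1
      calc ENNReal.ofReal (η * 2 ^ a) *
          ∑ k ∈ Finset.range (⌊C₁ * n / 2 ^ a⌋₊ + 1), ∫⁻ z, Uc C n k z ∂(P n)
          ≤ ENNReal.ofReal (η * 2 ^ a) *
            ∑ k ∈ Finset.range (⌊C₁ * n / 2 ^ a⌋₊ + 1), ENNReal.ofReal (2 * E9 * Real.log n * n) := by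
            exact mul_le_mul_right (Finset.sum_le_sum h2) _
        _ = ENNReal.ofReal (η * 2 ^ a * ((⌊C₁ * n / 2 ^ a⌋₊ + 1) * (2 * E9 * Real.log n * n))) := by
            rw [Finset.sum_const, Finset.card_range, nsmul_eq_mul, ← ENNReal.ofReal_natCast,
              ← ENNReal.ofReal_mul (by positivity), ← ENNReal.ofReal_mul (by positivity)]
            push_cast
            ring_nf
        _ ≤ _ := by
            apply ENNReal.ofReal_le_ofReal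
            have h6 : (2 : ℝ) ^ a * ((⌊C₁ * n / 2 ^ a⌋₊ : ℝ) + 1) ≤ (C₁ + 1) * n :=
              aux_floor hpa0 hfl hpan
            have h8 : 0 ≤ 2 * E9 * Real.log n * n := by positivity
            calc η * 2 ^ a * ((⌊C₁ * n / 2 ^ a⌋₊ + 1) * (2 * E9 * Real.log n * n))
                = η * (2 ^ a * (⌊C₁ * n / 2 ^ a⌋₊ + 1)) * (2 * E9 * Real.log n * n) := by ring
              _ ≤ _ := by
                  apply mul_le_mul_of_nonneg_right _ h8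
                  exact mul_le_mul_of_nonneg_left h6 hη0.le
    refine (Finset.sum_le_sum h1).trans ?_
    rw [Finset.sum_const, nsmul_eq_mul, ← ENNReal.ofReal_natCast, ← ENNReal.ofReal_mul (by positivity)]
    apply ENNReal.ofReal_le_ofReal
    apply mul_le_mul_of_nonneg_right (card_AA n a₂ δ hn1 hδ0.le hlog1)
    positivity
  have h2e : (2 : ℝ≥0∞) = ENNReal.ofReal 2 := by simp
  refine (mul_le_mul_right (add_le_add hV hU) 2).trans ?_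
  have hsq : Real.log (Real.sqrt n) = Real.log n / 2 := Real.log_sqrt hn0.le
  have hS0 : 0 ≤ 4 * 2 ^ a₂ + 4 * (4 + Real.log (Real.sqrt n) - Real.log Λ) +
      4 * Real.exp (-(C₁ / 2)) * (1 + Real.log n) := by
    rw [hsq, hlogΛ]
    exact aux_S0 (by positivity) hδ0 hlog0 (Real.exp_pos _)
  rw [h2e, ← ENNReal.ofReal_add (mul_nonneg hκ0 hS0) (by positivity),
    ← ENNReal.ofReal_mul (by norm_num)]
  apply ENNReal.ofReal_le_ofReal
  rw [hκ, hsq, hlogΛ, log_t2_div_t1 n hn1, hη]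
  set lg := Real.log n with hlg
  have hTe : 16 * E9 / 10 * (4 * 2 ^ a₂ + 16) ≤ ε * lg := by
    rw [hT, div_le_iff₀ hε] at hlogT
    linarith
  have hE : E9 * Real.exp (-(C₁ / 2)) ≤ ε / 16 := by
    calc E9 * Real.exp (-(C₁ / 2)) ≤ E9 * (ε / (16 * E9)) :=
          mul_le_mul_of_nonneg_left hCe hE0.le
      _ = ε / 16 := by field_simp
  have hD : E9 * δ ≤ ε / 8 := by
    calc E9 * δ ≤ E9 * (ε / (8 * E9)) := mul_le_mul_of_nonneg_left hδ2 hE0.le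
      _ = ε / 8 := by field_simp
  have hn2 : (0 : ℝ) ≤ (n : ℝ) ^ 2 := by positivity
  have e1 : 3 * lg * (ε / (96 * E9 * (C₁ + 1)) * ((C₁ + 1) * n) * (2 * E9 * lg * n)) =
      (n : ℝ) ^ 2 * (ε / 16 * lg ^ 2) := by
    have : C₁ + 1 ≠ 0 := by linarith
    field_simp
    ring
  rw [e1]
  have e2 : E9 * (lg / 10) * (n : ℝ) ^ 2 * (4 * 2 ^ a₂ + 4 * (4 + lg / 2 - (1 / 2 - δ) * lg) +
      4 * Real.exp (-(C₁ / 2)) * (1 + lg)) = (n : ℝ) ^ 2 * (lg * (E9 / 10 * (4 * 2 ^ a₂ + 16)) +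
      4 / 10 * (E9 * δ) * lg ^ 2 + 4 / 10 * (E9 * Real.exp (-(C₁ / 2))) * (lg * (1 + lg))) := by ring
  rw [e2]
  have f1 : lg * (E9 / 10 * (4 * 2 ^ a₂ + 16)) ≤ ε / 16 * lg ^ 2 :=
    aux_f1 (by linarith) hlog0
  have f2 : 4 / 10 * (E9 * δ) * lg ^ 2 ≤ 4 / 10 * (ε / 8) * lg ^ 2 := aux_f2 hD
  have f3 : 4 / 10 * (E9 * Real.exp (-(C₁ / 2))) * (lg * (1 + lg)) ≤
      4 / 10 * (ε / 16) * (2 * lg ^ 2) := aux_f3 hE hlog1 hε
  have hlg2 : 0 ≤ ε * lg ^ 2 := by positivity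
  calc 2 * ((n : ℝ) ^ 2 * (lg * (E9 / 10 * (4 * 2 ^ a₂ + 16)) +
      4 / 10 * (E9 * δ) * lg ^ 2 + 4 / 10 * (E9 * Real.exp (-(C₁ / 2))) * (lg * (1 + lg))) +
      (n : ℝ) ^ 2 * (ε / 16 * lg ^ 2))
      = (n : ℝ) ^ 2 * (2 * (lg * (E9 / 10 * (4 * 2 ^ a₂ + 16)) +
      4 / 10 * (E9 * δ) * lg ^ 2 + 4 / 10 * (E9 * Real.exp (-(C₁ / 2))) * (lg * (1 + lg)) +
      ε / 16 * lg ^ 2)) := by ring
    _ ≤ (n : ℝ) ^ 2 * (ε * lg ^ 2) :=
        mul_le_mul_of_nonneg_left (aux_fin f1 f2 f3 hlg2) hn2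
    _ = ε * (n : ℝ) ^ 2 * lg ^ 2 := by ring

end Pool.Agent.SM.TaskE

namespace Pool.Agent.SM

open MeasureTheory
open scoped ENNReal

open Classical in
theorem incomparable_pairs (C ε : ℝ) (hC : 1 ≤ C) (hε : 0 < ε) :
    ∃ δ η : ℝ, 0 < δ ∧ δ < 1 / 2 ∧ 0 < η ∧ ∀ a₀ : ℕ, ∃ N : ℕ, ∀ n : ℕ, N ≤ n →
    ∫⁻ z, ∑ μ : Equiv.Perm (Fin n), ∑ μ' : Equiv.Perm (Fin n),
      (if Stab z μ ∧ Stab z μ' ∧ Nice C (t1 n) (t2 n) z μ ∧ Nice C (t1 n) (t2 n) z μ' ∧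
        Trunc a₀ δ η z μ ∧ Trunc a₀ δ η z μ' ∧ Inc z μ μ'
        then (1 : ℝ≥0∞) else 0) ∂(P n) ≤
    ENNReal.ofReal (ε * (n : ℝ) ^ 2 * Real.log n ^ 2) :=
  TaskE.incomparable_pairs_of exp_vee exp_up C ε hC hε

end Pool.Agent.SM
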