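import Pool.Agent.MP_d30e2b_pr.Prob
import Pool.Agent.MP_d30e2b_pr.Sym
import Pool.Agent.MP_d30e2b_pr.TaskM

set_option autoImplicit false

/-! Task F: first moment, upper bound -/

namespace Pool.Agent.SM

open MeasureTheory Set
open scoped ENNReal Nat

namespace TaskF

variable {n : ℕ}

/-- `∫₀¹ e^{-tx} dx` -/
noncomputable def phi (t : ℝ) : ℝ≥0∞ := ∫⁻ x, ENNReal.ofReal (Real.exp (-(t * x))) ∂u1

theorem measurable_phi : Measurable phi := by
  unfold phi
  refine Measurable.lintegral_prod_right' (f := fun p : ℝ × ℝ =>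
    ENNReal.ofReal (Real.exp (-(p.1 * p.2)))) ?_
  fun_prop

theorem phi_eq {t : ℝ} (ht : 0 < t) : phi t = ENNReal.ofReal ((1 - Real.exp (-t)) / t) := by
  unfold phi
  have h1 : ∫ x in (0:ℝ)..1, Real.exp (-(t * x)) = (1 - Real.exp (-t)) / t := by
    have hd : ∀ x ∈ Set.uIcc (0:ℝ) 1, HasDerivAt (fun x => -Real.exp (-(t * x)) / t)
        (Real.exp (-(t * x))) x := by
      intro x _
      have h2 : HasDerivAt (fun x : ℝ => -(t * x)) (-t) x := by
        simpa using ((hasDerivAt_id x).const_mul t).fun_neg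
      refine ((h2.exp.fun_neg).div_const t).congr_deriv ?_
      field_simp
    rw [intervalIntegral.integral_eq_sub_of_hasDerivAt hd
      (Continuous.intervalIntegrable (by fun_prop) _ _)]
    simp
    ring
  rw [← h1, intervalIntegral.integral_of_le zero_le_one, u1_eq,
    ofReal_integral_eq_lintegral_ofReal]
  · apply (Continuous.integrableOn_Icc (a := 0) (b := 1) (by fun_prop)).mono_set
    exact Ioc_subset_Icc_self
  · filter_upwards with x
    positivity

theorem prod_exp_le (x y : Fin n → ℝ) (ξ η : Mov (1 : Equiv.Perm (Fin n)) → ℝ)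
    (h : Adm 1 x y ξ η) :
    ∏ r : Rst (1 : Equiv.Perm (Fin n)), ENNReal.ofReal (1 - ar 1 (cla 1) x y ξ η r.1.1 r.1.2) ≤
    ENNReal.ofReal (Real.exp (∑ i, y i)) *
      ∏ i, ENNReal.ofReal (Real.exp (-((∑ j, y j) * x i))) := by
  calc _ ≤ ∏ r : Rst (1 : Equiv.Perm (Fin n)),
        ENNReal.ofReal (Real.exp (-ar 1 (cla 1) x y ξ η r.1.1 r.1.2)) := by
        refine Finset.prod_le_prod' fun r _ => ENNReal.ofReal_le_ofReal ?_
        have := Real.add_one_le_exp (-ar 1 (cla 1) x y ξ η r.1.1 r.1.2)
        linarith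
    _ = ∏ i, ENNReal.ofReal (Real.exp (-(al 1 y η i * x i))) := by
        rw [prod_exp_ar]
        refine Finset.prod_congr rfl fun i _ => ?_
        rw [dif_neg (by simp)]
    _ ≤ ∏ i, (ENNReal.ofReal (Real.exp (y i)) *
          ENNReal.ofReal (Real.exp (-((∑ j, y j) * x i)))) := by
        refine Finset.prod_le_prod' fun i _ => ?_
        rw [← ENNReal.ofReal_mul (by positivity), ← Real.exp_add]
        refine ENNReal.ofReal_le_ofReal (Real.exp_le_exp.mpr ?_)
        have e1 : ∀ j, ys 1 y η j = y j := by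
          intro j
          unfold ys
          rw [dif_neg (fun h' => h' rfl)]
        have e2 : al 1 y η i = (∑ j, y j) - y i := by
          rw [al_eq]
          simp [e1]
        rw [e2]
        have hx := (h.1 i).1
        have hy := (h.1 i).2
        nlinarith [mul_le_mul_of_nonneg_left hx.2 hy.1]
    _ = _ := by
        rw [Finset.prod_mul_distrib, ← ENNReal.ofReal_prod_of_nonneg (fun _ _ => by positivity),
          ← Real.exp_sum]

open Classical in
theorem small_tt (τ : ℝ) (hτ : 0 < τ) (hn : 1 ≤ n) :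
    ∫⁻ z : Conf n, (if Stab z 1 ∧ tt z 1 < τ then (1 : ℝ≥0∞) else 0) ∂(P n) ≤
      ENNReal.ofReal (τ * (Real.exp τ * (1 - Real.exp (-τ)) ^ (n - 1)) / (n - 1)!) := by
  obtain ⟨m, rfl⟩ : ∃ m, n = m + 1 := ⟨n - 1, by omega⟩
  simp only [add_tsub_cancel_right]
  let f : ℝ → ℝ≥0∞ := fun t => if t < τ then ENNReal.ofReal (Real.exp t) * phi t ^ (m + 1) else 0
  have hf : Measurable f := by
    refine Measurable.ite (measurableSet_lt measurable_id measurable_const) ?_ measurable_const
    exact (by fun_prop : Measurable fun t : ℝ => ENNReal.ofReal (Real.exp t)).mul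
      (measurable_phi.pow_const _)
  have hK : Measurable fun q : (Fin (m + 1) → ℝ × ℝ) × (Mov (1 : Equiv.Perm (Fin (m + 1))) → ℝ × ℝ) =>
      (if ∑ i, (q.1 i).2 < τ then (1 : ℝ≥0∞) else 0) :=
    Measurable.ite (measurableSet_lt (by fun_prop) measurable_const) measurable_const
      measurable_const
  have h := triple_bound (σ := 1) (σA := 1) (σB := 1) (by simp)
    (Equiv.Perm.disjoint_one_right _)
    (fun _ y _ _ => if ∑ i, y i < τ then (1 : ℝ≥0∞) else 0) hK
  have e0 : ∀ z : Conf (m + 1), (if Stab z 1 ∧ tt z 1 < τ then (1 : ℝ≥0∞) else 0) =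
      (if Stab z 1 ∧ Low z 1 1 ∧ Low z 1 1 then (if ∑ i, zy z i < τ then (1 : ℝ≥0∞) else 0)
        else 0) := by
    intro z
    rw [low_one_one]
    have : tt z 1 = ∑ i, zy z i := rfl
    rw [this]
    by_cases a : Stab z 1 <;> simp [a]
  simp_rw [e0]
  refine h.trans ?_
  calc _ ≤ ∫⁻ y : Fin (m + 1) → ℝ, f (∑ i, y i) ∂(Measure.pi fun _ => u1) := by
        refine lintegral_mono fun y => ?_
        have h1 : ∀ η : Mov (1 : Equiv.Perm (Fin (m + 1))) → ℝ, ∫⁻ x : Fin (m + 1) → ℝ,
            ∫⁻ ξ : Mov (1 : Equiv.Perm (Fin (m + 1))) → ℝ,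
            (if Adm 1 x y ξ η then (if ∑ i, y i < τ then (1 : ℝ≥0∞) else 0) *
              ∏ r : Rst (1 : Equiv.Perm (Fin (m + 1))),
                ENNReal.ofReal (1 - ar 1 (cla 1) x y ξ η r.1.1 r.1.2) else 0)
            ∂(Measure.pi fun _ => u1) ∂(Measure.pi fun _ => u1) ≤ f (∑ i, y i) := by
          intro η
          calc _ ≤ ∫⁻ x : Fin (m + 1) → ℝ, ∫⁻ _ξ : Mov (1 : Equiv.Perm (Fin (m + 1))) → ℝ,
              (if ∑ i, y i < τ then ENNReal.ofReal (Real.exp (∑ i, y i)) *
                ∏ i, ENNReal.ofReal (Real.exp (-((∑ j, y j) * x i))) else 0)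
              ∂(Measure.pi fun _ => u1) ∂(Measure.pi fun _ => u1) := by
                refine lintegral_mono fun x => lintegral_mono fun ξ => ?_
                by_cases ha : Adm 1 x y ξ η
                · rw [if_pos ha]
                  split_ifs
                  · rw [one_mul]
                    exact prod_exp_le x y ξ η ha
                  · simp
                · rw [if_neg ha]
                  exact zero_le
            _ = ∫⁻ x : Fin (m + 1) → ℝ,
              (if ∑ i, y i < τ then ENNReal.ofReal (Real.exp (∑ i, y i)) *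
                ∏ i, ENNReal.ofReal (Real.exp (-((∑ j, y j) * x i))) else 0)
              ∂(Measure.pi fun _ => u1) := by
                refine lintegral_congr fun x => ?_
                rw [lintegral_const]
                simp
            _ = f (∑ i, y i) := by
                simp only [f]
                split_ifs
                · rw [lintegral_const_mul _ (by fun_prop)]
                  congr 1
                  rw [lintegral_pi_prod (fun _ => u1)
                    (fun _ x => ENNReal.ofReal (Real.exp (-((∑ j, y j) * x)))) (fun _ => by fun_prop)]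
                  simp [phi]
                · simp
        refine (lintegral_mono h1).trans ?_
        rw [lintegral_const]
        simp
    _ ≤ ∫⁻ y : Fin (m + 1) → ℝ, f (∑ i, y i) ∂(orth (Fin (m + 1))) :=
        lintegral_mono' (pi_u1_le _) le_rfl
    _ = ∫⁻ t in Ioi (0:ℝ), f t * ENNReal.ofReal (t ^ m / m !) := by
        have := lint_orth (ι := Fin (m + 1)) m (by simp) (fun _ => 0) f hf
        simpa using this
    _ ≤ ∫⁻ t in Ioi (0:ℝ), (Iio τ).indicator (fun _ => ENNReal.ofReal
          ((Real.exp τ * (1 - Real.exp (-τ)) ^ m) / m !)) t := by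
        refine setLIntegral_mono' measurableSet_Ioi fun t ht => ?_
        simp only [mem_Ioi] at ht
        simp only [f, indicator, mem_Iio]
        split_ifs with h2
        · rw [phi_eq ht]
          have h3 : 0 ≤ 1 - Real.exp (-t) := by
            have := Real.exp_le_one_iff.mpr (show -t ≤ 0 by linarith)
            linarith
          have h4 : 1 - Real.exp (-t) ≤ t := by
            have := Real.add_one_le_exp (-t)
            linarith
          have h5 : 1 - Real.exp (-t) ≤ 1 - Real.exp (-τ) := by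
            have := Real.exp_le_exp.mpr (show -τ ≤ -t by linarith)
            linarith
          rw [← ENNReal.ofReal_pow (by positivity), ← ENNReal.ofReal_mul (by positivity),
            ← ENNReal.ofReal_mul (by positivity)]
          refine ENNReal.ofReal_le_ofReal ?_
          rw [← mul_div_assoc]
          refine div_le_div_of_nonneg_right ?_ (by positivity)
          have e1 : Real.exp t * ((1 - Real.exp (-t)) / t) ^ (m + 1) * t ^ m
              = Real.exp t * (1 - Real.exp (-t)) ^ m * ((1 - Real.exp (-t)) / t) := by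
            rw [pow_succ, div_pow]
            field_simp
          rw [e1]
          have h6 : (1 - Real.exp (-t)) / t ≤ 1 := by rwa [div_le_one ht]
          have h7 : (1 - Real.exp (-t)) ^ m ≤ (1 - Real.exp (-τ)) ^ m :=
            pow_le_pow_left₀ h3 h5 m
          calc _ ≤ Real.exp t * (1 - Real.exp (-t)) ^ m * 1 :=
                mul_le_mul_of_nonneg_left h6 (by positivity)
            _ ≤ Real.exp τ * (1 - Real.exp (-τ)) ^ m := by
                rw [mul_one]
                exact mul_le_mul (Real.exp_le_exp.mpr h2.le) h7 (by positivity) (by positivity)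
        · simp
    _ = _ := by
        rw [lintegral_indicator measurableSet_Iio, lintegral_const,
          Measure.restrict_apply_univ]
        rw [Measure.restrict_apply measurableSet_Iio]
        have : Iio τ ∩ Ioi 0 = Ioo 0 τ := by
          ext t
          simp only [mem_inter_iff, mem_Iio, mem_Ioi, mem_Ioo]
          tauto
        rw [this, Real.volume_Ioo, sub_zero, ← ENNReal.ofReal_mul]
        · congr 1
          ring
        · have : 0 ≤ 1 - Real.exp (-τ) := by
            have := Real.exp_le_one_iff.mpr (show -τ ≤ 0 by linarith)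
            linarith
          positivity

theorem exp_tau_le {n : ℕ} (hn : 2 ≤ n) :
    Real.exp (4 + Real.log n / 2) * (1 - Real.exp (-(4 + Real.log n / 2))) ^ (n - 1) ≤
      2 * Real.exp 8 := by
  set τ : ℝ := 4 + Real.log n / 2 with hτ
  have hn' : (2 : ℝ) ≤ n := by exact_mod_cast hn
  have hn1 : ((n - 1 : ℕ) : ℝ) = n - 1 := by
    rw [Nat.cast_sub (by omega)]
    simp
  have hlog : 0 ≤ Real.log n := Real.log_nonneg (by linarith)
  have hτ0 : 0 ≤ τ := by positivity
  have hq0 : 0 < Real.exp (-τ) := Real.exp_pos _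
  have hq1 : Real.exp (-τ) ≤ 1 := Real.exp_le_one_iff.mpr (by linarith)
  have h1 : (1 - Real.exp (-τ)) ^ (n - 1) ≤ Real.exp (-(((n : ℝ) - 1) * Real.exp (-τ))) := by
    have e1 : 1 - Real.exp (-τ) ≤ Real.exp (-Real.exp (-τ)) := by
      have := Real.add_one_le_exp (-Real.exp (-τ))
      linarith
    calc _ ≤ (Real.exp (-Real.exp (-τ))) ^ (n - 1) :=
          pow_le_pow_left₀ (by linarith) e1 _
      _ = _ := by
          rw [← Real.exp_nat_mul, hn1]
          congr 1
          ring
  have hx0 : 0 < ((n : ℝ) - 1) * Real.exp (-τ) := mul_pos (by linarith) hq0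
  have h2 : Real.exp (-(((n : ℝ) - 1) * Real.exp (-τ))) ≤
      1 / (((n : ℝ) - 1) * Real.exp (-τ)) := by
    rw [Real.exp_neg, ← one_div]
    refine one_div_le_one_div_of_le hx0 ?_
    have := Real.add_one_le_exp (((n : ℝ) - 1) * Real.exp (-τ))
    linarith
  have h3 : Real.exp τ * (1 / (((n : ℝ) - 1) * Real.exp (-τ))) = Real.exp 8 * n / (n - 1) := by
    have e2 : Real.exp τ * Real.exp τ = Real.exp 8 * n := by
      rw [← Real.exp_add]
      have : τ + τ = 8 + Real.log n := by rw [hτ]; ring
      rw [this, Real.exp_add, Real.exp_log (by linarith)]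
    rw [Real.exp_neg, ← e2]
    have : (n : ℝ) - 1 ≠ 0 := by linarith
    field_simp
  calc _ ≤ Real.exp τ * (1 / (((n : ℝ) - 1) * Real.exp (-τ))) :=
        mul_le_mul_of_nonneg_left (h1.trans h2) (Real.exp_pos _).le
    _ = Real.exp 8 * n / (n - 1) := h3
    _ ≤ 2 * Real.exp 8 := by
        rw [div_le_iff₀ (by linarith)]
        nlinarith [Real.exp_pos 8]

end TaskF

theorem exp_nst_le : ∃ C₀ : ℝ, 0 < C₀ ∧ ∀ n : ℕ, 2 ≤ n →
    ∫⁻ z, (nst z : ℝ≥0∞) ∂(P n) ≤ ENNReal.ofReal (C₀ * n * Real.log n) := by
  classical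
  refine ⟨Real.exp 9 + 18 * Real.exp 8, by positivity, ?_⟩
  intro n hn
  have hn' : (2 : ℝ) ≤ n := by exact_mod_cast hn
  have hlog2 : Real.log 2 ≤ Real.log n := Real.log_le_log (by norm_num) hn'
  have hlog : (1 / 2 : ℝ) ≤ Real.log n := by
    have := Real.log_two_gt_d9
    linarith
  have hlogn : Real.log n ≤ n := by
    have := Real.log_le_sub_one_of_pos (show (0 : ℝ) < n by linarith)
    linarith
  set τ : ℝ := 4 + Real.log n / 2 with hτ
  have hτ4 : 4 ≤ τ := by rw [hτ]; linarith
  have hτ9 : τ ≤ 9 * Real.log n := by rw [hτ]; linarith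
  set τ₂ : ℝ := n + τ with hτ₂
  have hle : τ ≤ τ₂ := by rw [hτ₂]; linarith
  let F1 : Conf n → Equiv.Perm (Fin n) → ℝ≥0∞ := fun z μ =>
    if Stab z μ ∧ Win τ τ₂ (tt z μ) then 1 else 0
  let F2 : Conf n → Equiv.Perm (Fin n) → ℝ≥0∞ := fun z μ =>
    if Stab z μ ∧ tt z μ < τ then 1 else 0
  have hF1 : ∀ μ, Measurable fun z => F1 z μ := fun μ =>
    Measurable.ite ((meas_Stab μ).inter (meas_Win μ τ τ₂)) measurable_const measurable_const
  have hF2 : ∀ μ, Measurable fun z => F2 z μ := fun μ =>
    Measurable.ite ((meas_Stab μ).inter (measurableSet_lt (meas_tt μ) measurable_const))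
      measurable_const measurable_const
  have hsplit : ∫⁻ z, (nst z : ℝ≥0∞) ∂(P n) ≤
      ∫⁻ z, ∑ μ, F1 z μ ∂(P n) + ∫⁻ z, ∑ μ, F2 z μ ∂(P n) := by
    rw [← lintegral_add_left (Finset.measurable_sum _ fun μ _ => hF1 μ)]
    refine lintegral_mono_ae ?_
    filter_upwards [ae_box n] with z hz
    have e1 : (nst z : ℝ≥0∞) = ∑ μ : Equiv.Perm (Fin n), if Stab z μ then (1 : ℝ≥0∞) else 0 := by
      unfold nst
      rw [Finset.sum_ite]
      simp
    rw [e1, ← Finset.sum_add_distrib]
    refine Finset.sum_le_sum fun μ _ => ?_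
    have htt : tt z μ ≤ n := by
      unfold tt
      calc ∑ i, wy z μ i ≤ ∑ _i : Fin n, (1 : ℝ) := Finset.sum_le_sum fun i _ => (hz _).2.2
        _ = n := by simp
    simp only [F1, F2]
    by_cases h1 : Stab z μ
    · by_cases h2 : tt z μ < τ
      · simp [h1, h2]
      · have h3 : Win τ τ₂ (tt z μ) := ⟨not_lt.mp h2, by rw [hτ₂]; linarith⟩
        simp [h1, h3]
    · simp [h1]
  have hfac : (n.factorial : ℝ) = n * (n - 1).factorial := by
    obtain ⟨m, rfl⟩ : ∃ m, n = m + 1 := ⟨n - 1, by omega⟩
    rw [Nat.factorial_succ]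
    push_cast
    simp
  have hfac0 : (0 : ℝ) < (n - 1).factorial := by positivity
  have hA : ∫⁻ z, ∑ μ, F1 z μ ∂(P n) ≤ ENNReal.ofReal (Real.exp 9 * n * Real.log n) := by
    rw [sum_rl F1 (hF1 1) (fun z μ => by
      simp only [F1]
      rw [stab_rl, tt_rl, mul_one])]
    have h1 := prob_low (n := n) 1 hτ4 hle (by simp; omega)
    have e0 : ∀ z : Conf n, F1 z 1 =
        (if Stab z 1 ∧ Low z 1 1 ∧ Win τ τ₂ (tt z 1) then (1 : ℝ≥0∞) else 0) := by
      intro z
      rw [low_one_one]
      simp only [F1]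
      by_cases a : Stab z 1 <;> simp [a]
    simp_rw [e0]
    refine (mul_le_mul_right h1 _).trans ?_
    rw [← ENNReal.ofReal_natCast, ← ENNReal.ofReal_mul (by positivity)]
    refine ENNReal.ofReal_le_ofReal ?_
    simp only [Equiv.Perm.support_one, Finset.card_empty, Nat.sub_zero]
    rw [hfac]
    have h2 : Real.log (τ₂ / τ) ≤ Real.log n := by
      refine Real.log_le_log (by positivity) ?_
      rw [div_le_iff₀ (by linarith), hτ₂]
      nlinarith
    have h3 : (n : ℝ) * (n - 1).factorial * (Real.exp 9 * (Real.log (τ₂ / τ) *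
        ((n - 1).factorial / (n - 1).factorial / (n - 1).factorial)))
        = Real.exp 9 * n * Real.log (τ₂ / τ) := by
      field_simp
    rw [h3]
    exact mul_le_mul_of_nonneg_left h2 (by positivity)
  have hB : ∫⁻ z, ∑ μ, F2 z μ ∂(P n) ≤ ENNReal.ofReal (18 * Real.exp 8 * n * Real.log n) := by
    rw [sum_rl F2 (hF2 1) (fun z μ => by
      simp only [F2]
      rw [stab_rl, tt_rl, mul_one])]
    have h1 := TaskF.small_tt (n := n) τ (by linarith) (by omega)
    refine (mul_le_mul_right h1 _).trans ?_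
    rw [← ENNReal.ofReal_natCast, ← ENNReal.ofReal_mul (by positivity)]
    refine ENNReal.ofReal_le_ofReal ?_
    rw [hfac]
    have h2 := TaskF.exp_tau_le hn
    rw [← hτ] at h2
    have h3 : (n : ℝ) * (n - 1).factorial *
        (τ * (Real.exp τ * (1 - Real.exp (-τ)) ^ (n - 1)) / (n - 1).factorial)
        = n * (τ * (Real.exp τ * (1 - Real.exp (-τ)) ^ (n - 1))) := by
      field_simp
    rw [h3]
    have h4 : τ * (Real.exp τ * (1 - Real.exp (-τ)) ^ (n - 1)) ≤
        (9 * Real.log n) * (2 * Real.exp 8) := by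
      refine mul_le_mul hτ9 h2 ?_ (by positivity)
      have : 0 ≤ 1 - Real.exp (-τ) := by
        have := Real.exp_le_one_iff.mpr (show -τ ≤ 0 by linarith)
        linarith
      positivity
    calc _ ≤ (n : ℝ) * ((9 * Real.log n) * (2 * Real.exp 8)) :=
          mul_le_mul_of_nonneg_left h4 (by positivity)
      _ = _ := by ring
  calc _ ≤ _ := hsplit
    _ ≤ ENNReal.ofReal (Real.exp 9 * n * Real.log n) +
        ENNReal.ofReal (18 * Real.exp 8 * n * Real.log n) := add_le_add hA hB
    _ = _ := by
        rw [← ENNReal.ofReal_add (by positivity) (by positivity)]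
        congr 1
        ring

end Pool.Agent.SM
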