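import Pool.Agent.MP_d30e2b_pr.FarPairs
import Pool.Agent.MP_d30e2b_pr.TaskE
import Pool.Agent.MP_d30e2b_pr.TaskF
import Pool.Agent.MP_d30e2b_pr.FirstLower
import Pool.Agent.MP_d30e2b_pr.TaskD

set_option autoImplicit false

/-! Task G: Chebyshev and conclusion -/

namespace Pool.Agent.SM.TaskG

open MeasureTheory ProbabilityTheory
open scoped ENNReal

/-! ### abstract Chebyshev -/

lemma cheb {Ω : Type*} [MeasurableSpace Ω] (μ : Measure Ω) [IsProbabilityMeasure μ]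
    (W : Ω → ℝ≥0∞) (hW : Measurable W) (B : ℝ) (hB : ∀ ω, W ω ≤ ENNReal.ofReal B)
    (a b : ℝ) (ha : 0 < a) (h1 : ENNReal.ofReal a ≤ ∫⁻ ω, W ω ∂μ)
    (h2 : ∫⁻ ω, W ω * W ω ∂μ ≤ ENNReal.ofReal b) :
    μ {ω | W ω < ENNReal.ofReal (a / 2)} ≤ ENNReal.ofReal (4 * (b / a ^ 2 - 1)) := by
  set X : Ω → ℝ := fun ω => (W ω).toReal with hX
  have hXm : Measurable X := hW.ennreal_toReal
  have hfin : ∀ ω, W ω ≠ ∞ := fun ω => ne_top_of_le_ne_top ENNReal.ofReal_ne_top (hB ω)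
  have hX0 : ∀ ω, 0 ≤ X ω := fun ω => ENNReal.toReal_nonneg
  have hXW : ∀ ω, ENNReal.ofReal (X ω) = W ω := fun ω => ENNReal.ofReal_toReal (hfin ω)
  have hXB : ∀ ω, X ω ≤ max B 0 := by
    intro ω
    have := ENNReal.toReal_mono ENNReal.ofReal_ne_top (hB ω)
    rw [ENNReal.toReal_ofReal'] at this
    exact this
  have hmem : MemLp X 2 μ := by
    refine MemLp.of_bound hXm.aestronglyMeasurable (max B 0) ?_
    filter_upwards with ω
    rw [Real.norm_of_nonneg (hX0 ω)]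
    exact hXB ω
  have hmem1 : Integrable X μ := hmem.integrable (by norm_num)
  set m : ℝ := ∫ ω, X ω ∂μ with hm
  have hm1 : ENNReal.ofReal m = ∫⁻ ω, W ω ∂μ := by
    rw [hm, ofReal_integral_eq_lintegral_ofReal hmem1 (Filter.Eventually.of_forall hX0)]
    exact lintegral_congr fun ω => hXW ω
  have hm0 : 0 ≤ m := integral_nonneg hX0
  have ham : a ≤ m := by
    rw [← hm1] at h1
    exact (ENNReal.ofReal_le_ofReal_iff hm0).1 h1
  have hmpos : 0 < m := ha.trans_le ham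
  have hsq : Integrable (fun ω => X ω ^ 2) μ := hmem.integrable_sq
  have hb0 : 0 ≤ b ∨ b < 0 := le_or_gt 0 b
  have h2' : ∫ ω, X ω ^ 2 ∂μ ≤ max b 0 := by
    have e : ENNReal.ofReal (∫ ω, X ω ^ 2 ∂μ) = ∫⁻ ω, W ω * W ω ∂μ := by
      rw [ofReal_integral_eq_lintegral_ofReal hsq
        (Filter.Eventually.of_forall fun ω => sq_nonneg _)]
      refine lintegral_congr fun ω => ?_
      rw [sq, ENNReal.ofReal_mul (hX0 ω), hXW]
    have h3 : ENNReal.ofReal (∫ ω, X ω ^ 2 ∂μ) ≤ ENNReal.ofReal (max b 0) := by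
      rw [e]
      exact h2.trans (ENNReal.ofReal_le_ofReal (le_max_left _ _))
    exact (ENNReal.ofReal_le_ofReal_iff (le_max_right _ _)).1 h3
  have hvar : Var[X; μ] = (∫ ω, X ω ^ 2 ∂μ) - m ^ 2 := by
    rw [variance_eq_sub hmem]
    rfl
  have hb : 0 < b := by
    by_contra hb
    rw [max_eq_right (not_lt.1 hb)] at h2'
    have : 0 ≤ Var[X; μ] := variance_nonneg _ _
    have : 0 < m ^ 2 := by positivity
    linarith
  rw [max_eq_left hb.le] at h2'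
  have hch := meas_ge_le_variance_div_sq hmem (c := m / 2) (by positivity)
  refine (measure_mono ?_).trans (hch.trans (ENNReal.ofReal_le_ofReal ?_))
  · intro ω hω
    simp only [Set.mem_ofPred_eq] at hω ⊢
    rw [← hXW ω, ENNReal.ofReal_lt_ofReal_iff (by positivity)] at hω
    change m / 2 ≤ |X ω - m|
    rw [abs_sub_comm]
    refine le_trans ?_ (le_abs_self _)
    linarith
  · rw [hvar]
    have h4 : b / m ^ 2 ≤ b / a ^ 2 := by
      apply div_le_div_of_nonneg_left hb.le (by positivity)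
      exact pow_le_pow_left₀ ha.le ham 2
    have h6 : (b - m ^ 2) / (m / 2) ^ 2 = 4 * (b / m ^ 2 - 1) := by
      field_simp
      ring
    refine le_trans (div_le_div_of_nonneg_right (sub_le_sub_right h2' _) (by positivity)) ?_
    rw [h6]
    linarith


/-! ### the truncated, weighted number of stable matchings -/

section W
variable {n : ℕ}

/-- the kept matchings -/
def Kept (C δ η : ℝ) (a₀ : ℕ) (z : Conf n) (μ : Equiv.Perm (Fin n)) : Prop :=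
  Stab z μ ∧ Nice C (t1 n) (t2 n) z μ ∧ Trunc a₀ δ η z μ

open Classical in
/-- weight of a kept matching -/
noncomputable def ww (C δ η : ℝ) (a₀ : ℕ) (z : Conf n) (μ : Equiv.Perm (Fin n)) : ℝ≥0∞ :=
  if Kept C δ η a₀ z μ then gw z μ else 0

/-- total weight -/
noncomputable def WW (C δ η : ℝ) (a₀ : ℕ) (z : Conf n) : ℝ≥0∞ :=
  ∑ μ : Equiv.Perm (Fin n), ww C δ η a₀ z μ

lemma meas_Kept (C δ η : ℝ) (a₀ : ℕ) (μ : Equiv.Perm (Fin n)) :
    MeasurableSet {z : Conf n | Kept C δ η a₀ z μ} :=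
  (meas_Stab μ).inter ((meas_Nice μ C _ _).inter (meas_Trunc μ a₀ δ η))

lemma meas_ite {s : Conf n → Prop} {_ : ∀ z, Decidable (s z)} (hs : MeasurableSet {z | s z})
    {f : Conf n → ℝ≥0∞} (hf : Measurable f) : Measurable fun z => if s z then f z else 0 :=
  Measurable.ite hs hf measurable_const

lemma meas_ww (C δ η : ℝ) (a₀ : ℕ) (μ : Equiv.Perm (Fin n)) :
    Measurable fun z : Conf n => ww C δ η a₀ z μ :=
  meas_ite (meas_Kept C δ η a₀ μ) (meas_gw μ)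

lemma meas_WW (C δ η : ℝ) (a₀ : ℕ) : Measurable fun z : Conf n => WW C δ η a₀ z :=
  Finset.measurable_sum _ fun μ _ => meas_ww C δ η a₀ μ

lemma gw_le (C τ₁ τ₂ : ℝ) (hC : 1 ≤ C) (hτ : 0 < τ₁) (hn : 0 < n) (z : Conf n)
    (μ : Equiv.Perm (Fin n)) (h : Nice C τ₁ τ₂ z μ) :
    gw z μ ≤ ENNReal.ofReal (Real.exp (C ^ 2 / 2)) := by
  obtain ⟨h1, -, h2, -, h3, -⟩ := h
  unfold gw
  apply ENNReal.ofReal_le_ofReal
  rw [Real.exp_le_exp]
  have ht : 0 < ∑ i, wy z μ i := hτ.trans_le h1.1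
  have hn' : (0 : ℝ) < n := by exact_mod_cast hn
  have h4 : (∑ i, mx z μ i ^ 2) * (∑ i, wy z μ i ^ 2) ≤
      (C * n / (∑ i, wy z μ i) ^ 2) * (C * (∑ i, wy z μ i) ^ 2 / n) := by
    apply mul_le_mul h2 h3 (Finset.sum_nonneg fun i _ => sq_nonneg _)
    positivity
  have h5 : (C * n / (∑ i, wy z μ i) ^ 2) * (C * (∑ i, wy z μ i) ^ 2 / n) = C ^ 2 := by
    field_simp
  linarith [h5 ▸ h4]

lemma one_le_gw (z : Conf n) (μ : Equiv.Perm (Fin n)) : 1 ≤ gw z μ := by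
  unfold gw
  rw [ENNReal.one_le_ofReal]
  apply Real.one_le_exp
  have h1 : 0 ≤ ∑ i, mx z μ i ^ 2 := Finset.sum_nonneg fun i _ => sq_nonneg _
  have h2 : 0 ≤ ∑ i, wy z μ i ^ 2 := Finset.sum_nonneg fun i _ => sq_nonneg _
  positivity

/-- upper bound by the number of stable matchings -/
lemma WW_le (C δ η : ℝ) (a₀ : ℕ) (hC : 1 ≤ C) (ht : 0 < t1 n) (hn : 0 < n) (z : Conf n) :
    WW C δ η a₀ z ≤ ENNReal.ofReal (Real.exp (C ^ 2 / 2)) * (nst z : ℝ≥0∞) := by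
  classical
  unfold WW nst
  rw [Finset.card_filter, Nat.cast_sum, Finset.mul_sum]
  apply Finset.sum_le_sum
  intro μ _
  unfold ww
  split_ifs with h1 h2
  · simpa using gw_le C (t1 n) (t2 n) hC ht hn z μ h1.2.1
  · exact absurd h1.1 h2
  · exact zero_le
  · simp

open Classical in
/-- first moment -/
lemma first_WW (C δ η : ℝ) (a₀ : ℕ) (hC : 1 ≤ C) (ht : 0 < t1 n) (hn : 0 < n) :
    ∫⁻ z, ∑ μ : Equiv.Perm (Fin n),
      (if Stab z μ ∧ Nice C (t1 n) (t2 n) z μ then gw z μ else 0) ∂(P n) ≤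
    ∫⁻ z, WW C δ η a₀ z ∂(P n) + ENNReal.ofReal (Real.exp (C ^ 2 / 2)) *
      ∫⁻ z, ∑ μ : Equiv.Perm (Fin n),
      (if Stab z μ ∧ Win (t1 n) (t2 n) (tt z μ) ∧ ¬ Trunc a₀ δ η z μ
        then (1 : ℝ≥0∞) else 0) ∂(P n) := by
  rw [← lintegral_const_mul' _ _ ENNReal.ofReal_ne_top, ← lintegral_add_left (meas_WW C δ η a₀)]
  apply lintegral_mono
  intro z
  simp only
  unfold WW
  rw [Finset.mul_sum, ← Finset.sum_add_distrib]
  apply Finset.sum_le_sum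
  intro μ _
  by_cases h1 : Stab z μ ∧ Nice C (t1 n) (t2 n) z μ
  · by_cases h2 : Trunc a₀ δ η z μ
    · rw [if_pos h1, ww, if_pos ⟨h1.1, h1.2, h2⟩]
      exact le_self_add
    · rw [if_pos h1, if_pos (⟨h1.1, h1.2.1, h2⟩ :
        Stab z μ ∧ Win (t1 n) (t2 n) (tt z μ) ∧ ¬ Trunc a₀ δ η z μ), mul_one]
      exact (gw_le C (t1 n) (t2 n) hC ht hn z μ h1.2).trans le_add_self
  · rw [if_neg h1]
    exact zero_le

open Classical in
/-- comparable pairs -/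
noncomputable def AA (C : ℝ) (z : Conf n) (μ σ : Equiv.Perm (Fin n)) : ℝ≥0∞ :=
  if Stab z μ ∧ Low z μ σ ∧ σ ≠ 1 ∧ Nice C (t1 n) (t2 n) z μ ∧
        Nice C (t1 n) (t2 n) z (μ * σ) then gw z μ * gw z (μ * σ) else 0

open Classical in
/-- incomparable pairs -/
noncomputable def II (C δ η : ℝ) (a₀ : ℕ) (z : Conf n) (μ μ' : Equiv.Perm (Fin n)) : ℝ≥0∞ :=
  if Stab z μ ∧ Stab z μ' ∧ Nice C (t1 n) (t2 n) z μ ∧ Nice C (t1 n) (t2 n) z μ' ∧
        Trunc a₀ δ η z μ ∧ Trunc a₀ δ η z μ' ∧ Inc z μ μ'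
        then (1 : ℝ≥0∞) else 0

open Classical in
/-- far pairs -/
noncomputable def FF (C ε : ℝ) (z : Conf n) (μ σ : Equiv.Perm (Fin n)) : ℝ≥0∞ :=
  if Stab z μ ∧ Low z μ σ ∧ σ ≠ 1 ∧ Nice C (t1 n) (t2 n) z μ ∧
        Nice C (t1 n) (t2 n) z (μ * σ) ∧ tt z μ ≤ ε * tt z (μ * σ)
        then gw z μ * gw z (μ * σ) else 0

open Classical in
/-- near pairs -/
noncomputable def NN (τ₁ τ₂ ε : ℝ) (z : Conf n) (μ σ : Equiv.Perm (Fin n)) : ℝ≥0∞ :=
  if Stab z μ ∧ Low z μ σ ∧ σ ≠ 1 ∧ Win τ₁ τ₂ (tt z μ) ∧ Win τ₁ τ₂ (tt z (μ * σ)) ∧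
        ε * tt z (μ * σ) < tt z μ then (1 : ℝ≥0∞) else 0

open Classical in
lemma meas_AA (C : ℝ) (μ σ : Equiv.Perm (Fin n)) : Measurable fun z : Conf n => AA C z μ σ := by
  unfold AA
  refine meas_ite (f := fun z => gw z μ * gw z (μ * σ)) ?_ ((meas_gw μ).mul (meas_gw (μ * σ)))
  exact (meas_Stab μ).inter ((meas_Low μ σ).inter ((MeasurableSet.const _).inter
    ((meas_Nice μ C _ _).inter (meas_Nice (μ * σ) C _ _))))

open Classical in
lemma meas_FF (C ε : ℝ) (μ σ : Equiv.Perm (Fin n)) :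
    Measurable fun z : Conf n => FF C ε z μ σ := by
  unfold FF
  refine meas_ite (f := fun z => gw z μ * gw z (μ * σ)) ?_ ((meas_gw μ).mul (meas_gw (μ * σ)))
  exact (meas_Stab μ).inter ((meas_Low μ σ).inter ((MeasurableSet.const _).inter
    ((meas_Nice μ C _ _).inter ((meas_Nice (μ * σ) C _ _).inter
      (measurableSet_le (meas_tt μ) ((meas_tt (μ * σ)).const_mul ε))))))

open Classical in
lemma meas_NN (τ₁ τ₂ ε : ℝ) (μ σ : Equiv.Perm (Fin n)) :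
    Measurable fun z : Conf n => NN τ₁ τ₂ ε z μ σ := by
  unfold NN
  refine meas_ite (f := fun _ => 1) ?_ measurable_const
  exact (meas_Stab μ).inter ((meas_Low μ σ).inter ((MeasurableSet.const _).inter
    ((meas_Win μ _ _).inter ((meas_Win (μ * σ) _ _).inter
      (measurableSet_lt ((meas_tt (μ * σ)).const_mul ε) (meas_tt μ))))))

open Classical in
lemma meas_II (C δ η : ℝ) (a₀ : ℕ) (μ μ' : Equiv.Perm (Fin n)) :
    Measurable fun z : Conf n => II C δ η a₀ z μ μ' := by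
  unfold II
  refine meas_ite (f := fun _ => 1) ?_ measurable_const
  exact (meas_Stab μ).inter ((meas_Stab μ').inter ((meas_Nice μ C _ _).inter
    ((meas_Nice μ' C _ _).inter ((meas_Trunc μ a₀ δ η).inter ((meas_Trunc μ' a₀ δ η).inter
      (meas_Inc μ μ'))))))

/-- pointwise bound for a product of weights -/
lemma ww_mul_le (C δ η : ℝ) (a₀ : ℕ) (hC : 1 ≤ C) (ht : 0 < t1 n) (hn : 0 < n) (z : Conf n)
    (μ μ' : Equiv.Perm (Fin n)) :
    ww C δ η a₀ z μ * ww C δ η a₀ z μ' ≤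
      (if μ = μ' then ENNReal.ofReal (Real.exp (C ^ 2)) *
        (by classical exact if Stab z μ then (1 : ℝ≥0∞) else 0) else 0) +
      (AA C z μ (μ⁻¹ * μ') + AA C z μ' (μ'⁻¹ * μ)) +
      ENNReal.ofReal (Real.exp (C ^ 2)) * II C δ η a₀ z μ μ' := by
  classical
  have hexp : ENNReal.ofReal (Real.exp (C ^ 2 / 2)) * ENNReal.ofReal (Real.exp (C ^ 2 / 2)) =
      ENNReal.ofReal (Real.exp (C ^ 2)) := by
    rw [← ENNReal.ofReal_mul (Real.exp_nonneg _), ← Real.exp_add]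
    congr 2
    ring
  by_cases h1 : Kept C δ η a₀ z μ
  swap
  · rw [ww, if_neg h1, zero_mul]
    exact zero_le
  by_cases h2 : Kept C δ η a₀ z μ'
  swap
  · rw [ww, ww, if_neg h2, mul_zero]
    exact zero_le
  have hg1 := gw_le C (t1 n) (t2 n) hC ht hn z μ h1.2.1
  have hg2 := gw_le C (t1 n) (t2 n) hC ht hn z μ' h2.2.1
  have hg := mul_le_mul' hg1 hg2
  rw [hexp] at hg
  rw [ww, ww, if_pos h1, if_pos h2]
  by_cases h3 : μ = μ'
  · subst h3
    rw [if_pos rfl, if_pos h1.1, mul_one, add_assoc]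
    exact hg.trans le_self_add
  by_cases h4 : ∃ σ, Low z μ σ ∧ μ' = μ * σ
  · obtain ⟨σ, hσ, rfl⟩ := h4
    have h5 : σ ≠ 1 := by
      rintro rfl
      exact h3 (mul_one μ).symm
    have h6 : AA C z μ (μ⁻¹ * (μ * σ)) = gw z μ * gw z (μ * σ) := by
      rw [inv_mul_cancel_left, AA, if_pos ⟨h1.1, hσ, h5, h1.2.1, h2.2.1⟩]
    rw [h6, if_neg h3, zero_add, add_assoc]
    exact le_self_add
  by_cases h5 : ∃ σ, Low z μ' σ ∧ μ = μ' * σ
  · obtain ⟨σ, hσ, rfl⟩ := h5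
    have h6 : σ ≠ 1 := by
      rintro rfl
      exact h3 (mul_one μ')
    have h7 : AA C z μ' (μ'⁻¹ * (μ' * σ)) = gw z (μ' * σ) * gw z μ' := by
      rw [inv_mul_cancel_left, AA, if_pos ⟨h2.1, hσ, h6, h2.2.1, h1.2.1⟩, mul_comm]
    rw [h7, if_neg h3, zero_add]
    exact le_add_self.trans le_self_add
  · have h6 : II C δ η a₀ z μ μ' = 1 := by
      rw [II, if_pos ⟨h1.1, h2.1, h1.2.1, h2.2.1, h1.2.2, h2.2.2, h4, h5⟩]
    rw [h6, mul_one]
    exact hg.trans le_add_self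

/-- second moment, pointwise -/
lemma WW_sq_le (C δ η : ℝ) (a₀ : ℕ) (hC : 1 ≤ C) (ht : 0 < t1 n) (hn : 0 < n) (z : Conf n) :
    WW C δ η a₀ z * WW C δ η a₀ z ≤
      ENNReal.ofReal (Real.exp (C ^ 2)) * (nst z : ℝ≥0∞) +
      2 * (∑ μ : Equiv.Perm (Fin n), ∑ σ : Equiv.Perm (Fin n), AA C z μ σ) +
      ENNReal.ofReal (Real.exp (C ^ 2)) *
        ∑ μ : Equiv.Perm (Fin n), ∑ μ' : Equiv.Perm (Fin n), II C δ η a₀ z μ μ' := by
  classical
  have e1 : ∑ μ : Equiv.Perm (Fin n), ∑ μ' : Equiv.Perm (Fin n), AA C z μ (μ⁻¹ * μ') =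
      ∑ μ : Equiv.Perm (Fin n), ∑ σ : Equiv.Perm (Fin n), AA C z μ σ := by
    refine Finset.sum_congr rfl fun μ _ => ?_
    exact Fintype.sum_equiv (Equiv.mulLeft μ⁻¹) _ _ fun _ => rfl
  have e2 : ∑ μ : Equiv.Perm (Fin n), ∑ μ' : Equiv.Perm (Fin n), AA C z μ' (μ'⁻¹ * μ) =
      ∑ μ : Equiv.Perm (Fin n), ∑ σ : Equiv.Perm (Fin n), AA C z μ σ := by
    rw [Finset.sum_comm, ← e1]
  have e3 : ∑ μ : Equiv.Perm (Fin n), ∑ μ' : Equiv.Perm (Fin n),
      (if μ = μ' then ENNReal.ofReal (Real.exp (C ^ 2)) *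
        (if Stab z μ then (1 : ℝ≥0∞) else 0) else 0) =
      ENNReal.ofReal (Real.exp (C ^ 2)) * (nst z : ℝ≥0∞) := by
    unfold nst
    rw [Finset.card_filter, Nat.cast_sum, Finset.mul_sum]
    refine Finset.sum_congr rfl fun μ _ => ?_
    rw [Finset.sum_ite_eq, if_pos (Finset.mem_univ _)]
    simp
  unfold WW
  rw [Finset.sum_mul_sum]
  calc _ ≤ ∑ μ : Equiv.Perm (Fin n), ∑ μ' : Equiv.Perm (Fin n), ((if μ = μ' then
        ENNReal.ofReal (Real.exp (C ^ 2)) * (if Stab z μ then (1 : ℝ≥0∞) else 0) else 0) +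
      (AA C z μ (μ⁻¹ * μ') + AA C z μ' (μ'⁻¹ * μ)) +
      ENNReal.ofReal (Real.exp (C ^ 2)) * II C δ η a₀ z μ μ') := by
        refine Finset.sum_le_sum fun μ _ => Finset.sum_le_sum fun μ' _ => ?_
        exact ww_mul_le C δ η a₀ hC ht hn z μ μ'
    _ = _ := by
        simp only [Finset.sum_add_distrib]
        rw [e1, e2, e3, two_mul]
        simp only [Finset.mul_sum]

/-- comparable pairs are far or near -/
lemma AA_le (C ε : ℝ) (hC : 1 ≤ C) (ht : 0 < t1 n) (hn : 0 < n) (z : Conf n)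
    (μ σ : Equiv.Perm (Fin n)) :
    AA C z μ σ ≤ FF C ε z μ σ +
      ENNReal.ofReal (Real.exp (C ^ 2)) * NN (t1 n) (t2 n) ε z μ σ := by
  classical
  have hexp : ENNReal.ofReal (Real.exp (C ^ 2 / 2)) * ENNReal.ofReal (Real.exp (C ^ 2 / 2)) =
      ENNReal.ofReal (Real.exp (C ^ 2)) := by
    rw [← ENNReal.ofReal_mul (Real.exp_nonneg _), ← Real.exp_add]
    congr 2
    ring
  by_cases h1 : Stab z μ ∧ Low z μ σ ∧ σ ≠ 1 ∧ Nice C (t1 n) (t2 n) z μ ∧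
        Nice C (t1 n) (t2 n) z (μ * σ)
  · rw [AA, if_pos h1]
    obtain ⟨h1, h2, h3, h4, h5⟩ := h1
    rcases le_or_gt (tt z μ) (ε * tt z (μ * σ)) with h6 | h6
    · rw [FF, if_pos ⟨h1, h2, h3, h4, h5, h6⟩]
      exact le_self_add
    · rw [NN, if_pos ⟨h1, h2, h3, h4.1, h5.1, h6⟩, mul_one]
      have hg := mul_le_mul' (gw_le C (t1 n) (t2 n) hC ht hn z μ h4)
        (gw_le C (t1 n) (t2 n) hC ht hn z (μ * σ) h5)
      rw [hexp] at hg
      exact hg.trans le_add_self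
  · rw [AA, if_neg h1]
    exact zero_le

/-- second moment -/
lemma second_WW (C δ η ε : ℝ) (a₀ : ℕ) (hC : 1 ≤ C) (ht : 0 < t1 n) (hn : 0 < n) :
    ∫⁻ z, WW C δ η a₀ z * WW C δ η a₀ z ∂(P n) ≤
      ENNReal.ofReal (Real.exp (C ^ 2)) * ∫⁻ z, (nst z : ℝ≥0∞) ∂(P n) +
      2 * (∫⁻ z, ∑ μ : Equiv.Perm (Fin n), ∑ σ : Equiv.Perm (Fin n), FF C ε z μ σ ∂(P n) +
        ENNReal.ofReal (Real.exp (C ^ 2)) * ∫⁻ z, ∑ μ : Equiv.Perm (Fin n),
          ∑ σ : Equiv.Perm (Fin n), NN (t1 n) (t2 n) ε z μ σ ∂(P n)) +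
      ENNReal.ofReal (Real.exp (C ^ 2)) * ∫⁻ z, ∑ μ : Equiv.Perm (Fin n),
        ∑ μ' : Equiv.Perm (Fin n), II C δ η a₀ z μ μ' ∂(P n) := by
  have m1 : Measurable fun z : Conf n =>
      ∑ μ : Equiv.Perm (Fin n), ∑ σ : Equiv.Perm (Fin n), FF C ε z μ σ :=
    Finset.measurable_sum _ fun μ _ => Finset.measurable_sum _ fun σ _ => meas_FF C ε μ σ
  have m2 : Measurable fun z : Conf n =>
      ∑ μ : Equiv.Perm (Fin n), ∑ σ : Equiv.Perm (Fin n), NN (t1 n) (t2 n) ε z μ σ :=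
    Finset.measurable_sum _ fun μ _ => Finset.measurable_sum _ fun σ _ => meas_NN _ _ ε μ σ
  rw [← lintegral_const_mul' _ _ ENNReal.ofReal_ne_top,
    ← lintegral_const_mul' _ _ ENNReal.ofReal_ne_top,
    ← lintegral_const_mul' _ _ ENNReal.ofReal_ne_top,
    ← lintegral_add_left m1, ← lintegral_const_mul' _ _ ENNReal.ofNat_ne_top,
    ← lintegral_add_left (meas_nst.const_mul _), ← lintegral_add_left]
  swap
  · exact (meas_nst.const_mul _).add ((m1.add (m2.const_mul _)).const_mul _)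
  apply lintegral_mono
  intro z
  refine (WW_sq_le C δ η a₀ hC ht hn z).trans ?_
  simp only
  gcongr
  rw [Finset.mul_sum, ← Finset.sum_add_distrib]
  refine Finset.sum_le_sum fun μ _ => ?_
  rw [Finset.mul_sum, ← Finset.sum_add_distrib]
  exact Finset.sum_le_sum fun σ _ => AA_le C ε hC ht hn z μ σ

end W


/-! ### asymptotics -/

lemma t1_pos {n : ℕ} (hn : 0 < n) : 0 < t1 n := by
  unfold t1
  have : (0 : ℝ) < n := by exact_mod_cast hn
  positivity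

lemma lam_eq {n : ℕ} (hn : 0 < n) : lam n = Real.log n / 10 := by
  have h : (0 : ℝ) < n := by exact_mod_cast hn
  unfold lam t1 t2
  rw [← Real.rpow_sub h, Real.log_rpow h]
  ring

lemma t1_le_t2 {n : ℕ} (hn : 0 < n) : t1 n ≤ t2 n := by
  unfold t1 t2
  have h : (1 : ℝ) ≤ n := by exact_mod_cast hn
  exact Real.rpow_le_rpow_of_exponent_le h (by norm_num)

lemma four_le_t1 {n : ℕ} (hn : 16 ≤ n) : 4 ≤ t1 n := by
  unfold t1
  have h : (16 : ℝ) ≤ n := by exact_mod_cast hn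
  have h2 : (4 : ℝ) = (16 : ℝ) ^ (1 / 2 : ℝ) := by
    rw [← Real.sqrt_eq_rpow, show (16 : ℝ) = 4 ^ 2 by norm_num, Real.sqrt_sq (by norm_num)]
  rw [h2]
  exact Real.rpow_le_rpow (by norm_num) h (by norm_num)

lemma exists_lam (M : ℝ) : ∃ N : ℕ, ∀ n : ℕ, N ≤ n → M ≤ lam n := by
  have h : Filter.Tendsto (fun n : ℕ => Real.log n) Filter.atTop Filter.atTop :=
    Real.tendsto_log_atTop.comp tendsto_natCast_atTop_atTop
  obtain ⟨N, hN⟩ := Filter.eventually_atTop.1 (h.eventually_ge_atTop (10 * M))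
  refine ⟨max N 1, fun n hn => ?_⟩
  rw [lam_eq (lt_of_lt_of_le (by simp) hn)]
  have := hN n ((le_max_left _ _).trans hn)
  linarith

lemma ratio_le {θ r s : ℝ} (hθ : 0 < θ) (hθ1 : θ ≤ 1) (hr : r = θ / 32) (hs : s = θ / 16) :
    4 * ((1 + s) / (1 - r) ^ 2 - 1) ≤ θ := by
  have h1 : 0 < (1 - r) := by rw [hr]; linarith
  have h2 : (1 + s) / (1 - r) ^ 2 ≤ 1 + θ / 4 := by
    rw [div_le_iff₀ (by positivity), hs, hr]
    have q1 : θ ^ 2 ≤ θ := by nlinarith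
    have q2 : 0 ≤ θ ^ 3 := by positivity
    have q3 : 0 ≤ θ ^ 2 := by positivity
    have q4 : (1 + θ / 4) * (1 - θ / 32) ^ 2 =
        1 + θ * 3 / 16 - θ ^ 2 / 64 + θ ^ 2 / 1024 + θ ^ 3 / 4096 := by ring
    rw [q4]
    linarith
  linarith

end Pool.Agent.SM.TaskG

namespace Pool.Agent.SM

open TaskG MeasureTheory ProbabilityTheory
open scoped ENNReal

theorem tight (θ : ℝ) (hθ : 0 < θ) : ∃ c : ℝ, 0 < c ∧ ∃ N : ℕ, ∀ n : ℕ, N ≤ n →
    P n {z | (nst z : ℝ) < c * n * Real.log n} ≤ ENNReal.ofReal θ := by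
  classical
  -- choice of the constants
  obtain ⟨θ', hθ'0, hθ'1, hθ'θ⟩ : ∃ θ' : ℝ, 0 < θ' ∧ θ' ≤ 1 ∧ θ' ≤ θ :=
    ⟨min θ 1, lt_min hθ one_pos, min_le_right _ _, min_le_left _ _⟩
  obtain ⟨C, hC⟩ : ∃ C : ℝ, C = 1280 / θ' := ⟨_, rfl⟩
  have hC40 : 40 ≤ C := by
    rw [hC, le_div_iff₀ hθ'0]
    linarith
  have hC1 : 1 ≤ C := by linarith
  have hC20 : 20 / C = θ' / 64 := by
    rw [hC]
    field_simp
    norm_num
  obtain ⟨G, hG⟩ : ∃ G : ℝ, G = Real.exp (C ^ 2 / 2) := ⟨_, rfl⟩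
  obtain ⟨G2, hG2⟩ : ∃ G2 : ℝ, G2 = Real.exp (C ^ 2) := ⟨_, rfl⟩
  have hG0 : 0 < G := hG ▸ Real.exp_pos _
  have hG20 : 0 < G2 := hG2 ▸ Real.exp_pos _
  obtain ⟨ε₁, hε₁⟩ : ∃ ε₁ : ℝ, ε₁ = θ' / (640 * G) := ⟨_, rfl⟩
  have hε₁0 : 0 < ε₁ := by rw [hε₁]; positivity
  obtain ⟨K, hK0, hfar⟩ := far_pairs C hC1
  obtain ⟨ε₂, hε₂⟩ : ∃ ε₂ : ℝ, ε₂ = min (1 / 2) (θ' / (64 * K)) := ⟨_, rfl⟩
  have hε₂0 : 0 < ε₂ := by rw [hε₂]; positivity
  have hε₂h : ε₂ ≤ 1 / 2 := by rw [hε₂]; exact min_le_left _ _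
  have hKε₂ : K * ε₂ ≤ θ' / 64 := by
    have : ε₂ ≤ θ' / (64 * K) := by rw [hε₂]; exact min_le_right _ _
    calc K * ε₂ ≤ K * (θ' / (64 * K)) := by gcongr
      _ = θ' / 64 := by field_simp
  obtain ⟨Nfar, hfar⟩ := hfar ε₂ hε₂0 hε₂h
  obtain ⟨ε₃, hε₃⟩ : ∃ ε₃ : ℝ, ε₃ = θ' / (6400 * G2) := ⟨_, rfl⟩
  have hε₃0 : 0 < ε₃ := by rw [hε₃]; positivity
  obtain ⟨δ, η, hδ0, hδ1, hη, hinc⟩ := incomparable_pairs C ε₃ hC1 hε₃0
  obtain ⟨a₀, Ntr, htr⟩ := trunc_fail ε₁ δ η hε₁0 hδ0 hδ1 hη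
  obtain ⟨Ninc, hinc⟩ := hinc a₀
  obtain ⟨Nfi, hfi⟩ := first_lower C hC40
  obtain ⟨C₀, hC₀, hnst⟩ := exp_nst_le
  obtain ⟨M, hM⟩ : ∃ M : ℝ, M = max 1 (max (640 * G2 * C₀ / θ')
    (128 * G2 * Real.exp 9 * Real.log (1 / ε₂) / θ')) := ⟨_, rfl⟩
  obtain ⟨Nlam, hlam⟩ := exists_lam M
  refine ⟨1 / (40 * G), by positivity, max (max (max Nfar Ntr) (max Ninc Nfi)) (max Nlam 16), ?_⟩
  intro n hn
  have hnfar : Nfar ≤ n := by omega
  have hntr : Ntr ≤ n := by omega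
  have hninc : Ninc ≤ n := by omega
  have hnfi : Nfi ≤ n := by omega
  have hnlam : Nlam ≤ n := by omega
  have hn16 : 16 ≤ n := by omega
  have hn0 : 0 < n := by omega
  have hnR : (1 : ℝ) ≤ n := by exact_mod_cast hn0
  have hnR0 : (0 : ℝ) < n := by linarith
  have ht1 := t1_pos hn0
  specialize hfar n hnfar
  specialize htr n hntr
  specialize hinc n hninc
  specialize hfi n hnfi
  specialize hnst n (by omega)
  specialize hlam n hnlam
  have hlog : Real.log n = 10 * lam n := by rw [lam_eq hn0]; ring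
  obtain ⟨l, hl⟩ : ∃ l : ℝ, l = lam n := ⟨_, rfl⟩
  rw [← hl] at hlam hlog hfi hfar
  have hl1 : 1 ≤ l := le_trans (by rw [hM]; exact le_max_left _ _) hlam
  have hl0 : 0 < l := by linarith
  have hl2 : 640 * G2 * C₀ / θ' ≤ l :=
    le_trans (by rw [hM]; exact (le_max_left _ _).trans (le_max_right _ _)) hlam
  have hl3 : 128 * G2 * Real.exp 9 * Real.log (1 / ε₂) / θ' ≤ l :=
    le_trans (by rw [hM]; exact (le_max_right _ _).trans (le_max_right _ _)) hlam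
  rw [div_le_iff₀ hθ'0] at hl2 hl3
  have hnear := near_pairs n (t1 n) (t2 n) ε₂ (four_le_t1 hn16) (t1_le_t2 hn0) hε₂0
    (hε₂h.trans (by norm_num))
  have hll : Real.log (t2 n / t1 n) = l := hl.symm
  rw [hll] at hnear
  have he1 : 1 ≤ Real.exp 1 := Real.one_le_exp (by norm_num)
  have he2 : 1 ≤ Real.exp 2 := Real.one_le_exp (by norm_num)
  have hlogε : 0 ≤ Real.log (1 / ε₂) := by
    apply Real.log_nonneg
    rw [le_div_iff₀ hε₂0]
    linarith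
  -- first moment
  have hfirst : ENNReal.ofReal (Real.exp 1 * n * l * (1 - θ' / 32)) ≤
      ∫⁻ z, WW C δ η a₀ z ∂(P n) := by
    have h1 := hfi.trans (first_WW C δ η a₀ hC1 ht1 hn0)
    rw [← hG] at h1
    have h2 : ENNReal.ofReal (Real.exp 1 * n * l * (1 - 20 / C)) ≤
        ∫⁻ z, WW C δ η a₀ z ∂(P n) + ENNReal.ofReal (G * (ε₁ * n * Real.log n)) := by
      refine h1.trans ?_
      rw [ENNReal.ofReal_mul hG0.le]
      gcongr
    rw [← tsub_le_iff_right, ← ENNReal.ofReal_sub _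
      (by rw [hlog]; positivity)] at h2
    refine le_trans (ENNReal.ofReal_le_ofReal ?_) h2
    rw [hC20, hlog, hε₁]
    have e : G * (θ' / (640 * G) * n * (10 * l)) = θ' / 64 * (n * l) := by
      field_simp
      norm_num
    rw [e]
    have : θ' / 64 * (n * l) ≤ Real.exp 1 * (θ' / 64 * (n * l)) := by
      apply le_mul_of_one_le_left _ he1
      positivity
    nlinarith
  -- second moment
  have hsecond : ∫⁻ z, WW C δ η a₀ z * WW C δ η a₀ z ∂(P n) ≤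
      ENNReal.ofReal (Real.exp 2 * n ^ 2 * l ^ 2 * (1 + θ' / 16)) := by
    refine (second_WW C δ η ε₂ a₀ hC1 ht1 hn0).trans ?_
    have h1 : ENNReal.ofReal (Real.exp (C ^ 2)) * ∫⁻ z, (nst z : ℝ≥0∞) ∂(P n) ≤
        ENNReal.ofReal (G2 * (C₀ * n * Real.log n)) := by
      rw [ENNReal.ofReal_mul hG20.le, hG2]
      gcongr
    have h2 : ∫⁻ z, ∑ μ : Equiv.Perm (Fin n), ∑ σ : Equiv.Perm (Fin n), FF C ε₂ z μ σ ∂(P n) ≤
        ENNReal.ofReal (Real.exp 2 * (n : ℝ) ^ 2 * (l ^ 2 / 2) * (1 + K * ε₂)) := by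
      refine le_trans (le_of_eq ?_) hfar
      refine lintegral_congr fun z => ?_
      rfl
    have h3 : ENNReal.ofReal (Real.exp (C ^ 2)) * ∫⁻ z, ∑ μ : Equiv.Perm (Fin n),
          ∑ σ : Equiv.Perm (Fin n), NN (t1 n) (t2 n) ε₂ z μ σ ∂(P n) ≤
        ENNReal.ofReal (G2 * (Real.exp 9 * (n : ℝ) ^ 2 * (l * Real.log (1 / ε₂)))) := by
      rw [ENNReal.ofReal_mul hG20.le, hG2]
      gcongr
      refine le_trans (le_of_eq ?_) hnear
      refine lintegral_congr fun z => ?_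
      rfl
    have h4 : ENNReal.ofReal (Real.exp (C ^ 2)) * ∫⁻ z, ∑ μ : Equiv.Perm (Fin n),
        ∑ μ' : Equiv.Perm (Fin n), II C δ η a₀ z μ μ' ∂(P n) ≤
        ENNReal.ofReal (G2 * (ε₃ * (n : ℝ) ^ 2 * Real.log n ^ 2)) := by
      rw [ENNReal.ofReal_mul hG20.le, hG2]
      gcongr
      refine le_trans (le_of_eq ?_) hinc
      refine lintegral_congr fun z => ?_
      rfl
    refine (add_le_add (add_le_add h1 (mul_le_mul' le_rfl (add_le_add h2 h3))) h4).trans ?_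
    have e2 : (2 : ℝ≥0∞) = ENNReal.ofReal 2 := by simp
    rw [e2, ← ENNReal.ofReal_add (by positivity) (by positivity),
      ← ENNReal.ofReal_mul (by norm_num),
      ← ENNReal.ofReal_add (by rw [hlog]; positivity) (by positivity),
      ← ENNReal.ofReal_add (by rw [hlog]; positivity) (by positivity)]
    apply ENNReal.ofReal_le_ofReal
    rw [hlog]
    have b1 : G2 * (C₀ * n * (10 * l)) ≤ Real.exp 2 * n ^ 2 * l ^ 2 * (θ' / 64) := by
      have q1 : 10 * G2 * C₀ ≤ l * (θ' / 64) := by linarith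
      have q2 : (n : ℝ) * l * (10 * G2 * C₀) ≤ n * l * (l * (θ' / 64)) := by gcongr
      have q3 : (n : ℝ) * l * (l * (θ' / 64)) ≤ n * (n * l * (l * (θ' / 64))) :=
        le_mul_of_one_le_left (by positivity) hnR
      have q4 : n * (n * l * (l * (θ' / 64))) ≤ Real.exp 2 * (n * (n * l * (l * (θ' / 64)))) :=
        le_mul_of_one_le_left (by positivity) he2
      calc G2 * (C₀ * n * (10 * l)) = (n : ℝ) * l * (10 * G2 * C₀) := by ring
        _ ≤ Real.exp 2 * (n * (n * l * (l * (θ' / 64)))) := q2.trans (q3.trans q4)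
        _ = _ := by ring
    have b2 : 2 * (Real.exp 2 * (n : ℝ) ^ 2 * (l ^ 2 / 2) * (1 + K * ε₂)) ≤
        Real.exp 2 * n ^ 2 * l ^ 2 * (1 + θ' / 64) := by
      have : Real.exp 2 * (n : ℝ) ^ 2 * l ^ 2 * (1 + K * ε₂) ≤
          Real.exp 2 * n ^ 2 * l ^ 2 * (1 + θ' / 64) := by gcongr
      linarith
    have b3 : 2 * (G2 * (Real.exp 9 * (n : ℝ) ^ 2 * (l * Real.log (1 / ε₂)))) ≤
        Real.exp 2 * n ^ 2 * l ^ 2 * (θ' / 64) := by
      have q1 : 2 * G2 * Real.exp 9 * Real.log (1 / ε₂) ≤ l * (θ' / 64) := by linarith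
      have q2 : (n : ℝ) ^ 2 * l * (2 * G2 * Real.exp 9 * Real.log (1 / ε₂)) ≤
          (n : ℝ) ^ 2 * l * (l * (θ' / 64)) := by gcongr
      have q4 : (n : ℝ) ^ 2 * l * (l * (θ' / 64)) ≤
          Real.exp 2 * ((n : ℝ) ^ 2 * l * (l * (θ' / 64))) :=
        le_mul_of_one_le_left (by positivity) he2
      calc 2 * (G2 * (Real.exp 9 * (n : ℝ) ^ 2 * (l * Real.log (1 / ε₂)))) =
          (n : ℝ) ^ 2 * l * (2 * G2 * Real.exp 9 * Real.log (1 / ε₂)) := by ring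
        _ ≤ Real.exp 2 * ((n : ℝ) ^ 2 * l * (l * (θ' / 64))) := q2.trans q4
        _ = _ := by ring
    have b4 : G2 * (ε₃ * (n : ℝ) ^ 2 * (10 * l) ^ 2) ≤
        Real.exp 2 * n ^ 2 * l ^ 2 * (θ' / 64) := by
      have q1 : G2 * (ε₃ * (n : ℝ) ^ 2 * (10 * l) ^ 2) = (n : ℝ) ^ 2 * l ^ 2 * (θ' / 64) := by
        rw [hε₃]
        field_simp
        norm_num
      rw [q1]
      have : (n : ℝ) ^ 2 * l ^ 2 * (θ' / 64) ≤ Real.exp 2 * ((n : ℝ) ^ 2 * l ^ 2 * (θ' / 64)) :=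
        le_mul_of_one_le_left (by positivity) he2
      linarith
    linarith
  -- Chebyshev
  have := isProb_P n
  have hcard : ∀ z : Conf n, WW C δ η a₀ z ≤ ENNReal.ofReal (G * (n.factorial : ℝ)) := by
    intro z
    refine (WW_le C δ η a₀ hC1 ht1 hn0 z).trans ?_
    rw [← hG, ENNReal.ofReal_mul hG0.le, ENNReal.ofReal_natCast]
    gcongr
    have : nst z ≤ Fintype.card (Equiv.Perm (Fin n)) := Finset.card_le_univ _
    rwa [Fintype.card_perm, Fintype.card_fin] at this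
  have hch := cheb (P n) (WW C δ η a₀) (meas_WW C δ η a₀) _ hcard
    (Real.exp 1 * n * l * (1 - θ' / 32)) (Real.exp 2 * n ^ 2 * l ^ 2 * (1 + θ' / 16))
    (by have : 0 < 1 - θ' / 32 := by linarith
        positivity) hfirst hsecond
  refine (measure_mono ?_).trans (hch.trans (ENNReal.ofReal_le_ofReal ?_))
  · intro z hz
    simp only [Set.mem_ofPred_eq] at hz ⊢
    refine lt_of_le_of_lt (WW_le C δ η a₀ hC1 ht1 hn0 z) ?_
    rw [← hG, ← ENNReal.ofReal_natCast, ← ENNReal.ofReal_mul hG0.le]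
    rw [ENNReal.ofReal_lt_ofReal_iff]
    · rw [hlog] at hz
      calc G * (nst z : ℝ) < G * (1 / (40 * G) * n * (10 * l)) := by gcongr
        _ = 1 * (n * l * (1 / 4)) := by
            field_simp
            norm_num
        _ ≤ Real.exp 1 * (n * l * (1 / 4)) := by gcongr
        _ ≤ Real.exp 1 * (n * l * ((1 - θ' / 32) / 2)) := by
            have h14 : (1 : ℝ) / 4 ≤ (1 - θ' / 32) / 2 := by linarith
            exact mul_le_mul_of_nonneg_left (mul_le_mul_of_nonneg_left h14 (by positivity))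
              (Real.exp_nonneg _)
        _ = Real.exp 1 * n * l * (1 - θ' / 32) / 2 := by ring
    · have : 0 < 1 - θ' / 32 := by linarith
      positivity
  · have e : Real.exp 2 * n ^ 2 * l ^ 2 * (1 + θ' / 16) /
        (Real.exp 1 * n * l * (1 - θ' / 32)) ^ 2 = (1 + θ' / 16) / (1 - θ' / 32) ^ 2 := by
      have e1 : Real.exp 2 = Real.exp 1 ^ 2 := by
        rw [← Real.exp_nat_mul]
        norm_num
      have : (1 - θ' / 32) ≠ 0 := by
        have : 0 < 1 - θ' / 32 := by linarith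
        exact this.ne'
      rw [e1]
      field_simp
    rw [e]
    exact (ratio_le hθ'0 hθ'1 rfl rfl).trans hθ'θ

end Pool.Agent.SM
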