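import Pool.Agent.MP_d30e2b_pr.Gen
import Pool.Agent.MP_d30e2b_pr.Mom
import Pool.Agent.MP_d30e2b_pr.Exp

set_option autoImplicit false

/-! unclean lower matchings -/

namespace Pool.Agent.SM

open MeasureTheory Set
open scoped ENNReal

variable {n : ℕ}

theorem ae_orth (ι : Type*) [Fintype ι] : ∀ᵐ v ∂(orth ι), ∀ d, 0 < v d := by
  rw [ae_all_iff]
  intro d
  have h1 : ∀ᵐ w ∂(volume.restrict (Ioi (0:ℝ))), 0 < w := ae_restrict_mem measurableSet_Ioi
  unfold orth
  exact (Measure.quasiMeasurePreserving_eval (fun _ => volume.restrict (Ioi (0:ℝ))) d).ae h1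

section

variable (σ : Equiv.Perm (Fin n)) (i0 d0 : Mov σ)

/-- the unclean event -/
def UE (z : Conf n) : Prop :=
  (z (i0.1, σ d0.1)).1 < (z (i0.1, i0.1)).1 ∧ (z (i0.1, σ d0.1)).2 < (z (d0.1, σ d0.1)).2

theorem unclean_exists {z : Conf n} (hc : ¬ Clean z 1 σ) :
    ∃ i0 d0 : Mov σ, σ d0.1 ≠ i0.1 ∧ σ d0.1 ≠ σ i0.1 ∧ UE σ i0 d0 z := by
  unfold Clean at hc
  push Not at hc
  obtain ⟨i, j, hi, hj, h1, h2⟩ := hc
  simp only [Equiv.Perm.one_apply, mx, wy, one_mul] at h1 h2
  have hd : σ (σ.symm j) ≠ σ.symm j := by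
    intro h
    apply hj
    rw [Equiv.apply_symm_apply] at h
    nth_rewrite 1 [h]
    simp
  refine ⟨⟨i, hi⟩, ⟨σ.symm j, hd⟩, ?_, ?_, ?_⟩
  · simp only [Equiv.apply_symm_apply]
    rintro rfl
    exact lt_irrefl _ h1
  · simp only [Equiv.apply_symm_apply]
    rintro rfl
    rw [Equiv.symm_apply_apply] at h2
    exact lt_irrefl _ h2
  · unfold UE
    simp only [Equiv.apply_symm_apply] at h2 ⊢
    exact ⟨h1, h2⟩

theorem u2_rect {a b c d : ℝ} (ha : 0 ≤ a) (hb : b ≤ 1) (hc : 0 ≤ c) (hd : d ≤ 1) (hab : a ≤ b) :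
    u2 (Ico a b ×ˢ Ico c d) = ENNReal.ofReal ((b - a) * (d - c)) := by
  change (u1.prod u1) _ = _
  rw [Measure.prod_prod, u1_Ico ha hb, u1_Ico hc hd, ← ENNReal.ofReal_mul (by linarith)]

open Classical in
theorem unclean_bound (h0 : σ d0.1 ≠ i0.1) (h1 : σ d0.1 ≠ σ i0.1)
    (K : (Fin n → ℝ) → ℝ≥0∞) (hK : Measurable K) :
    ∫⁻ z, (if (Stab z 1 ∧ Low z 1 σ ∧ UE σ i0 d0 z) then K (zy z) else 0) ∂(P n)
    ≤ ∫⁻ y, ∫⁻ η, ∫⁻ x, ∫⁻ ξ,
        (if Adm σ x y ξ η then K y * (ENNReal.ofReal (Real.exp 1) *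
          ENNReal.ofReal (η d0 - y (σ d0.1))) *
          ((∏ r : Rst σ, ENNReal.ofReal (Real.exp (-ar σ (cla σ) x y ξ η r.1.1 r.1.2))) *
          ∏ d : Mov σ, (if d = i0 then ENNReal.ofReal (x d.1 - ξ d) else 1)) else 0)
          ∂(Measure.pi fun _ => u1) ∂(Measure.pi fun _ => u1)
          ∂(Measure.pi fun _ => u1) ∂(Measure.pi fun _ => u1) := by
  let r0 : Rst σ := ⟨(i0.1, σ d0.1), h0, h1⟩
  let B : Rst σ → ((Fin n → ℝ × ℝ) × (Mov σ → ℝ × ℝ)) → Set (ℝ × ℝ) := fun r q =>
    if r = r0 then Ico (q.2 i0).1 (q.1 i0.1).1 ×ˢ Ico (q.1 (σ d0.1)).2 (q.2 d0).2 else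
    Bset (q.1 r.1.1).1 (xc σ (cla σ) (fun i => (q.1 i).1) (fun d => (q.2 d).1) r.1.1 r.1.2)
      (q.1 r.1.2).2 (ys σ (fun i => (q.1 i).2) (fun d => (q.2 d).2) r.1.2)
  let w : Rst σ → (Fin n → ℝ) → (Fin n → ℝ) → (Mov σ → ℝ) → (Mov σ → ℝ) → ℝ≥0∞ :=
    fun r x y ξ η => if r = r0 then ENNReal.ofReal ((x i0.1 - ξ i0) * (η d0 - y (σ d0.1)))
      else ENNReal.ofReal (1 - ar σ (cla σ) x y ξ η r.1.1 r.1.2)
  have hgen := triple_gen σ (fun z => Stab z 1 ∧ Low z 1 σ ∧ UE σ i0 d0 z) B ?_ ?_ w ?_ ?_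
    (fun _ y _ _ => K y) ?_
  · refine hgen.trans ?_
    refine lintegral_mono fun y => lintegral_mono fun η => lintegral_mono fun x =>
      lintegral_mono fun ξ => ?_
    split_ifs with hadm
    · rw [mul_assoc]
      refine mul_le_mul_right ?_ _
      have hprodE : ∏ d : Mov σ, (if d = i0 then ENNReal.ofReal (x d.1 - ξ d) else 1)
          = ENNReal.ofReal (x i0.1 - ξ i0) := by
        rw [Finset.prod_ite_eq' Finset.univ i0 (fun d => ENNReal.ofReal (x d.1 - ξ d))]
        simp
      rw [hprodE]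
      set c : ℝ≥0∞ := ENNReal.ofReal ((x i0.1 - ξ i0) * (η d0 - y (σ d0.1))) *
        ENNReal.ofReal (Real.exp 1) with hc
      have hx0 : 0 ≤ x i0.1 - ξ i0 := by have := (hadm.2.2 i0).1; linarith
      have hy0 : 0 ≤ η d0 - y (σ d0.1) := by have := (hadm.2.2 d0).2; linarith
      have hle : ∀ r : Rst σ, w r x y ξ η ≤ (if r = r0 then c else 1) *
          ENNReal.ofReal (Real.exp (-ar σ (cla σ) x y ξ η r.1.1 r.1.2)) := by
        intro r
        simp only [w]
        split_ifs with hr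
        · rw [hc, mul_assoc, ← ENNReal.ofReal_mul (by positivity)]
          nth_rewrite 1 [← mul_one (ENNReal.ofReal ((x i0.1 - ξ i0) * (η d0 - y (σ d0.1))))]
          refine mul_le_mul_right ?_ _
          rw [← ENNReal.ofReal_one, ← Real.exp_add]
          refine ENNReal.ofReal_le_ofReal (Real.one_le_exp ?_)
          have h5 : ar σ (cla σ) x y ξ η r.1.1 r.1.2 ≤ 1 := by
            unfold ar
            have a1 := hadm.xc_le (cl := cla σ) r.1.1 r.1.2
            have a2 := hadm.y_le r.1.2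
            have a3 := hadm.ys_le r.1.2
            have a4 := (hadm.1 r.1.1).1
            have a5 := (hadm.1 r.1.2).2
            have a6 : xc σ (cla σ) x ξ r.1.1 r.1.2 * (ys σ y η r.1.2 - y r.1.2)
                ≤ x r.1.1 * (ys σ y η r.1.2 - y r.1.2) :=
              mul_le_mul_of_nonneg_right a1 (by linarith)
            have a7 : x r.1.1 * ys σ y η r.1.2 ≤ 1 :=
              mul_le_one₀ a4.2 (a5.1.trans a2) a3
            nlinarith
          linarith
        · rw [one_mul]
          refine ENNReal.ofReal_le_ofReal ?_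
          have := Real.add_one_le_exp (-ar σ (cla σ) x y ξ η r.1.1 r.1.2)
          linarith
      refine (Finset.prod_le_prod' fun r _ => hle r).trans (le_of_eq ?_)
      rw [Finset.prod_mul_distrib, Finset.prod_ite_eq' Finset.univ r0 (fun _ => c)]
      simp only [Finset.mem_univ, if_true]
      rw [hc, ENNReal.ofReal_mul hx0]
      ring
    · exact le_rfl
  · intro r
    simp only [B]
    by_cases hr : r = r0
    · simp only [if_pos hr]
      have e : {p : ((Fin n → ℝ × ℝ) × (Mov σ → ℝ × ℝ)) × (ℝ × ℝ) |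
          p.2 ∈ Ico (p.1.2 i0).1 (p.1.1 i0.1).1 ×ˢ Ico (p.1.1 (σ d0.1)).2 (p.1.2 d0).2}
          = {p | (p.1.2 i0).1 ≤ p.2.1} ∩ {p | p.2.1 < (p.1.1 i0.1).1} ∩
            ({p | (p.1.1 (σ d0.1)).2 ≤ p.2.2} ∩ {p | p.2.2 < (p.1.2 d0).2}) := by
        ext p
        simp only [mem_prod, mem_Ico, Set.mem_ofPred_eq, mem_inter_iff]
      rw [e]
      exact ((measurableSet_le (by fun_prop) (by fun_prop)).inter
        (measurableSet_lt (by fun_prop) (by fun_prop))).inter
        ((measurableSet_le (by fun_prop) (by fun_prop)).inter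
        (measurableSet_lt (by fun_prop) (by fun_prop)))
    · simp only [if_neg hr]
      exact meas_Bset σ (cla σ) r.1.1 r.1.2
  · rintro z hz ⟨hs, hl, hu⟩
    have hd : σ.Disjoint 1 := Equiv.Perm.disjoint_one_right σ
    have hs1 : Low z 1 1 := (low_one_one z).mpr hs
    have hadm := ev_adm hz hd hl hs1
    have hmem := ev_mem hz hd hs hl hs1
    rw [mul_one] at hadm hmem
    refine ⟨hadm, fun r => ?_⟩
    simp only [B]
    by_cases hr : r = r0
    · rw [if_pos hr, hr]
      simp only [r0, dg, gr]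
      refine ⟨⟨?_, hu.1⟩, ⟨?_, hu.2⟩⟩
      · have h3 := hl.1 i0.1 (σ d0.1) (by rw [one_mul]; exact h1.symm)
        have e1 : (1 * σ).symm (σ d0.1) = d0.1 := by
          rw [one_mul]
          simp
        rw [e1] at h3
        by_contra hc
        push Not at hc
        exact h3 ⟨by simpa using hc, hu.2⟩
      · have h3 := hs i0.1 (σ d0.1) (by simpa using h0.symm)
        have e1 : (1 : Equiv.Perm (Fin n)).symm (σ d0.1) = σ d0.1 := rfl
        rw [e1] at h3
        by_contra hc
        push Not at hc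
        exact h3 ⟨by simpa using hu.1, hc⟩
    · rw [if_neg hr]
      exact hmem r
  · intro r x y ξ η hadm
    simp only [B, w]
    by_cases hr : r = r0
    · simp only [if_pos hr]
      exact le_of_eq (u2_rect (hadm.2.1 i0).1.1 (hadm.1 _).1.2 (hadm.1 _).2.1 (hadm.2.1 d0).2.2
        (hadm.2.2 i0).1.le)
    · simp only [if_neg hr]
      exact le_of_eq (hadm.u2_eq (cl := cla σ) r.1.1 r.1.2)
  · intro r
    simp only [w]
    by_cases hr : r = r0
    · simp only [if_pos hr]
      fun_prop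
    · simp only [if_neg hr]
      apply Measurable.ennreal_ofReal
      exact measurable_const.sub (meas_ar σ _ _ _)
  · exact hK.comp (measurable_pi_lambda _ fun i => by fun_prop)

theorem be_ge {σ : Equiv.Perm (Fin n)} {cl : Fin n → Bool} {y : Fin n → ℝ} {η : Mov σ → ℝ}
    (h : AdmY σ y η) (hcl : ∀ i, cl (σ i) = cl i) {i : Fin n} (hi : σ i ≠ i)
    (ht : 4 ≤ ∑ j, y j) : (∑ j, y j) / 2 ≤ be σ cl y η i := by
  rw [be_eq σ cl hcl y η hi]
  have h1 := h.sum_le_tc (cl := cl) (cl i)
  linarith [(h.1 i).2, (h.1 (σ i)).2]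

open Classical in
/-- the men's integral with the extra factor -/
theorem unclean_men {y : Fin n → ℝ} {η : Mov σ → ℝ} (h : AdmY σ y η) (ht : 4 ≤ ∑ j, y j) :
    ∫⁻ x, ∫⁻ ξ, (if Adm σ x y ξ η then
          ((∏ r : Rst σ, ENNReal.ofReal (Real.exp (-ar σ (cla σ) x y ξ η r.1.1 r.1.2))) *
          ∏ d : Mov σ, (if d = i0 then ENNReal.ofReal (x d.1 - ξ d) else 1)) else 0)
          ∂(Measure.pi fun _ => u1) ∂(Measure.pi fun _ => u1)
    ≤ ENNReal.ofReal (2 / ∑ j, y j) * ENNReal.ofReal (Real.exp 9 * wt n (mc σ (cla σ) true).card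
        (mc σ (cla σ) false).card (∑ j, y j) (VV σ (cla σ) true (inc σ y η))
        (VV σ (cla σ) false (inc σ y η))) := by
  have hσ : σ = σ * 1 := (mul_one σ).symm
  have hd : σ.Disjoint 1 := Equiv.Perm.disjoint_one_right σ
  have hcl : ∀ i, cla σ (σ i) = cla σ i := cla_inv hσ hd
  have htc : ∀ c, 4 ≤ tc σ (cla σ) c y η := fun c => ht.trans (h.sum_le_tc c)
  have hT : 4 ≤ ∑ j, ys σ y η j := (htc true).trans (h.tc_le true)
  have hal := fun i => h.al_pos hT i
  refine (men_int σ (cla σ) y η (fun i p => if i = i0.1 then ENNReal.ofReal (p.1 - p.2) else 1)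
    (fun i => by split_ifs <;> fun_prop) hal |> le_trans (le_of_eq ?_)).trans ?_
  · refine lintegral_congr fun x => lintegral_congr fun ξ => ?_
    refine if_congr Iff.rfl ?_ rfl
    congr 1
    refine Finset.prod_congr rfl fun d _ => ?_
    by_cases hdi : d = i0
    · rw [if_pos hdi, if_pos (by rw [hdi])]
    · rw [if_neg hdi, if_neg (fun h' => hdi (Subtype.ext h'))]
  · rw [if_pos h]
    have hcrude := men_crude hcl h (htc true) (Or.inl (htc false))
    refine le_trans ?_ (mul_le_mul_right hcrude _)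
    have hfac : ENNReal.ofReal (2 / ∑ j, y j) = ∏ i, (if i = i0.1 then
        ENNReal.ofReal (2 / ∑ j, y j) else 1) := by
      rw [Finset.prod_ite_eq' Finset.univ i0.1 (fun _ => ENNReal.ofReal (2 / ∑ j, y j))]
      simp
    rw [hfac, ← Finset.prod_mul_distrib]
    refine Finset.prod_le_prod' fun i _ => ?_
    by_cases hi : σ i ≠ i
    · simp only [if_pos hi]
      have hb : 0 < be σ (cla σ) y η i := h.be_pos hcl hi (htc _)
      by_cases hii : i = i0.1
      · simp only [if_pos hii]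
        have hm := two_exp_mom (hal i) hb 0 1
        simp only [pow_zero, one_mul, pow_one, Nat.factorial_zero, Nat.factorial_one, zero_add,
          Nat.cast_one] at hm
        refine hm.trans ?_
        rw [mul_left_comm]
        refine mul_le_mul_right ?_ _
        rw [← ENNReal.ofReal_mul (by positivity)]
        refine ENNReal.ofReal_le_ofReal ?_
        have hbe := be_ge h hcl hi ht
        have ht0 : 0 < ∑ j, y j := by linarith
        have : 1 / be σ (cla σ) y η i ≤ 2 / ∑ j, y j := by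
          rw [div_le_div_iff₀ hb ht0]
          linarith
        calc 1 / be σ (cla σ) y η i ^ 2 = 1 / be σ (cla σ) y η i * (1 / be σ (cla σ) y η i) := by
              rw [sq]; field_simp
          _ ≤ _ := mul_le_mul_of_nonneg_right this (by positivity)
      · simp only [if_neg hii, mul_one, one_mul]
        exact two_exp (hal i) hb
    · simp only [if_neg hi]
      have hii : i ≠ i0.1 := by
        rintro rfl
        exact hi i0.2
      simp only [if_neg hii, one_mul]
      exact le_rfl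

open Classical in
theorem unclean_one (h0 : σ d0.1 ≠ i0.1) (h1 : σ d0.1 ≠ σ i0.1) {τ₁ τ₂ : ℝ} (hτ : 4 ≤ τ₁) :
    ∫⁻ z, (if (Stab z 1 ∧ Low z 1 σ ∧ UE σ i0 d0 z) then
      (if Win τ₁ τ₂ (∑ j, zy z j) then (1 : ℝ≥0∞) else 0) else 0) ∂(P n)
    ≤ ENNReal.ofReal (Real.exp 10) * ∫⁻ y, ∫⁻ v,
        (if Win τ₁ τ₂ (∑ j, y j) then ENNReal.ofReal (2 / ∑ j, y j) else 0) *
          (ENNReal.ofReal (v d0) * ENNReal.ofReal (wt n σ.support.card 0 (∑ j, y j)
          (∑ d, v d) 0)) ∂(orth (Mov σ)) ∂(orth (Fin n)) := by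
  have hKm : Measurable fun y : Fin n → ℝ => (if Win τ₁ τ₂ (∑ j, y j) then (1 : ℝ≥0∞) else 0) :=
    Measurable.ite (measurable_win _ _ (Finset.measurable_sum _ fun i _ => measurable_pi_apply i))
      measurable_const measurable_const
  refine (unclean_bound σ i0 d0 h0 h1 _ hKm).trans ?_
  have hmc1 : (mc σ (cla σ) true).card = σ.support.card := by
    have := mc_A (σA := σ) (σB := 1) (Equiv.Perm.disjoint_one_right σ)
    rw [mul_one] at this
    rw [this]
  have hmc2 : (mc σ (cla σ) false).card = 0 := by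
    have := mc_B (σA := σ) (σB := 1) (Equiv.Perm.disjoint_one_right σ)
    rw [mul_one] at this
    rw [this]
    simp
  have hVt : ∀ v : Mov σ → ℝ, VV σ (cla σ) true v = ∑ d, v d := by
    intro v
    unfold VV cla
    refine Finset.sum_congr rfl fun d _ => ?_
    exact if_pos (decide_eq_true d.2)
  have hVf : ∀ v : Mov σ → ℝ, VV σ (cla σ) false v = 0 := by
    intro v
    unfold VV cla
    refine Finset.sum_eq_zero fun d _ => ?_
    refine if_neg ?_
    rw [decide_eq_true d.2]
    simp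
  have key : ∀ (y : Fin n → ℝ) (η : Mov σ → ℝ),
      ∫⁻ x, ∫⁻ ξ,
        (if Adm σ x y ξ η then (if Win τ₁ τ₂ (∑ j, y j) then (1 : ℝ≥0∞) else 0) *
          (ENNReal.ofReal (Real.exp 1) * ENNReal.ofReal (η d0 - y (σ d0.1))) *
          ((∏ r : Rst σ, ENNReal.ofReal (Real.exp (-ar σ (cla σ) x y ξ η r.1.1 r.1.2))) *
          ∏ d : Mov σ, (if d = i0 then ENNReal.ofReal (x d.1 - ξ d) else 1)) else 0)
          ∂(Measure.pi fun _ => u1) ∂(Measure.pi fun _ => u1)
      ≤ (if AdmY σ y η then (fun (y : Fin n → ℝ) (v : Mov σ → ℝ) =>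
        ENNReal.ofReal (Real.exp 10) *
        ((if Win τ₁ τ₂ (∑ j, y j) then ENNReal.ofReal (2 / ∑ j, y j) else 0) *
          (ENNReal.ofReal (v d0) * ENNReal.ofReal (wt n σ.support.card 0 (∑ j, y j)
          (∑ d, v d) 0)))) y (fun d => η d - y (σ d.1)) else 0) := by
    intro y η
    by_cases hY : AdmY σ y η
    · rw [if_pos hY]
      by_cases hw : Win τ₁ τ₂ (∑ j, y j)
      · simp only [if_pos hw, one_mul]
        have e1 : ∀ (x : Fin n → ℝ) (ξ : Mov σ → ℝ), (if Adm σ x y ξ η then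
            (ENNReal.ofReal (Real.exp 1) * ENNReal.ofReal (η d0 - y (σ d0.1))) *
          ((∏ r : Rst σ, ENNReal.ofReal (Real.exp (-ar σ (cla σ) x y ξ η r.1.1 r.1.2))) *
          ∏ d : Mov σ, (if d = i0 then ENNReal.ofReal (x d.1 - ξ d) else 1)) else 0)
          = (ENNReal.ofReal (Real.exp 1) * ENNReal.ofReal (η d0 - y (σ d0.1))) *
          (if Adm σ x y ξ η then
          ((∏ r : Rst σ, ENNReal.ofReal (Real.exp (-ar σ (cla σ) x y ξ η r.1.1 r.1.2))) *
          ∏ d : Mov σ, (if d = i0 then ENNReal.ofReal (x d.1 - ξ d) else 1)) else 0) := by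
          intro x ξ
          split_ifs <;> simp
        simp_rw [e1]
        have hne : ENNReal.ofReal (Real.exp 1) * ENNReal.ofReal (η d0 - y (σ d0.1)) ≠ ∞ :=
          ENNReal.mul_ne_top ENNReal.ofReal_ne_top ENNReal.ofReal_ne_top
        simp_rw [lintegral_const_mul' _ _ hne]
        refine (mul_le_mul_right (unclean_men σ i0 hY (hτ.trans hw.1)) _).trans (le_of_eq ?_)
        rw [hmc1, hmc2, hVt, hVf]
        have e9 : ENNReal.ofReal (Real.exp 10) = ENNReal.ofReal (Real.exp 1) *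
            ENNReal.ofReal (Real.exp 9) := by
          rw [← ENNReal.ofReal_mul (by positivity), ← Real.exp_add]
          norm_num
        rw [ENNReal.ofReal_mul (by positivity : (0:ℝ) ≤ Real.exp 9), e9]
        unfold inc
        ring
      · simp [if_neg hw]
    · have : ∀ (x : Fin n → ℝ) (ξ : Mov σ → ℝ), ¬ Adm σ x y ξ η := by
        intro x ξ h
        exact hY ⟨fun i => (h.1 i).2, fun d => (h.2.1 d).2, fun d => (h.2.2 d).2⟩
      simp [this]
  refine (lintegral_mono fun y => lintegral_mono fun η => key y η).trans ?_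
  refine (change_var σ (fun (y : Fin n → ℝ) (v : Mov σ → ℝ) =>
        ENNReal.ofReal (Real.exp 10) *
        ((if Win τ₁ τ₂ (∑ j, y j) then ENNReal.ofReal (2 / ∑ j, y j) else 0) *
          (ENNReal.ofReal (v d0) * ENNReal.ofReal (wt n σ.support.card 0 (∑ j, y j)
          (∑ d, v d) 0))))).trans (le_of_eq ?_)
  simp_rw [lintegral_const_mul' (ENNReal.ofReal (Real.exp 10)) _ ENNReal.ofReal_ne_top]

end

open Classical in
theorem prob_unclean (σ : Equiv.Perm (Fin n)) {τ₁ τ₂ : ℝ} (h1 : 4 ≤ τ₁) (h2 : τ₁ ≤ τ₂)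
    (hk : σ.support.card + 1 < n) :
    ∫⁻ z, (if Stab z 1 ∧ Win τ₁ τ₂ (tt z 1) ∧ Low z 1 σ ∧ ¬ Clean z 1 σ then (1 : ℝ≥0∞) else 0) ∂(P n)
      ≤ ENNReal.ofReal (Real.exp 11 * (Real.log (τ₂ / τ₁) * ((σ.support.card : ℝ) ^ 2 *
        ((n - σ.support.card - 2).factorial / (n - 1).factorial / (n - 1).factorial)))) := by
  set k := σ.support.card with hkdef
  have hkM : Fintype.card (Mov σ) = k := by
    rw [hkdef, ← Fintype.card_coe]
    exact Fintype.card_congr (Equiv.subtypeEquivRight fun i => by simp)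
  set G : (Fin n → ℝ) → (Mov σ → ℝ) → ℝ≥0∞ := fun y v =>
    (if Win τ₁ τ₂ (∑ j, y j) then ENNReal.ofReal (2 / ∑ j, y j) else 0) *
      ENNReal.ofReal (wt n k 0 (∑ j, y j) (∑ d, v d) 0) with hG
  have hsy : Measurable fun q : (Fin n → ℝ) × (Mov σ → ℝ) => ∑ j, q.1 j :=
    Finset.measurable_sum _ fun i _ => by fun_prop
  have hsv : Measurable fun q : (Fin n → ℝ) × (Mov σ → ℝ) => ∑ d, q.2 d :=
    Finset.measurable_sum _ fun i _ => by fun_prop
  have hGm : Measurable fun q : (Fin n → ℝ) × (Mov σ → ℝ) => G q.1 q.2 := by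
    refine Measurable.mul (Measurable.ite (measurable_win _ _ hsy) (by fun_prop) measurable_const) ?_
    unfold wt
    fun_prop
  have hstep : ∀ z : Conf n, (if Stab z 1 ∧ Win τ₁ τ₂ (tt z 1) ∧ Low z 1 σ ∧ ¬ Clean z 1 σ
      then (1 : ℝ≥0∞) else 0) ≤ ∑ i0 : Mov σ, ∑ d0 : Mov σ,
        (if σ d0.1 ≠ i0.1 ∧ σ d0.1 ≠ σ i0.1 then (if (Stab z 1 ∧ Low z 1 σ ∧ UE σ i0 d0 z) then
      (if Win τ₁ τ₂ (∑ j, zy z j) then (1 : ℝ≥0∞) else 0) else 0) else 0) := by
    intro z
    by_cases h : Stab z 1 ∧ Win τ₁ τ₂ (tt z 1) ∧ Low z 1 σ ∧ ¬ Clean z 1 σ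
    · obtain ⟨i0, d0, ha, hb, hu⟩ := unclean_exists σ h.2.2.2
      rw [if_pos h]
      refine le_trans ?_ (Finset.single_le_sum (fun _ _ => zero_le) (Finset.mem_univ i0))
      refine le_trans ?_ (Finset.single_le_sum (fun _ _ => zero_le) (Finset.mem_univ d0))
      have hw : Win τ₁ τ₂ (∑ j, zy z j) := by rw [← tt_one]; exact h.2.1
      rw [if_pos ⟨ha, hb⟩, if_pos ⟨h.1, h.2.2.1, hu⟩, if_pos hw]
    · rw [if_neg h]
      exact zero_le
  have hUm : ∀ i0 d0 : Mov σ, MeasurableSet {z : Conf n | UE σ i0 d0 z} := fun i0 d0 =>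
    ms_and (meas_fst_lt _ _) (meas_snd_lt _ _)
  have hWm : MeasurableSet {z : Conf n | Win τ₁ τ₂ (∑ j, zy z j)} := by
    simp_rw [← tt_one]
    exact meas_Win 1 _ _
  have hone : ∀ i0 d0 : Mov σ, ∫⁻ z, (if σ d0.1 ≠ i0.1 ∧ σ d0.1 ≠ σ i0.1 then
      (if (Stab z 1 ∧ Low z 1 σ ∧ UE σ i0 d0 z) then
      (if Win τ₁ τ₂ (∑ j, zy z j) then (1 : ℝ≥0∞) else 0) else 0) else 0) ∂(P n)
      ≤ ENNReal.ofReal (Real.exp 10) * ∫⁻ y, ∫⁻ v, G y v * ENNReal.ofReal (v d0)
        ∂(orth (Mov σ)) ∂(orth (Fin n)) := by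
    intro i0 d0
    by_cases h : σ d0.1 ≠ i0.1 ∧ σ d0.1 ≠ σ i0.1
    · simp only [if_pos h]
      refine (unclean_one σ i0 d0 h.1 h.2 (τ₂ := τ₂) h1).trans (le_of_eq ?_)
      congr 1
      refine lintegral_congr fun y => lintegral_congr fun v => ?_
      rw [hG]
      ring
    · simp only [if_neg h, lintegral_zero]
      exact zero_le
  have hGvm : ∀ d0 : Mov σ, Measurable fun q : (Fin n → ℝ) × (Mov σ → ℝ) =>
      G q.1 q.2 * ENNReal.ofReal (q.2 d0) := fun d0 => hGm.mul (by fun_prop)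
  calc _ ≤ ∫⁻ z, ∑ i0 : Mov σ, ∑ d0 : Mov σ,
        (if σ d0.1 ≠ i0.1 ∧ σ d0.1 ≠ σ i0.1 then (if (Stab z 1 ∧ Low z 1 σ ∧ UE σ i0 d0 z) then
      (if Win τ₁ τ₂ (∑ j, zy z j) then (1 : ℝ≥0∞) else 0) else 0) else 0) ∂(P n) :=
        lintegral_mono hstep
    _ = ∑ i0 : Mov σ, ∑ d0 : Mov σ, ∫⁻ z,
        (if σ d0.1 ≠ i0.1 ∧ σ d0.1 ≠ σ i0.1 then (if (Stab z 1 ∧ Low z 1 σ ∧ UE σ i0 d0 z) then
      (if Win τ₁ τ₂ (∑ j, zy z j) then (1 : ℝ≥0∞) else 0) else 0) else 0) ∂(P n) := by
        have hmm : ∀ i0 d0 : Mov σ, Measurable fun z : Conf n =>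
          (if σ d0.1 ≠ i0.1 ∧ σ d0.1 ≠ σ i0.1 then (if (Stab z 1 ∧ Low z 1 σ ∧ UE σ i0 d0 z) then
          (if Win τ₁ τ₂ (∑ j, zy z j) then (1 : ℝ≥0∞) else 0) else 0) else 0) := by
          intro i0 d0
          refine Measurable.ite (MeasurableSet.const _) (Measurable.ite
            (ms_and (meas_Stab 1) (ms_and (meas_Low 1 σ) (hUm i0 d0)))
            (Measurable.ite hWm measurable_const measurable_const) measurable_const)
            measurable_const
        rw [lintegral_finsetSum _ fun i0 _ => Finset.measurable_sum _ fun d0 _ => hmm i0 d0]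
        refine Finset.sum_congr rfl fun i0 _ => ?_
        rw [lintegral_finsetSum _ fun d0 _ => hmm i0 d0]
    _ ≤ ∑ i0 : Mov σ, ∑ d0 : Mov σ, ENNReal.ofReal (Real.exp 10) *
        ∫⁻ y, ∫⁻ v, G y v * ENNReal.ofReal (v d0) ∂(orth (Mov σ)) ∂(orth (Fin n)) :=
        Finset.sum_le_sum fun i0 _ => Finset.sum_le_sum fun d0 _ => hone i0 d0
    _ = (k : ℝ≥0∞) * (ENNReal.ofReal (Real.exp 10) *
        ∫⁻ y, ∫⁻ v, G y v * ENNReal.ofReal (∑ d, v d) ∂(orth (Mov σ)) ∂(orth (Fin n))) := by
        rw [Finset.sum_const, Finset.card_univ, hkM, nsmul_eq_mul, ← Finset.mul_sum,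
          ← lintegral_finsetSum]
        · congr 3
          funext y
          rw [← lintegral_finsetSum]
          · refine lintegral_congr_ae ?_
            filter_upwards [ae_orth (Mov σ)] with v hv
            rw [← Finset.mul_sum, ENNReal.ofReal_sum_of_nonneg fun d _ => (hv d).le]
          · intro d0 _
            exact (hGvm d0).comp (measurable_const.prodMk measurable_id)
        · intro d0 _
          exact (hGvm d0).lintegral_prod_right'
    _ = (k : ℝ≥0∞) * (ENNReal.ofReal (Real.exp 10) *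
        (ENNReal.ofReal (2 * k * ((n - k - 2).factorial / (n - 1).factorial)) *
          ENNReal.ofReal (Real.log (τ₂ / τ₁) / (n - 1).factorial))) := by
        congr 2
        have hin : ∀ y : Fin n → ℝ, ∫⁻ v, G y v * ENNReal.ofReal (∑ d, v d) ∂(orth (Mov σ))
            = (fun t : ℝ => ENNReal.ofReal (2 * k * ((n - k - 2).factorial / (n - 1).factorial)) *
              (if τ₁ ≤ t ∧ t ≤ τ₂ then ENNReal.ofReal ((1 / t) ^ n) else 0)) (∑ j, y j) := by
          intro y
          set t := ∑ j, y j with ht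
          by_cases hw : Win τ₁ τ₂ t
          · have hw' : τ₁ ≤ t ∧ t ≤ τ₂ := hw
            have ht0 : 0 < t := by linarith [hw'.1]
            have e1 : ∀ v : Mov σ → ℝ, G y v * ENNReal.ofReal (∑ d, v d)
                = ENNReal.ofReal (2 / t * (1 / t) ^ k) *
                  (ENNReal.ofReal ((1 / (t + ∑ d, v d)) ^ n) * ENNReal.ofReal (∑ d, v d)) := by
              intro v
              simp only [hG, ← ht, if_pos hw]
              unfold wt
              simp only [add_zero, pow_zero, mul_one]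
              rw [mul_comm ((1 / (t + ∑ d, v d)) ^ n), ENNReal.ofReal_mul (by positivity),
                ENNReal.ofReal_mul (by positivity)]
              ring
            simp_rw [e1]
            rw [lintegral_const_mul' _ _ ENNReal.ofReal_ne_top]
            rw [orth_sum (Mov σ) (f := fun a => ENNReal.ofReal ((1 / (t + a)) ^ n) *
              ENNReal.ofReal a) (by fun_prop), hkM, gm_mul k (by fun_prop), gm_pow hk ht0]
            simp only [if_pos hw']
            rw [← ENNReal.ofReal_mul (by positivity), ← ENNReal.ofReal_mul (by positivity),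
              ← ENNReal.ofReal_mul (by positivity)]
            congr 1
            rw [show n - (k + 1) - 1 = n - k - 2 by omega]
            have h8 : (1 / t) ^ n = (1 / t) * ((1 / t) ^ k * (1 / t) ^ (n - (k + 1))) := by
              rw [← pow_add, ← pow_succ']
              congr 1
              omega
            rw [h8]
            ring
          · have hw' : ¬ (τ₁ ≤ t ∧ t ≤ τ₂) := hw
            have e1 : ∀ v : Mov σ → ℝ, G y v * ENNReal.ofReal (∑ d, v d) = 0 := by
              intro v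
              simp only [hG, ← ht, if_neg hw, zero_mul]
            simp_rw [e1]
            simp [hw']
        simp_rw [hin]
        have hmt : Measurable fun t : ℝ =>
            (if τ₁ ≤ t ∧ t ≤ τ₂ then ENNReal.ofReal ((1 / t) ^ n) else 0) := by
          refine Measurable.ite ?_ (by fun_prop) measurable_const
          exact measurable_win τ₁ τ₂ (f := fun a => a) measurable_id
        rw [orth_sum (Fin n) (f := fun t : ℝ =>
          ENNReal.ofReal (2 * k * ((n - k - 2).factorial / (n - 1).factorial)) *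
              (if τ₁ ≤ t ∧ t ≤ τ₂ then ENNReal.ofReal ((1 / t) ^ n) else 0)) (hmt.const_mul _),
          Fintype.card_fin, lintegral_const_mul _ hmt, gm_window (by omega) (by linarith) h2]
    _ ≤ _ := by
        have hlog := log_ratio_nonneg h1 h2
        rw [← ENNReal.ofReal_natCast, ← ENNReal.ofReal_mul (by positivity),
          ← ENNReal.ofReal_mul (by positivity), ← ENNReal.ofReal_mul (by positivity)]
        refine ENNReal.ofReal_le_ofReal ?_
        have he : 2 * Real.exp 10 ≤ Real.exp 11 := by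
          rw [show (11:ℝ) = 1 + 10 by norm_num, Real.exp_add]
          have := Real.add_one_le_exp 1
          have h10 : 0 < Real.exp 10 := by positivity
          nlinarith
        have hX : 0 ≤ Real.log (τ₂ / τ₁) * ((k : ℝ) ^ 2 *
          ((n - k - 2).factorial / (n - 1).factorial / (n - 1).factorial)) := by positivity
        calc _ = (2 * Real.exp 10) * (Real.log (τ₂ / τ₁) * ((k : ℝ) ^ 2 *
          ((n - k - 2).factorial / (n - 1).factorial / (n - 1).factorial))) := by ring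
          _ ≤ _ := mul_le_mul_of_nonneg_right he hX

open Classical in
/-- S7: unclean lower matchings -/
theorem exp_unclean (n : ℕ) (τ₁ τ₂ : ℝ) (h1 : 4 ≤ τ₁) (h2 : τ₁ ≤ τ₂) (k : ℕ) (hk : k + 1 < n) :
    ∫⁻ z, ∑ μ : Equiv.Perm (Fin n), ∑ τ : Equiv.Perm (Fin n),
      (if Stab z μ ∧ Win τ₁ τ₂ (tt z μ) ∧ Low z μ τ ∧ ¬ Clean z μ τ ∧ τ.support.card = k
        then (1 : ℝ≥0∞) else 0) ∂(P n) ≤
    ENNReal.ofReal (Real.exp 11 * Real.log (τ₂ / τ₁) * (n : ℝ) ^ 2 * (k : ℝ) ^ 2 /
      ((n - k) * (n - k - 1))) := by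
  have hlog := log_ratio_nonneg h1 h2
  have hn : 1 ≤ n := by omega
  have hnk : (0:ℝ) < n - k := by
    have : (k:ℝ) < n := by exact_mod_cast (by omega : k < n)
    linarith
  have hnk1 : (0:ℝ) < n - k - 1 := by
    have : (k:ℝ) + 1 < n := by exact_mod_cast hk
    linarith
  refine (sum_rl_one (fun z μ τ => Stab z μ ∧ Win τ₁ τ₂ (tt z μ) ∧ Low z μ τ ∧ ¬ Clean z μ τ ∧
    τ.support.card = k) ?_ ?_
    (fun τ => if τ.support.card = k then ENNReal.ofReal (Real.exp 11 * (Real.log (τ₂ / τ₁) *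
        ((k : ℝ) ^ 2 * ((n - k - 2).factorial / (n - 1).factorial / (n - 1).factorial))))
        else 0) ?_).trans ?_
  · intro τ
    exact ms_and (meas_Stab 1) (ms_and (meas_Win 1 _ _) (ms_and (meas_Low 1 τ)
      (ms_and (ms_not (meas_Clean 1 τ)) (ms_const _))))
  · intro z μ τ
    rw [stab_rl, tt_rl, low_rl, clean_rl, mul_one]
  · intro τ
    by_cases hτ : τ.support.card = k
    · rw [if_pos hτ]
      have := prob_unclean τ h1 h2 (by omega)
      rw [hτ] at this
      refine le_trans (le_of_eq ?_) this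
      refine lintegral_congr fun z => ?_
      refine if_congr ?_ rfl rfl
      tauto
    · rw [if_neg hτ]
      have e1 : ∀ z : Conf n, (if Stab z 1 ∧ Win τ₁ τ₂ (tt z 1) ∧ Low z 1 τ ∧ ¬ Clean z 1 τ ∧
          τ.support.card = k then (1 : ℝ≥0∞) else 0) = 0 := by
        intro z
        rw [if_neg]
        tauto
      simp_rw [e1]
      simp
  · rw [← Finset.sum_filter, Finset.sum_const, nsmul_eq_mul, ← ENNReal.ofReal_natCast,
      ← ENNReal.ofReal_natCast, ← ENNReal.ofReal_mul (by positivity),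
      ← ENNReal.ofReal_mul (by positivity)]
    refine ENNReal.ofReal_le_ofReal ?_
    have hc := card_support_le (n := n) k (by omega)
    set N := (Finset.univ.filter fun σ : Equiv.Perm (Fin n) => σ.support.card = k).card with hNdef
    have hF := fact_ratio n hn
    have hf0 : (0:ℝ) < (n - 1).factorial := by positivity
    have hF' : (n.factorial : ℝ) = n * (n - 1).factorial := by
      rw [← hF]; field_simp
    have h12 : ((n - k).factorial : ℝ) = (n - k) * ((n - k - 1) * (n - k - 2).factorial) := by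
      have a1 : (n - k).factorial = (n - k) * (n - k - 1).factorial :=
        (Nat.mul_factorial_pred (by omega)).symm
      have a2 : (n - k - 1).factorial = (n - k - 1) * (n - k - 2).factorial := by
        have := Nat.mul_factorial_pred (by omega : n - k - 1 ≠ 0)
        rw [show n - k - 1 - 1 = n - k - 2 by omega] at this
        exact this.symm
      have c1 : ((n - k : ℕ) : ℝ) = n - k := Nat.cast_sub (by omega)
      have c2 : ((n - k - 1 : ℕ) : ℝ) = n - k - 1 := by
        rw [Nat.cast_sub (by omega), c1]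
        simp
      rw [a1, a2]
      push_cast [c1, c2]
      ring
    have hc' : (N : ℝ) * ((n - k).factorial : ℝ) ≤ (n.factorial : ℝ) := by exact_mod_cast hc
    have hN' : (N : ℝ) ≤ (n.factorial : ℝ) / ((n - k) * ((n - k - 1) * (n - k - 2).factorial)) := by
      rw [le_div_iff₀ (by positivity), ← h12]
      exact hc'
    calc _ ≤ (n.factorial : ℝ) * ((n.factorial : ℝ) /
          ((n - k) * ((n - k - 1) * (n - k - 2).factorial)) *
          (Real.exp 11 * (Real.log (τ₂ / τ₁) * ((k : ℝ) ^ 2 *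
        (((n - k - 2).factorial : ℝ) / (n - 1).factorial / (n - 1).factorial))))) := by
          gcongr
      _ = _ := by
          rw [hF']
          field_simp

end Pool.Agent.SM
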